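import Pool.Agent.H8.MM

set_option autoImplicit false
set_option backward.isDefEq.respectTransparency.types true
set_option linter.unusedSectionVars false

/-! Assembly: finite generation of fixed subgroups. -/

noncomputable section

namespace Pool.H8

open Finset

variable {p : ℕ} [Fact p.Prime]

theorem exists_complete_of_bound {H : Type*} [Group H] [TopologicalSpace H] (N : ℕ)
    (hb : ∀ (r : ℕ) (h : Fin r → H) (χ : Fin r → H → ZMod p), DualFam p h χ → r ≤ N) :
    ∃ (m : ℕ) (h : Fin m → H) (χ : Fin m → H → ZMod p), DualFam p h χ ∧ Complete p h := by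
  have key : ∀ (k r : ℕ) (h : Fin r → H) (χ : Fin r → H → ZMod p), DualFam p h χ → N - r = k →
      ∃ (m : ℕ) (h : Fin m → H) (χ : Fin m → H → ZMod p), DualFam p h χ ∧ Complete p h := by
    intro k
    induction k with
    | zero =>
      intro r h χ hd hk
      refine ⟨r, h, χ, hd, ?_⟩
      intro χ' hχ' h0
      by_contra hne
      obtain ⟨h', χ'', hd', -⟩ := hd.extend χ' hχ' h0 hne
      have := hb _ _ _ hd'
      omega
    | succ k ih =>
      intro r h χ hd hk
      by_cases hc : Complete p h
      · exact ⟨r, h, χ, hd, hc⟩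
      · unfold Complete at hc
        push Not at hc
        obtain ⟨χ', hχ', h0, hne⟩ := hc
        obtain ⟨h', χ'', hd', -⟩ := hd.extend χ' hχ' h0 hne
        exact ih (r + 1) h' χ'' hd' (by omega)
  exact key _ 0 (fun i => i.elim0) (fun i => i.elim0) ⟨fun i => i.elim0, fun i => i.elim0⟩ rfl

theorem exists_complete_of_finite {H : Type*} [Group H] [TopologicalSpace H]
    (hfin : {χ : H → ZMod p | IsChar p χ}.Finite) :
    ∃ (m : ℕ) (h : Fin m → H) (χ : Fin m → H → ZMod p), DualFam p h χ ∧ Complete p h :=
  exists_complete_of_bound _ fun _ _ _ hd => hd.card_le hfin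

theorem chars_transfer {K' K : Type*} [Group K'] [TopologicalSpace K'] [Group K]
    [TopologicalSpace K] (f : K' →* K) (hf : Continuous f) (hs : Function.Surjective f)
    (hfin : {χ : K' → ZMod p | IsChar p χ}.Finite) : {χ : K → ZMod p | IsChar p χ}.Finite := by
  have : Finite {χ : K' → ZMod p | IsChar p χ} := hfin.to_subtype
  let g : {χ : K → ZMod p | IsChar p χ} → {χ : K' → ZMod p | IsChar p χ} := fun χ =>
    ⟨fun a => χ.1 (f a), ⟨(show IsChar p χ.1 from χ.2).lc.comp_continuous hf, fun a b => by
      rw [map_mul, (show IsChar p χ.1 from χ.2).add]⟩⟩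
  have hg : Function.Injective g := by
    intro χ χ' h
    apply Subtype.ext
    funext a
    obtain ⟨b, rfl⟩ := hs a
    exact congrFun (congrArg Subtype.val h) b
  exact Set.finite_coe_iff.1 (Finite.of_injective g hg)

section

variable {F : Type} [Group F]

/-- the fixed subgroup -/
def fixS (α : MulAut F) : Subgroup F where
  carrier := {y | α y = y}
  one_mem' := map_one α
  mul_mem' := fun {a b} ha hb => by
    change α (a * b) = a * b
    rw [map_mul, show α a = a from ha, show α b = b from hb]
  inv_mem' := fun {a} ha => by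
    change α a⁻¹ = a⁻¹
    rw [map_inv, show α a = a from ha]

theorem mem_fixS {α : MulAut F} {y : F} : y ∈ fixS α ↔ α y = y := Iff.rfl

theorem fixS_closed [TopologicalSpace F] [T2Space F] {α : MulAut F} (hα : Continuous α) :
    IsClosed (fixS α : Set F) := isClosed_eq hα continuous_id

/-- restriction of an automorphism to the fixed subgroup of a commuting one -/
def resA (α β : MulAut F) (h : α * β = β * α) : MulAut (fixS β) where
  toFun y := ⟨α y, by
    have h1 := DFunLike.congr_fun h (y : F)
    change α (β y) = β (α y) at h1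
    rw [mem_fixS, ← h1, mem_fixS.1 y.2]⟩
  invFun y := ⟨α⁻¹ y, by
    have h1 : α⁻¹ * β = β * α⁻¹ := (Commute.inv_left (show Commute α β from h)).eq
    have h2 := DFunLike.congr_fun h1 (y : F)
    change α⁻¹ (β y) = β (α⁻¹ y) at h2
    rw [mem_fixS, ← h2, mem_fixS.1 y.2]⟩
  left_inv y := by
    apply Subtype.ext
    change α⁻¹ (α y) = y
    exact MulAut.inv_apply_self F α y
  right_inv y := by
    apply Subtype.ext
    change α (α⁻¹ y) = y
    exact MulAut.apply_inv_self F α y
  map_mul' a b := by
    apply Subtype.ext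
    exact map_mul α (a : F) (b : F)

theorem resA_apply (α β : MulAut F) (h : α * β = β * α) (y : fixS β) :
    ((resA α β h y : fixS β) : F) = α y := rfl

theorem resA_pow (α β : MulAut F) (h : α * β = β * α) (k : ℕ) (y : fixS β) :
    (((resA α β h ^ k) y : fixS β) : F) = (α ^ k) (y : F) := by
  induction k generalizing y with
  | zero => rfl
  | succ k ih =>
    rw [pow_succ, pow_succ]
    change (((resA α β h ^ k) (resA α β h y) : fixS β) : F) = (α ^ k) (α (y : F))
    rw [ih]; rfl

theorem fix_pow {α : MulAut F} {y : F} (h : α y = y) (k : ℕ) : (α ^ k) y = y := by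
  induction k with
  | zero => rfl
  | succ k ih =>
    rw [pow_succ]
    change (α ^ k) (α y) = y
    rw [h, ih]

theorem pow_cont [TopologicalSpace F] {α : MulAut F} (hα : Continuous α) (k : ℕ) :
    Continuous (α ^ k) := by
  induction k with
  | zero => exact continuous_id
  | succ k ih =>
    rw [pow_succ]
    exact ih.comp hα

end

/-- the fixed subgroup of an automorphism of p-power order has finitely many characters -/
theorem iter (a : ℕ) : ∀ (F : Type) [Group F] [TopologicalSpace F] [IsTopologicalGroup F]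
    [CompactSpace F] [TotallyDisconnectedSpace F] (n : ℕ) (x : Fin n → F), IsFreeProP p x →
    ∀ α : MulAut F, Continuous α → α ^ (p ^ a) = 1 →
    {χ : fixS α → ZMod p | IsChar p χ}.Finite := by
  induction a with
  | zero =>
    intro F _ _ _ _ _ n x hF α _ hα
    apply finite_chars_open hF
    rw [pow_zero, pow_one] at hα
    have : (fixS α : Set F) = Set.univ := by
      ext y
      simp only [SetLike.mem_coe, mem_fixS, Set.mem_univ, iff_true]
      rw [hα]; rfl
    rw [this]
    exact isOpen_univ
  | succ a ih =>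
    intro F _ _ _ _ _ n x hF α hαc hα
    set β := α ^ (p ^ a) with hβ
    have hβp : β ^ p = 1 := by rw [hβ, ← pow_mul, ← pow_succ]; exact hα
    have hβc : Continuous β := pow_cont hαc _
    have hcomm : α * β = β * α := by rw [hβ]; exact ((Commute.refl α).pow_right _).eq
    obtain ⟨m, y, χ, hd, hc⟩ := exists_complete_of_finite
      (finite_chars_fix hF hβp hβc (fixS β) fun _ => mem_fixS)
    have hcl := fixS_closed hβc
    have hfree := free_of_complete hF (fixS β) hcl y χ hd hc
    have hcomp : CompactSpace (fixS β) := isCompact_iff_compactSpace.1 hcl.isCompact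
    have h1 := ih (fixS β) m y hfree (resA α β hcomm)
      (Continuous.subtype_mk (hαc.comp continuous_subtype_val) _) (by
        ext z
        rw [resA_pow, ← hβ]
        exact z.2)
    let f : fixS (resA α β hcomm) →* fixS α :=
      { toFun := fun z => ⟨z.1.1, by
          have := z.2
          rw [mem_fixS] at this ⊢
          exact congrArg Subtype.val this⟩
        map_one' := rfl
        map_mul' := fun _ _ => rfl }
    refine chars_transfer f ?_ ?_ h1
    · exact Continuous.subtype_mk (continuous_subtype_val.comp continuous_subtype_val) _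
    · intro z
      exact ⟨⟨⟨z.1, by rw [mem_fixS, hβ]; exact fix_pow z.2 _⟩, Subtype.ext z.2⟩, rfl⟩

/-- a closed subgroup with a complete family is topologically finitely generated -/
theorem fg_of_complete {F : Type} [Group F] [TopologicalSpace F] [IsTopologicalGroup F]
    [CompactSpace F] [TotallyDisconnectedSpace F] (hF : IsProP p F) (K : Subgroup F)
    (hK : IsClosed (K : Set F)) {m : ℕ} (y : Fin m → K) (hc : Complete p y) :
    ∃ S : Finset F, closure ((Subgroup.closure (S : Set F) : Subgroup F) : Set F) = K := by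
  classical
  have hKc : CompactSpace K := isCompact_iff_compactSpace.1 hK.isCompact
  refine ⟨Finset.univ.image fun i => (y i : F), ?_⟩
  set T : Subgroup F := Subgroup.closure ((Finset.univ.image fun i => (y i : F) : Finset F) : Set F)
    with hT
  have hTK : T ≤ K := by
    rw [hT, Subgroup.closure_le]
    intro z hz
    simp only [Finset.coe_image, Finset.coe_univ, Set.image_univ, Set.mem_range] at hz
    obtain ⟨i, rfl⟩ := hz
    exact (y i).2
  apply Set.Subset.antisymm
  · exact closure_minimal hTK hK
  · intro z hz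
    by_contra hcon
    set L : Subgroup F := T.topologicalClosure with hL
    have hzL : z ∉ L := hcon
    let L' : Subgroup K := L.subgroupOf K
    have hO : IsOpen {u : K | (z : F) * u ∉ L} := by
      have hcl : IsClosed (L : Set F) := Subgroup.isClosed_topologicalClosure T
      exact hcl.isOpen_compl.preimage (continuous_const.mul continuous_subtype_val)
    obtain ⟨N, hNn, hNo, hN⟩ := exists_openNormal hO (by simpa using hzL)
    have hWo : IsOpen ((L' ⊔ N : Subgroup K) : Set K) := Subgroup.isOpen_mono le_sup_right hNo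
    have hW : (L' ⊔ N) ≠ ⊤ := by
      intro h
      have h1 : (⟨z, hz⟩ : K) ∈ L' ⊔ N := by rw [h]; trivial
      obtain ⟨a, ha, b, hb, hab⟩ := Subgroup.mem_sup_of_normal_right.1 h1
      apply hN (N.inv_mem hb)
      have h2 : (z : F) * ((b⁻¹ : K) : F) = a := by
        have h3 : z = (a : F) * b := (congrArg Subtype.val hab).symm
        rw [h3, Subgroup.coe_inv, mul_inv_cancel_right]
      rw [h2]
      exact ha
    obtain ⟨χ, h1, h2, h3⟩ := exists_char (isProP_closed hF K hK) _ hWo hW
    apply h3
    apply hc χ h1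
    intro j
    apply h2
    apply (le_sup_left : L' ≤ L' ⊔ N)
    change (y j : F) ∈ L
    apply Subgroup.le_topologicalClosure
    apply Subgroup.subset_closure
    simp

theorem mg_single {F : Type} [Group F] [TopologicalSpace F] [IsTopologicalGroup F]
    [CompactSpace F] [TotallyDisconnectedSpace F] {n : ℕ} {x : Fin n → F} (hF : IsFreeProP p x)
    (k j : Fin n) : mg hF [k] (x j) = if k = j then 1 else 0 := by
  have h := mg_cons_mul hF k j [] 1
  rw [one_mul, mg_cons_one, zero_add, mg_nil] at h
  rw [h]
  by_cases hkj : k = j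
  · rw [if_pos hkj, if_pos hkj.symm]
  · rw [if_neg hkj, if_neg (Ne.symm hkj)]

/-- fixed subgroups of continuous actions of the p-adic integers -/
theorem fg_fixed {F : Type} [Group F] [TopologicalSpace F] [IsTopologicalGroup F]
    [CompactSpace F] [T2Space F] [TotallyDisconnectedSpace F] {n : ℕ} {x : Fin n → F}
    (hF : IsFreeProP p x) (φ : Multiplicative ℤ_[p] →* MulAut F)
    (hφ : Continuous (fun q : ℤ_[p] × F => φ (Multiplicative.ofAdd q.1) q.2)) :
    ∃ S : Finset F, closure ((Subgroup.closure (S : Set F) : Subgroup F) : Set F) =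
      {y : F | ∀ a : Multiplicative ℤ_[p], φ a y = y} := by
  classical
  have hφ1 : ∀ t : ℤ_[p], Continuous (φ (Multiplicative.ofAdd t)) := fun t =>
    hφ.comp (continuous_const.prodMk continuous_id)
  have hφ2 : ∀ y : F, Continuous (fun t : ℤ_[p] => φ (Multiplicative.ofAdd t) y) := fun y =>
    hφ.comp (continuous_id.prodMk continuous_const)
  have hφ0 : φ (Multiplicative.ofAdd (0 : ℤ_[p])) = 1 := by
    rw [ofAdd_zero, map_one]
  have hφadd : ∀ s t : ℤ_[p], φ (Multiplicative.ofAdd (s + t)) =
      φ (Multiplicative.ofAdd s) * φ (Multiplicative.ofAdd t) := by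
    intro s t
    rw [ofAdd_add, map_mul]
  have hφnat : ∀ k : ℕ, φ (Multiplicative.ofAdd (k : ℤ_[p])) =
      φ (Multiplicative.ofAdd (1 : ℤ_[p])) ^ k := by
    intro k
    induction k with
    | zero => rw [Nat.cast_zero, hφ0, pow_zero]
    | succ k ih => rw [Nat.cast_succ, hφadd, ih, pow_succ]
  set α : MulAut F := φ (Multiplicative.ofAdd (1 : ℤ_[p])) with hα
  have hαc : Continuous α := hφ1 1
  -- the common fixed points
  have hfix : {y : F | ∀ a : Multiplicative ℤ_[p], φ a y = y} = (fixS α : Set F) := by
    ext y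
    constructor
    · intro h
      exact h _
    · intro h
      have hy : α y = y := h
      have h1 : IsClosed {t : ℤ_[p] | φ (Multiplicative.ofAdd t) y = y} :=
        isClosed_eq (hφ2 y) continuous_const
      have h2 : ∀ t : ℤ_[p], t ∈ {t : ℤ_[p] | φ (Multiplicative.ofAdd t) y = y} := by
        intro t
        have h3 : Set.range (Nat.cast : ℕ → ℤ_[p]) ⊆
            {t : ℤ_[p] | φ (Multiplicative.ofAdd t) y = y} := by
          rintro _ ⟨k, rfl⟩
          change φ (Multiplicative.ofAdd (k : ℤ_[p])) y = y
          rw [hφnat]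
          exact fix_pow hy k
        have h4 := closure_minimal h3 h1
        rw [(PadicInt.denseRange_natCast (p := p)).closure_range] at h4
        exact h4 (Set.mem_univ t)
      intro a
      exact h2 (Multiplicative.toAdd a)
  -- a power close to the identity
  have hclose : ∃ a : ℕ, (∀ k j, (p : ℤ_[p]) ^ 2 ∣
      mg hF [k] (φ (Multiplicative.ofAdd ((p ^ a : ℕ) : ℤ_[p])) (x j)) - if k = j then 1 else 0) ∧
      (∀ k j, (p : ℤ_[p]) ^ 2 ∣
      mg hF [k] (φ (Multiplicative.ofAdd (-((p ^ a : ℕ) : ℤ_[p]))) (x j)) -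
        if k = j then 1 else 0) := by
    have h1 : ∀ k j, ∀ᶠ t in nhds (0 : ℤ_[p]), (p : ℤ_[p]) ^ 2 ∣
        mg hF [k] (φ (Multiplicative.ofAdd t) (x j)) - if k = j then 1 else 0 := by
      intro k j
      have h2 : IsLocallyConstant (fun t : ℤ_[p] => PadicInt.toZModPow 2
          (mg hF [k] (φ (Multiplicative.ofAdd t) (x j)))) :=
        lc_of_cont ((mg hF [k]).continuous.comp (hφ2 (x j))) 2
      have h3 : IsOpen {t : ℤ_[p] | PadicInt.toZModPow 2
          (mg hF [k] (φ (Multiplicative.ofAdd t) (x j))) = PadicInt.toZModPow 2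
          (mg hF [k] (φ (Multiplicative.ofAdd (0 : ℤ_[p])) (x j)))} := h2.isOpen_fiber _
      have h4 := h3.mem_nhds (show (0 : ℤ_[p]) ∈ _ from rfl)
      filter_upwards [h4] with t ht
      have h5 : PadicInt.toZModPow 2 (mg hF [k] (φ (Multiplicative.ofAdd t) (x j))) =
        PadicInt.toZModPow 2 (mg hF [k] (φ (Multiplicative.ofAdd (0 : ℤ_[p])) (x j))) := ht
      rw [toZModPow_eq_iff, hφ0] at h5
      have h6 : (1 : MulAut F) (x j) = x j := rfl
      rw [h6, mg_single] at h5
      exact h5
    have h2 : ∀ᶠ t in nhds (0 : ℤ_[p]), ∀ k j, (p : ℤ_[p]) ^ 2 ∣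
        mg hF [k] (φ (Multiplicative.ofAdd t) (x j)) - if k = j then 1 else 0 :=
      Filter.eventually_all.2 fun k => Filter.eventually_all.2 fun j => h1 k j
    have h3 : Filter.Tendsto (fun a : ℕ => ((p ^ a : ℕ) : ℤ_[p])) Filter.atTop (nhds 0) := by
      have h4 : ‖(p : ℤ_[p])‖ < 1 := by
        rw [PadicInt.norm_p]
        have hp1 : (1 : ℝ) < p := by exact_mod_cast (Fact.out : p.Prime).one_lt
        exact inv_lt_one_of_one_lt₀ hp1
      have h5 := tendsto_pow_atTop_nhds_zero_of_norm_lt_one h4
      simpa using h5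
    have h4 : Filter.Tendsto (fun a : ℕ => -((p ^ a : ℕ) : ℤ_[p])) Filter.atTop (nhds 0) := by
      simpa using h3.neg
    obtain ⟨a, ha1, ha2⟩ := ((h3.eventually h2).and (h4.eventually h2)).exists
    exact ⟨a, ha1, ha2⟩
  obtain ⟨a, ha1, ha2⟩ := hclose
  set β : MulAut F := φ (Multiplicative.ofAdd ((p ^ a : ℕ) : ℤ_[p])) with hβ
  set γ : MulAut F := φ (Multiplicative.ofAdd (-((p ^ a : ℕ) : ℤ_[p]))) with hγ
  have hβα : β = α ^ (p ^ a) := hφnat _
  have hβc : Continuous β := hφ1 _
  have hγc : Continuous γ := hφ1 _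
  have hβγ : β * γ = 1 := by rw [hβ, hγ, ← hφadd, add_neg_cancel, hφ0]
  have hγβ : γ * β = 1 := by rw [hβ, hγ, ← hφadd, neg_add_cancel, hφ0]
  have hcl := fixS_closed hβc
  have hbound : ∀ (r : ℕ) (h : Fin r → fixS β) (χ : Fin r → fixS β → ZMod p),
      DualFam p h χ → r ≤ n := by
    intro r h χ hd
    refine M_bound hF β.toMonoidHom γ.toMonoidHom hβc hγc ?_ ?_ ha1 ha2 (fixS β)
      (fun y => mem_fixS) h χ hd
    · ext z
      exact DFunLike.congr_fun hβγ z
    · ext z
      exact DFunLike.congr_fun hγβ z
  obtain ⟨m, y, χ, hd, hc⟩ := exists_complete_of_bound n hbound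
  have hfree := free_of_complete hF (fixS β) hcl y χ hd hc
  have hcomp : CompactSpace (fixS β) := isCompact_iff_compactSpace.1 hcl.isCompact
  have hcomm : α * β = β * α := by rw [hβα]; exact ((Commute.refl α).pow_right _).eq
  have h1 := iter a (fixS β) m y hfree (resA α β hcomm)
    (Continuous.subtype_mk (hαc.comp continuous_subtype_val) _) (by
      ext z
      rw [resA_pow, ← hβα]
      exact z.2)
  let f : fixS (resA α β hcomm) →* fixS α :=
    { toFun := fun z => ⟨z.1.1, by
        have := z.2
        rw [mem_fixS] at this ⊢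
        exact congrArg Subtype.val this⟩
      map_one' := rfl
      map_mul' := fun _ _ => rfl }
  have h2 : {χ : fixS α → ZMod p | IsChar p χ}.Finite := by
    refine chars_transfer f ?_ ?_ h1
    · exact Continuous.subtype_mk (continuous_subtype_val.comp continuous_subtype_val) _
    · intro z
      exact ⟨⟨⟨z.1, by rw [mem_fixS, hβα]; exact fix_pow z.2 _⟩, Subtype.ext z.2⟩, rfl⟩
  obtain ⟨m', y', χ', hd', hc'⟩ := exists_complete_of_finite h2
  obtain ⟨S, hS⟩ := fg_of_complete hF.isProP (fixS α) (fixS_closed hαc) y' hc'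
  exact ⟨S, by rw [hS, hfix]⟩

end Pool.H8
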