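import Pool.Agent.H8.Proj

set_option autoImplicit false
set_option backward.isDefEq.respectTransparency.types true
set_option linter.unusedSectionVars false

/-! Characters of pro-p groups. -/

namespace Pool.H8

/-- finite p-groups acting on elementary abelian groups -/
theorem fix_lemma {p : ℕ} [Fact p.Prime] {G : Type*} [Group G] (hG : IsPGroup p G)
    {M : Type*} [AddCommGroup M] [Finite M] (hM : ∀ m : M, p • m = 0)
    (act : G →* AddMonoid.End M) (K : AddSubgroup M) (hK : ∀ g m, m ∈ K → act g m ∈ K)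
    (hne : K ≠ ⊤) : ∃ m, m ∉ K ∧ ∀ g : G, act g m - m ∈ K := by
  classical
  let q : G → (M ⧸ K →+ M ⧸ K) := fun g => QuotientAddGroup.map K K (act g) (fun m hm => hK g m hm)
  have hq : ∀ g (m : M), q g (m : M ⧸ K) = ((act g m : M) : M ⧸ K) := fun g m => rfl
  let inst : MulAction G (M ⧸ K) :=
    { smul := fun g x => q g x
      one_smul := by
        intro x
        obtain ⟨m, rfl⟩ := QuotientAddGroup.mk_surjective x
        change q 1 _ = _
        rw [hq, map_one]; rfl
      mul_smul := by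
        intro g h x
        obtain ⟨m, rfl⟩ := QuotientAddGroup.mk_surjective x
        change q (g * h) _ = q g (q h _)
        rw [hq, hq, hq, map_mul]; rfl }
  have hfin : Finite (M ⧸ K) := inferInstance
  obtain ⟨m0, hm0⟩ : ∃ m0 : M, m0 ∉ K := by
    by_contra hcon
    push Not at hcon
    exact hne (eq_top_iff.2 fun m _ => hcon m)
  have hm0' : (m0 : M ⧸ K) ≠ 0 := fun h => hm0 ((QuotientAddGroup.eq_zero_iff m0).1 h)
  have hdvd : p ∣ Nat.card (M ⧸ K) := by
    have h1 : p • (m0 : M ⧸ K) = 0 := by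
      have : p • (m0 : M ⧸ K) = ((p • m0 : M) : M ⧸ K) := rfl
      rw [this, hM]; rfl
    have h2 : addOrderOf (m0 : M ⧸ K) = p := by
      rcases (Nat.dvd_prime (Fact.out : p.Prime)).1 (addOrderOf_dvd_of_nsmul_eq_zero h1) with h | h
      · exact absurd (AddMonoid.addOrderOf_eq_one_iff.1 h) hm0'
      · exact h
    rw [← h2]
    exact addOrderOf_dvd_natCard _
  have h0 : (0 : M ⧸ K) ∈ MulAction.fixedPoints G (M ⧸ K) := by
    intro g
    change q g 0 = 0
    rw [map_zero]
  obtain ⟨b, hb, hb0⟩ := hG.exists_fixed_point_of_prime_dvd_card_of_fixed_point (M ⧸ K) hdvd h0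
  obtain ⟨m, rfl⟩ := QuotientAddGroup.mk_surjective b
  refine ⟨m, fun h => hb0 ((QuotientAddGroup.eq_zero_iff m).2 h).symm, fun g => ?_⟩
  have h1 : ((act g m : M) : M ⧸ K) = (m : M ⧸ K) := hb g
  have h2 := QuotientAddGroup.eq.1 h1.symm
  rwa [neg_add_eq_sub] at h2

/-- a proper subgroup of a finite p-group is killed by a nontrivial character -/
theorem finite_char {p : ℕ} [Fact p.Prime] {G : Type*} [Group G] [Finite G] (hG : IsPGroup p G)
    (W : Subgroup G) (hW : W ≠ ⊤) : ∃ χ : G → ZMod p, (∀ a b, χ (a * b) = χ a + χ b) ∧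
      (∀ w ∈ W, χ w = 0) ∧ ∃ g, χ g ≠ 0 := by
  classical
  let act : G →* AddMonoid.End (G ⧸ W → ZMod p) :=
    { toFun := fun g =>
        { toFun := fun f => fun x => f (g⁻¹ • x)
          map_zero' := rfl
          map_add' := fun _ _ => rfl }
      map_one' := by
        ext f x
        change f ((1 : G)⁻¹ • x) = f x
        rw [inv_one, one_smul]
      map_mul' := by
        intro g h
        ext f x
        change f ((g * h)⁻¹ • x) = f (h⁻¹ • g⁻¹ • x)
        rw [mul_inv_rev, mul_smul] }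
  have hact : ∀ g f x, act g f x = f (g⁻¹ • x) := fun _ _ _ => rfl
  let K : AddSubgroup (G ⧸ W → ZMod p) :=
    { carrier := {f | ∀ x y, f x = f y}
      zero_mem' := fun _ _ => rfl
      add_mem' := fun {a b} ha hb x y => by
        change a x + b x = a y + b y
        rw [ha x y, hb x y]
      neg_mem' := fun {a} ha x y => by
        change - a x = - a y
        rw [ha x y] }
  have hKm : ∀ f, f ∈ K ↔ ∀ x y, f x = f y := fun f => Iff.rfl
  obtain ⟨g0, hg0⟩ : ∃ g0 : G, g0 ∉ W := by
    by_contra hcon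
    push Not at hcon
    exact hW (eq_top_iff.2 fun m _ => hcon m)
  have hM : ∀ m : G ⧸ W → ZMod p, p • m = 0 := by
    intro m
    funext x
    simp
  obtain ⟨f, hf, hf'⟩ := fix_lemma hG hM act K (by
    intro g m hm x y
    exact hm _ _) (by
    intro h
    have h1 : (fun x : G ⧸ W => if x = ((1 : G) : G ⧸ W) then (1 : ZMod p) else 0) ∈ K := by
      rw [h]; trivial
    have h2 := h1 ((1 : G) : G ⧸ W) ((g0 : G) : G ⧸ W)
    simp only [if_true] at h2
    rw [if_neg] at h2
    · exact one_ne_zero h2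
    · intro h3
      apply hg0
      have := QuotientGroup.eq.1 h3
      simpa using this)
  have hc : ∀ g x y, f (g⁻¹ • x) - f x = f (g⁻¹ • y) - f y := fun g x y => hf' g x y
  let x0 : G ⧸ W := ((1 : G) : G ⧸ W)
  refine ⟨fun g => f (g⁻¹ • x0) - f x0, ?_, ?_, ?_⟩
  · intro a b
    have h1 := hc b (a⁻¹ • x0) x0
    simp only [mul_inv_rev, mul_smul]
    have : f (b⁻¹ • a⁻¹ • x0) - f x0 = (f (b⁻¹ • a⁻¹ • x0) - f (a⁻¹ • x0)) + (f (a⁻¹ • x0) - f x0) := by
      ring
    rw [this, h1]
    ring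
  · intro w hw
    have : w⁻¹ • x0 = x0 := by
      change ((w⁻¹ * 1 : G) : G ⧸ W) = ((1 : G) : G ⧸ W)
      rw [QuotientGroup.eq]
      simpa using hw
    simp only [this, sub_self]
  · by_contra hcon
    push Not at hcon
    apply hf
    have h1 : ∀ x, f x = f x0 := by
      intro x
      obtain ⟨y, rfl⟩ := QuotientGroup.mk_surjective x
      have h2 := hcon y⁻¹
      rw [inv_inv, sub_eq_zero] at h2
      rw [← h2]
      congr 1
      change _ = ((y * 1 : G) : G ⧸ W)
      rw [mul_one]
    intro x y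
    rw [h1 x, h1 y]

/-- continuous characters with values in the prime field -/
structure IsChar (p : ℕ) {H : Type*} [Group H] [TopologicalSpace H] (χ : H → ZMod p) : Prop where
  lc : IsLocallyConstant χ
  add : ∀ a b, χ (a * b) = χ a + χ b

namespace IsChar

variable {p : ℕ} {H : Type*} [Group H] [TopologicalSpace H]

theorem one {χ : H → ZMod p} (h : IsChar p χ) : χ 1 = 0 := by
  have := h.add 1 1
  rw [mul_one] at this
  exact left_eq_add.1 this

theorem inv {χ : H → ZMod p} (h : IsChar p χ) (a : H) : χ a⁻¹ = - χ a := by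
  have := h.add a a⁻¹
  rw [mul_inv_cancel, h.one] at this
  exact (neg_eq_of_add_eq_zero_right this.symm).symm

theorem zero : IsChar p (0 : H → ZMod p) := ⟨IsLocallyConstant.const 0, fun _ _ => by simp⟩

theorem add' {χ χ' : H → ZMod p} (h : IsChar p χ) (h' : IsChar p χ') : IsChar p (χ + χ') :=
  ⟨h.lc.add h'.lc, fun a b => by
    simp only [Pi.add_apply]; rw [h.add, h'.add]; ring⟩

theorem sub' {χ χ' : H → ZMod p} (h : IsChar p χ) (h' : IsChar p χ') : IsChar p (χ - χ') :=
  ⟨h.lc.sub h'.lc, fun a b => by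
    simp only [Pi.sub_apply]; rw [h.add, h'.add]; ring⟩

theorem smul' (c : ZMod p) {χ : H → ZMod p} (h : IsChar p χ) : IsChar p (fun a => c * χ a) :=
  ⟨h.lc.comp fun z => c * z, fun a b => by
    rw [h.add]; ring⟩

theorem sum' {κ : Type*} (S : Finset κ) (χ : κ → H → ZMod p) (h : ∀ i ∈ S, IsChar p (χ i)) :
    IsChar p (fun a => ∑ i ∈ S, χ i a) := by
  classical
  induction S using Finset.induction_on with
  | empty =>
    simp only [Finset.sum_empty]
    exact zero
  | insert a S ha ih =>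
    have h1 := (h a (Finset.mem_insert_self _ _)).add'
      (ih fun i hi => h i (Finset.mem_insert_of_mem hi))
    have h2 : (fun y => ∑ i ∈ insert a S, χ i y) = χ a + fun y => ∑ i ∈ S, χ i y := by
      funext y
      rw [Finset.sum_insert ha]; rfl
    rw [h2]
    exact h1

end IsChar

/-- pro-p condition -/
def IsProP (p : ℕ) (H : Type*) [Group H] [TopologicalSpace H] : Prop :=
  ∀ N : Subgroup H, N.Normal → IsOpen (N : Set H) → ∃ k : ℕ, N.index = p ^ k

theorem exists_char {p : ℕ} [Fact p.Prime] {H : Type} [Group H] [TopologicalSpace H]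
    [IsTopologicalGroup H] [CompactSpace H] [TotallyDisconnectedSpace H] (hH : IsProP p H)
    (W : Subgroup H) (hWo : IsOpen (W : Set H)) (hW : W ≠ ⊤) :
    ∃ χ : H → ZMod p, IsChar p χ ∧ (∀ w ∈ W, χ w = 0) ∧ χ ≠ 0 := by
  obtain ⟨V, hVn, hVo, hV⟩ := exists_openNormal hWo W.one_mem
  have hfin := finite_quot V hVo
  obtain ⟨k, hk⟩ := hH V hVn hVo
  have hp : IsPGroup p (H ⧸ V) := IsPGroup.of_card (n := k) hk
  have hW' : W.map (QuotientGroup.mk' V) ≠ ⊤ := by
    intro h
    apply hW
    rw [eq_top_iff]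
    intro y _
    have h1 : QuotientGroup.mk' V y ∈ W.map (QuotientGroup.mk' V) := by rw [h]; trivial
    obtain ⟨w, hw, hwy⟩ := h1
    have h2 : w⁻¹ * y ∈ V := QuotientGroup.eq.1 hwy
    have h3 := W.mul_mem hw (hV h2)
    rwa [mul_inv_cancel_left] at h3
  obtain ⟨χ, h1, h2, g, hg⟩ := finite_char hp _ hW'
  refine ⟨fun y => χ (y : H ⧸ V), ⟨(mk_lc V hVo).comp χ, fun a b => ?_⟩, fun w hw => ?_, ?_⟩
  · rw [QuotientGroup.mk_mul, h1]
  · exact h2 _ ⟨w, hw, rfl⟩
  · intro h0
    obtain ⟨y, rfl⟩ := QuotientGroup.mk_surjective g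
    exact hg (congrFun h0 y)

end Pool.H8
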