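import Pool.Agent.H8.Val

set_option autoImplicit false
set_option linter.unusedSectionVars false
set_option backward.isDefEq.respectTransparency.types true

/-! The descent theorem: relations between vectors fixed by a semilinear automorphism. -/

namespace Pool.H8

open scoped nonZeroDivisors

section Descent

variable {R : Type*} [Ring R] [IsDomain R] [OreLocalization.OreSet R⁰]
  {G : Type*} [Group G] [Fintype G] [DecidableEq G] (gr : Grad R G)
  {Γ : Type*} [LinearOrderedCommGroupWithZero Γ]

/-- existence of a nonzero relation between `r > n` vectors of length `n` -/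
theorem exists_relation {D : Type*} [DivisionRing D] {n r : ℕ} (hr : n < r)
    (d : Fin r → Fin n → D) : ∃ a : Fin r → D, a ≠ 0 ∧ ∀ j, ∑ i, a i * d i j = 0 := by
  have h : ¬ LinearIndependent D d := by
    intro hli
    have := hli.fintype_card_le_finrank
    simp at this
    omega
  rw [Fintype.not_linearIndependent_iff] at h
  obtain ⟨g, hg, i, hi⟩ := h
  refine ⟨g, fun h0 => hi (by rw [h0]; rfl), fun j => ?_⟩
  have := congrFun hg j
  simpa using this

theorem descent (Ψ : R →+* R) (hΨinj : Function.Injective Ψ) (ψ : G ≃* G)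
    (hΨc : ∀ g r, gr.c (ψ g) (Ψ r) = Ψ (gr.c g r))
    (v : R →* Γ) (hadd : ∀ x y, v (x + y) ≤ max (v x) (v y)) (hv0 : ∀ r, v r = 0 ↔ r = 0)
    (hneg : ∀ x, v (-x) = v x)
    (ε : Γ) (hε : ε < 1) (hvΨ : ∀ r, v (Ψ r - r) ≤ ε * v r)
    (hl : ∀ l : ℕ, l.Prime → ε < v (l : R))
    (Fb Ub : Subgroup G) (hfix : ∀ g ∈ Fb, ψ g = g → g ∈ Ub)
    {n r : ℕ} (hr : n < r) (d : Fin r → Fin n → R)
    (hd : ∀ i j g, g ∉ Fb → gr.c g (d i j) = 0)
    (J : Fin n → Fin n → R) (hJ : ∀ i j, d i j = ∑ k, Ψ (d i k) * J k j) :
    ∃ (x : G) (b : Fin r → R), (∃ i, b i ≠ 0) ∧ (∀ i g, x⁻¹ * g ∉ Ub → gr.c g (b i) = 0) ∧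
      ∀ j, ∑ i, b i * d i j = 0 := by
  classical
  -- extend everything to the division ring
  obtain ⟨w, hwio, hwmul, hwadd, hw0⟩ := exists_val v hadd hv0
  have hwneg : ∀ x, w (-x) = w x := by
    intro x
    have h1 : w (-1 : Fr R) = 1 := by
      have : (-1 : Fr R) = io (-1) := by rw [map_neg, map_one]
      rw [this, hwio, hneg, map_one]
    rw [neg_eq_neg_one_mul, hwmul, h1, one_mul]
  obtain ⟨ΨD, hΨD⟩ := exists_lift ((io : R →+* Fr R).comp Ψ) (by
    intro r hr
    apply IsUnit.mk0
    apply io_ne_zero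
    intro h
    exact hr (hΨinj (by rw [h, map_zero])))
  have hΨD' : ∀ r, ΨD (io r) = io (Ψ r) := hΨD
  have hclose : ∀ x : Fr R, w (ΨD x - x) ≤ ε * w x := by
    intro x
    obtain ⟨s, hs, r, hr⟩ := exists_frac x
    have hvs : v s ≠ 0 := fun h => hs ((hv0 _).1 h)
    have e1 : io (Ψ s) * (ΨD x - x) = io (Ψ r - r) - io (Ψ s - s) * x := by
      rw [mul_sub, ← hΨD', ← map_mul, hr, hΨD', map_sub, map_sub, sub_mul, hr, hΨD']
      abel
    have e2 : w (ΨD x - x) * v s = w (ΨD x - x) * v (Ψ s) := by
      congr 1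
      have h1 : v (Ψ s) ≤ v s := by
        have : Ψ s = (Ψ s - s) + s := by abel
        rw [this]
        refine (hadd _ _).trans (max_le ((hvΨ s).trans ?_) le_rfl)
        calc ε * v s ≤ 1 * v s := mul_le_mul_left hε.le _
          _ = v s := one_mul _
      refine le_antisymm ?_ h1
      have : s = Ψ s + (-(Ψ s - s)) := by abel
      by_contra hlt
      push Not at hlt
      have h2 : v s ≤ max (v (Ψ s)) (v (Ψ s - s)) := by
        calc v s = v (Ψ s + (-(Ψ s - s))) := by rw [← this]
          _ ≤ max (v (Ψ s)) (v (-(Ψ s - s))) := hadd _ _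
          _ = _ := by rw [hneg]
      rcases le_max_iff.1 h2 with h3 | h3
      · exact absurd hlt (not_lt.2 h3)
      · have h4 : v s ≤ ε * v s := h3.trans (hvΨ s)
        have h5 := mul_le_mul_left h4 (v s)⁻¹
        rw [mul_assoc, mul_inv_cancel₀ hvs, mul_one] at h5
        exact absurd hε (not_lt.2 h5)
    have e3 : v s * w (ΨD x - x) ≤ v s * (ε * w x) := by
      rw [mul_comm, e2, mul_comm, ← hwio, ← hwmul, e1]
      have h1 : w (io (Ψ r - r)) ≤ v s * (ε * w x) := by
        rw [hwio]
        refine (hvΨ r).trans ?_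
        rw [← hwio, ← hr, hwmul, hwio, mul_left_comm]
      have h2 : w (io (Ψ s - s) * x) ≤ v s * (ε * w x) := by
        rw [hwmul, hwio, mul_left_comm, ← mul_assoc]
        exact mul_le_mul_left (hvΨ s) _
      rw [sub_eq_add_neg]
      refine (hwadd _ _).trans (max_le h1 ?_)
      rw [hwneg]
      exact h2
    have e4 := mul_le_mul_right e3 (v s)⁻¹
    rwa [← mul_assoc, ← mul_assoc, inv_mul_cancel₀ hvs, one_mul, one_mul] at e4
  -- a minimal relation
  let P : ℕ → Prop := fun m => ∃ a : Fin r → Fr R, a ≠ 0 ∧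
    (∀ j, ∑ i, a i * io (d i j) = 0) ∧ (Finset.univ.filter fun i => a i ≠ 0).card = m
  have hP : ∃ m, P m := by
    obtain ⟨a, ha, ha'⟩ := exists_relation hr (fun i j => (io (d i j) : Fr R))
    exact ⟨_, a, ha, ha', rfl⟩
  obtain ⟨a0, ha0, ha0', ha0c⟩ := Nat.find_spec hP
  have hmin : ∀ b : Fin r → Fr R, (∀ j, ∑ i, b i * io (d i j) = 0) →
      (Finset.univ.filter fun i => b i ≠ 0).card < Nat.find hP → b = 0 := by
    intro b hb hlt
    by_contra hne
    exact Nat.find_min hP hlt ⟨b, hne, hb, rfl⟩
  obtain ⟨i0, hi0⟩ : ∃ i, a0 i ≠ 0 := by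
    by_contra h
    push Not at h
    exact ha0 (funext h)
  -- normalize
  set a : Fin r → Fr R := fun i => (a0 i0)⁻¹ * a0 i with ha
  have ha1 : a i0 = 1 := inv_mul_cancel₀ hi0
  have hsupp : ∀ i, a i ≠ 0 ↔ a0 i ≠ 0 := by
    intro i
    simp only [ha]
    constructor
    · intro h h'; exact h (by rw [h', mul_zero])
    · intro h; exact mul_ne_zero (inv_ne_zero hi0) h
  have haK : ∀ j, ∑ i, a i * io (d i j) = 0 := by
    intro j
    have : ∑ i, a i * io (d i j) = (a0 i0)⁻¹ * ∑ i, a0 i * io (d i j) := by
      rw [Finset.mul_sum]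
      exact Finset.sum_congr rfl fun i _ => by rw [ha, mul_assoc]
    rw [this, ha0', mul_zero]
  have hacard : (Finset.univ.filter fun i => a i ≠ 0).card = Nat.find hP := by
    rw [← ha0c]
    congr 1
    ext i
    simp only [Finset.mem_filter, Finset.mem_univ, true_and]
    exact hsupp i
  -- uniqueness
  have huniq : ∀ b : Fin r → Fr R, (∀ j, ∑ i, b i * io (d i j) = 0) →
      (∀ i, a i = 0 → b i = 0) → b i0 = 1 → b = a := by
    intro b hb hs hb1
    have : b - a = 0 := by
      apply hmin
      · intro j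
        have : ∑ i, (b - a) i * io (d i j) = ∑ i, b i * io (d i j) - ∑ i, a i * io (d i j) := by
          rw [← Finset.sum_sub_distrib]
          exact Finset.sum_congr rfl fun i _ => by rw [Pi.sub_apply, sub_mul]
        rw [this, hb, haK, sub_zero]
      · rw [← hacard]
        apply Finset.card_lt_card
        rw [Finset.ssubset_iff_of_subset]
        · refine ⟨i0, ?_, ?_⟩
          · simp [ha1]
          · simp [ha1, hb1]
        · intro i hi
          simp only [Finset.mem_filter, Finset.mem_univ, true_and] at hi ⊢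
          intro h
          apply hi
          rw [Pi.sub_apply, h, hs i h, sub_zero]
    exact sub_eq_zero.1 this
  -- the relation is fixed
  have hfixed : ∀ i, ΨD (a i) = a i := by
    have : (fun i => ΨD (a i)) = a := by
      apply huniq
      · intro j
        have e1 : ∀ i, ΨD (a i) * io (d i j) = ∑ k, ΨD (a i * io (d i k)) * io (J k j) := by
          intro i
          rw [hJ i j, map_sum, Finset.mul_sum]
          refine Finset.sum_congr rfl fun k _ => ?_
          rw [map_mul ΨD (a i) (io (d i k)), hΨD', mul_assoc,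
            map_mul (io : R →+* Fr R) (Ψ (d i k)) (J k j)]
        rw [Finset.sum_congr rfl fun i _ => e1 i, Finset.sum_comm]
        apply Finset.sum_eq_zero
        intro k _
        rw [← Finset.sum_mul, ← map_sum, haK, map_zero, zero_mul]
      · intro i hi
        rw [hi, map_zero]
      · rw [ha1, map_one]
    exact fun i => congrFun this i
  -- the relation is supported in Fb
  have hcio : ∀ i j g, g ∉ Fb → gr.cD g (io (d i j)) = 0 := by
    intro i j g hg
    rw [gr.cD_io, hd i j g hg, map_zero]
  have hFb : ∀ i, (∑ g, if g ∈ Fb then gr.cD g (a i) else 0) = a i := by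
    have : (fun i => ∑ g, if g ∈ Fb then gr.cD g (a i) else 0) = a := by
      apply huniq
      · intro j
        have e1 : ∀ i, (∑ g, if g ∈ Fb then gr.cD g (a i) else 0) * io (d i j) =
            ∑ g, if g ∈ Fb then gr.cD g (a i * io (d i j)) else 0 := by
          intro i
          have e2 : ∀ g : G, (if g ∈ Fb then gr.cD g (a i * io (d i j)) else 0) =
              ∑ h, (if h ∈ Fb then gr.cD h (a i) else 0) *
                (if h⁻¹ * g ∈ Fb then gr.cD (h⁻¹ * g) (io (d i j)) else 0) := by
            intro g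
            by_cases hg : g ∈ Fb
            · rw [if_pos hg, gr.cD_mul]
              refine Finset.sum_congr rfl fun h _ => ?_
              by_cases hh : h ∈ Fb
              · rw [if_pos hh, if_pos (Fb.mul_mem (Fb.inv_mem hh) hg)]
              · rw [if_neg hh, zero_mul, hcio, mul_zero]
                intro hc
                apply hh
                have : h = g * (h⁻¹ * g)⁻¹ := by group
                rw [this]
                exact Fb.mul_mem hg (Fb.inv_mem hc)
            · rw [if_neg hg]
              symm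
              apply Finset.sum_eq_zero
              intro h _
              by_cases hh : h ∈ Fb
              · rw [if_neg (c := h⁻¹ * g ∈ Fb), mul_zero]
                intro hc
                apply hg
                have : g = h * (h⁻¹ * g) := by group
                rw [this]
                exact Fb.mul_mem hh hc
              · rw [if_neg hh, zero_mul]
          rw [Finset.sum_congr rfl fun g _ => e2 g, Finset.sum_comm, Finset.sum_mul]
          refine Finset.sum_congr rfl fun h _ => ?_
          rw [← Finset.mul_sum]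
          congr 1
          have e3 : (∑ i_1, if h⁻¹ * i_1 ∈ Fb then gr.cD (h⁻¹ * i_1) (io (d i j)) else 0) =
              ∑ g, if g ∈ Fb then gr.cD g (io (d i j)) else 0 :=
            Fintype.sum_equiv (Equiv.mulLeft h⁻¹) _ _ fun t => rfl
          rw [e3]
          conv_lhs => rw [← gr.cD_sum (io (d i j))]
          refine Finset.sum_congr rfl fun g _ => ?_
          by_cases hg : g ∈ Fb
          · rw [if_pos hg]
          · rw [if_neg hg, hcio i j g hg]
        rw [Finset.sum_congr rfl fun i _ => e1 i, Finset.sum_comm]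
        apply Finset.sum_eq_zero
        intro g _
        by_cases hg : g ∈ Fb
        · simp only [if_pos hg]
          rw [← map_sum, haK, map_zero]
        · simp [if_neg hg]
      · intro i hi
        rw [hi]
        simp
      · rw [ha1]
        simp only [gr.cD_one]
        rw [Finset.sum_eq_single 1]
        · simp [Fb.one_mem]
        · intro b _ hb; simp [hb]
        · simp
    exact fun i => congrFun this i
  have hFb' : ∀ i g, g ∉ Fb → gr.cD g (a i) = 0 := by
    intro i g hg
    conv_lhs => rw [← hFb i]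
    rw [map_sum]
    apply Finset.sum_eq_zero
    intro h _
    by_cases hh : h ∈ Fb
    · rw [if_pos hh, gr.cD_cD, if_neg]
      rintro rfl
      exact hg hh
    · rw [if_neg hh, map_zero]
  -- supported in Ub
  have hUb : ∀ i g, g ∉ Ub → gr.cD g (a i) = 0 := by
    intro i g hg
    by_cases hgF : g ∈ Fb
    · have hψg : ψ g ≠ g := fun h => hg (hfix g hgF h)
      have hequi : ∀ g, gr.cD (ψ g) (a i) = ΨD (gr.cD g (a i)) := by
        intro g
        have := gr.cD_equivariant Ψ ψ hΨc ΨD hΨD' g (a i)
        rwa [hfixed i] at this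
      -- some power of ψ is trivial
      obtain ⟨m, hm, hψm⟩ : ∃ m : ℕ, 0 < m ∧ (ψ : MulAut G) ^ m = 1 := by
        have hfin : Finite (MulAut G) := inferInstance
        exact ⟨orderOf (ψ : MulAut G), orderOf_pos _, pow_orderOf_eq_one _⟩
      let Ψe : AddMonoid.End (Fr R) := (ΨD : Fr R →+ Fr R)
      have hpow : ∀ k : ℕ, (Ψe ^ k) (gr.cD g (a i)) = gr.cD (((ψ : MulAut G) ^ k) g) (a i) := by
        intro k
        induction k with
        | zero => rfl
        | succ k ih =>
          rw [pow_succ', pow_succ']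
          change ΨD ((Ψe ^ k) (gr.cD g (a i))) = gr.cD (ψ (((ψ : MulAut G) ^ k) g)) (a i)
          rw [ih, hequi]
      have h1 : (Ψe ^ m) (gr.cD g (a i)) = gr.cD g (a i) := by
        rw [hpow, hψm]; rfl
      have h2 : Ψe (gr.cD g (a i)) = gr.cD g (a i) := by
        refine fixed_of_pow w hwmul hwadd hw0 hwneg ε hε Ψe hclose ?_ _ m hm h1
        intro l hlp
        have : ((l : ℕ) : Fr R) = io (l : R) := by rw [map_natCast]
        rw [this, hwio]
        exact hl l hlp
      have h3 : gr.cD (ψ g) (a i) = gr.cD g (a i) := by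
        rw [hequi]; exact h2
      have h4 := congrArg (gr.cD g) h3
      rw [gr.cD_cD, gr.cD_cD, if_neg (Ne.symm hψg), if_pos rfl] at h4
      exact h4.symm
    · exact hFb' i g hgF
  -- clear denominators
  obtain ⟨s, hs, ρ, hρ⟩ := exists_common_fintype a
  obtain ⟨x, hx⟩ : ∃ x, gr.c x s ≠ 0 := by
    by_contra h
    push Not at h
    exact hs (gr.eq_zero_of_c h)
  set sx : R := ∑ g, if x⁻¹ * g ∈ Ub then gr.c g s else 0 with hsx
  have hsx0 : gr.c x sx ≠ 0 := by
    rw [hsx, map_sum, Finset.sum_eq_single x]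
    · rw [if_pos (by simp [Ub.one_mem]), gr.c_c, if_pos rfl]
      exact hx
    · intro b _ hb
      by_cases h : x⁻¹ * b ∈ Ub
      · rw [if_pos h, gr.c_c, if_neg (Ne.symm hb)]
      · rw [if_neg h, map_zero]
    · simp
  set b : Fin r → R := fun i => ∑ g, if x⁻¹ * g ∈ Ub then gr.c g (ρ i) else 0 with hb
  have hbio : ∀ i, io (b i) = io sx * a i := by
    intro i
    have e0 : ∀ y : R, (io (∑ g, if x⁻¹ * g ∈ Ub then gr.c g y else 0) : Fr R) =
        ∑ g, if x⁻¹ * g ∈ Ub then gr.cD g (io y) else 0 := by
      intro y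
      rw [map_sum]
      refine Finset.sum_congr rfl fun g _ => ?_
      by_cases h : x⁻¹ * g ∈ Ub
      · rw [if_pos h, if_pos h, gr.cD_io]
      · rw [if_neg h, if_neg h, map_zero]
    rw [hb, hsx, e0, e0, ← hρ i]
    have e1 : ∀ g : G, (if x⁻¹ * g ∈ Ub then gr.cD g (io s * a i) else 0) =
        ∑ h, (if x⁻¹ * h ∈ Ub then gr.cD h (io s) else 0) *
          (if h⁻¹ * g ∈ Ub then gr.cD (h⁻¹ * g) (a i) else 0) := by
      intro g
      by_cases hg : x⁻¹ * g ∈ Ub
      · rw [if_pos hg, gr.cD_mul]
        refine Finset.sum_congr rfl fun h _ => ?_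
        by_cases hh : h⁻¹ * g ∈ Ub
        · rw [if_pos hh, if_pos]
          have : x⁻¹ * h = (x⁻¹ * g) * (h⁻¹ * g)⁻¹ := by group
          rw [this]
          exact Ub.mul_mem hg (Ub.inv_mem hh)
        · rw [if_neg hh, hUb i _ hh, mul_zero, mul_zero]
      · rw [if_neg hg]
        symm
        apply Finset.sum_eq_zero
        intro h _
        by_cases hh : h⁻¹ * g ∈ Ub
        · rw [if_neg (c := x⁻¹ * h ∈ Ub), zero_mul]
          intro hc
          apply hg
          have : x⁻¹ * g = (x⁻¹ * h) * (h⁻¹ * g) := by group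
          rw [this]
          exact Ub.mul_mem hc hh
        · rw [if_neg hh, mul_zero]
    rw [Finset.sum_congr rfl fun g _ => e1 g, Finset.sum_comm, Finset.sum_mul]
    refine Finset.sum_congr rfl fun h _ => ?_
    rw [← Finset.mul_sum]
    congr 1
    have e3 : (∑ i_1, if h⁻¹ * i_1 ∈ Ub then gr.cD (h⁻¹ * i_1) (a i) else 0) =
        ∑ g, if g ∈ Ub then gr.cD g (a i) else 0 :=
      Fintype.sum_equiv (Equiv.mulLeft h⁻¹) _ _ fun t => rfl
    rw [e3]
    conv_rhs => rw [← gr.cD_sum (a i)]
    refine Finset.sum_congr rfl fun g _ => ?_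
    by_cases hg : g ∈ Ub
    · rw [if_pos hg]
    · rw [if_neg hg, hUb i g hg]
  refine ⟨x, b, ⟨i0, ?_⟩, ?_, ?_⟩
  · intro h
    have := hbio i0
    rw [h, ha1, mul_one, map_zero] at this
    have h2 := io_eq_zero this.symm
    rw [h2, map_zero] at hsx0
    exact hsx0 rfl
  · intro i g hg
    rw [hb]
    simp only
    rw [map_sum]
    apply Finset.sum_eq_zero
    intro h _
    by_cases hh : x⁻¹ * h ∈ Ub
    · rw [if_pos hh, gr.c_c, if_neg]
      rintro rfl
      exact hg hh
    · rw [if_neg hh, map_zero]
  · intro j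
    apply io_inj
    rw [map_sum, map_zero]
    have : ∀ i, io (b i * d i j) = io sx * (a i * io (d i j)) := by
      intro i
      rw [map_mul, hbio, mul_assoc]
    rw [Finset.sum_congr rfl fun i _ => this i, ← Finset.mul_sum, haK, mul_zero]

end Descent

end Pool.H8
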