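import Mathlib

set_option autoImplicit false
set_option backward.isDefEq.respectTransparency.types true
set_option linter.unusedSectionVars false
set_option linter.style.haveILetI false

/-! The group algebra of a finite group, as functions with convolution. -/

namespace Pool.H8

/-- functions on a finite group, with the convolution product -/
@[ext] structure GA (G : Type*) (D : Type*) where
  /-- the underlying function -/
  f : G → D

namespace GA

variable {G : Type*} [Group G] [Fintype G] [DecidableEq G] {D : Type*} [Ring D]

theorem f_injective : Function.Injective (GA.f : GA G D → G → D) := by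
  intro x y h
  exact GA.ext h

instance : Zero (GA G D) := ⟨⟨0⟩⟩
instance : Add (GA G D) := ⟨fun x y => ⟨x.f + y.f⟩⟩
instance : Neg (GA G D) := ⟨fun x => ⟨-x.f⟩⟩
instance : Sub (GA G D) := ⟨fun x y => ⟨x.f - y.f⟩⟩
instance : SMul ℕ (GA G D) := ⟨fun n x => ⟨n • x.f⟩⟩
instance : SMul ℤ (GA G D) := ⟨fun n x => ⟨n • x.f⟩⟩
instance : SMul D (GA G D) := ⟨fun n x => ⟨n • x.f⟩⟩

instance : AddCommGroup (GA G D) :=
  Function.Injective.addCommGroup GA.f f_injective rfl (fun _ _ => rfl) (fun _ => rfl)
    (fun _ _ => rfl) (fun _ _ => rfl) (fun _ _ => rfl)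

/-- the underlying function as an additive map -/
def fhom : GA G D →+ (G → D) where
  toFun := GA.f
  map_zero' := rfl
  map_add' _ _ := rfl

instance : Module D (GA G D) :=
  Function.Injective.module D fhom f_injective (fun _ _ => rfl)

theorem add_f (x y : GA G D) (g : G) : (x + y).f g = x.f g + y.f g := rfl
theorem zero_f (g : G) : (0 : GA G D).f g = 0 := rfl
theorem smul_f (d : D) (x : GA G D) (g : G) : (d • x).f g = d * x.f g := rfl

theorem sum_f {α : Type*} (s : Finset α) (x : α → GA G D) (g : G) :
    (∑ i ∈ s, x i).f g = ∑ i ∈ s, (x i).f g := by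
  have := congrFun (map_sum (fhom : GA G D →+ (G → D)) x s) g
  rw [Finset.sum_apply] at this
  exact this

instance : One (GA G D) := ⟨⟨fun g => if g = 1 then 1 else 0⟩⟩
instance : Mul (GA G D) := ⟨fun x y => ⟨fun t => ∑ h, x.f h * y.f (h⁻¹ * t)⟩⟩

theorem one_f (g : G) : (1 : GA G D).f g = if g = 1 then 1 else 0 := rfl
theorem mul_f (x y : GA G D) (t : G) : (x * y).f t = ∑ h, x.f h * y.f (h⁻¹ * t) := rfl

instance : Ring (GA G D) :=
  { (inferInstance : AddCommGroup (GA G D)) with
    mul := (· * ·)
    one := 1
    left_distrib := fun x y z => by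
      ext t
      simp [mul_f, add_f, mul_add, Finset.sum_add_distrib]
    right_distrib := fun x y z => by
      ext t
      simp [mul_f, add_f, add_mul, Finset.sum_add_distrib]
    zero_mul := fun x => by
      ext t
      simp [mul_f, zero_f]
    mul_zero := fun x => by
      ext t
      simp [mul_f, zero_f]
    mul_assoc := fun x y z => by
      ext t
      simp only [mul_f, Finset.sum_mul, Finset.mul_sum]
      rw [Finset.sum_comm]
      refine Finset.sum_congr rfl fun k _ => ?_
      refine (Fintype.sum_equiv (Equiv.mulLeft k) _ _ fun h => ?_).symm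
      simp [mul_assoc]
    one_mul := fun x => by
      ext t
      rw [mul_f, Finset.sum_eq_single 1]
      · simp [one_f]
      · intro b _ hb; simp [one_f, hb]
      · simp
    mul_one := fun x => by
      ext t
      rw [mul_f, Finset.sum_eq_single t]
      · simp [one_f]
      · intro b _ hb
        have : b⁻¹ * t ≠ 1 := fun h => hb (inv_mul_eq_one.1 h)
        simp [one_f, this]
      · simp
    }

/-- coefficientwise application of a ring homomorphism -/
def map (G : Type*) [Group G] [Fintype G] [DecidableEq G] {D D' : Type*} [Ring D] [Ring D']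
    (f : D →+* D') : GA G D →+* GA G D' where
  toFun x := ⟨fun g => f (x.f g)⟩
  map_one' := by ext g; simp [one_f, apply_ite f]
  map_mul' x y := by ext g; simp [mul_f]
  map_zero' := by ext g; simp [zero_f]
  map_add' x y := by ext g; simp [add_f]

@[simp] theorem map_f {D' : Type*} [Ring D'] (f : D →+* D') (x : GA G D) (g : G) :
    (map G f x).f g = f (x.f g) := rfl

/-- augmentation -/
def aug : GA G D →+* D where
  toFun x := ∑ g, x.f g
  map_one' := by simp [one_f]
  map_mul' x y := by
    simp only [mul_f]
    rw [Finset.sum_comm, Finset.sum_mul]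
    refine Finset.sum_congr rfl fun h _ => ?_
    rw [← Finset.mul_sum]
    congr 1
    exact Fintype.sum_equiv (Equiv.mulLeft h⁻¹) _ _ fun t => rfl
  map_zero' := by simp [zero_f]
  map_add' x y := by simp [add_f, Finset.sum_add_distrib]

theorem aug_apply (x : GA G D) : aug x = ∑ g, x.f g := rfl

theorem ite_f (P : Prop) [Decidable P] (x y : GA G D) (g : G) :
    (if P then x else y).f g = if P then x.f g else y.f g := by
  split_ifs <;> rfl

/-- diagonal -/
def diag : GA G D →+* GA G (GA G D) where
  toFun x := ⟨fun g => ⟨fun h => if g = h then x.f g else 0⟩⟩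
  map_one' := by
    ext g h
    rw [one_f, ite_f, one_f, zero_f]
    dsimp only
    rw [one_f]
    by_cases hg : g = 1
    · subst hg
      by_cases hh : h = 1
      · subst hh; simp
      · simp [hh, Ne.symm hh]
    · simp [hg]
  map_mul' x y := by
    ext t u
    rw [mul_f, sum_f]
    simp only [mul_f]
    have : ∀ h : G, (∑ k : G, (if h = k then x.f h else 0) *
        (if h⁻¹ * t = k⁻¹ * u then y.f (h⁻¹ * t) else 0)) =
        x.f h * (if t = u then y.f (h⁻¹ * t) else 0) := by
      intro h
      rw [Finset.sum_eq_single h]
      · simp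
      · intro b _ hb
        simp [Ne.symm hb]
      · simp
    rw [Finset.sum_congr rfl fun h _ => this h]
    by_cases htu : t = u
    · simp [htu]
    · simp [htu]
  map_zero' := by
    ext g h
    simp [zero_f]
  map_add' x y := by
    ext g h
    simp only [add_f]
    split_ifs <;> simp

theorem diag_f (x : GA G D) (g h : G) : ((diag x).f g).f h = if g = h then x.f g else 0 := rfl

/-- twisting by a group automorphism -/
def tw (ψ : G ≃* G) : GA G D →+* GA G D where
  toFun x := ⟨fun g => x.f (ψ.symm g)⟩
  map_one' := by ext g; simp [one_f]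
  map_mul' x y := by
    ext t
    simp only [mul_f]
    refine Fintype.sum_equiv ψ.toEquiv _ _ fun h => ?_
    simp
  map_zero' := by ext g; simp [zero_f]
  map_add' x y := by ext g; simp [add_f]

@[simp] theorem tw_f (ψ : G ≃* G) (x : GA G D) (g : G) : (tw ψ x).f g = x.f (ψ.symm g) := rfl

/-- right multiplication as a linear map over the coefficients -/
def rmul (u : GA G D) : GA G D →ₗ[D] GA G D where
  toFun x := x * u
  map_add' x y := add_mul x y u
  map_smul' d x := by
    ext t
    simp [mul_f, smul_f, Finset.mul_sum, mul_assoc]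

/-- linear equivalence with functions -/
def feq : GA G D ≃ₗ[D] (G → D) where
  toFun := GA.f
  map_add' _ _ := rfl
  map_smul' _ _ := rfl
  invFun x := ⟨x⟩
  left_inv _ := rfl
  right_inv _ := rfl

end GA

theorem GA.isUnit_of_inj {G : Type*} [Group G] [Fintype G] [DecidableEq G] {D : Type*}
    [DivisionRing D] (u : GA G D) (hu : ∀ x : GA G D, x * u = 0 → x = 0) : IsUnit u := by
  have : FiniteDimensional D (GA G D) := Module.Finite.equiv (GA.feq (G := G) (D := D)).symm
  have key : ∀ u : GA G D, (∀ x : GA G D, x * u = 0 → x = 0) → ∃ x : GA G D, x * u = 1 := by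
    intro u hu
    have h1 : Function.Injective (GA.rmul u) := by
      intro x y hxy
      have : (x - y) * u = 0 := by rw [sub_mul]; exact sub_eq_zero.2 hxy
      exact sub_eq_zero.1 (hu _ this)
    have h2 : Function.Surjective (GA.rmul u) := LinearMap.injective_iff_surjective.1 h1
    exact h2 1
  obtain ⟨x, hx⟩ := key u hu
  obtain ⟨z, hz⟩ := key x (by
    intro y hy
    calc y = y * (x * u) := by rw [hx, mul_one]
      _ = (y * x) * u := by rw [mul_assoc]
      _ = 0 := by rw [hy, zero_mul])
  have : z = u := by
    calc z = z * (x * u) := by rw [hx, mul_one]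
      _ = (z * x) * u := by rw [mul_assoc]
      _ = u := by rw [hz, one_mul]
  subst this
  exact ⟨⟨z, x, hz, hx⟩, rfl⟩

end Pool.H8
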