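import Pool.Agent.H8.Ore
import Pool.Agent.H8.GA

set_option autoImplicit false
set_option backward.isDefEq.respectTransparency.types true
set_option linter.unusedSectionVars false

/-! Gradings of an Ore domain by a finite group, extended to its division ring. -/

namespace Pool.H8

open scoped nonZeroDivisors

/-- a grading of a ring by a finite group, given by its component maps -/
structure Grad (R : Type*) [Ring R] (G : Type*) [Group G] [Fintype G] [DecidableEq G] where
  /-- the component maps -/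
  c : G → R →+ R
  c_sum : ∀ r, ∑ g, c g r = r
  c_c : ∀ g h r, c g (c h r) = if g = h then c h r else 0
  c_one : ∀ g, c g 1 = if g = 1 then 1 else 0
  c_mul : ∀ g r s, c g (r * s) = ∑ h, c h r * c (h⁻¹ * g) s

namespace Grad

variable {R : Type*} [Ring R] {G : Type*} [Group G] [Fintype G] [DecidableEq G] (gr : Grad R G)

/-- the coaction -/
def dR : R →+* GA G R where
  toFun r := ⟨fun g => gr.c g r⟩
  map_one' := by ext g; rw [GA.one_f]; exact gr.c_one g
  map_mul' x y := by ext g; rw [GA.mul_f]; exact gr.c_mul g x y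
  map_zero' := by ext g; rw [GA.zero_f]; exact map_zero _
  map_add' x y := by ext g; rw [GA.add_f]; exact map_add _ _ _

@[simp] theorem dR_f (r : R) (g : G) : (gr.dR r).f g = gr.c g r := rfl

theorem eq_zero_of_c {r : R} (h : ∀ g, gr.c g r = 0) : r = 0 := by
  rw [← gr.c_sum r]
  exact Finset.sum_eq_zero fun g _ => h g

theorem untwist [IsDomain R] {r : R} (hr : r ≠ 0) (x : GA G R) (hx : x * gr.dR r = 0) : x = 0 := by
  -- for `k`, the element `y k`
  have h0 : ∀ t : G, ∑ g, x.f g * gr.c (g⁻¹ * t) r = 0 := by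
    intro t
    have := congrArg (fun z : GA G R => z.f t) hx
    simpa [GA.mul_f, GA.zero_f] using this
  have h1 : ∀ k t : G, ∑ g, gr.c (k * g) (x.f g) * gr.c (g⁻¹ * t) r = 0 := by
    intro k t
    have := congrArg (gr.c (k * t)) (h0 t)
    rw [map_sum, map_zero] at this
    rw [← this]
    refine Finset.sum_congr rfl fun g _ => ?_
    rw [gr.c_mul, Finset.sum_eq_single (k * g)]
    · rw [gr.c_c, if_pos]
      group
    · intro b _ hb
      rw [gr.c_c, if_neg, mul_zero]
      intro h
      apply hb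
      have : b = k * t * (g⁻¹ * t)⁻¹ := by rw [← h]; group
      rw [this]; group
    · simp
  have h2 : ∀ k : G, (∑ g, gr.c (k * g) (x.f g)) = 0 := by
    intro k
    have h3 : (∑ g, gr.c (k * g) (x.f g)) * r = 0 := by
      apply gr.eq_zero_of_c
      intro t
      rw [gr.c_mul]
      have h4 : ∀ h : G, gr.c h (∑ g, gr.c (k * g) (x.f g)) = gr.c h (x.f (k⁻¹ * h)) := by
        intro h
        rw [map_sum, Finset.sum_eq_single (k⁻¹ * h)]
        · rw [gr.c_c, if_pos (by group)]; simp
        · intro b _ hb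
          rw [gr.c_c, if_neg]
          intro hh; apply hb; rw [hh]; group
        · simp
      simp only [h4]
      have h5 := h1 k (k⁻¹ * t)
      rw [← h5]
      refine Fintype.sum_equiv (Equiv.mulLeft k⁻¹) _ _ fun h => ?_
      simp only [Equiv.coe_mulLeft]
      congr 2
      · simp
      · group
    exact (mul_eq_zero.1 h3).resolve_right hr
  ext g
  rw [GA.zero_f]
  apply gr.eq_zero_of_c
  intro h
  have h6 := congrArg (gr.c h) (h2 (h * g⁻¹))
  rw [map_sum, map_zero, Finset.sum_eq_single g] at h6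
  · rw [gr.c_c] at h6
    simpa using h6
  · intro b _ hb
    rw [gr.c_c, if_neg]
    intro hh
    apply hb
    have : g⁻¹ * b = 1 := by
      have : h = h * (g⁻¹ * b) := by rw [← mul_assoc]; exact hh
      exact (mul_eq_left.1 this.symm)
    exact (inv_mul_eq_one.1 this).symm
  · simp

variable [IsDomain R] [OreLocalization.OreSet R⁰]

theorem isUnit_dR {r : R} (hr : r ≠ 0) : IsUnit (GA.map G io (gr.dR r) : GA G (Fr R)) := by
  apply GA.isUnit_of_inj
  intro x hx
  obtain ⟨s, hs, y, hy⟩ := exists_common_fintype (fun g => x.f g)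
  have h1 : GA.map G io (⟨y⟩ : GA G R) = (io s : Fr R) • x := by
    ext g
    rw [GA.smul_f, hy]
    rfl
  have h2 : GA.map G io ((⟨y⟩ : GA G R) * gr.dR r) = (0 : GA G (Fr R)) := by
    rw [map_mul, h1]
    have := (GA.rmul (GA.map G io (gr.dR r) : GA G (Fr R))).map_smul (io s) x
    change (io s • x) * _ = io s • (x * _) at this
    rw [this, hx, smul_zero]
  have h3 : (⟨y⟩ : GA G R) * gr.dR r = 0 := by
    ext g
    have := congrArg (fun z : GA G (Fr R) => z.f g) h2
    exact io_eq_zero this
  have h4 := gr.untwist hr _ h3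
  rw [h4, map_zero] at h1
  have h5 : ∀ g, x.f g = 0 := by
    intro g
    have := congrArg (fun z : GA G (Fr R) => z.f g) h1
    change 0 = io s * x.f g at this
    exact (mul_eq_zero.1 this.symm).resolve_left (io_ne_zero hs)
  ext g
  exact h5 g

/-- the coaction on the division ring -/
noncomputable def dD : Fr R →+* GA G (Fr R) :=
  Classical.choose (exists_lift ((GA.map G io).comp gr.dR : R →+* GA G (Fr R))
    (fun _ hr => gr.isUnit_dR hr))

theorem dD_io (r : R) : gr.dD (io r) = GA.map G io (gr.dR r) :=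
  Classical.choose_spec (exists_lift ((GA.map G io).comp gr.dR : R →+* GA G (Fr R))
    (fun _ hr => gr.isUnit_dR hr)) r

/-- components on the division ring -/
noncomputable def cD (g : G) : Fr R →+ Fr R where
  toFun d := (gr.dD d).f g
  map_zero' := by rw [map_zero]; rfl
  map_add' x y := by rw [map_add]; rfl

theorem cD_def (g : G) (d : Fr R) : gr.cD g d = (gr.dD d).f g := rfl

theorem cD_io (g : G) (r : R) : gr.cD g (io r) = io (gr.c g r) := by
  rw [cD_def, dD_io]; rfl

theorem cD_one (g : G) : gr.cD g 1 = if g = 1 then 1 else 0 := by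
  rw [cD_def, map_one, GA.one_f]

theorem cD_mul (g : G) (x y : Fr R) : gr.cD g (x * y) = ∑ h, gr.cD h x * gr.cD (h⁻¹ * g) y := by
  rw [cD_def, map_mul, GA.mul_f]; rfl

theorem cD_sum (d : Fr R) : ∑ g, gr.cD g d = d := by
  have : (GA.aug.comp gr.dD) = RingHom.id (Fr R) := by
    apply frac_hom_ext
    intro r
    rw [RingHom.comp_apply, dD_io, GA.aug_apply]
    simp only [GA.map_f, dR_f, RingHom.id_apply]
    rw [← map_sum, gr.c_sum]
  have h := congrArg (fun f : Fr R →+* Fr R => f d) this
  simpa [GA.aug_apply, cD_def] using h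

theorem cD_cD (g h : G) (d : Fr R) : gr.cD g (gr.cD h d) = if g = h then gr.cD h d else 0 := by
  have : ((GA.map G gr.dD).comp gr.dD) = GA.diag.comp gr.dD := by
    apply frac_hom_ext
    intro r
    rw [RingHom.comp_apply, RingHom.comp_apply, dD_io]
    ext a b
    rw [GA.diag_f]
    simp only [GA.map_f, dR_f, dD_io]
    rw [gr.c_c]
    by_cases hab : a = b
    · simp [hab]
    · simp [hab, Ne.symm hab]
  have h1 := congrArg (fun f : Fr R →+* GA G (GA G (Fr R)) => ((f d).f h).f g) this
  simp only [RingHom.comp_apply, GA.map_f] at h1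
  rw [GA.diag_f] at h1
  rw [cD_def, cD_def, h1]
  simp [eq_comm]

theorem cD_eq_zero {d : Fr R} (h : ∀ g, gr.cD g d = 0) : d = 0 := by
  rw [← gr.cD_sum d]
  exact Finset.sum_eq_zero fun g _ => h g

theorem cD_equivariant (Ψ : R →+* R) (ψ : G ≃* G) (hΨ : ∀ g r, gr.c (ψ g) (Ψ r) = Ψ (gr.c g r))
    (ΨD : Fr R →+* Fr R) (hΨD : ∀ r, ΨD (io r) = io (Ψ r)) (g : G) (d : Fr R) :
    gr.cD (ψ g) (ΨD d) = ΨD (gr.cD g d) := by
  have : gr.dD.comp ΨD = ((GA.tw ψ).comp (GA.map G ΨD)).comp gr.dD := by
    apply frac_hom_ext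
    intro r
    rw [RingHom.comp_apply, RingHom.comp_apply, RingHom.comp_apply, hΨD, dD_io, dD_io]
    ext a
    simp only [GA.map_f, dR_f, GA.tw_f]
    rw [hΨD, ← hΨ]
    simp
  have h1 := congrArg (fun f : Fr R →+* GA G (Fr R) => (f d).f (ψ g)) this
  simp only [RingHom.comp_apply, GA.map_f, GA.tw_f, MulEquiv.symm_apply_apply] at h1
  rw [cD_def, cD_def, h1]

end Grad

end Pool.H8
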