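import Pool.Agent.H8.Dist
import Pool.Agent.H8.Graded

set_option autoImplicit false
set_option backward.isDefEq.respectTransparency.types true
set_option linter.unusedSectionVars false

/-! Gradings of the distribution ring. -/

noncomputable section

namespace Pool.H8

namespace Dist

variable {p : ℕ} [Fact p.Prime]
variable {Q : Type*} [TopologicalSpace Q] [CompactSpace Q] [Monoid Q] [ContinuousMul Q]
variable {G : Type*} [Group G] [Fintype G] [DecidableEq G]

/-- indicator functions -/
def ind (p : ℕ) [Fact p.Prime] {Q : Type*} [TopologicalSpace Q]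
    {G : Type*} [DecidableEq G] (π : Q → G) (hπ : IsLocallyConstant π) (g : G) : C(Q, ℤ_[p]) :=
  ⟨fun q => if π q = g then 1 else 0, (hπ.comp fun x => if x = g then (1 : ℤ_[p]) else 0).continuous⟩

theorem ind_apply {Q : Type*} [TopologicalSpace Q] {G : Type*} [DecidableEq G] (π : Q → G)
    (hπ : IsLocallyConstant π) (g : G) (q : Q) :
    ind p π hπ g q = if π q = g then 1 else 0 := rfl

/-- component of a distribution -/
def cmp (π : Q → G) (hπ : IsLocallyConstant π) (g : G) : Dist p Q →+ Dist p Q where
  toFun x := ⟨{
    toFun := fun f => x.l (ind p π hπ g * f)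
    map_add' := fun f f' => by rw [mul_add, map_add]
    map_smul' := fun c f => by rw [RingHom.id_apply, ← map_smul, mul_smul_comm] }⟩
  map_zero' := rfl
  map_add' _ _ := rfl

theorem cmp_l (π : Q → G) (hπ : IsLocallyConstant π) (g : G) (x : Dist p Q) (f : C(Q, ℤ_[p])) :
    (cmp π hπ g x).l f = x.l (ind p π hπ g * f) := rfl

theorem cmul_apply (f g : C(Q, ℤ_[p])) (q : Q) : (f * g) q = f q * g q := rfl

theorem csum_apply {α : Type*} (s : Finset α) (f : α → C(Q, ℤ_[p])) (q : Q) :
    (∑ i ∈ s, f i) q = ∑ i ∈ s, f i q := by
  exact ContinuousMap.sum_apply s f q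

/-- the grading of the distribution ring by a locally constant homomorphism to a finite group -/
def grad (π : Q →* G) (hπ : IsLocallyConstant π) : Grad (Dist p Q) G where
  c g := cmp π hπ g
  c_sum x := by
    apply ext'; intro f
    rw [sum_l]
    simp only [cmp_l]
    rw [← map_sum]
    congr 1
    apply ContinuousMap.ext; intro q
    rw [csum_apply, Finset.sum_eq_single (π q)]
    · rw [cmul_apply, ind_apply, if_pos rfl, one_mul]
    · intro b _ hb
      rw [cmul_apply, ind_apply, if_neg (Ne.symm hb), zero_mul]
    · simp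
  c_c g h x := by
    apply ext'; intro f
    by_cases hgh : g = h
    · subst hgh
      rw [if_pos rfl, cmp_l, cmp_l]
      simp only [cmp_l]
      congr 1
      apply ContinuousMap.ext; intro q
      rw [cmul_apply, cmul_apply, ind_apply]
      split_ifs <;> simp
    · rw [if_neg hgh, cmp_l, cmp_l, zero_l]
      have : ind p π hπ h * (ind p π hπ g * f) = 0 := by
        apply ContinuousMap.ext; intro q
        rw [cmul_apply, cmul_apply, ind_apply, ind_apply]
        by_cases h1 : π q = h
        · rw [if_pos h1, if_neg (fun h2 => hgh (h2.symm.trans h1)), zero_mul, mul_zero]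
          rfl
        · rw [if_neg h1, zero_mul]
          rfl
      rw [this, map_zero]
  c_one g := by
    apply ext'; intro f
    rw [cmp_l, one_l, cmul_apply, ind_apply, map_one]
    by_cases hg : g = 1
    · rw [if_pos hg.symm, if_pos hg, one_mul, one_l]
    · rw [if_neg (Ne.symm hg), if_neg hg, zero_mul, zero_l]
  c_mul g x y := by
    apply ext'; intro f
    rw [cmp_l, sum_l, mul_l]
    have h1 : slice y.l (com (ind p π hπ g * f)) =
        ∑ h, ind p π hπ h * slice (cmp π hπ (h⁻¹ * g) y).l (com f) := by
      apply ContinuousMap.ext; intro q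
      rw [csum_apply, Finset.sum_eq_single (π q)]
      · rw [cmul_apply, ind_apply, if_pos rfl, one_mul, slice_apply, slice_apply, cmp_l]
        congr 1
        apply ContinuousMap.ext; intro q'
        rw [com_curry, cmul_apply, cmul_apply, com_curry, ind_apply, ind_apply, map_mul]
        have : (π q * π q' = g) ↔ (π q' = (π q)⁻¹ * g) := by
          rw [eq_inv_mul_iff_mul_eq]
        simp only [this]
      · intro b _ hb
        rw [cmul_apply, ind_apply, if_neg (Ne.symm hb), zero_mul]
      · simp
    rw [h1, map_sum]
    refine Finset.sum_congr rfl fun h _ => ?_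
    rw [mul_l]
    rfl

theorem grad_c (π : Q →* G) (hπ : IsLocallyConstant π) (g : G) (x : Dist p Q) :
    (grad π hπ).c g x = cmp π hπ g x := rfl

theorem grad_push (π : Q →* G) (hπ : IsLocallyConstant π) (φ : Q →* Q) (hφ : Continuous φ)
    (ψ : G ≃* G) (h : ∀ q, π (φ q) = ψ (π q)) (g : G) (x : Dist p Q) :
    (grad π hπ).c (ψ g) (push φ hφ x) = push φ hφ ((grad π hπ).c g x) := by
  apply ext'; intro f
  rw [grad_c, grad_c, cmp_l, push_l, push_l, cmp_l]
  congr 1
  apply ContinuousMap.ext; intro q
  change ind p π hπ (ψ g) (φ q) * f (φ q) = ind p π hπ g q * f (φ q)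
  rw [ind_apply, ind_apply, h]
  simp

end Dist

end Pool.H8
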