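import Pool.Agent.H8.Struct
import Pool.Agent.H8.DistGrad
import Pool.Agent.H8.Descent

set_option autoImplicit false
set_option backward.isDefEq.respectTransparency.types true
set_option linter.unusedSectionVars false

/-! Endomorphisms close to the identity, and descent for distributions. -/

noncomputable section

namespace Pool.H8

open Finset WithZero

open scoped nonZeroDivisors

variable {p : ℕ} [Fact p.Prime]
variable {E : Type*} [Fintype E] [DecidableEq E]

namespace Coord

variable {Q : Type*} [TopologicalSpace Q] [Monoid Q] [CompactSpace Q] [ContinuousMul Q]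
  (K : Coord p Q E)

/-- an endomorphism that is linear in the coordinates and close to the identity -/
structure IsClose (φ : Q →* Q) (s : E → E → ℤ_[p]) : Prop where
  lin : ∀ x e, K.co (φ x) e = ∑ e', s e e' * K.co x e'
  up : ∀ e e', K.ω e < K.ω e' → s e e' = 0
  diag : ∀ e e', K.ω e' = K.ω e → (p : ℤ_[p]) ^ 2 ∣ s e e' - if e = e' then 1 else 0
  two : ∀ e, 2 ≤ K.ω e
  gap : ∀ e e', K.ω e' < K.ω e → K.ω e' + 2 ≤ K.ω e

theorem IsClose.continuous {φ : Q →* Q} {s : E → E → ℤ_[p]} (h : K.IsClose φ s) :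
    Continuous φ := by
  have h1 : Continuous fun x => K.co (φ x) := by
    apply continuous_pi
    intro e
    simp only [h.lin]
    have := K.co.continuous
    fun_prop
  have h2 : (φ : Q → Q) = fun x => K.co.symm (K.co (φ x)) := by
    funext x; simp
  rw [h2]
  exact K.co.symm.continuous.comp h1

/-- the linear map on coordinates -/
def linS (s : E → E → ℤ_[p]) : C(E → ℤ_[p], E → ℤ_[p]) where
  toFun x := fun e => ∑ e', s e e' * x e'
  continuous_toFun := by fun_prop

theorem IsClose.push_sub_mem {φ : Q →* Q} {s : E → E → ℤ_[p]} (h : K.IsClose φ s)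
    (hφ : Continuous φ) (N : ℕ) (x : Dist p Q) (hx : x ∈ K.Fil N) :
    Dist.push φ hφ x - x ∈ K.Fil (N + 2) := by
  intro α
  have h1 : CongS K.ω (wt K.ω α) ((bb p α).comp (linS s)) (bb p α) := by
    apply bb_comp_congS K.ω h.two
    intro e
    have hd : ∀ e', ∃ t : ℤ_[p], K.ω e' = K.ω e → s e e' - (if e = e' then 1 else 0) =
        (p : ℤ_[p]) ^ 2 * t := by
      intro e'
      by_cases he : K.ω e' = K.ω e
      · obtain ⟨t, ht⟩ := h.diag e e' he
        exact ⟨t, fun _ => ht⟩
      · exact ⟨0, fun h => absurd h he⟩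
    choose t ht using hd
    refine ⟨∑ e', if K.ω e' = K.ω e then t e' • xe p e' else 0, ?_,
      ∑ e', if K.ω e' < K.ω e then s e e' • xe p e' else 0, ?_, ?_⟩
    · refine Submodule.sum_mem _ fun e' _ => ?_
      split_ifs with h2
      · rw [← h2]
        exact Submodule.smul_mem _ _ (xe_mem e')
      · exact Submodule.zero_mem _
    · refine Submodule.sum_mem _ fun e' _ => ?_
      split_ifs with h2
      · have := h.gap e e' h2
        exact Submodule.smul_mem _ _ (PP_mono (by omega) (xe_mem e'))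
      · exact Submodule.zero_mem _
    · apply ContinuousMap.ext; intro y
      rw [ContinuousMap.add_apply, ContinuousMap.add_apply, ContinuousMap.smul_apply,
        ContinuousMap.sum_apply, ContinuousMap.sum_apply, smul_eq_mul]
      change ∑ e', s e e' * y e' = _
      have h3 : y e = ∑ e', (if e = e' then 1 else 0) * y e' := by simp
      rw [xe_apply, h3, Finset.mul_sum, ← Finset.sum_add_distrib, ← Finset.sum_add_distrib]
      refine Finset.sum_congr rfl fun e' _ => ?_
      rcases lt_trichotomy (K.ω e') (K.ω e) with h2 | h2 | h2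
      · have hne : ¬ (e = e') := fun h4 => by rw [h4] at h2; exact lt_irrefl _ h2
        rw [if_neg hne, if_neg (c := K.ω e' = K.ω e) h2.ne, if_pos (c := K.ω e' < K.ω e) h2,
          ContinuousMap.smul_apply, smul_eq_mul, xe_apply, ContinuousMap.zero_apply]
        ring
      · rw [if_pos (c := K.ω e' = K.ω e) h2, if_neg (c := K.ω e' < K.ω e) (by omega)]
        have h5 := ht e' h2
        have h6 : s e e' = (if e = e' then 1 else 0) + (p : ℤ_[p]) ^ 2 * t e' := by
          rw [← h5]; ring
        rw [h6, ContinuousMap.smul_apply, smul_eq_mul, xe_apply, ContinuousMap.zero_apply]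
        ring
      · have hne : ¬ (e = e') := fun h4 => by rw [h4] at h2; exact lt_irrefl _ h2
        rw [if_neg hne, if_neg (c := K.ω e' = K.ω e) h2.ne',
          if_neg (c := K.ω e' < K.ω e) (by omega), h.up e e' h2, ContinuousMap.zero_apply]
        ring
  obtain ⟨a, ha, b, hb, hab⟩ := h1.d
  have h2 : (Dist.push φ hφ x - x).l (K.B α) = x.l (K.pb a) + (p : ℤ_[p]) ^ 2 * x.l (K.pb b) := by
    rw [Dist.sub_l, Dist.push_l, ← map_sub, ← smul_eq_mul, ← map_smul, ← map_add]
    congr 1
    have h3 : (K.B α).comp ⟨φ, hφ⟩ = K.pb ((bb p α).comp (linS s)) := by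
      apply ContinuousMap.ext; intro q
      change bb p α (K.co (φ q)) = bb p α (linS s (K.co q))
      congr 1
      funext e
      exact h.lin q e
    rw [h3]
    have h4 : K.pb ((bb p α).comp (linS s)) - K.B α =
        K.pb ((bb p α).comp (linS s) - bb p α) := rfl
    rw [h4, hab]
    rfl
  rw [h2]
  refine dvd_add ?_ ?_
  · rcases Nat.lt_or_ge (wt K.ω α) 2 with h3 | h3
    · rw [show wt K.ω α - 1 = 0 by omega, PP_zero, Submodule.mem_bot] at ha
      rw [ha]
      have : K.pb 0 = 0 := rfl
      rw [this, map_zero]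
      exact dvd_zero _
    · rw [show wt K.ω α - 1 = wt K.ω α - 2 + 1 by omega] at ha
      exact (pow_dvd_pow _ (by omega)).trans (K.Fil_PP hx ha)
  · have h3 := mul_dvd_mul_left ((p : ℤ_[p]) ^ 2) (K.Fil_PP hx hb)
    rw [← pow_add] at h3
    exact (pow_dvd_pow _ (by omega)).trans h3

theorem natPrime_notMem_Fil (l : ℕ) (hl : l.Prime) : (l : Dist p Q) ∉ K.Fil 2 := by
  intro h
  have h1 := h 0
  rw [wt_zero, Nat.sub_zero, Dist.natCast_l] at h1
  have h2 : K.B 0 1 = 1 := by
    rw [B, bb_zero]; rfl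
  rw [h2, mul_one] at h1
  have h3 : p ^ 2 ∣ l := by
    rw [dvd_iff_norm] at h1
    have h4 := (PadicInt.norm_int_le_pow_iff_dvd (p := p) (k := (l : ℤ)) (n := 2)).1
      (by exact_mod_cast h1)
    exact_mod_cast h4
  have hp := (Fact.out : p.Prime)
  rcases (Nat.dvd_prime hl).1 h3 with h4 | h4
  · have := Nat.one_lt_pow (two_ne_zero) hp.one_lt
    omega
  · have h5 : p ∣ l := (dvd_pow_self p two_ne_zero).trans h3
    rcases (Nat.dvd_prime hl).1 h5 with h6 | h6
    · exact hp.one_lt.ne' h6
    · have h7 : p ^ 2 = p := h4.trans h6.symm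
      have h8 : p < p ^ 2 := by
        rw [pow_two]
        exact lt_mul_of_one_lt_right hp.pos hp.one_lt
      omega

/-- descent for distributions -/
theorem dist_descent {G : Type*} [Group G] [Fintype G] [DecidableEq G]
    (π : Q →* G) (hπ : IsLocallyConstant π)
    (φ : Q →* Q) (hφ : Continuous φ) (s : E → E → ℤ_[p]) (hs : K.IsClose φ s)
    (ψ : G ≃* G) (hψ : ∀ q, π (φ q) = ψ (π q))
    (Fb Ub : Subgroup G) (hfix : ∀ g ∈ Fb, ψ g = g → g ∈ Ub)
    {n r : ℕ} (hr : n < r) (d : Fin r → Fin n → Dist p Q)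
    (hd : ∀ i j g, g ∉ Fb → (Dist.grad π hπ).c g (d i j) = 0)
    (J : Fin n → Fin n → Dist p Q)
    (hJ : ∀ i j, d i j = ∑ k, Dist.push φ hφ (d i k) * J k j) :
    ∃ (x : G) (b : Fin r → Dist p Q), (∃ i, b i ≠ 0) ∧
      (∀ i g, x⁻¹ * g ∉ Ub → (Dist.grad π hπ).c g (b i) = 0) ∧
      ∀ j, ∑ i, b i * d i j = 0 := by
  have := K.isNoetherianRing
  have := K.isDomain
  obtain ⟨hOre⟩ := nonempty_oreSet_of_strongRankCondition (R := Dist p Q)
  obtain ⟨v, hadd, hv0, hneg, hFil⟩ := K.exists_val
  have hε : (exp (-2 : ℤ) : ℤᵐ⁰) < 1 := by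
    rw [← exp_zero, exp_lt_exp]; norm_num
  have hvΨ : ∀ y, v (Dist.push φ hφ y - y) ≤ exp (-2 : ℤ) * v y := by
    intro y
    by_cases hy : y = 0
    · rw [hy, map_zero, sub_zero, (hv0 0).2 rfl, mul_zero]
    -- the order of y
    obtain ⟨N, hN, hN'⟩ : ∃ N, y ∈ K.Fil N ∧ y ∉ K.Fil (N+1) := by
      by_contra hcon
      push Not at hcon
      apply hy
      apply K.sep
      intro N
      induction N with
      | zero => rw [K.Fil_zero]; trivial
      | succ N ih => exact hcon N ih
    have h1 := (hFil (N+2) _).1 (hs.push_sub_mem K hφ N y hN)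
    have h2 : v y = exp (-(N : ℤ)) := by
      apply le_antisymm ((hFil N y).1 hN)
      have h3 : ¬ v y ≤ exp (-((N + 1 : ℕ) : ℤ)) := fun h => hN' ((hFil (N+1) y).2 h)
      push Not at h3
      have hvy : v y ≠ 0 := fun h => hy ((hv0 y).1 h)
      have h4 : v y = exp (log (v y)) := (exp_log hvy).symm
      rw [h4, exp_lt_exp] at h3
      rw [h4, exp_le_exp]
      push_cast at h3
      omega
    rw [h2, ← exp_add]
    refine h1.trans (le_of_eq ?_)
    congr 1
    push_cast
    ring
  have hinj : Function.Injective (Dist.push φ hφ : Dist p Q →+* Dist p Q) := by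
    rw [injective_iff_map_eq_zero]
    intro y hy
    by_contra hne
    have h1 := hvΨ y
    rw [hy, zero_sub, hneg] at h1
    have hvy : v y ≠ 0 := fun h => hne ((hv0 y).1 h)
    have h2 := mul_le_mul_left h1 (v y)⁻¹
    rw [mul_assoc, mul_inv_cancel₀ hvy, mul_one] at h2
    exact absurd hε (not_lt.2 h2)
  exact descent (Dist.grad π hπ) (Dist.push φ hφ) hinj ψ
    (fun g y => Dist.grad_push π hπ φ hφ ψ hψ g y) v hadd hv0 hneg (exp (-2 : ℤ)) hε hvΨ
    (fun l hl => by
      have h1 : ¬ v (l : Dist p Q) ≤ exp (-((2 : ℕ) : ℤ)) := fun h =>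
        K.natPrime_notMem_Fil l hl ((hFil 2 _).2 h)
      push Not at h1
      exact h1) Fb Ub hfix hr d hd J hJ

end Coord

end Pool.H8
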