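import Pool.Agent.H8.Poly

set_option autoImplicit false
set_option backward.isDefEq.respectTransparency.types true
set_option linter.unusedSectionVars false

/-! Substitutions in polynomial functions, up to lower order terms. -/

noncomputable section

namespace Pool.H8

open Finset

variable {p : ℕ} [Fact p.Prime]
variable {E : Type*} [Fintype E] [DecidableEq E]

/-- the binomial coefficient of a function -/
abbrev mc {X : Type*} [TopologicalSpace X] (l : ℕ) (f : C(X, ℤ_[p])) : C(X, ℤ_[p]) :=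
  (mahler l).comp f

theorem mc_zero {X : Type*} [TopologicalSpace X] (f : C(X, ℤ_[p])) : mc 0 f = 1 := by
  apply ContinuousMap.ext; intro x
  exact mahler_zero' _

theorem mc_succ {X : Type*} [TopologicalSpace X] (l : ℕ) (f : C(X, ℤ_[p])) :
    ((l : ℤ_[p]) + 1) • mc (l+1) f = f * mc l f - (l : ℤ_[p]) • mc l f := by
  apply ContinuousMap.ext; intro x
  have := mahler_succ (f x) l
  rw [ContinuousMap.smul_apply, ContinuousMap.sub_apply, ContinuousMap.mul_apply,
    ContinuousMap.smul_apply, smul_eq_mul, smul_eq_mul]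
  simp only [ContinuousMap.comp_apply]
  rw [this]; ring

theorem mc_add {X : Type*} [TopologicalSpace X] (l : ℕ) (f g : C(X, ℤ_[p])) :
    mc l (f + g) = ∑ ij ∈ antidiagonal l, mc ij.1 f * mc ij.2 g := by
  apply ContinuousMap.ext; intro x
  rw [ContinuousMap.sum_apply]
  simp only [ContinuousMap.mul_apply, ContinuousMap.comp_apply, ContinuousMap.add_apply,
    mahler_apply]
  exact Ring.add_choose_eq l (Commute.all _ _)

theorem succ_cast_ne (l : ℕ) : ((l : ℤ_[p]) + 1) ≠ 0 := by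
  exact_mod_cast Nat.succ_ne_zero l

/-- congruence modulo lower order terms -/
structure Cong (ω : E → ℕ) (s : ℕ) (f g : C(E → ℤ_[p], ℤ_[p])) : Prop where
  l : f ∈ PP p ω (s + 1)
  r : g ∈ PP p ω (s + 1)
  d : f - g ∈ PP p ω s

theorem Cong.mul {ω : E → ℕ} {s t : ℕ} {f g f' g' : C(E → ℤ_[p], ℤ_[p])}
    (h : Cong ω s f g) (h' : Cong ω t f' g') : Cong ω (s + t) (f * f') (g * g') := by
  refine ⟨?_, ?_, ?_⟩
  · rw [add_assoc]; exact PP_mul h.l h'.l
  · rw [add_assoc]; exact PP_mul h.r h'.r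
  · have e : f * f' - g * g' = f' * (f - g) + g * (f' - g') := by ring
    rw [e]
    refine Submodule.add_mem _ ?_ (PP_mul h.r h'.d)
    rw [add_comm s t]
    exact PP_mul h'.l h.d

theorem Cong.mc {ω : E → ℕ} {s : ℕ} {f g : C(E → ℤ_[p], ℤ_[p])}
    (h : Cong ω s f g) (l : ℕ) : Cong ω (l * s) (mc l f) (mc l g) := by
  refine ⟨mahler_comp_mem h.l l, mahler_comp_mem h.r l, ?_⟩
  induction l with
  | zero =>
    rw [mc_zero, mc_zero, sub_self]
    exact Submodule.zero_mem _
  | succ l ih =>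
    apply PP_sat (succ_cast_ne l)
    have e : ((l : ℤ_[p]) + 1) • (H8.mc (l+1) f - H8.mc (l+1) g) =
        H8.mc l f * (f - g) + g * (H8.mc l f - H8.mc l g) -
          (l : ℤ_[p]) • (H8.mc l f - H8.mc l g) := by
      rw [smul_sub, mc_succ, mc_succ]
      rw [smul_sub]
      ring
    rw [e, Nat.succ_mul]
    refine Submodule.sub_mem _ (Submodule.add_mem _ (PP_mul (mahler_comp_mem h.l l) h.d) ?_)
      (Submodule.smul_mem _ _ (PP_mono (by omega) ih))
    rw [add_comm (l * s) s]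
    exact PP_mul h.r ih

theorem Cong.prod {ω : E → ℕ} {κ : Type*} (S : Finset κ) (f g : κ → C(E → ℤ_[p], ℤ_[p]))
    (s : κ → ℕ) (h : ∀ i ∈ S, Cong ω (s i) (f i) (g i)) :
    Cong ω (∑ i ∈ S, s i) (∏ i ∈ S, f i) (∏ i ∈ S, g i) := by
  classical
  induction S using Finset.induction_on with
  | empty =>
    simp only [Finset.sum_empty, Finset.prod_empty]
    exact ⟨one_mem_PP (by omega), one_mem_PP (by omega), by rw [sub_self]; exact Submodule.zero_mem _⟩
  | insert a S ha ih =>
    rw [Finset.prod_insert ha, Finset.prod_insert ha, Finset.sum_insert ha]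
    exact (h a (Finset.mem_insert_self _ _)).mul
      (ih fun i hi => h i (Finset.mem_insert_of_mem hi))

/-- composition of a product of binomials with a map given by coordinates -/
theorem bb_comp {E' : Type*} [Fintype E'] (α : E → ℕ) (T : C(E' → ℤ_[p], E → ℤ_[p])) :
    (bb p α).comp T = ∏ e, mc (α e) ((xe p e).comp T) := by
  apply ContinuousMap.ext; intro x
  rw [ContinuousMap.prod_apply, ContinuousMap.comp_apply, bb_apply]
  rfl

theorem bb_comp_cong {E' : Type*} [Fintype E'] [DecidableEq E'] (ω : E → ℕ) (ω' : E' → ℕ)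
    (α : E → ℕ) (T T0 : C(E' → ℤ_[p], E → ℤ_[p]))
    (h : ∀ e, Cong ω' (ω e) ((xe p e).comp T) ((xe p e).comp T0)) :
    Cong ω' (wt ω α) ((bb p α).comp T) ((bb p α).comp T0) := by
  rw [bb_comp, bb_comp]
  exact Cong.prod _ _ _ _ fun e _ => (h e).mc (α e)

/-- congruence modulo terms of order lower by two, or divisible by `p ^ 2` -/
structure CongS (ω : E → ℕ) (s : ℕ) (f g : C(E → ℤ_[p], ℤ_[p])) : Prop where
  l : f ∈ PP p ω (s + 1)
  r : g ∈ PP p ω (s + 1)
  d : ∃ a ∈ PP p ω (s - 1), ∃ b ∈ PP p ω (s + 1), f - g = a + ((p : ℤ_[p]) ^ 2) • b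

theorem PP_mul_pred {ω : E → ℕ} {s t : ℕ} {f g : C(E → ℤ_[p], ℤ_[p])} (hf : f ∈ PP p ω (t + 1))
    (hg : g ∈ PP p ω (s - 1)) : f * g ∈ PP p ω (t + s - 1) := by
  rcases Nat.eq_zero_or_pos s with rfl | hs
  · rw [Nat.zero_sub, PP_zero] at hg
    rw [(Submodule.mem_bot _).1 hg, mul_zero]
    exact Submodule.zero_mem _
  · rw [show t + s - 1 = t + (s - 1) by omega]
    exact PP_mul hf hg

theorem CongS.mul {ω : E → ℕ} {s t : ℕ} {f g f' g' : C(E → ℤ_[p], ℤ_[p])}
    (h : CongS ω s f g) (h' : CongS ω t f' g') : CongS ω (s + t) (f * f') (g * g') := by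
  refine ⟨?_, ?_, ?_⟩
  · rw [add_assoc]; exact PP_mul h.l h'.l
  · rw [add_assoc]; exact PP_mul h.r h'.r
  · obtain ⟨a, ha, b, hb, hab⟩ := h.d
    obtain ⟨a', ha', b', hb', hab'⟩ := h'.d
    refine ⟨f' * a + g * a', ?_, f' * b + g * b', ?_, ?_⟩
    · refine Submodule.add_mem _ ?_ (PP_mul_pred h.r ha')
      rw [add_comm s t]
      exact PP_mul_pred h'.l ha
    · refine Submodule.add_mem _ ?_ ?_
      · rw [add_comm s t, add_assoc]; exact PP_mul h'.l hb
      · rw [add_assoc]; exact PP_mul h.r hb'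
    · have e : f * f' - g * g' = f' * (f - g) + g * (f' - g') := by ring
      rw [e, hab, hab', mul_add, mul_add, mul_smul_comm, mul_smul_comm, smul_add]
      abel

theorem CongS.prod {ω : E → ℕ} {κ : Type*} (S : Finset κ) (f g : κ → C(E → ℤ_[p], ℤ_[p]))
    (s : κ → ℕ) (h : ∀ i ∈ S, CongS ω (s i) (f i) (g i)) :
    CongS ω (∑ i ∈ S, s i) (∏ i ∈ S, f i) (∏ i ∈ S, g i) := by
  classical
  induction S using Finset.induction_on with
  | empty =>
    simp only [Finset.sum_empty, Finset.prod_empty]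
    exact ⟨one_mem_PP (by omega), one_mem_PP (by omega), 0, Submodule.zero_mem _, 0,
      Submodule.zero_mem _, by simp⟩
  | insert a S ha ih =>
    rw [Finset.prod_insert ha, Finset.prod_insert ha, Finset.sum_insert ha]
    exact (h a (Finset.mem_insert_self _ _)).mul
      (ih fun i hi => h i (Finset.mem_insert_of_mem hi))

/-- changing the argument by a term of order lower by two -/
theorem mc_sub_mem {ω : E → ℕ} {s : ℕ} (hs : 1 ≤ s) {f g : C(E → ℤ_[p], ℤ_[p])}
    (hf : f ∈ PP p ω (s + 1)) (hg : g ∈ PP p ω (s + 1)) (hd : f - g ∈ PP p ω (s - 1)) (l : ℕ) :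
    mc l f - mc l g ∈ PP p ω (l * s - 1) := by
  induction l with
  | zero =>
    rw [mc_zero, mc_zero, sub_self]
    exact Submodule.zero_mem _
  | succ l ih =>
    apply PP_sat (succ_cast_ne l)
    have e : ((l : ℤ_[p]) + 1) • (mc (l+1) f - mc (l+1) g) =
        mc l f * (f - g) + g * (mc l f - mc l g) - (l : ℤ_[p]) • (mc l f - mc l g) := by
      rw [smul_sub, mc_succ, mc_succ]
      rw [smul_sub]
      ring
    rw [e, Nat.succ_mul]
    refine Submodule.sub_mem _ (Submodule.add_mem _ (PP_mul_pred (mahler_comp_mem hf l) hd) ?_)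
      (Submodule.smul_mem _ _ (PP_mono (by omega) ih))
    rw [add_comm (l * s) s]
    exact PP_mul_pred hg ih

/-- the leading term of `binom (p ^ 2 L) k` -/
theorem mc_sq_mem {ω : E → ℕ} {s : ℕ} (hs : 2 ≤ s) {L : C(E → ℤ_[p], ℤ_[p])}
    (hL : L ∈ PP p ω (s + 1)) (k : ℕ) :
    mc k (((p : ℤ_[p]) ^ 2) • L) - (((p : ℤ_[p]) ^ 2) ^ k) • mc k L ∈ PP p ω (k * s - 1) := by
  induction k with
  | zero =>
    rw [mc_zero, mc_zero, pow_zero, one_smul, sub_self]
    exact Submodule.zero_mem _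
  | succ k ih =>
    apply PP_sat (succ_cast_ne k)
    set c : ℤ_[p] := (p : ℤ_[p]) ^ 2
    have e : ((k : ℤ_[p]) + 1) • (mc (k+1) (c • L) - (c ^ (k+1)) • mc (k+1) L) =
        c • (L * (mc k (c • L) - (c ^ k) • mc k L)) - (k : ℤ_[p]) • mc k (c • L) +
          ((k : ℤ_[p]) * c ^ (k+1)) • mc k L := by
      rw [smul_sub, mc_succ, smul_comm, mc_succ]
      apply ContinuousMap.ext; intro x
      simp only [ContinuousMap.sub_apply, ContinuousMap.add_apply, ContinuousMap.smul_apply,
        ContinuousMap.mul_apply, smul_eq_mul]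
      ring
    rw [e, Nat.succ_mul]
    have hcL : c • L ∈ PP p ω (s + 1) := Submodule.smul_mem _ _ hL
    refine Submodule.add_mem _ (Submodule.sub_mem _ (Submodule.smul_mem _ _ ?_)
      (Submodule.smul_mem _ _ (PP_mono ?_ (mahler_comp_mem hcL k))))
      (Submodule.smul_mem _ _ (PP_mono ?_ (mahler_comp_mem hL k)))
    · rw [add_comm (k * s) s]
      exact PP_mul_pred hL ih
    · omega
    · omega

theorem mc_congS {ω : E → ℕ} {s : ℕ} (hs : 2 ≤ s) {x L c : C(E → ℤ_[p], ℤ_[p])}
    (hx : x ∈ PP p ω (s + 1)) (hL : L ∈ PP p ω (s + 1)) (hc : c ∈ PP p ω (s - 1)) (l : ℕ) :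
    CongS ω (l * s) (mc l (x + ((p : ℤ_[p]) ^ 2) • L + c)) (mc l x) := by
  set q : ℤ_[p] := (p : ℤ_[p]) ^ 2
  have hqL : q • L ∈ PP p ω (s + 1) := Submodule.smul_mem _ _ hL
  have hxL : x + q • L ∈ PP p ω (s + 1) := Submodule.add_mem _ hx hqL
  have hxLc : x + q • L + c ∈ PP p ω (s + 1) := Submodule.add_mem _ hxL (PP_mono (by omega) hc)
  refine ⟨mahler_comp_mem hxLc l, mahler_comp_mem hx l, ?_⟩
  have h1 : mc l (x + q • L + c) - mc l (x + q • L) ∈ PP p ω (l * s - 1) :=
    mc_sub_mem (by omega) hxLc hxL (by rwa [add_sub_cancel_left]) l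
  -- the second difference
  have h2 : ∃ a ∈ PP p ω (l * s - 1), ∃ b ∈ PP p ω (l * s + 1),
      mc l (x + q • L) - mc l x = a + q • b := by
    have e1 : mc l (x + q • L) - mc l x =
        ∑ ij ∈ (antidiagonal l).erase (l, 0), mc ij.1 x * mc ij.2 (q • L) := by
      rw [mc_add, ← Finset.add_sum_erase (antidiagonal l) _ (a := (l, 0)) (by simp)]
      dsimp only
      rw [mc_zero, mul_one, add_sub_cancel_left]
    rw [e1]
    have h3 : ∀ ij ∈ (antidiagonal l).erase (l, 0), ∃ a ∈ PP p ω (l * s - 1),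
        ∃ b ∈ PP p ω (l * s + 1), mc ij.1 x * mc ij.2 (q • L) = a + q • b := by
      intro ij hij
      obtain ⟨i, j⟩ := ij
      have hij' := Finset.mem_erase.1 hij
      have hsum : i + j = l := by simpa using hij'.2
      have hj : 1 ≤ j := by
        rcases Nat.eq_zero_or_pos j with h0 | h0
        · exfalso
          apply hij'.1
          rw [h0, add_zero] at hsum
          rw [h0, hsum]
        · exact h0
      refine ⟨mc i x * (mc j (q • L) - (q ^ j) • mc j L), ?_, mc i x * ((q ^ (j-1)) • mc j L), ?_, ?_⟩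
      · have := PP_mul_pred (mahler_comp_mem hx i) (mc_sq_mem hs hL j)
        rwa [← add_mul, hsum] at this
      · have := PP_mul (mahler_comp_mem hx i) (Submodule.smul_mem _ (q ^ (j-1)) (mahler_comp_mem hL j))
        rwa [← add_assoc, ← add_mul, hsum] at this
      · dsimp only
        have : q ^ j = q * q ^ (j - 1) := by
          rw [← pow_succ']
          congr 1; omega
        rw [mul_smul_comm, mul_sub, mul_smul_comm, smul_smul, this]
        abel
    choose! a ha b hb hab using h3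
    refine ⟨∑ ij ∈ (antidiagonal l).erase (l, 0), a ij, Submodule.sum_mem _ ha,
      ∑ ij ∈ (antidiagonal l).erase (l, 0), b ij, Submodule.sum_mem _ hb, ?_⟩
    rw [Finset.smul_sum, ← Finset.sum_add_distrib]
    exact Finset.sum_congr rfl hab
  obtain ⟨a, ha, b, hb, hab⟩ := h2
  refine ⟨mc l (x + q • L + c) - mc l (x + q • L) + a, Submodule.add_mem _ h1 ha, b, hb, ?_⟩
  have e2 : mc l (x + q • L + c) - mc l x = (mc l (x + q • L + c) - mc l (x + q • L)) +
      (mc l (x + q • L) - mc l x) := by abel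
  rw [e2, hab, ← add_assoc]

/-- the effect of a substitution close to the identity -/
theorem bb_comp_congS (ω : E → ℕ) (hω : ∀ e, 2 ≤ ω e)
    (α : E → ℕ) (T : C(E → ℤ_[p], E → ℤ_[p]))
    (h : ∀ e, ∃ L ∈ PP p ω (ω e + 1), ∃ c ∈ PP p ω (ω e - 1),
      (xe p e).comp T = xe p e + ((p : ℤ_[p]) ^ 2) • L + c) :
    CongS ω (wt ω α) ((bb p α).comp T) (bb p α) := by
  rw [bb_comp]
  refine CongS.prod _ _ _ _ fun e _ => ?_
  obtain ⟨L, hL, c, hc, hT⟩ := h e
  rw [hT]
  exact mc_congS (hω e) (xe_mem e) hL hc (α e)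

end Pool.H8
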