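import Pool.Agent.H8.Dist
import Pool.Agent.H8.Poly2

set_option autoImplicit false
set_option backward.isDefEq.respectTransparency.types true
set_option linter.unusedSectionVars false

/-! Coordinates on a compact monoid and the resulting filtration of its distribution ring. -/

noncomputable section

namespace Pool.H8

open Finset

/-- weighted coordinates on a compact monoid -/
structure Coord (p : ℕ) [Fact p.Prime] (Q : Type*) [TopologicalSpace Q] [Monoid Q]
    (E : Type*) [Fintype E] [DecidableEq E] where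
  /-- the coordinates -/
  co : Q ≃ₜ (E → ℤ_[p])
  /-- the weights -/
  ω : E → ℕ
  ω_pos : ∀ e, 1 ≤ ω e
  /-- the deviation of the product from addition of coordinates -/
  c : E → C((E ⊕ E) → ℤ_[p], ℤ_[p])
  c_mem : ∀ e, c e ∈ PP p (Sum.elim ω ω) (ω e)
  co_mul : ∀ x y e, co (x * y) e = co x e + co y e + c e (Sum.elim (co x) (co y))

namespace Coord

variable {p : ℕ} [Fact p.Prime] {Q : Type*} [TopologicalSpace Q] [Monoid Q]
  [CompactSpace Q] [ContinuousMul Q]
  {E : Type*} [Fintype E] [DecidableEq E] (K : Coord p Q E)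

/-- pull back a function of the coordinates -/
def pb (f : C(E → ℤ_[p], ℤ_[p])) : C(Q, ℤ_[p]) := f.comp ⟨K.co, K.co.continuous⟩

theorem pb_apply (f : C(E → ℤ_[p], ℤ_[p])) (q : Q) : K.pb f q = f (K.co q) := rfl

/-- pull back as a linear map -/
def pbL : C(E → ℤ_[p], ℤ_[p]) →ₗ[ℤ_[p]] C(Q, ℤ_[p]) where
  toFun := K.pb
  map_add' _ _ := rfl
  map_smul' _ _ := rfl

/-- the basis functions -/
def B (α : E → ℕ) : C(Q, ℤ_[p]) := K.pb (bb p α)

/-- the filtration -/
def Fil (N : ℕ) : AddSubgroup (Dist p Q) where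
  carrier := {x | ∀ α, (p : ℤ_[p]) ^ (N - wt K.ω α) ∣ x.l (K.B α)}
  zero_mem' := fun α => by rw [Dist.zero_l]; exact dvd_zero _
  add_mem' := fun {x y} hx hy α => by rw [Dist.add_l]; exact dvd_add (hx α) (hy α)
  neg_mem' := fun {x} hx α => by rw [Dist.neg_l]; exact (dvd_neg).2 (hx α)

theorem mem_Fil {N : ℕ} {x : Dist p Q} :
    x ∈ K.Fil N ↔ ∀ α, (p : ℤ_[p]) ^ (N - wt K.ω α) ∣ x.l (K.B α) := Iff.rfl

theorem Fil_zero : K.Fil 0 = ⊤ := by
  rw [eq_top_iff]
  intro x _ α
  rw [Nat.zero_sub, pow_zero]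
  exact one_dvd _

theorem Fil_succ_le (N : ℕ) : K.Fil (N + 1) ≤ K.Fil N := fun _ hx α =>
  (pow_dvd_pow _ (by omega)).trans (hx α)

theorem Fil_PP {N s : ℕ} {x : Dist p Q} (hx : x ∈ K.Fil N) {f : C(E → ℤ_[p], ℤ_[p])}
    (hf : f ∈ PP p K.ω (s + 1)) : (p : ℤ_[p]) ^ (N - s) ∣ x.l (K.pb f) := by
  have := PP_induction hf (Submodule.comap (x.l.comp K.pbL)
    (Ideal.span {(p : ℤ_[p]) ^ (N - s)})) (by
      intro α hα
      rw [Submodule.mem_comap]
      apply Ideal.mem_span_singleton.2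
      exact (pow_dvd_pow _ (by omega)).trans (hx α))
  rw [Submodule.mem_comap] at this
  exact Ideal.mem_span_singleton.1 this

/-- coordinates on the square -/
def cc : C(Q × Q, (E ⊕ E) → ℤ_[p]) where
  toFun q := Sum.elim (K.co q.1) (K.co q.2)
  continuous_toFun := by
    apply continuous_pi
    intro e
    rcases e with e | e
    · exact (continuous_apply e).comp (K.co.continuous.comp continuous_fst)
    · exact (continuous_apply e).comp (K.co.continuous.comp continuous_snd)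

/-- pull back of functions to the square -/
def ccL : C((E ⊕ E) → ℤ_[p], ℤ_[p]) →ₗ[ℤ_[p]] C(Q × Q, ℤ_[p]) where
  toFun F := F.comp K.cc
  map_add' _ _ := rfl
  map_smul' _ _ := rfl

/-- the pairing of two distributions with a function on the square -/
def pair (x y : Dist p Q) : C((E ⊕ E) → ℤ_[p], ℤ_[p]) →ₗ[ℤ_[p]] ℤ_[p] :=
  x.l.comp ((slice y.l).comp K.ccL)

theorem pair_apply (x y : Dist p Q) (F : C((E ⊕ E) → ℤ_[p], ℤ_[p])) :
    K.pair x y F = x.l (slice y.l (F.comp K.cc)) := rfl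

theorem pair_bb (x y : Dist p Q) (γ : (E ⊕ E) → ℕ) :
    K.pair x y (bb p γ) = x.l (K.B (fun e => γ (Sum.inl e))) * y.l (K.B (fun e => γ (Sum.inr e))) := by
  rw [pair_apply]
  have h : slice y.l ((bb p γ).comp K.cc) =
      (y.l (K.B (fun e => γ (Sum.inr e)))) • K.B (fun e => γ (Sum.inl e)) := by
    apply ContinuousMap.ext; intro q
    rw [slice_apply, ContinuousMap.smul_apply, smul_eq_mul, mul_comm]
    have h2 : ((bb p γ).comp K.cc).curry q = (K.B (fun e => γ (Sum.inl e)) q) •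
        K.B (fun e => γ (Sum.inr e)) := by
      apply ContinuousMap.ext; intro q'
      rw [ContinuousMap.smul_apply, smul_eq_mul]
      change bb p γ (K.cc (q, q')) = bb p _ (K.co q) * bb p _ (K.co q')
      rw [bb_apply, Fintype.prod_sum_type, bb_apply, bb_apply]
      rfl
    rw [h2, map_smul, smul_eq_mul]
  rw [h, map_smul, smul_eq_mul, mul_comm]

theorem wt_sum (γ : (E ⊕ E) → ℕ) : wt (Sum.elim K.ω K.ω) γ =
    wt K.ω (fun e => γ (Sum.inl e)) + wt K.ω (fun e => γ (Sum.inr e)) := by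
  rw [wt, Fintype.sum_sum_type]
  rfl

theorem pair_dvd {N M s : ℕ} {x y : Dist p Q} (hx : x ∈ K.Fil N) (hy : y ∈ K.Fil M)
    {F : C((E ⊕ E) → ℤ_[p], ℤ_[p])} (hF : F ∈ PP p (Sum.elim K.ω K.ω) (s + 1)) :
    (p : ℤ_[p]) ^ (N + M - s) ∣ K.pair x y F := by
  have := PP_induction hF (Submodule.comap (K.pair x y)
    (Ideal.span {(p : ℤ_[p]) ^ (N + M - s)})) (by
      intro γ hγ
      rw [Submodule.mem_comap]
      apply Ideal.mem_span_singleton.2
      rw [K.wt_sum] at hγ
      rw [pair_bb]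
      have h1 := hx (fun e => γ (Sum.inl e))
      have h2 := hy (fun e => γ (Sum.inr e))
      have h3 := mul_dvd_mul h1 h2
      rw [← pow_add] at h3
      exact (pow_dvd_pow _ (by omega)).trans h3)
  rw [Submodule.mem_comap] at this
  exact Ideal.mem_span_singleton.1 this

/-- multiplication in coordinates -/
def T : C((E ⊕ E) → ℤ_[p], E → ℤ_[p]) where
  toFun z := fun e => z (Sum.inl e) + z (Sum.inr e) + K.c e z
  continuous_toFun := by
    apply continuous_pi
    intro e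
    have := (K.c e).continuous
    fun_prop

/-- addition in coordinates -/
def T0 : C((E ⊕ E) → ℤ_[p], E → ℤ_[p]) where
  toFun z := fun e => z (Sum.inl e) + z (Sum.inr e)
  continuous_toFun := by
    apply continuous_pi
    intro e
    fun_prop

theorem mul_l (x y : Dist p Q) (f : C(E → ℤ_[p], ℤ_[p])) :
    (x * y).l (K.pb f) = K.pair x y (f.comp K.T) := by
  rw [Dist.mul_l, pair_apply]
  have h : Dist.com (K.pb f) = (f.comp K.T).comp K.cc := by
    apply ContinuousMap.ext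
    rintro ⟨q, q'⟩
    rw [Dist.com_apply, pb_apply]
    change f _ = f _
    congr 1
    funext e
    rw [K.co_mul]
    rfl
  rw [h]

theorem cong_T (α : E → ℕ) :
    Cong (Sum.elim K.ω K.ω) (wt K.ω α) ((bb p α).comp K.T) ((bb p α).comp (T0 (p := p))) := by
  apply bb_comp_cong
  intro e
  have h1 : (xe p (Sum.inl e) : C((E ⊕ E) → ℤ_[p], ℤ_[p])) ∈ PP p (Sum.elim K.ω K.ω) (K.ω e + 1) :=
    xe_mem (ω := Sum.elim K.ω K.ω) (Sum.inl e)
  have h2 : (xe p (Sum.inr e) : C((E ⊕ E) → ℤ_[p], ℤ_[p])) ∈ PP p (Sum.elim K.ω K.ω) (K.ω e + 1) :=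
    xe_mem (ω := Sum.elim K.ω K.ω) (Sum.inr e)
  have h3 : (xe p e).comp K.T = xe p (Sum.inl e) + xe p (Sum.inr e) + K.c e := rfl
  have h4 : (xe p e).comp (T0 (p := p)) = xe p (Sum.inl e) + xe p (Sum.inr e) := rfl
  rw [h3, h4]
  refine ⟨Submodule.add_mem _ (Submodule.add_mem _ h1 h2) (PP_mono (by omega) (K.c_mem e)),
    Submodule.add_mem _ h1 h2, ?_⟩
  rw [add_sub_cancel_left]
  exact K.c_mem e

theorem bb_T0 (α : E → ℕ) : (bb p α).comp (T0 (p := p)) =
    ∑ q ∈ Fintype.piFinset (fun e => antidiagonal (α e)),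
      bb p (Sum.elim (fun e => (q e).1) (fun e => (q e).2)) := by
  apply ContinuousMap.ext; intro z
  rw [ContinuousMap.comp_apply, ContinuousMap.sum_apply, bb_apply]
  have h1 : ∀ e, mahler (α e) ((T0 (p := p)) z e) = ∑ ij ∈ antidiagonal (α e),
      mahler ij.1 (z (Sum.inl e)) * mahler ij.2 (z (Sum.inr e)) := by
    intro e
    exact Ring.add_choose_eq (α e) (Commute.all _ _)
  rw [Finset.prod_congr rfl fun e _ => h1 e, Finset.prod_univ_sum]
  refine Finset.sum_congr rfl fun q _ => ?_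
  rw [bb_apply, Fintype.prod_sum_type, ← Finset.prod_mul_distrib]
  rfl

theorem mul_Fil {N M : ℕ} {x y : Dist p Q} (hx : x ∈ K.Fil N) (hy : y ∈ K.Fil M) :
    x * y ∈ K.Fil (N + M) := by
  intro α
  have := K.pair_dvd hx hy (K.cong_T α).l
  rwa [← K.mul_l] at this

theorem mul_l_B {N M : ℕ} {x y : Dist p Q} (hx : x ∈ K.Fil N) (hy : y ∈ K.Fil M) (α : E → ℕ) :
    (p : ℤ_[p]) ^ (N + M + 1 - wt K.ω α) ∣ (x * y).l (K.B α) -
      ∑ q ∈ Fintype.piFinset (fun e => antidiagonal (α e)),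
        x.l (K.B (fun e => (q e).1)) * y.l (K.B (fun e => (q e).2)) := by
  have h1 : (∑ q ∈ Fintype.piFinset (fun e => antidiagonal (α e)),
        x.l (K.B (fun e => (q e).1)) * y.l (K.B (fun e => (q e).2))) =
      K.pair x y ((bb p α).comp (T0 (p := p))) := by
    rw [bb_T0, map_sum]
    refine Finset.sum_congr rfl fun q _ => ?_
    rw [pair_bb]
    rfl
  rw [h1, B, K.mul_l, ← map_sub]
  have h2 := (K.cong_T α).d
  rcases Nat.eq_zero_or_pos (wt K.ω α) with h0 | h0
  · rw [h0, PP_zero, Submodule.mem_bot] at h2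
    rw [h2, map_zero]
    exact dvd_zero _
  · have h3 : (bb p α).comp K.T - (bb p α).comp (T0 (p := p)) ∈
        PP p (Sum.elim K.ω K.ω) (wt K.ω α - 1 + 1) := by
      rwa [Nat.sub_add_cancel h0]
    exact (pow_dvd_pow _ (by omega)).trans (K.pair_dvd hx hy h3)

end Coord

end Pool.H8
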