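import Pool.Agent.H8.Lead

set_option autoImplicit false
set_option backward.isDefEq.respectTransparency.types true
set_option linter.unusedSectionVars false

/-! Density of polynomial functions; dual functionals; completeness. -/

noncomputable section

namespace Pool.H8

open Finset

variable {p : ℕ} [Fact p.Prime]

theorem dvd_iff_norm (k : ℕ) (z : ℤ_[p]) : (p : ℤ_[p]) ^ k ∣ z ↔ ‖z‖ ≤ (p : ℝ) ^ (-(k : ℤ)) := by
  rw [PadicInt.norm_le_pow_iff_mem_span_pow, Ideal.mem_span_singleton]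

theorem eq_zero_of_dvd {z : ℤ_[p]} (h : ∀ k : ℕ, (p : ℤ_[p]) ^ k ∣ z) : z = 0 := by
  by_contra hz
  have h1 : 0 < ‖z‖ := norm_pos_iff.2 hz
  obtain ⟨k, hk⟩ := PadicInt.exists_pow_neg_lt p h1
  exact absurd ((dvd_iff_norm k z).1 (h k)) (not_le.2 hk)

section Density

variable {E : Type*} [Fintype E] [DecidableEq E] (ω : E → ℕ)

/-- functions that are polynomial modulo `p ^ m` -/
def PolyMod (m : ℕ) (f : C(E → ℤ_[p], ℤ_[p])) : Prop :=
  ∃ s, ∃ g ∈ PP p ω (s + 1), ∀ x, (p : ℤ_[p]) ^ m ∣ f x - g x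

theorem PolyMod.add {m : ℕ} {f f' : C(E → ℤ_[p], ℤ_[p])} (h : PolyMod ω m f)
    (h' : PolyMod ω m f') : PolyMod ω m (f + f') := by
  obtain ⟨s, g, hg, hs⟩ := h
  obtain ⟨s', g', hg', hs'⟩ := h'
  refine ⟨max s s', g + g', Submodule.add_mem _ (PP_mono (by omega) hg)
    (PP_mono (by omega) hg'), fun x => ?_⟩
  have : (f + f') x - (g + g') x = (f x - g x) + (f' x - g' x) := by
    rw [ContinuousMap.add_apply, ContinuousMap.add_apply]; ring
  rw [this]
  exact dvd_add (hs x) (hs' x)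

theorem PolyMod.mul {m : ℕ} {f f' : C(E → ℤ_[p], ℤ_[p])} (h : PolyMod ω m f)
    (h' : PolyMod ω m f') : PolyMod ω m (f * f') := by
  obtain ⟨s, g, hg, hs⟩ := h
  obtain ⟨s', g', hg', hs'⟩ := h'
  refine ⟨s + s', g * g', ?_, fun x => ?_⟩
  · rw [add_assoc]; exact PP_mul hg hg'
  have : (f * f') x - (g * g') x = (f x - g x) * f' x + g x * (f' x - g' x) := by
    rw [ContinuousMap.mul_apply, ContinuousMap.mul_apply]; ring
  rw [this]
  exact dvd_add (Dvd.dvd.mul_right (hs x) _) (Dvd.dvd.mul_left (hs' x) _)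

theorem PolyMod.const (m : ℕ) (c : ℤ_[p]) : PolyMod ω m (c • (1 : C(E → ℤ_[p], ℤ_[p]))) :=
  ⟨0, c • 1, Submodule.smul_mem _ _ (one_mem_PP (by omega)), fun x => by
    rw [sub_self]; exact dvd_zero _⟩

theorem PolyMod.sum {m : ℕ} {κ : Type*} (S : Finset κ) (f : κ → C(E → ℤ_[p], ℤ_[p]))
    (h : ∀ i ∈ S, PolyMod ω m (f i)) : PolyMod ω m (∑ i ∈ S, f i) := by
  classical
  induction S using Finset.induction_on with
  | empty =>
    have := PolyMod.const (p := p) ω m 0
    rw [zero_smul] at this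
    simpa using this
  | insert a S ha ih =>
    rw [Finset.sum_insert ha]
    exact (h a (Finset.mem_insert_self _ _)).add ω (ih fun i hi => h i (Finset.mem_insert_of_mem hi))

theorem PolyMod.prod {m : ℕ} {κ : Type*} (S : Finset κ) (f : κ → C(E → ℤ_[p], ℤ_[p]))
    (h : ∀ i ∈ S, PolyMod ω m (f i)) : PolyMod ω m (∏ i ∈ S, f i) := by
  classical
  induction S using Finset.induction_on with
  | empty =>
    have := PolyMod.const (p := p) ω m 1
    rw [one_smul] at this
    simpa using this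
  | insert a S ha ih =>
    rw [Finset.prod_insert ha]
    exact (h a (Finset.mem_insert_self _ _)).mul ω (ih fun i hi => h i (Finset.mem_insert_of_mem hi))

theorem PolyMod.one_var (m : ℕ) (F : C(ℤ_[p], ℤ_[p])) (e : E) :
    PolyMod ω m (F.comp (xe p e)) := by
  have h1 := PadicInt.hasSum_mahler F
  have hp0 : (0 : ℝ) < p := by exact_mod_cast (Fact.out : p.Prime).pos
  have h2 := (Metric.tendsto_atTop.1 (HasSum.tendsto_sum_nat h1)) ((p : ℝ) ^ (-(m : ℤ)))
    (zpow_pos hp0 _)
  obtain ⟨n, hn⟩ := h2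
  have h3 := hn n le_rfl
  rw [dist_comm, dist_eq_norm] at h3
  refine ⟨n * ω e, ∑ i ∈ range n, (fwdDiff (1 : ℤ_[p]))^[i] (F : ℤ_[p] → ℤ_[p]) 0 •
    (mahler i).comp (xe p e), ?_, fun x => ?_⟩
  · refine Submodule.sum_mem _ fun i hi => Submodule.smul_mem _ _ ?_
    have hi' := Finset.mem_range.1 hi
    have := mahler_comp_mem (xe_mem (p := p) (ω := ω) e) i
    refine PP_mono ?_ this
    have := Nat.mul_le_mul_right (ω e) hi'.le
    omega
  · rw [dvd_iff_norm]
    refine le_trans ?_ h3.le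
    have h4 := (F - ∑ i ∈ range n, PadicInt.mahlerTerm ((fwdDiff (1 : ℤ_[p]))^[i] F 0) i).norm_coe_le_norm
      (x e)
    refine le_trans (le_of_eq ?_) h4
    congr 1
    rw [ContinuousMap.sub_apply, ContinuousMap.sum_apply, ContinuousMap.comp_apply,
      ContinuousMap.sum_apply]
    congr 1
    refine Finset.sum_congr rfl fun i _ => ?_
    rw [ContinuousMap.smul_apply, PadicInt.mahlerTerm_apply]
    rw [smul_eq_mul, smul_eq_mul, mul_comm]
    rfl

theorem unif_cont (m : ℕ) (f : C(E → ℤ_[p], ℤ_[p])) :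
    ∃ k : ℕ, ∀ x y : E → ℤ_[p], (∀ e, (p : ℤ_[p]) ^ k ∣ x e - y e) →
      (p : ℤ_[p]) ^ m ∣ f x - f y := by
  have h1 : UniformContinuous f := CompactSpace.uniformContinuous_of_continuous f.continuous
  have hp0 : (0 : ℝ) < p := by exact_mod_cast (Fact.out : p.Prime).pos
  obtain ⟨δ, hδ, h2⟩ := Metric.uniformContinuous_iff.1 h1 ((p : ℝ) ^ (-(m : ℤ))) (zpow_pos hp0 _)
  obtain ⟨k, hk⟩ := PadicInt.exists_pow_neg_lt p hδ
  refine ⟨k, fun x y hxy => ?_⟩
  rw [dvd_iff_norm, ← dist_eq_norm]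
  apply (h2 _).le
  rw [dist_pi_lt_iff hδ]
  intro e
  rw [dist_eq_norm]
  exact lt_of_le_of_lt ((dvd_iff_norm _ _).1 (hxy e)) hk

theorem polyMod_all (m : ℕ) (f : C(E → ℤ_[p], ℤ_[p])) : PolyMod ω m f := by
  classical
  obtain ⟨k, hk⟩ := unif_cont m f
  have : NeZero (p ^ k) := ⟨pow_ne_zero k (Fact.out : p.Prime).ne_zero⟩
  -- indicator functions
  have hcont : ∀ c : ZMod (p ^ k), IsLocallyConstant
      (fun x : ℤ_[p] => if PadicInt.toZModPow k x = c then (1 : ℤ_[p]) else 0) := by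
    intro c
    rw [IsLocallyConstant.iff_exists_open]
    intro x
    have hp0 : (0 : ℝ) < p := by exact_mod_cast (Fact.out : p.Prime).pos
    refine ⟨Metric.ball x ((p : ℝ) ^ (-(k : ℤ))), Metric.isOpen_ball,
      Metric.mem_ball_self (zpow_pos hp0 _), ?_⟩
    intro y hy
    have h1 : (p : ℤ_[p]) ^ k ∣ y - x := by
      rw [dvd_iff_norm, ← dist_eq_norm]
      exact (Metric.mem_ball.1 hy).le
    have h2 : PadicInt.toZModPow k y = PadicInt.toZModPow k x := by
      rw [← sub_eq_zero, ← map_sub, ← RingHom.mem_ker, PadicInt.ker_toZModPow,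
        Ideal.mem_span_singleton]
      exact h1
    simp only [h2]
  let I : ZMod (p ^ k) → C(ℤ_[p], ℤ_[p]) := fun c => ⟨_, (hcont c).continuous⟩
  have hI : ∀ c x, I c x = if PadicInt.toZModPow k x = c then (1 : ℤ_[p]) else 0 := fun _ _ => rfl
  let f' : C(E → ℤ_[p], ℤ_[p]) := ∑ c : E → ZMod (p ^ k),
    ((f fun e => ((c e).val : ℤ_[p])) • (1 : C(E → ℤ_[p], ℤ_[p]))) *
      ∏ e, (I (c e)).comp (xe p e)
  have hf' : ∀ x, f' x = f fun e => ((PadicInt.toZModPow k (x e)).val : ℤ_[p]) := by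
    intro x
    rw [ContinuousMap.sum_apply, Finset.sum_eq_single (fun e => PadicInt.toZModPow k (x e))]
    · rw [ContinuousMap.mul_apply, ContinuousMap.prod_apply, ContinuousMap.smul_apply,
        ContinuousMap.one_apply, smul_eq_mul, mul_one]
      have : ∏ e, ((I (PadicInt.toZModPow k (x e))).comp (xe p e)) x = 1 := by
        apply Finset.prod_eq_one
        intro e _
        rw [ContinuousMap.comp_apply, hI, xe_apply, if_pos rfl]
      rw [this, mul_one]
    · intro c _ hc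
      rw [ContinuousMap.mul_apply, ContinuousMap.prod_apply]
      obtain ⟨e, he⟩ : ∃ e, c e ≠ PadicInt.toZModPow k (x e) := by
        by_contra hcon
        push Not at hcon
        exact hc (funext hcon)
      have : ∏ e, ((I (c e)).comp (xe p e)) x = 0 := by
        apply Finset.prod_eq_zero (mem_univ e)
        rw [ContinuousMap.comp_apply, hI, xe_apply, if_neg (Ne.symm he)]
      rw [this, mul_zero]
    · intro h; exact absurd (mem_univ _) h
  have h1 : PolyMod ω m f' := by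
    apply PolyMod.sum
    intro c _
    apply PolyMod.mul
    · exact PolyMod.const ω m _
    · apply PolyMod.prod
      intro e _
      exact PolyMod.one_var ω m _ e
  obtain ⟨s, g, hg, hgs⟩ := h1
  refine ⟨s, g, hg, fun x => ?_⟩
  have h2 : f x - g x = (f x - f' x) + (f' x - g x) := by ring
  rw [h2]
  refine dvd_add ?_ (hgs x)
  rw [hf']
  apply hk
  intro e
  have h3 : PadicInt.toZModPow k (x e - ((PadicInt.toZModPow k (x e)).val : ℤ_[p])) = 0 := by
    rw [map_sub, map_natCast, ZMod.natCast_zmod_val, sub_self]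
  rw [← RingHom.mem_ker, PadicInt.ker_toZModPow, Ideal.mem_span_singleton] at h3
  exact h3

end Density

end Pool.H8
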