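import Mathlib

set_option autoImplicit false
set_option backward.isDefEq.respectTransparency.types true
set_option linter.unusedSectionVars false

/-! The ring of p-adic distributions on a compact monoid. -/

noncomputable section

namespace Pool.H8

variable {p : ℕ} [Fact p.Prime]

theorem exists_div {X : Type*} [TopologicalSpace X] (m : ℕ) (f : C(X, ℤ_[p]))
    (hf : ∀ x, (p : ℤ_[p]) ^ m ∣ f x) : ∃ g : C(X, ℤ_[p]), f = ((p : ℤ_[p]) ^ m) • g := by
  have hp : (p : ℚ_[p]) ≠ 0 := by
    exact_mod_cast (Fact.out : p.Prime).ne_zero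
  have h1 : ∀ x, ‖((f x : ℚ_[p]) / (p : ℚ_[p]) ^ m)‖ ≤ 1 := by
    intro x
    obtain ⟨c, hc⟩ := hf x
    rw [hc]
    push_cast
    rw [mul_div_cancel_left₀ _ (pow_ne_zero _ hp)]
    exact c.2
  have hc : Continuous (fun x => (⟨(f x : ℚ_[p]) / (p : ℚ_[p]) ^ m, h1 x⟩ : ℤ_[p])) := by
    apply Continuous.subtype_mk
    exact (continuous_subtype_val.comp f.continuous).div_const _
  let g : C(X, ℤ_[p]) := ⟨fun x => (⟨(f x : ℚ_[p]) / (p : ℚ_[p]) ^ m, h1 x⟩ : ℤ_[p]), hc⟩
  refine ⟨g, ?_⟩
  apply ContinuousMap.ext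
  intro x
  apply Subtype.ext
  have hg : ((g x : ℤ_[p]) : ℚ_[p]) = (f x : ℚ_[p]) / (p : ℚ_[p]) ^ m := rfl
  change ((f x : ℤ_[p]) : ℚ_[p]) = (((p : ℤ_[p]) ^ m • g) x : ℤ_[p])
  rw [ContinuousMap.smul_apply, smul_eq_mul, PadicInt.coe_mul, hg]
  push_cast
  rw [mul_div_cancel₀ _ (pow_ne_zero _ hp)]

theorem lin_continuous {Y : Type*} [TopologicalSpace Y] [CompactSpace Y]
    (μ : C(Y, ℤ_[p]) →ₗ[ℤ_[p]] ℤ_[p]) : Continuous μ := by
  apply continuous_of_continuousAt_zero
  rw [Metric.continuousAt_iff]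
  intro ε hε
  obtain ⟨m, hm⟩ := PadicInt.exists_pow_neg_lt p hε
  have hp0 : (0 : ℝ) < p := by exact_mod_cast (Fact.out : p.Prime).pos
  refine ⟨(p : ℝ) ^ (-(m : ℤ)), zpow_pos hp0 _, ?_⟩
  intro f hf
  rw [dist_zero_right] at hf
  rw [map_zero, dist_zero_right]
  obtain ⟨g, hg⟩ := exists_div m f (by
    intro x
    have h1 : ‖f x‖ ≤ (p : ℝ) ^ (-(m : ℤ)) := (f.norm_coe_le_norm x).trans hf.le
    rw [PadicInt.norm_le_pow_iff_mem_span_pow] at h1
    exact Ideal.mem_span_singleton.1 h1)
  rw [hg, map_smul, smul_eq_mul]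
  refine lt_of_le_of_lt ?_ hm
  rw [PadicInt.norm_le_pow_iff_mem_span_pow]
  exact Ideal.mem_span_singleton.2 (Dvd.intro _ rfl)

section Slice

variable {X Y : Type*} [TopologicalSpace X] [TopologicalSpace Y] [CompactSpace Y]

/-- integrate out the second variable -/
def slice (μ : C(Y, ℤ_[p]) →ₗ[ℤ_[p]] ℤ_[p]) :
    C(X × Y, ℤ_[p]) →ₗ[ℤ_[p]] C(X, ℤ_[p]) where
  toFun F := ⟨fun x => μ (F.curry x), (lin_continuous μ).comp F.curry.continuous⟩
  map_add' F F' := by
    apply ContinuousMap.ext
    intro x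
    change μ (F.curry x + F'.curry x) = μ (F.curry x) + μ (F'.curry x)
    rw [map_add]
  map_smul' c F := by
    apply ContinuousMap.ext
    intro x
    change μ (c • F.curry x) = c • μ (F.curry x)
    rw [map_smul]

theorem slice_apply (μ : C(Y, ℤ_[p]) →ₗ[ℤ_[p]] ℤ_[p]) (F : C(X × Y, ℤ_[p])) (x : X) :
    slice μ F x = μ (F.curry x) := rfl

end Slice

/-- the ring of distributions on a compact monoid -/
@[ext] structure Dist (p : ℕ) [Fact p.Prime] (Q : Type*) [TopologicalSpace Q] where
  /-- the functional -/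
  l : C(Q, ℤ_[p]) →ₗ[ℤ_[p]] ℤ_[p]

namespace Dist

section Add

variable {Q : Type*} [TopologicalSpace Q]

theorem l_injective : Function.Injective (Dist.l : Dist p Q → _) := fun _ _ h => Dist.ext h

instance : Zero (Dist p Q) := ⟨⟨0⟩⟩
instance : Add (Dist p Q) := ⟨fun x y => ⟨x.l + y.l⟩⟩
instance : Neg (Dist p Q) := ⟨fun x => ⟨-x.l⟩⟩
instance : Sub (Dist p Q) := ⟨fun x y => ⟨x.l - y.l⟩⟩
instance : SMul ℕ (Dist p Q) := ⟨fun n x => ⟨n • x.l⟩⟩
instance : SMul ℤ (Dist p Q) := ⟨fun n x => ⟨n • x.l⟩⟩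
instance : SMul ℤ_[p] (Dist p Q) := ⟨fun n x => ⟨n • x.l⟩⟩

instance : AddCommGroup (Dist p Q) :=
  Function.Injective.addCommGroup Dist.l l_injective rfl (fun _ _ => rfl) (fun _ => rfl)
    (fun _ _ => rfl) (fun _ _ => rfl) (fun _ _ => rfl)

/-- the underlying functional as an additive map -/
def lhom : Dist p Q →+ (C(Q, ℤ_[p]) →ₗ[ℤ_[p]] ℤ_[p]) where
  toFun := Dist.l
  map_zero' := rfl
  map_add' _ _ := rfl

instance : Module ℤ_[p] (Dist p Q) :=
  Function.Injective.module ℤ_[p] lhom l_injective (fun _ _ => rfl)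

theorem add_l (x y : Dist p Q) (f : C(Q, ℤ_[p])) : (x + y).l f = x.l f + y.l f := rfl
theorem sub_l (x y : Dist p Q) (f : C(Q, ℤ_[p])) : (x - y).l f = x.l f - y.l f := rfl
theorem neg_l (x : Dist p Q) (f : C(Q, ℤ_[p])) : (-x).l f = - x.l f := rfl
theorem zero_l (f : C(Q, ℤ_[p])) : (0 : Dist p Q).l f = 0 := rfl
theorem smul_l (c : ℤ_[p]) (x : Dist p Q) (f : C(Q, ℤ_[p])) : (c • x).l f = c * x.l f := rfl

theorem sum_l {α : Type*} (s : Finset α) (x : α → Dist p Q) (f : C(Q, ℤ_[p])) :
    (∑ i ∈ s, x i).l f = ∑ i ∈ s, (x i).l f := by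
  have := congrArg (fun z : C(Q, ℤ_[p]) →ₗ[ℤ_[p]] ℤ_[p] => z f)
    (map_sum (lhom : Dist p Q →+ _) x s)
  simp only [LinearMap.sum_apply] at this
  exact this

theorem ext' {x y : Dist p Q} (h : ∀ f, x.l f = y.l f) : x = y :=
  Dist.ext (LinearMap.ext h)

end Add

variable {Q : Type*} [TopologicalSpace Q] [CompactSpace Q] [Monoid Q] [ContinuousMul Q]

/-- comultiplication on functions -/
def com : C(Q, ℤ_[p]) →ₗ[ℤ_[p]] C(Q × Q, ℤ_[p]) where
  toFun f := f.comp ⟨fun q => q.1 * q.2, continuous_mul⟩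
  map_add' _ _ := rfl
  map_smul' _ _ := rfl

theorem com_apply (f : C(Q, ℤ_[p])) (x y : Q) : com f (x, y) = f (x * y) := rfl

theorem com_curry (f : C(Q, ℤ_[p])) (x y : Q) : (com f).curry x y = f (x * y) := rfl

instance : One (Dist p Q) := ⟨⟨{
  toFun := fun f => f 1
  map_add' := fun _ _ => rfl
  map_smul' := fun _ _ => rfl }⟩⟩

instance : Mul (Dist p Q) := ⟨fun x y => ⟨x.l.comp ((slice y.l).comp com)⟩⟩

theorem one_l (f : C(Q, ℤ_[p])) : (1 : Dist p Q).l f = f 1 := rfl

theorem mul_l (x y : Dist p Q) (f : C(Q, ℤ_[p])) :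
    (x * y).l f = x.l (slice y.l (com f)) := rfl

theorem mul_l_congr (x y : Dist p Q) (f g : C(Q, ℤ_[p]))
    (h : ∀ q, g q = y.l ((com f).curry q)) : (x * y).l f = x.l g := by
  rw [mul_l]
  congr 1
  ext q
  rw [slice_apply, h]

instance : Ring (Dist p Q) :=
  { (inferInstance : AddCommGroup (Dist p Q)) with
    mul := (· * ·)
    one := 1
    left_distrib := fun x y z => by
      apply ext'; intro f
      simp only [add_l, mul_l]
      rw [← map_add]
      rfl
    right_distrib := fun x y z => by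
      apply ext'; intro f
      simp only [add_l, mul_l]
    zero_mul := fun x => by
      apply ext'; intro f
      simp only [mul_l, zero_l]
    mul_zero := fun x => by
      apply ext'; intro f
      simp only [mul_l, zero_l]
      have : slice (0 : Dist p Q).l (com f) = 0 := by
        ext q; rfl
      rw [this, map_zero]
    mul_assoc := fun x y z => by
      apply ext'; intro f
      rw [mul_l (x * y) z, mul_l x y, mul_l x (y * z)]
      have : slice y.l (com (slice z.l (com f))) = slice (y * z).l (com f) := by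
        apply ContinuousMap.ext; intro q
        rw [slice_apply, slice_apply, mul_l y z]
        have : (com (slice z.l (com f))).curry q = slice z.l (com ((com f).curry q)) := by
          apply ContinuousMap.ext; intro q'
          rw [com_curry, slice_apply, slice_apply]
          have : (com f).curry (q * q') = (com ((com f).curry q)).curry q' := by
            apply ContinuousMap.ext; intro q''
            rw [com_curry, com_curry, com_curry, mul_assoc]
          rw [this]
        rw [this]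
      rw [this]
    one_mul := fun x => by
      apply ext'; intro f
      rw [mul_l, one_l, slice_apply]
      have : (com f).curry 1 = f := by
        apply ContinuousMap.ext; intro q
        rw [com_curry, one_mul]
      rw [this]
    mul_one := fun x => by
      apply ext'; intro f
      rw [mul_l]
      have : slice (1 : Dist p Q).l (com f) = f := by
        apply ContinuousMap.ext; intro q
        rw [slice_apply, one_l, com_curry, mul_one]
      rw [this] }

/-- push forward along a continuous homomorphism -/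
def push {Q' : Type*} [TopologicalSpace Q'] [CompactSpace Q'] [Monoid Q']
    [ContinuousMul Q'] (φ : Q →* Q') (hφ : Continuous φ) : Dist p Q →+* Dist p Q' where
  toFun x := ⟨{
    toFun := fun f => x.l (f.comp ⟨φ, hφ⟩)
    map_add' := fun f g => by rw [← map_add]; rfl
    map_smul' := fun c f => by
      rw [RingHom.id_apply, ← map_smul]; rfl }⟩
  map_one' := by
    apply ext'; intro f
    change f (φ 1) = f 1
    rw [map_one]
  map_mul' x y := by
    apply ext'; intro f
    change x.l _ = x.l _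
    congr 1
    apply ContinuousMap.ext; intro q
    change y.l _ = y.l _
    congr 1
    apply ContinuousMap.ext; intro q'
    change f (φ (q * q')) = f (φ q * φ q')
    rw [map_mul]
  map_zero' := rfl
  map_add' _ _ := rfl

theorem push_l {Q' : Type*} [TopologicalSpace Q'] [CompactSpace Q'] [Monoid Q']
    [ContinuousMul Q'] (φ : Q →* Q') (hφ : Continuous φ) (x : Dist p Q) (f : C(Q', ℤ_[p])) :
    (push φ hφ x).l f = x.l (f.comp ⟨φ, hφ⟩) := rfl

theorem natCast_l (n : ℕ) (f : C(Q, ℤ_[p])) : (n : Dist p Q).l f = n * f 1 := by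
  induction n with
  | zero => simp [zero_l]
  | succ n ih => rw [Nat.cast_succ, add_l, ih, one_l]; push_cast; ring

theorem smul_mul' (c : ℤ_[p]) (x y : Dist p Q) : (c • x) * y = c • (x * y) := by
  apply ext'; intro f
  rw [mul_l, smul_l, smul_l, mul_l]

theorem mul_smul' (c : ℤ_[p]) (x y : Dist p Q) : x * (c • y) = c • (x * y) := by
  apply ext'; intro f
  rw [mul_l, smul_l, mul_l, ← smul_eq_mul, ← map_smul]
  congr 1

theorem natCast_mul_eq (n : ℕ) (x : Dist p Q) : (n : Dist p Q) * x = (n : ℤ_[p]) • x := by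
  have : (n : Dist p Q) = (n : ℤ_[p]) • (1 : Dist p Q) := by
    apply ext'; intro f
    rw [natCast_l, smul_l, one_l]
  rw [this, smul_mul', one_mul]

end Dist

end Pool.H8
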