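import Pool.Agent.H8.Chars

set_option autoImplicit false
set_option backward.isDefEq.respectTransparency.types true
set_option linter.unusedSectionVars false

/-! Dual families of elements and characters; free subgroups. -/

namespace Pool.H8

/-- a family of elements with a dual family of characters -/
structure DualFam (p : ℕ) {H : Type*} [Group H] [TopologicalSpace H] {r : ℕ} (h : Fin r → H)
    (χ : Fin r → H → ZMod p) : Prop where
  char : ∀ i, IsChar p (χ i)
  dual : ∀ i j, χ i (h j) = if i = j then 1 else 0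

/-- a family on which every nonzero character is nonzero -/
def Complete (p : ℕ) {H : Type*} [Group H] [TopologicalSpace H] {r : ℕ} (h : Fin r → H) : Prop :=
  ∀ χ : H → ZMod p, IsChar p χ → (∀ j, χ (h j) = 0) → χ = 0

section

variable {p : ℕ} [Fact p.Prime] {H : Type*} [Group H] [TopologicalSpace H]

theorem DualFam.extend {r : ℕ} {h : Fin r → H} {χ : Fin r → H → ZMod p} (hd : DualFam p h χ)
    (χ' : H → ZMod p) (hχ' : IsChar p χ') (h0 : ∀ j, χ' (h j) = 0) (hne : χ' ≠ 0) :
    ∃ (h' : Fin (r + 1) → H) (χ'' : Fin (r + 1) → H → ZMod p), DualFam p h' χ'' ∧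
      ∀ i : Fin r, h' i.castSucc = h i := by
  obtain ⟨u, hu⟩ : ∃ u, χ' u ≠ 0 := by
    by_contra hcon
    push Not at hcon
    exact hne (funext hcon)
  set ξ : H → ZMod p := fun a => (χ' u)⁻¹ * χ' a with hξ
  have hξc : IsChar p ξ := hχ'.smul' _
  have hξu : ξ u = 1 := inv_mul_cancel₀ hu
  have hξh : ∀ j, ξ (h j) = 0 := fun j => by simp [hξ, h0 j]
  refine ⟨Fin.snoc h u, Fin.snoc (fun i => χ i - fun a => χ i u * ξ a) ξ, ⟨?_, ?_⟩, ?_⟩
  · intro i
    refine Fin.lastCases ?_ (fun i => ?_) i
    · rw [Fin.snoc_last]; exact hξc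
    · rw [Fin.snoc_castSucc]
      exact (hd.char i).sub' (hξc.smul' _)
  · intro i j
    refine Fin.lastCases ?_ (fun i => ?_) i <;> refine Fin.lastCases ?_ (fun j => ?_) j
    · rw [Fin.snoc_last, Fin.snoc_last, if_pos rfl]; exact hξu
    · rw [Fin.snoc_last, Fin.snoc_castSucc, hξh, if_neg]
      exact (Fin.castSucc_lt_last j).ne'
    · rw [Fin.snoc_last, Fin.snoc_castSucc, if_neg (Fin.castSucc_lt_last i).ne]
      simp [hξu]
    · rw [Fin.snoc_castSucc, Fin.snoc_castSucc]
      simp only [Pi.sub_apply, hξh, mul_zero, sub_zero, hd.dual, Fin.castSucc_inj]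
  · intro i
    rw [Fin.snoc_castSucc]

theorem DualFam.card_le {r : ℕ} {h : Fin r → H} {χ : Fin r → H → ZMod p} (hd : DualFam p h χ)
    (hfin : {χ : H → ZMod p | IsChar p χ}.Finite) :
    r ≤ Nat.card {χ : H → ZMod p | IsChar p χ} := by
  have : Finite {χ : H → ZMod p | IsChar p χ} := hfin
  let f : Fin r → {χ : H → ZMod p | IsChar p χ} := fun i => ⟨χ i, hd.char i⟩
  have hf : Function.Injective f := by
    intro i j hij
    by_contra hne
    have h1 : χ i = χ j := congrArg Subtype.val hij
    have h2 := hd.dual i i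
    rw [if_pos rfl, h1, hd.dual j i, if_neg (Ne.symm hne)] at h2
    exact zero_ne_one h2
  have := Nat.card_le_card_of_injective f hf
  simpa using this

/-- a dual family extends to a complete one -/
theorem DualFam.exists_complete {r : ℕ} {h : Fin r → H} {χ : Fin r → H → ZMod p}
    (hd : DualFam p h χ) (hfin : {χ : H → ZMod p | IsChar p χ}.Finite) :
    ∃ (m : ℕ) (hm : r ≤ m) (h' : Fin m → H) (χ' : Fin m → H → ZMod p), DualFam p h' χ' ∧
      Complete p h' ∧ ∀ i : Fin r, h' (Fin.castLE hm i) = h i := by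
  set N := Nat.card {χ : H → ZMod p | IsChar p χ}
  have key : ∀ (k r : ℕ) (h : Fin r → H) (χ : Fin r → H → ZMod p), DualFam p h χ → N - r = k →
      ∃ (m : ℕ) (hm : r ≤ m) (h' : Fin m → H) (χ' : Fin m → H → ZMod p), DualFam p h' χ' ∧
      Complete p h' ∧ ∀ i : Fin r, h' (Fin.castLE hm i) = h i := by
    intro k
    induction k with
    | zero =>
      intro r h χ hd hk
      refine ⟨r, le_rfl, h, χ, hd, ?_, fun i => rfl⟩
      intro χ' hχ' h0
      by_contra hne
      obtain ⟨h', χ'', hd', -⟩ := hd.extend χ' hχ' h0 hne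
      have := hd'.card_le hfin
      omega
    | succ k ih =>
      intro r h χ hd hk
      by_cases hc : Complete p h
      · exact ⟨r, le_rfl, h, χ, hd, hc, fun i => rfl⟩
      · unfold Complete at hc
        push Not at hc
        obtain ⟨χ', hχ', h0, hne⟩ := hc
        obtain ⟨h', χ'', hd', hext⟩ := hd.extend χ' hχ' h0 hne
        obtain ⟨m, hm, h'', χ''', hd'', hc'', hext'⟩ := ih (r + 1) h' χ'' hd' (by omega)
        refine ⟨m, by omega, h'', χ''', hd'', hc'', fun i => ?_⟩
        rw [← hext i, ← hext' i.castSucc]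
        rfl
  exact key _ r h χ hd rfl

end

section

variable {F : Type} [Group F] [TopologicalSpace F] [IsTopologicalGroup F] [CompactSpace F]
  [TotallyDisconnectedSpace F]

theorem isProP_closed {p : ℕ} [Fact p.Prime] (hF : IsProP p F) (H : Subgroup F)
    (hH : IsClosed (H : Set F)) : IsProP p H := by
  intro N hNn hNo
  obtain ⟨V, hVn, hVo, hV⟩ := lc_closed H hH (QuotientGroup.mk : H → H ⧸ N)
    (by
      have : CompactSpace H := isCompact_iff_compactSpace.1 hH.isCompact
      exact mk_lc N hNo)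
  obtain ⟨k, hk⟩ := hF V hVn hVo
  have h1 : V.subgroupOf H ≤ N := by
    intro v hv
    have h2 := hV 1 v hv
    have h3 := QuotientGroup.eq.1 h2.symm
    simpa using h3
  have h2 : N.index ∣ (V.subgroupOf H).index := Subgroup.index_dvd_of_le h1
  have h3 : (V.subgroupOf H).index ∣ V.index := Subgroup.relIndex_dvd_index_of_normal V H
  have h4 := h2.trans h3
  rw [hk] at h4
  obtain ⟨l, -, hl⟩ := (Nat.dvd_prime_pow (Fact.out : p.Prime)).1 h4
  exact ⟨l, hl⟩

/-- two homomorphisms agreeing on a complete family agree -/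
theorem hom_eq_of_complete {p : ℕ} [Fact p.Prime] (hF : IsProP p F) {m : ℕ} {h : Fin m → F}
    (hc : Complete p h) {P : Type*} [Group P] (g g' : F →* P) (hg : IsLocallyConstant g)
    (hg' : IsLocallyConstant g') (heq : ∀ i, g (h i) = g' (h i)) : g = g' := by
  let W : Subgroup F := g.eqLocus g'
  have hWo : IsOpen (W : Set F) := by
    have : (W : Set F) = (fun y => (g y, g' y)) ⁻¹' {q | q.1 = q.2} := by
      ext y; rfl
    rw [this]
    exact (hg.prodMk hg') _
  by_contra hne
  have hW : W ≠ ⊤ := by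
    intro h
    apply hne
    ext y
    have : y ∈ W := by rw [h]; trivial
    exact this
  obtain ⟨χ, h1, h2, h3⟩ := exists_char hF W hWo hW
  exact h3 (hc χ h1 fun j => h2 _ (heq j))

end

end Pool.H8
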