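import Pool.Agent.H8.Sub

set_option autoImplicit false
set_option backward.isDefEq.respectTransparency.types true
set_option linter.unusedSectionVars false

/-! Automorphisms of order p of free pro-p groups: functions on the cyclic power. -/

namespace Pool.H8

section General

variable {I F : Type} [Fintype I] [Group F] [TopologicalSpace F] [IsTopologicalGroup F]
  [CompactSpace F] [TotallyDisconnectedSpace F]

/-- a locally constant function on a finite power is controlled by an open normal subgroup -/
theorem lcX {X : Type*} (b : (I → F) → X) (hb : IsLocallyConstant b) :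
    ∃ V : Subgroup F, V.Normal ∧ IsOpen (V : Set F) ∧
      ∀ y y' : I → F, (∀ i, (y i)⁻¹ * y' i ∈ V) → b y = b y' := by
  obtain ⟨W, -, hWo, hW⟩ := lc_factor b hb
  obtain ⟨u, hu, huW⟩ := isOpen_pi_iff'.1 hWo 1 W.one_mem
  have hUo : IsOpen (⋂ i, u i) := isOpen_iInter_of_finite fun i => (hu i).1
  have h1 : (1 : F) ∈ ⋂ i, u i := Set.mem_iInter.2 fun i => (hu i).2
  obtain ⟨V, hVn, hVo, hV⟩ := exists_openNormal hUo h1
  refine ⟨V, hVn, hVo, fun y y' h => ?_⟩
  have h2 : y⁻¹ * y' ∈ W := huW fun i _ => Set.mem_iInter.1 (hV (h i)) i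
  have h3 := hW y _ h2
  rw [mul_inv_cancel_left] at h3
  exact h3.symm

end General

variable {p : ℕ} [Fact p.Prime]

variable {F : Type} [Group F] [TopologicalSpace F] [IsTopologicalGroup F] [CompactSpace F]
  [TotallyDisconnectedSpace F] {n : ℕ} {x : Fin n → F}

/-- uniqueness of integrals, additive version -/
theorem int_unique (hF : IsFreeProP p x) (A A' : F → ZMod p) (hA : IsLocallyConstant A)
    (hA' : IsLocallyConstant A') (y0 : F) (h1 : A y0 = A' y0)
    (h : ∀ j y, A (y * x j) - A y = A' (y * x j) - A' y) : A = A' := by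
  have hP : ∃ k : ℕ, Fintype.card (Multiplicative (ZMod p)) = p ^ k := ⟨1, by simp [ZMod.card]⟩
  have e := integral_unique hF hP (fun y => Multiplicative.ofAdd (A (y0 * y)))
    (fun y => Multiplicative.ofAdd (A' (y0 * y)))
    ((hA.comp_continuous (continuous_const_mul y0)).comp Multiplicative.ofAdd)
    ((hA'.comp_continuous (continuous_const_mul y0)).comp Multiplicative.ofAdd)
    (by simp [h1])
    (by
      intro j y
      have := h j (y0 * y)
      rw [← ofAdd_neg, ← ofAdd_neg, ← ofAdd_add, ← ofAdd_add, neg_add_eq_sub, neg_add_eq_sub,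
        ← mul_assoc, this])
  funext y
  have h2 := congrFun e (y0⁻¹ * y)
  simp only [mul_inv_cancel_left] at h2
  exact Multiplicative.ofAdd.injective h2

/-- existence of integrals, additive version -/
theorem int_exists (hF : IsFreeProP p x) (B : Fin n → F → ZMod p)
    (hB : ∀ j, IsLocallyConstant (B j)) :
    ∃ A : F → ZMod p, IsLocallyConstant A ∧ A 1 = 0 ∧ ∀ j y, A (y * x j) = A y + B j y := by
  have hP : ∃ k : ℕ, Fintype.card (Multiplicative (ZMod p)) = p ^ k := ⟨1, by simp [ZMod.card]⟩
  obtain ⟨A, h1, h2, h3⟩ := integral_exists hF hP (fun j y => Multiplicative.ofAdd (B j y))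
    (fun j => (hB j).comp Multiplicative.ofAdd)
  refine ⟨fun y => Multiplicative.toAdd (A y), h1.comp Multiplicative.toAdd, ?_, ?_⟩
  · simp [h2]
  · intro j y
    simp only [h3, toAdd_mul, toAdd_ofAdd]

/-- powers of an automorphism of order `p` indexed by residues -/
def ap (α : MulAut F) (i : ZMod p) : MulAut F := α ^ i.val

theorem ap_add {α : MulAut F} (hα : α ^ p = 1) (i j : ZMod p) :
    ap α (i + j) = ap α i * ap α j := zpow_char α hα i j

theorem ap_zero (α : MulAut F) : ap (p := p) α 0 = 1 := by
  rw [ap, ZMod.val_zero, pow_zero]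

theorem ap_add_apply {α : MulAut F} (hα : α ^ p = 1) (i j : ZMod p) (f : F) :
    ap α (i + j) f = ap α i (ap α j f) := by
  rw [ap_add hα]; rfl

theorem ap_continuous {α : MulAut F} (hαc : Continuous α) (i : ZMod p) :
    Continuous (ap α i) := by
  unfold ap
  induction i.val with
  | zero => rw [pow_zero]; exact continuous_id
  | succ k ih =>
    rw [pow_succ]
    exact ih.comp hαc

theorem ap_fix {α : MulAut F} {f : F} (hf : α f = f) (i : ZMod p) : ap α i f = f := by
  unfold ap
  induction i.val with
  | zero => rfl
  | succ k ih =>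
    rw [pow_succ]
    change (α ^ k) (α f) = f
    rw [hf, ih]

/-- the twisted diagonal action on the power -/
def tact (α : MulAut F) (f : F) (y : ZMod p → F) : ZMod p → F := fun i => ap α (-i) f * y i

/-- rotation -/
def rot (y : ZMod p → F) : ZMod p → F := fun i => y (i + 1)

/-- invariant locally constant functions -/
structure Good (α : MulAut F) (b : (ZMod p → F) → ZMod p) : Prop where
  lc : IsLocallyConstant b
  inv : ∀ f y, b (tact α f y) = b y

/-- dependence on a set of coordinates -/
def Dep (T : Finset (ZMod p)) (b : (ZMod p → F) → ZMod p) : Prop :=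
  ∀ y y', (∀ i ∈ T, y i = y' i) → b y = b y'

/-- difference operators -/
def D (x : Fin n → F) (s : ZMod p) (j : Fin n) (b : (ZMod p → F) → ZMod p) :
    (ZMod p → F) → ZMod p := fun y => b (Function.update y s (y s * x j)) - b y

theorem Good.zero (α : MulAut F) : Good (p := p) α 0 := ⟨IsLocallyConstant.const 0, fun _ _ => rfl⟩

theorem Good.add {α : MulAut F} {b c : (ZMod p → F) → ZMod p} (hb : Good α b) (hc : Good α c) :
    Good α (b + c) :=
  ⟨hb.lc.add hc.lc, fun f y => by rw [Pi.add_apply, Pi.add_apply, hb.inv, hc.inv]⟩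

theorem Good.sub {α : MulAut F} {b c : (ZMod p → F) → ZMod p} (hb : Good α b) (hc : Good α c) :
    Good α (b - c) :=
  ⟨hb.lc.sub hc.lc, fun f y => by rw [Pi.sub_apply, Pi.sub_apply, hb.inv, hc.inv]⟩

theorem Good.neg {α : MulAut F} {b : (ZMod p → F) → ZMod p} (hb : Good α b) :
    Good α (-b) :=
  ⟨hb.lc.neg, fun f y => by rw [Pi.neg_apply, Pi.neg_apply, hb.inv]⟩

theorem Good.sum {α : MulAut F} {κ : Type*} (S : Finset κ) (b : κ → (ZMod p → F) → ZMod p)
    (h : ∀ i ∈ S, Good α (b i)) : Good α (∑ i ∈ S, b i) := by
  classical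
  induction S using Finset.induction_on with
  | empty => rw [Finset.sum_empty]; exact Good.zero α
  | insert a S ha ih =>
    rw [Finset.sum_insert ha]
    exact (h a (Finset.mem_insert_self _ _)).add
      (ih fun i hi => h i (Finset.mem_insert_of_mem hi))

theorem Dep.add {T : Finset (ZMod p)} {b c : (ZMod p → F) → ZMod p} (hb : Dep T b)
    (hc : Dep T c) : Dep T (b + c) := fun y y' h => by
  rw [Pi.add_apply, Pi.add_apply, hb y y' h, hc y y' h]

theorem Dep.sub {T : Finset (ZMod p)} {b c : (ZMod p → F) → ZMod p} (hb : Dep T b)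
    (hc : Dep T c) : Dep T (b - c) := fun y y' h => by
  rw [Pi.sub_apply, Pi.sub_apply, hb y y' h, hc y y' h]

theorem Dep.sum {T : Finset (ZMod p)} {κ : Type*} (S : Finset κ)
    (b : κ → (ZMod p → F) → ZMod p) (h : ∀ i ∈ S, Dep T (b i)) : Dep T (∑ i ∈ S, b i) := by
  intro y y' hy
  rw [Finset.sum_apply, Finset.sum_apply]
  exact Finset.sum_congr rfl fun i hi => h i hi y y' hy

theorem Dep.mono {T T' : Finset (ZMod p)} {b : (ZMod p → F) → ZMod p} (hb : Dep T b)
    (h : T ⊆ T') : Dep T' b := fun y y' hy => hb y y' fun i hi => hy i (h hi)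

theorem tact_update (α : MulAut F) (f : F) (y : ZMod p → F) (s : ZMod p) (z : F) :
    Function.update (tact α f y) s (ap α (-s) f * z) = tact α f (Function.update y s z) := by
  funext i
  by_cases hi : i = s
  · subst hi
    simp [tact]
  · simp [tact, hi]

theorem update_continuous (y : ZMod p → F) (s : ZMod p) :
    Continuous (fun z : F => Function.update y s z) := continuous_const.update s continuous_id

theorem Good.D {α : MulAut F} {b : (ZMod p → F) → ZMod p} (hb : Good α b) (s : ZMod p)
    (j : Fin n) : Good α (D x s j b) := by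
  refine ⟨?_, fun f y => ?_⟩
  · have hc : Continuous (fun y : ZMod p → F => Function.update y s (y s * x j)) :=
      continuous_id.update s ((continuous_apply s).mul continuous_const)
    exact (hb.lc.comp_continuous hc).sub hb.lc
  · simp only [H8.D]
    have h1 : Function.update (tact α f y) s (tact α f y s * x j) =
        tact α f (Function.update y s (y s * x j)) := by
      rw [← tact_update]
      simp only [tact, mul_assoc]
    rw [h1, hb.inv, hb.inv]

theorem Dep.D {T : Finset (ZMod p)} {b : (ZMod p → F) → ZMod p} (hb : Dep T b) (s : ZMod p)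
    (j : Fin n) : Dep T (D x s j b) := by
  intro y y' h
  simp only [H8.D]
  rw [hb y y' h]
  congr 1
  apply hb
  intro i hi
  by_cases his : i = s
  · subst his
    simp [h i hi]
  · simp [his, h i hi]

/-- a function with vanishing differences in one coordinate does not depend on it -/
theorem indep (hF : IsFreeProP p x) {b : (ZMod p → F) → ZMod p} (hb : IsLocallyConstant b)
    (s : ZMod p) (h : ∀ j, D x s j b = 0) (y : ZMod p → F) (z : F) :
    b (Function.update y s z) = b y := by
  have h1 := int_unique hF (fun z => b (Function.update y s z)) (fun _ => b y)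
    (hb.comp_continuous (update_continuous y s)) (IsLocallyConstant.const _) (y s) (by simp)
    (by
      intro j z
      have h2 := congrFun (h j) (Function.update y s z)
      simp only [D, Function.update_self, Function.update_idem, Pi.zero_apply] at h2
      rw [h2, sub_self])
  exact congrFun h1 z

theorem Dep.erase (hF : IsFreeProP p x) {T : Finset (ZMod p)} {b : (ZMod p → F) → ZMod p}
    (hb : IsLocallyConstant b) (hT : Dep T b) (s : ZMod p) (h : ∀ j, H8.D x s j b = 0) :
    Dep (T.erase s) b := by
  intro y y' hy
  rw [← indep hF hb s h y (y' s)]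
  apply hT
  intro i hi
  by_cases his : i = s
  · subst his; simp
  · simp [his, hy i (Finset.mem_erase.2 ⟨his, hi⟩)]

open Classical in
/-- the normalized integral -/
noncomputable def integ (hF : IsFreeProP p x) (B : Fin n → F → ZMod p) : F → ZMod p :=
  if h : ∀ j, IsLocallyConstant (B j) then Classical.choose (int_exists hF B h) else 0

theorem integ_spec (hF : IsFreeProP p x) {B : Fin n → F → ZMod p}
    (hB : ∀ j, IsLocallyConstant (B j)) :
    IsLocallyConstant (integ hF B) ∧ integ hF B 1 = 0 ∧
      ∀ j y, integ hF B (y * x j) = integ hF B y + B j y := by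
  unfold integ
  rw [dif_pos hB]
  exact Classical.choose_spec (int_exists hF B hB)

/-- integration of invariant functions in one coordinate -/
theorem INT (hF : IsFreeProP p x) {α : MulAut F} (hα : α ^ p = 1) (hαc : Continuous α)
    (T : Finset (ZMod p)) (s s' : ZMod p) (hs : s ∈ T) (hs' : s' ∈ T) (hss : s' ≠ s)
    (b : Fin n → (ZMod p → F) → ZMod p) (hb : ∀ j, Good α (b j)) (hbT : ∀ j, Dep T (b j)) :
    ∃ a : (ZMod p → F) → ZMod p, Good α a ∧ Dep T a ∧ ∀ j, D x s j a = b j := by
  classical
  -- the integral for fixed other coordinates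
  let β : (ZMod p → F) → Fin n → F → ZMod p := fun y j z => b j (Function.update y s z)
  have hβ : ∀ y j, IsLocallyConstant (β y j) := fun y j =>
    (hb j).lc.comp_continuous (update_continuous y s)
  let A : (ZMod p → F) → F → ZMod p := fun y => integ hF (β y)
  have hA : ∀ y, IsLocallyConstant (A y) ∧ A y 1 = 0 ∧
      ∀ j z, A y (z * x j) = A y z + β y j z := fun y => integ_spec hF (hβ y)
  let z0 : (ZMod p → F) → F := fun y => ap α (s' - s) (y s')
  have hz0 : Continuous z0 := (ap_continuous hαc _).comp (continuous_apply s')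
  let a : (ZMod p → F) → ZMod p := fun y => A y (y s) - A y (z0 y)
  have hβupd : ∀ y w, β (Function.update y s w) = β y := by
    intro y w
    funext j z
    simp only [β, Function.update_idem]
  have hz0upd : ∀ y w, z0 (Function.update y s w) = z0 y := by
    intro y w
    simp only [z0, Function.update_of_ne hss]
  refine ⟨a, ⟨?_, ?_⟩, ?_, ?_⟩
  · -- locally constant
    have hβlc : IsLocallyConstant β := by
      have h1 : ∀ j, ∃ V : Subgroup F, V.Normal ∧ IsOpen (V : Set F) ∧
          ∀ y y' : ZMod p → F, (∀ i, (y i)⁻¹ * y' i ∈ V) → b j y = b j y' := fun j =>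
        lcX (b j) (hb j).lc
      choose V hVn hVo hV using h1
      rw [IsLocallyConstant.iff_exists_open]
      intro y0
      refine ⟨⋂ j, ⋂ i, {y : ZMod p → F | (y0 i)⁻¹ * y i ∈ V j}, ?_, ?_, ?_⟩
      · refine isOpen_iInter_of_finite fun j => isOpen_iInter_of_finite fun i => ?_
        exact (hVo j).preimage (continuous_const.mul (continuous_apply i))
      · simp [(V _).one_mem]
      · intro y hy
        funext j z
        simp only [β]
        symm
        apply hV j
        intro i
        by_cases hi : i = s
        · subst hi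
          simp [(V j).one_mem]
        · simp only [Function.update_of_ne hi]
          exact Set.mem_iInter.1 (Set.mem_iInter.1 hy j) i
    have hAlc : IsLocallyConstant A := hβlc.comp (fun B => integ hF B)
    rw [IsLocallyConstant.iff_exists_open]
    intro y0
    have h1 : IsOpen (A ⁻¹' {A y0}) := hAlc _
    have h2 : IsOpen ((fun y : ZMod p → F => y s) ⁻¹' (A y0 ⁻¹' {A y0 (y0 s)})) :=
      ((hA y0).1 _).preimage (continuous_apply s)
    have h3 : IsOpen (z0 ⁻¹' (A y0 ⁻¹' {A y0 (z0 y0)})) := ((hA y0).1 _).preimage hz0
    refine ⟨_, (h1.inter h2).inter h3, ⟨⟨rfl, rfl⟩, rfl⟩, ?_⟩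
    rintro y ⟨⟨hy1, hy2⟩, hy3⟩
    have hy1' : A y = A y0 := hy1
    have hy2' : A y0 (y s) = A y0 (y0 s) := hy2
    have hy3' : A y0 (z0 y) = A y0 (z0 y0) := hy3
    simp only [a, hy1', hy2', hy3']
  · -- invariance
    intro f y
    set g := ap α (-s) f with hg
    have hz : z0 (tact α f y) = g * z0 y := by
      simp only [z0, tact, map_mul]
      rw [hg, ← ap_add_apply hα]
      congr 3
      ring
    have h1 : (fun z => A (tact α f y) (g * z) - A (tact α f y) g) = A y := by
      apply int_unique hF _ _ _ (hA y).1 1
      · rw [mul_one, sub_self, (hA y).2.1]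
      · intro j z
        have e1 := (hA (tact α f y)).2.2 j (g * z)
        have e2 := (hA y).2.2 j z
        have e3 : β (tact α f y) j (g * z) = β y j z := by
          simp only [β]
          rw [hg, tact_update, (hb j).inv]
        rw [← mul_assoc, e1, e2, e3]
        ring
      · exact ((hA (tact α f y)).1.comp_continuous (continuous_const_mul g)).comp
          (fun c => c - A (tact α f y) g)
    have h2 : A (tact α f y) (g * y s) - A (tact α f y) g = A y (y s) := congrFun h1 (y s)
    have h3 : A (tact α f y) (g * z0 y) - A (tact α f y) g = A y (z0 y) := congrFun h1 (z0 y)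
    have h4 : (tact α f y) s = g * y s := rfl
    simp only [a]
    rw [hz, h4, ← h2, ← h3]
    ring
  · -- dependence
    intro y y' h
    have h1 : β y = β y' := by
      funext j z
      apply hbT j
      intro i hi
      by_cases his : i = s
      · subst his; simp
      · simp [his, h i hi]
    simp only [a, A, z0, h1, h s hs, h s' hs']
  · intro j
    funext y
    have e1 : A (Function.update y s (y s * x j)) = A y := by
      simp only [A, hβupd]
    simp only [D, a, e1, hz0upd, Function.update_self]
    rw [(hA y).2.2 j (y s)]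
    simp only [β, Function.update_eq_self]
    ring

end Pool.H8
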