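import Pool.Agent.H8.FO1

set_option autoImplicit false
set_option backward.isDefEq.respectTransparency.types true
set_option linter.unusedSectionVars false

/-! Mixed differences. -/

namespace Pool.H8

open Finset

variable {p : ℕ} [Fact p.Prime]

variable {F : Type} [Group F] [TopologicalSpace F] [IsTopologicalGroup F] [CompactSpace F]
  [TotallyDisconnectedSpace F] {n : ℕ} {x : Fin n → F}

/-- multiply the coordinates in `A` by generators -/
def mulOn (x : Fin n → F) (A : Finset (ZMod p)) (σ : ZMod p → Fin n) (y : ZMod p → F) :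
    ZMod p → F := fun i => if i ∈ A then y i * x (σ i) else y i

/-- mixed difference -/
def DD (x : Fin n → F) (T : Finset (ZMod p)) (σ : ZMod p → Fin n) (b : (ZMod p → F) → ZMod p) :
    (ZMod p → F) → ZMod p := fun y => ∑ A ∈ T.powerset, (-1) ^ A.card * b (mulOn x A σ y)

theorem DD_empty (σ : ZMod p → Fin n) (b : (ZMod p → F) → ZMod p) : DD x ∅ σ b = b := by
  funext y
  simp only [DD, powerset_empty, sum_singleton, card_empty, pow_zero, one_mul]
  congr 1

theorem DD_insert {T : Finset (ZMod p)} {s : ZMod p} (hs : s ∉ T) (σ : ZMod p → Fin n)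
    (b : (ZMod p → F) → ZMod p) : DD x (insert s T) σ b = -DD x T σ (D x s (σ s) b) := by
  funext y
  simp only [DD, Pi.neg_apply]
  rw [Finset.sum_powerset_insert hs, ← Finset.sum_add_distrib, ← Finset.sum_neg_distrib]
  refine Finset.sum_congr rfl fun A hA => ?_
  have hsA : s ∉ A := fun h => hs (Finset.mem_powerset.1 hA h)
  rw [Finset.card_insert_of_notMem hsA]
  have h1 : mulOn x (insert s A) σ y = Function.update (mulOn x A σ y) s
      (mulOn x A σ y s * x (σ s)) := by
    funext i
    by_cases hi : i = s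
    · subst hi
      simp [mulOn, hsA]
    · simp [mulOn, hi]
  simp only [D]
  rw [h1]
  ring

theorem DD_insert' {T : Finset (ZMod p)} {s : ZMod p} (hs : s ∉ T) (σ : ZMod p → Fin n)
    (b : (ZMod p → F) → ZMod p) : DD x (insert s T) σ b = -D x s (σ s) (DD x T σ b) := by
  funext y
  simp only [DD, Pi.neg_apply, D]
  rw [Finset.sum_powerset_insert hs, ← Finset.sum_sub_distrib, ← Finset.sum_add_distrib,
    ← Finset.sum_neg_distrib]
  refine Finset.sum_congr rfl fun A hA => ?_
  have hsA : s ∉ A := fun h => hs (Finset.mem_powerset.1 hA h)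
  rw [Finset.card_insert_of_notMem hsA]
  have h1 : mulOn x A σ (Function.update y s (y s * x (σ s))) = mulOn x (insert s A) σ y := by
    funext i
    by_cases hi : i = s
    · subst hi
      simp [mulOn, hsA]
    · simp [mulOn, hi]
  rw [h1]
  ring

theorem DD_congr {T : Finset (ZMod p)} {σ σ' : ZMod p → Fin n} (h : ∀ i ∈ T, σ i = σ' i)
    (b : (ZMod p → F) → ZMod p) : DD x T σ b = DD x T σ' b := by
  funext y
  simp only [DD]
  refine Finset.sum_congr rfl fun A hA => ?_
  have : mulOn x A σ y = mulOn x A σ' y := by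
    funext i
    simp only [mulOn]
    by_cases hi : i ∈ A
    · rw [if_pos hi, if_pos hi, h i (Finset.mem_powerset.1 hA hi)]
    · rw [if_neg hi, if_neg hi]
  rw [this]

theorem DD_add (T : Finset (ZMod p)) (σ : ZMod p → Fin n) (b c : (ZMod p → F) → ZMod p) :
    DD x T σ (b + c) = DD x T σ b + DD x T σ c := by
  funext y
  simp only [DD, Pi.add_apply]
  rw [← Finset.sum_add_distrib]
  exact Finset.sum_congr rfl fun A _ => by ring

theorem DD_zero (T : Finset (ZMod p)) (σ : ZMod p → Fin n) : DD x T σ 0 = 0 := by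
  funext y
  simp [DD]

theorem DD_sub (T : Finset (ZMod p)) (σ : ZMod p → Fin n) (b c : (ZMod p → F) → ZMod p) :
    DD x T σ (b - c) = DD x T σ b - DD x T σ c := by
  funext y
  simp only [DD, Pi.sub_apply]
  rw [← Finset.sum_sub_distrib]
  exact Finset.sum_congr rfl fun A _ => by ring

theorem DD_sum {κ : Type*} (S : Finset κ) (T : Finset (ZMod p)) (σ : ZMod p → Fin n)
    (b : κ → (ZMod p → F) → ZMod p) : DD x T σ (∑ i ∈ S, b i) = ∑ i ∈ S, DD x T σ (b i) := by
  classical
  induction S using Finset.induction_on with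
  | empty => rw [Finset.sum_empty, Finset.sum_empty, DD_zero]
  | insert a S ha ih => rw [Finset.sum_insert ha, Finset.sum_insert ha, DD_add, ih]

theorem D_add (s : ZMod p) (j : Fin n) (b c : (ZMod p → F) → ZMod p) :
    D x s j (b + c) = D x s j b + D x s j c := by
  funext y
  simp only [D, Pi.add_apply]; ring

theorem D_sub (s : ZMod p) (j : Fin n) (b c : (ZMod p → F) → ZMod p) :
    D x s j (b - c) = D x s j b - D x s j c := by
  funext y
  simp only [D, Pi.sub_apply]; ring

theorem D_neg (s : ZMod p) (j : Fin n) (b : (ZMod p → F) → ZMod p) :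
    D x s j (-b) = -D x s j b := by
  funext y
  simp only [D, Pi.neg_apply]; ring

theorem D_zero (s : ZMod p) (j : Fin n) :
    D x s j (0 : (ZMod p → F) → ZMod p) = 0 := by
  funext y
  simp [D]

theorem D_sum {κ : Type*} (S : Finset κ) (s : ZMod p) (j : Fin n)
    (b : κ → (ZMod p → F) → ZMod p) : D x s j (∑ i ∈ S, b i) = ∑ i ∈ S, D x s j (b i) := by
  classical
  induction S using Finset.induction_on with
  | empty => rw [Finset.sum_empty, Finset.sum_empty, D_zero]
  | insert a S ha ih => rw [Finset.sum_insert ha, Finset.sum_insert ha, D_add, ih]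

theorem D_of_dep {T : Finset (ZMod p)} {b : (ZMod p → F) → ZMod p} (hb : Dep T b) {s : ZMod p}
    (hs : s ∉ T) (j : Fin n) : D x s j b = 0 := by
  funext y
  simp only [D, Pi.zero_apply]
  rw [sub_eq_zero]
  apply hb
  intro i hi
  have : i ≠ s := fun h => hs (h ▸ hi)
  simp [this]

theorem DD_of_dep {T S : Finset (ZMod p)} {b : (ZMod p → F) → ZMod p} (hb : Dep T b) {s : ZMod p}
    (hs : s ∉ T) (hsS : s ∈ S) (σ : ZMod p → Fin n) : DD x S σ b = 0 := by
  rw [← Finset.insert_erase hsS, DD_insert (Finset.notMem_erase s S), D_of_dep hb hs, DD_zero,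
    neg_zero]

theorem Good.DD {α : MulAut F} {b : (ZMod p → F) → ZMod p} (hb : Good α b)
    (T : Finset (ZMod p)) (σ : ZMod p → Fin n) : Good α (DD x T σ b) := by
  induction T using Finset.induction_on with
  | empty => rw [DD_empty]; exact hb
  | insert s T hs ih =>
    rw [DD_insert' hs]
    exact (ih.D s (σ s)).neg

/-- solving the mixed difference equation -/
theorem SOLVE (hF : IsFreeProP p x) {α : MulAut F} (hα : α ^ p = 1) (hαc : Continuous α)
    (T : Finset (ZMod p)) : ∀ ω : (ZMod p → Fin n) → (ZMod p → F) → ZMod p,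
    (∀ σ, Good α (ω σ)) → (∀ σ σ', (∀ i ∈ T, σ i = σ' i) → ω σ = ω σ') →
    ∃ a, Good α a ∧ ∀ σ, DD x T σ a = ω σ := by
  classical
  have hnt : Nontrivial (ZMod p) := inferInstance
  induction T using Finset.induction_on with
  | empty =>
    intro ω hω hdep
    by_cases hne : Nonempty (ZMod p → Fin n)
    · obtain ⟨σ0⟩ := hne
      refine ⟨ω σ0, hω σ0, fun σ => ?_⟩
      rw [DD_empty]
      exact hdep _ _ (by simp)
    · exact ⟨0, Good.zero α, fun σ => absurd ⟨σ⟩ hne⟩
  | insert s T hs ih =>
    intro ω hω hdep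
    obtain ⟨s', hs'⟩ := exists_ne s
    -- integrate families
    have hI : ∀ b : Fin n → (ZMod p → F) → ZMod p, ∃ a : (ZMod p → F) → ZMod p,
        (∀ j, Good α (b j)) → (Good α a ∧ ∀ j, D x s j a = b j) := by
      intro b
      by_cases hb : ∀ j, Good α (b j)
      · obtain ⟨a, h1, -, h2⟩ := INT hF hα hαc Finset.univ s s' (Finset.mem_univ _)
          (Finset.mem_univ _) hs' b hb (fun j y y' h => by
            rw [show y = y' from funext fun i => h i (Finset.mem_univ i)])
        exact ⟨a, fun _ => ⟨h1, h2⟩⟩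
      · exact ⟨0, fun h => absurd h hb⟩
    choose I hI using hI
    let fam : (ZMod p → Fin n) → Fin n → (ZMod p → F) → ZMod p :=
      fun σ j => - ω (Function.update σ s j)
    have hfam : ∀ σ, (∀ j, Good α (fam σ j)) := fun σ j => (hω _).neg
    obtain ⟨a, ha, ha'⟩ := ih (fun σ => I (fam σ)) (fun σ => (hI _ (hfam σ)).1) (by
      intro σ σ' h
      have : fam σ = fam σ' := by
        funext j
        simp only [fam]
        rw [hdep (Function.update σ s j) (Function.update σ' s j)]
        intro i hi
        by_cases his : i = s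
        · subst his; simp
        · simp [his, h i ((Finset.mem_insert.1 hi).resolve_left his)]
      simp only [this])
    refine ⟨a, ha, fun σ => ?_⟩
    rw [DD_insert' hs, ha', (hI _ (hfam σ)).2]
    simp [fam]

/-- splitting off coordinates -/
theorem claimG (hF : IsFreeProP p x) {α : MulAut F} (hα : α ^ p = 1) (hαc : Continuous α)
    (T : Finset (ZMod p)) (hT : 3 ≤ T.card) (S : Finset (ZMod p)) :
    S ⊆ T → ∀ a : (ZMod p → F) → ZMod p, Good α a → Dep T a → (∀ σ, DD x S σ a = 0) →
    0 < n → ∃ c : ZMod p → (ZMod p → F) → ZMod p, (∀ s ∈ S, Good α (c s) ∧ Dep (T.erase s) (c s)) ∧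
      a = ∑ s ∈ S, c s := by
  classical
  induction S using Finset.induction_on with
  | empty =>
    intro _ a _ _ h hn
    refine ⟨0, by simp, ?_⟩
    have := h (fun _ => ⟨0, hn⟩)
    rw [DD_empty] at this
    rw [this]; simp
  | insert s S hs ih =>
    intro hST a ha haT h hn
    have hsT : s ∈ T := hST (Finset.mem_insert_self _ _)
    have hST' : S ⊆ T := fun i hi => hST (Finset.mem_insert_of_mem hi)
    have h1 : ∀ j, ∃ c : ZMod p → (ZMod p → F) → ZMod p,
        (∀ s ∈ S, Good α (c s) ∧ Dep (T.erase s) (c s)) ∧ D x s j a = ∑ t ∈ S, c t := by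
      intro j
      apply ih hST' _ (ha.D s j) (haT.D s j) _ hn
      intro σ
      have h2 := h (Function.update σ s j)
      rw [DD_insert hs, Function.update_self, neg_eq_zero] at h2
      rw [← h2]
      apply DD_congr
      intro i hi
      have : i ≠ s := fun h => hs (h ▸ hi)
      simp [this]
    choose c hc hc' using h1
    have h2 : ∀ t, ∃ a' : (ZMod p → F) → ZMod p, t ∈ S → (Good α a' ∧ Dep (T.erase t) a' ∧
        ∀ j, D x s j a' = c j t) := by
      intro t
      by_cases ht : t ∈ S
      · have hst : s ≠ t := fun h => hs (h ▸ ht)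
        obtain ⟨s', hs'⟩ : ∃ s', s' ∈ (T.erase t).erase s := by
          apply Finset.Nonempty.exists_mem
          rw [← Finset.card_pos, Finset.card_erase_of_mem (Finset.mem_erase.2 ⟨hst, hsT⟩),
            Finset.card_erase_of_mem (hST' ht)]
          omega
        obtain ⟨a', h3, h4, h5⟩ := INT hF hα hαc (T.erase t) s s' (Finset.mem_erase.2 ⟨hst, hsT⟩)
          (Finset.mem_of_mem_erase hs') (Finset.ne_of_mem_erase hs') (fun j => c j t)
          (fun j => (hc j t ht).1) (fun j => (hc j t ht).2)
        exact ⟨a', fun _ => ⟨h3, h4, h5⟩⟩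
      · exact ⟨0, fun h => absurd h ht⟩
    choose a' ha' using h2
    have hsumG : Good α (∑ t ∈ S, a' t) := Good.sum _ _ fun t ht => (ha' t ht).1
    have hsumD : Dep T (∑ t ∈ S, a' t) :=
      Dep.sum _ _ fun t ht => (ha' t ht).2.1.mono (Finset.erase_subset _ _)
    refine ⟨fun t => if t = s then a - ∑ t ∈ S, a' t else a' t, ?_, ?_⟩
    · intro t ht
      by_cases hts : t = s
      · subst hts
        simp only [if_true]
        refine ⟨ha.sub hsumG, Dep.erase hF (ha.sub hsumG).lc (haT.sub hsumD) t fun j => ?_⟩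
        rw [D_sub, D_sum, hc' j, sub_eq_zero]
        exact Finset.sum_congr rfl fun t ht => ((ha' t ht).2.2 j).symm
      · simp only [if_neg hts]
        have := ha' t ((Finset.mem_insert.1 ht).resolve_left hts)
        exact ⟨this.1, this.2.1⟩
    · rw [Finset.sum_insert hs, if_pos rfl]
      have : ∑ t ∈ S, (if t = s then a - ∑ t ∈ S, a' t else a' t) = ∑ t ∈ S, a' t := by
        refine Finset.sum_congr rfl fun t ht => ?_
        rw [if_neg (fun h : t = s => hs (by rw [← h]; exact ht))]
      rw [this]
      abel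

end Pool.H8
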