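import Pool.Agent.H8.FO2

set_option autoImplicit false
set_option backward.isDefEq.respectTransparency.types true
set_option linter.unusedSectionVars false

/-! Rotations and the descending induction. -/

namespace Pool.H8

open Finset

section Shift

variable {p : ℕ} [Fact p.Prime]

/-- shift of a set of residues -/
def sh (k : ZMod p) (T : Finset (ZMod p)) : Finset (ZMod p) := T.map (Equiv.addRight k).toEmbedding

theorem mem_sh {k : ZMod p} {T : Finset (ZMod p)} {i : ZMod p} : i ∈ sh k T ↔ i - k ∈ T := by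
  unfold sh
  rw [Finset.mem_map]
  constructor
  · rintro ⟨j, hj, rfl⟩
    simpa using hj
  · intro h
    exact ⟨i - k, h, by simp⟩

theorem card_sh (k : ZMod p) (T : Finset (ZMod p)) : (sh k T).card = T.card := Finset.card_map _

theorem sum_sh (k : ZMod p) (T : Finset (ZMod p)) :
    ∑ i ∈ sh k T, i = ∑ i ∈ T, i + (T.card : ZMod p) * k := by
  unfold sh
  rw [Finset.sum_map]
  simp [Finset.sum_add_distrib]

theorem sh_zero (T : Finset (ZMod p)) : sh 0 T = T := by
  ext i; rw [mem_sh, sub_zero]

theorem sh_sh (k l : ZMod p) (T : Finset (ZMod p)) : sh k (sh l T) = sh (l + k) T := by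
  ext i; rw [mem_sh, mem_sh, mem_sh]
  rw [show i - k - l = i - (l + k) by ring]

theorem cast_ne_zero {m : ℕ} (hm : 0 < m) (hmp : m < p) : (m : ZMod p) ≠ 0 := by
  intro h
  rw [ZMod.natCast_eq_zero_iff] at h
  exact absurd (Nat.le_of_dvd hm h) (by omega)

/-- the sum of a shift invariant function of subsets -/
theorem sum_shift (φ : Finset (ZMod p) → ZMod p) (hφ : ∀ k A, φ (sh k A) = φ A) :
    ∑ A, φ A = φ ∅ + φ Finset.univ := by
  classical
  have : NeZero p := ⟨(Fact.out : p.Prime).ne_zero⟩
  let Y : Finset (Finset (ZMod p)) := Finset.univ.filter fun A => A ≠ ∅ ∧ A ≠ Finset.univ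
  have hY : (Finset.univ : Finset (Finset (ZMod p))) = insert ∅ (insert Finset.univ Y) := by
    ext A
    simp only [Finset.mem_univ, Finset.mem_insert, Y, Finset.mem_filter, true_and, true_iff]
    tauto
  have hne : (∅ : Finset (ZMod p)) ≠ Finset.univ := by
    intro h
    have : (0 : ZMod p) ∈ (∅ : Finset (ZMod p)) := by rw [h]; exact Finset.mem_univ _
    simp at this
  have h1 : ∑ A, φ A = φ ∅ + (φ Finset.univ + ∑ A ∈ Y, φ A) := by
    rw [hY, Finset.sum_insert, Finset.sum_insert]
    · simp [Y]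
    · simp only [Finset.mem_insert, Y, Finset.mem_filter]
      rintro (h | h)
      · exact hne h
      · exact h.2.1 rfl
  have h2 : ∑ A ∈ Y, φ A = 0 := by
    let mm : Finset (ZMod p) → ZMod p := fun A => (∑ i ∈ A, i) * (A.card : ZMod p)⁻¹
    rw [← Finset.sum_fiberwise Y mm φ]
    have h3 : ∀ c : ZMod p, ∑ A ∈ Y with mm A = c, φ A = ∑ A ∈ Y with mm A = 0, φ A := by
      intro c
      have hYsh : ∀ k A, A ∈ Y → sh k A ∈ Y := by
        intro k A hA
        simp only [Y, Finset.mem_filter, Finset.mem_univ, true_and] at hA ⊢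
        constructor
        · intro h
          apply hA.1
          rw [← Finset.card_eq_zero] at h ⊢
          rwa [card_sh] at h
        · intro h
          apply hA.2
          rw [← Finset.card_eq_iff_eq_univ] at h ⊢
          rwa [card_sh] at h
      have hmm : ∀ k A, A ∈ Y → mm (sh k A) = mm A + k := by
        intro k A hA
        simp only [Y, Finset.mem_filter, Finset.mem_univ, true_and] at hA
        have hc : (A.card : ZMod p) ≠ 0 := by
          apply cast_ne_zero
          · exact Finset.card_pos.2 (Finset.nonempty_iff_ne_empty.2 hA.1)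
          · have h5 : A.card ≤ Fintype.card (ZMod p) := Finset.card_le_univ A
            have h6 : A.card ≠ Fintype.card (ZMod p) := fun h =>
              hA.2 ((Finset.card_eq_iff_eq_univ A).1 h)
            rw [ZMod.card] at h5 h6
            omega
        simp only [mm]
        rw [sum_sh, card_sh]
        field_simp
      refine Finset.sum_nbij' (sh (-c)) (sh c) ?_ ?_ ?_ ?_ ?_
      · intro A hA
        rw [Finset.mem_filter] at hA ⊢
        exact ⟨hYsh _ _ hA.1, by rw [hmm _ _ hA.1, hA.2, add_neg_cancel]⟩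
      · intro A hA
        rw [Finset.mem_filter] at hA ⊢
        exact ⟨hYsh _ _ hA.1, by rw [hmm _ _ hA.1, hA.2, zero_add]⟩
      · intro A _
        rw [sh_sh, neg_add_cancel, sh_zero]
      · intro A _
        rw [sh_sh, add_neg_cancel, sh_zero]
      · intro A _
        rw [hφ]
    rw [Finset.sum_congr rfl fun c _ => h3 c, Finset.sum_const, Finset.card_univ, ZMod.card]
    simp
  rw [h1, h2, add_zero]

end Shift

variable {p : ℕ} [Fact p.Prime]

variable {F : Type} [Group F] [TopologicalSpace F] [IsTopologicalGroup F] [CompactSpace F]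
  [TotallyDisconnectedSpace F] {n : ℕ} {x : Fin n → F}

/-- rotation by a residue -/
def rk (k : ZMod p) (y : ZMod p → F) : ZMod p → F := fun i => y (i + k)

/-- the rotation operator on functions -/
def R (k : ZMod p) (b : (ZMod p → F) → ZMod p) : (ZMod p → F) → ZMod p := fun y => b (rk k y)

theorem R_R (k l : ZMod p) (b : (ZMod p → F) → ZMod p) : R k (R l b) = R (l + k) b := by
  funext y
  change b (rk l (rk k y)) = b (rk (l + k) y)
  congr 1
  funext i
  simp only [rk, add_assoc]

theorem R_zero (b : (ZMod p → F) → ZMod p) : R 0 b = b := by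
  funext y
  change b (rk 0 y) = b y
  congr 1
  funext i
  simp only [rk, add_zero]

theorem R_add (k : ZMod p) (b c : (ZMod p → F) → ZMod p) : R k (b + c) = R k b + R k c := rfl

theorem R_sub (k : ZMod p) (b c : (ZMod p → F) → ZMod p) : R k (b - c) = R k b - R k c := rfl

theorem R_neg (k : ZMod p) (b : (ZMod p → F) → ZMod p) : R k (-b) = -R k b := rfl

theorem R_sum {κ : Type*} (S : Finset κ) (k : ZMod p) (b : κ → (ZMod p → F) → ZMod p) :
    R k (∑ i ∈ S, b i) = ∑ i ∈ S, R k (b i) := by
  funext y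
  simp only [R, Finset.sum_apply]

theorem Good.R {α : MulAut F} (hα : α ^ p = 1) {b : (ZMod p → F) → ZMod p} (hb : Good α b)
    (k : ZMod p) : Good α (R k b) := by
  refine ⟨hb.lc.comp_continuous (continuous_pi fun i => continuous_apply (i + k)), fun f y => ?_⟩
  have h1 : rk k (tact α f y) = tact α (ap α (-k) f) (rk k y) := by
    funext i
    simp only [rk, tact]
    rw [← ap_add_apply hα]
    congr 3
    ring
  change b (rk k (tact α f y)) = b (rk k y)
  rw [h1, hb.inv]

theorem Dep.R {T : Finset (ZMod p)} {b : (ZMod p → F) → ZMod p} (hb : Dep T b) (k : ZMod p) :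
    Dep (sh k T) (R k b) := by
  intro y y' h
  apply hb
  intro i hi
  simp only [rk]
  apply h
  rw [mem_sh, add_sub_cancel_right]
  exact hi

theorem DD_R (T : Finset (ZMod p)) (σ : ZMod p → Fin n) (k : ZMod p)
    (b : (ZMod p → F) → ZMod p) :
    DD x (sh k T) σ (R k b) = R k (DD x T (fun i => σ (i + k)) b) := by
  classical
  funext y
  simp only [DD, R]
  refine Finset.sum_nbij' (sh (-k)) (sh k) ?_ ?_ ?_ ?_ ?_
  · intro A hA
    rw [Finset.mem_powerset] at hA ⊢
    intro i hi
    rw [mem_sh] at hi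
    have := hA hi
    rw [mem_sh] at this
    simpa using this
  · intro A hA
    rw [Finset.mem_powerset] at hA ⊢
    intro i hi
    rw [mem_sh] at hi ⊢
    exact hA hi
  · intro A _
    rw [sh_sh, neg_add_cancel, sh_zero]
  · intro A _
    rw [sh_sh, add_neg_cancel, sh_zero]
  · intro A _
    rw [card_sh]
    congr 2
    funext i
    simp only [rk, mulOn, mem_sh]
    rw [sub_neg_eq_add]

/-- the norm -/
def Nm (b : (ZMod p → F) → ZMod p) : (ZMod p → F) → ZMod p := ∑ k : ZMod p, R k b

theorem Nm_def (b : (ZMod p → F) → ZMod p) : Nm b = ∑ k : ZMod p, R k b := rfl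

theorem Nm_R (k : ZMod p) (b : (ZMod p → F) → ZMod p) : Nm (R k b) = Nm b := by
  rw [Nm_def, Nm_def]
  simp only [R_R]
  exact Fintype.sum_equiv (Equiv.addLeft k) _ _ fun i => rfl

theorem Nm_add (b c : (ZMod p → F) → ZMod p) : Nm (b + c) = Nm b + Nm c := by
  rw [Nm_def, Nm_def, Nm_def, ← Finset.sum_add_distrib]
  rfl

theorem Nm_sub (b c : (ZMod p → F) → ZMod p) : Nm (b - c) = Nm b - Nm c := by
  rw [Nm_def, Nm_def, Nm_def, ← Finset.sum_sub_distrib]
  rfl

theorem regroup (hF : IsFreeProP p x) {α : MulAut F} (hα : α ^ p = 1) {m : ℕ} (hm : 0 < m)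
    (hmp : m < p) {κ : Type} (I : Finset κ) (S : κ → Finset (ZMod p))
    (b : κ → (ZMod p → F) → ZMod p)
    (hS : ∀ i ∈ I, (S i).card = m) (hG : ∀ i ∈ I, Good α (b i)) (hD : ∀ i ∈ I, Dep (S i) (b i))
    (hN : Nm (∑ i ∈ I, b i) = 0) :
    ∃ (c : (ZMod p → F) → ZMod p) (b' : Finset (ZMod p) → (ZMod p → F) → ZMod p),
      Good α c ∧ (∀ σ, DD x Finset.univ σ c = 0) ∧
      (∀ S0, Good α (b' S0) ∧ Dep S0 (b' S0) ∧ ∀ σ, DD x S0 σ (b' S0) = 0) ∧
      ∑ i ∈ I, b i = R 1 c - c + ∑ S0 ∈ Finset.powersetCard m Finset.univ, b' S0 := by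
  classical
  have hm0 : (m : ZMod p) ≠ 0 := cast_ne_zero hm hmp
  let ka : κ → ZMod p := fun i => - (∑ t ∈ S i, t) * (m : ZMod p)⁻¹
  let b' : Finset (ZMod p) → (ZMod p → F) → ZMod p := fun S0 =>
    ∑ i ∈ I with sh (ka i) (S i) = S0, R (ka i) (b i)
  have hbal : ∀ i ∈ I, ∑ t ∈ sh (ka i) (S i), t = 0 := by
    intro i hi
    rw [sum_sh, hS i hi]
    simp only [ka]
    field_simp
    ring
  have hb'G : ∀ S0, Good α (b' S0) := fun S0 =>
    Good.sum _ _ fun i hi => (hG i (Finset.mem_filter.1 hi).1).R hα _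
  have hb'D : ∀ S0, Dep S0 (b' S0) := fun S0 =>
    Dep.sum _ _ fun i hi => by
      have := (hD i (Finset.mem_filter.1 hi).1).R (ka i)
      rwa [(Finset.mem_filter.1 hi).2] at this
  have hb'bal : ∀ S0, (∑ t ∈ S0, t ≠ 0 ∨ S0.card ≠ m) → b' S0 = 0 := by
    intro S0 h
    apply Finset.sum_eq_zero
    intro i hi
    exfalso
    have h1 := (Finset.mem_filter.1 hi)
    rcases h with h | h
    · apply h
      rw [← h1.2]
      exact hbal i h1.1
    · apply h
      rw [← h1.2, card_sh, hS i h1.1]
  have hsum : ∑ S0 ∈ Finset.powersetCard m Finset.univ, b' S0 = ∑ i ∈ I, R (ka i) (b i) := by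
    apply Finset.sum_fiberwise_of_maps_to
    intro i hi
    rw [Finset.mem_powersetCard]
    exact ⟨Finset.subset_univ _, by rw [card_sh, hS i hi]⟩
  let c : (ZMod p → F) → ZMod p := -∑ i ∈ I, ∑ t ∈ Finset.range (ka i).val, R (t : ZMod p) (b i)
  have hc : R 1 c - c = ∑ i ∈ I, b i - ∑ i ∈ I, R (ka i) (b i) := by
    have h1 : ∀ i, R 1 (∑ t ∈ Finset.range (ka i).val, R (t : ZMod p) (b i)) -
        ∑ t ∈ Finset.range (ka i).val, R (t : ZMod p) (b i) = R (ka i) (b i) - b i := by
      intro i
      rw [R_sum, ← Finset.sum_sub_distrib]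
      have h2 : ∀ t ∈ Finset.range (ka i).val, R 1 (R (t : ZMod p) (b i)) - R (t : ZMod p) (b i) =
          R ((t + 1 : ℕ) : ZMod p) (b i) - R (t : ZMod p) (b i) := by
        intro t _
        rw [R_R, Nat.cast_add, Nat.cast_one]
      rw [Finset.sum_congr rfl h2, Finset.sum_range_sub (fun t : ℕ => R (t : ZMod p) (b i))]
      rw [ZMod.natCast_zmod_val, Nat.cast_zero, R_zero]
    simp only [c]
    rw [R_neg, R_sum, sub_neg_eq_add, neg_add_eq_sub, ← neg_sub, ← Finset.sum_sub_distrib,
      Finset.sum_congr rfl fun i _ => h1 i, Finset.sum_sub_distrib]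
    abel
  have hcG : Good α c := (Good.sum _ _ fun i hi => Good.sum _ _ fun t _ => (hG i hi).R hα _).neg
  have hcD : ∀ σ, DD x Finset.univ σ c = 0 := by
    intro σ
    have h1 : DD x Finset.univ σ (∑ i ∈ I, ∑ t ∈ Finset.range (ka i).val, R (t : ZMod p) (b i)) = 0 := by
      rw [DD_sum]
      apply Finset.sum_eq_zero
      intro i hi
      rw [DD_sum]
      apply Finset.sum_eq_zero
      intro t _
      obtain ⟨s, hs⟩ : ∃ s, s ∉ sh (t : ZMod p) (S i) := by
        by_contra hcon
        push Not at hcon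
        have h2 : sh (t : ZMod p) (S i) = Finset.univ := Finset.eq_univ_iff_forall.2 hcon
        have h3 := card_sh (t : ZMod p) (S i)
        rw [h2, Finset.card_univ, ZMod.card, hS i hi] at h3
        omega
      exact DD_of_dep ((hD i hi).R _) hs (Finset.mem_univ s) σ
    have h2 : DD x Finset.univ σ (0 - c) = 0 := by
      have h3 : (0 : (ZMod p → F) → ZMod p) - c = ∑ i ∈ I, ∑ t ∈ Finset.range (ka i).val,
          R (t : ZMod p) (b i) := by simp only [c]; abel
      rw [h3]
      exact h1
    rw [DD_sub, DD_zero, zero_sub, neg_eq_zero] at h2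
    exact h2
  have hNb : Nm (∑ S0 ∈ Finset.powersetCard m Finset.univ, b' S0) = 0 := by
    have h1 : ∑ S0 ∈ Finset.powersetCard m Finset.univ, b' S0 = ∑ i ∈ I, b i - (R 1 c - c) := by
      rw [hsum, hc]; abel
    rw [h1, Nm_sub, Nm_sub, Nm_R, hN]
    simp
  refine ⟨c, b', hcG, hcD, fun S0 => ⟨hb'G S0, hb'D S0, fun σ => ?_⟩, ?_⟩
  · by_cases hS0 : (∑ t ∈ S0, t ≠ 0 ∨ S0.card ≠ m)
    · rw [hb'bal S0 hS0, DD_zero]
    · push Not at hS0
      obtain ⟨hS0b, hS0c⟩ := hS0
      have h1 : DD x S0 σ (Nm (∑ S0 ∈ Finset.powersetCard m Finset.univ, b' S0)) = 0 := by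
        rw [hNb, DD_zero]
      rw [Nm_def, DD_sum, Finset.sum_eq_single 0] at h1
      · rw [R_zero, DD_sum, Finset.sum_eq_single S0] at h1
        · exact h1
        · intro S1 hS1 hne
          have h2 : (S1.card = m) := (Finset.mem_powersetCard.1 hS1).2
          obtain ⟨s, hs, hs'⟩ : ∃ s ∈ S0, s ∉ S1 := by
            by_contra hcon
            push Not at hcon
            exact hne (Finset.eq_of_subset_of_card_le (fun s hs => hcon s hs) (by omega)).symm
          exact DD_of_dep (hb'D S1) hs' hs σ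
        · intro h
          exact absurd (Finset.mem_powersetCard.2 ⟨Finset.subset_univ _, hS0c⟩) h
      · intro k _ hk
        rw [R_sum, DD_sum]
        apply Finset.sum_eq_zero
        intro S1 hS1
        by_cases hS1b : ∑ t ∈ S1, t ≠ 0
        · rw [hb'bal S1 (Or.inl hS1b)]
          exact DD_zero _ _
        · push Not at hS1b
          have h2 : (S1.card = m) := (Finset.mem_powersetCard.1 hS1).2
          obtain ⟨s, hs, hs'⟩ : ∃ s ∈ S0, s ∉ sh k S1 := by
            by_contra hcon
            push Not at hcon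
            have h3 : S0 = sh k S1 :=
              Finset.eq_of_subset_of_card_le (fun s hs => hcon s hs) (by rw [card_sh]; omega)
            have h4 := sum_sh k S1
            rw [← h3, hS0b, hS1b, zero_add, h2] at h4
            rcases mul_eq_zero.1 h4.symm with h | h
            · exact hm0 h
            · exact hk h
          exact DD_of_dep ((hb'D S1).R k) hs' hs σ
      · intro h
        exact absurd (Finset.mem_univ _) h
  · rw [hc, hsum]; abel

/-- the finite set of functions with constant differences -/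
def Wset (x : Fin n → F) : Set ((ZMod p → F) → ZMod p) :=
  {w | IsLocallyConstant w ∧ ∀ s j, ∃ c, ∀ y, D x s j w y = c}

theorem const_of_D (hF : IsFreeProP p x) {b : (ZMod p → F) → ZMod p} (hb : IsLocallyConstant b)
    (h : ∀ s j, D x s j b = 0) (y y' : ZMod p → F) : b y = b y' := by
  classical
  have key : ∀ A : Finset (ZMod p), Dep (Finset.univ \ A) b := by
    intro A
    induction A using Finset.induction_on with
    | empty =>
      intro y y' h
      rw [show y = y' from funext fun i => h i (by simp)]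
    | insert s A hs ih =>
      rw [Finset.sdiff_insert]
      exact Dep.erase hF hb ih s (h s)
  apply key Finset.univ
  intro i hi
  simp at hi

theorem Wset_finite (hF : IsFreeProP p x) : (Wset (p := p) x).Finite := by
  let f : Wset (p := p) x → ZMod p × (ZMod p → Fin n → ZMod p) := fun w =>
    (w.1 1, fun s j => D x s j w.1 1)
  have hf : Function.Injective f := by
    rintro ⟨w, hw1, hw2⟩ ⟨w', hw1', hw2'⟩ h
    have h1 : w 1 = w' 1 := congrArg Prod.fst h
    have h2 : ∀ s j, D x s j w 1 = D x s j w' 1 := fun s j =>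
      congrFun (congrFun (congrArg Prod.snd h) s) j
    apply Subtype.ext
    change w = w'
    have h3 : ∀ s j, D x s j (w - w') = 0 := by
      intro s j
      rw [D_sub]
      obtain ⟨c, hc⟩ := hw2 s j
      obtain ⟨c', hc'⟩ := hw2' s j
      funext y
      rw [Pi.sub_apply, hc, hc', Pi.zero_apply, ← hc 1, ← hc' 1, h2, sub_self]
    funext y
    have h4 := const_of_D hF (hw1.sub hw1') h3 y 1
    rw [Pi.sub_apply, Pi.sub_apply, h1, sub_self, sub_eq_zero] at h4
    exact h4
  exact Set.finite_coe_iff.1 (Finite.of_injective f hf)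

theorem Wset_add {w w' : (ZMod p → F) → ZMod p} (hw : w ∈ Wset x) (hw' : w' ∈ Wset x) :
    w + w' ∈ Wset x := by
  refine ⟨hw.1.add hw'.1, fun s j => ?_⟩
  obtain ⟨c, hc⟩ := hw.2 s j
  obtain ⟨c', hc'⟩ := hw'.2 s j
  refine ⟨c + c', fun y => ?_⟩
  rw [D_add, Pi.add_apply, hc, hc']

theorem Wset_zero : (0 : (ZMod p → F) → ZMod p) ∈ Wset x :=
  ⟨IsLocallyConstant.const 0, fun s j => ⟨0, fun y => by rw [D_zero]; rfl⟩⟩

theorem Wset_sum {κ : Type*} (S : Finset κ) (b : κ → (ZMod p → F) → ZMod p)
    (h : ∀ i ∈ S, b i ∈ Wset x) : ∑ i ∈ S, b i ∈ Wset x := by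
  classical
  induction S using Finset.induction_on with
  | empty => rw [Finset.sum_empty]; exact Wset_zero
  | insert a S ha ih =>
    rw [Finset.sum_insert ha]
    exact Wset_add (h a (Finset.mem_insert_self _ _))
      (ih fun i hi => h i (Finset.mem_insert_of_mem hi))

theorem Wset_of_two (hF : IsFreeProP p x) {α : MulAut F} (hα : α ^ p = 1)
    {T : Finset (ZMod p)} (hT : T.card = 2) {a : (ZMod p → F) → ZMod p} (ha : Good α a)
    (haT : Dep T a) (h : ∀ σ, DD x T σ a = 0) : a ∈ Wset x := by
  classical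
  refine ⟨ha.lc, fun s j => ?_⟩
  by_cases hs : s ∈ T
  · obtain ⟨t, ht⟩ : ∃ t, T.erase s = {t} := by
      rw [← Finset.card_eq_one, Finset.card_erase_of_mem hs, hT]
    have hts : t ≠ s := by
      have : t ∈ T.erase s := by rw [ht]; exact Finset.mem_singleton_self t
      exact Finset.ne_of_mem_erase this
    have hTe : T = insert s {t} := by rw [← ht, Finset.insert_erase hs]
    have h1 : ∀ k, D x t k (D x s j a) = 0 := by
      intro k
      have h2 := h (fun i => if i = s then j else k)
      rw [hTe, DD_insert (by simpa using hts.symm), neg_eq_zero] at h2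
      rw [show ({t} : Finset (ZMod p)) = insert t ∅ from rfl, DD_insert (by simp),
        neg_eq_zero, DD_empty] at h2
      simpa [hts] using h2
    have h3 : Dep {s} (D x s j a) := by
      have h4 := Dep.erase hF (ha.D s j).lc (haT.D s j) t h1
      refine h4.mono ?_
      rw [hTe]
      intro i hi
      simp only [Finset.mem_erase, Finset.mem_insert, Finset.mem_singleton] at hi ⊢
      tauto
    refine ⟨D x s j a 1, fun y => ?_⟩
    rw [← (ha.D (x := x) s j).inv (ap α s (y s)⁻¹) y]
    apply h3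
    intro i hi
    rw [Finset.mem_singleton] at hi
    subst hi
    simp only [tact]
    rw [← ap_add_apply hα, neg_add_cancel, ap_zero]
    change (y i)⁻¹ * y i = 1
    rw [inv_mul_cancel]
  · exact ⟨0, fun y => congrFun (D_of_dep haT hs j) y⟩

/-- the descending induction -/
theorem PJ (hF : IsFreeProP p x) {α : MulAut F} (hα : α ^ p = 1) (hαc : Continuous α)
    (hn : 0 < n) (m : ℕ) (hm : 2 ≤ m) : m ≤ p →
    ∀ a : Finset (ZMod p) → (ZMod p → F) → ZMod p,
    (∀ T, T.card = m → Good α (a T) ∧ Dep T (a T) ∧ ∀ σ, DD x T σ (a T) = 0) →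
    Nm (∑ T ∈ Finset.powersetCard m Finset.univ, a T) = 0 →
    ∃ c w, Good α c ∧ (∀ σ, DD x Finset.univ σ c = 0) ∧ w ∈ Wset x ∧
      ∑ T ∈ Finset.powersetCard m Finset.univ, a T = R 1 c - c + w := by
  classical
  induction m, hm using Nat.le_induction with
  | base =>
    intro _ a ha _
    refine ⟨0, ∑ T ∈ Finset.powersetCard 2 Finset.univ, a T, Good.zero α, fun σ => DD_zero _ _,
      Wset_sum _ _ fun T hT => ?_, ?_⟩
    · have h1 := (Finset.mem_powersetCard.1 hT).2
      obtain ⟨h2, h3, h4⟩ := ha T h1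
      exact Wset_of_two hF hα h1 h2 h3 h4
    · have : R 1 (0 : (ZMod p → F) → ZMod p) = 0 := rfl
      rw [this]; simp
  | succ m hm ih =>
    intro hmp a ha hN
    have hG : ∀ T : Finset (ZMod p), ∃ c : ZMod p → (ZMod p → F) → ZMod p, T.card = m + 1 →
        ((∀ s ∈ T, Good α (c s) ∧ Dep (T.erase s) (c s)) ∧ a T = ∑ s ∈ T, c s) := by
      intro T
      by_cases hT : T.card = m + 1
      · obtain ⟨h2, h3, h4⟩ := ha T hT
        obtain ⟨c, hc⟩ := claimG hF hα hαc T (by omega) T (Finset.Subset.refl T) (a T) h2 h3 h4 hn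
        exact ⟨c, fun _ => hc⟩
      · exact ⟨0, fun h => absurd h hT⟩
    choose c hc using hG
    let I : Finset ((_ : Finset (ZMod p)) × ZMod p) :=
      (Finset.powersetCard (m + 1) Finset.univ).sigma fun T => T
    have hI : ∀ i ∈ I, i.1.card = m + 1 ∧ i.2 ∈ i.1 := by
      intro i hi
      have := Finset.mem_sigma.1 hi
      exact ⟨(Finset.mem_powersetCard.1 this.1).2, this.2⟩
    have hsum : ∑ T ∈ Finset.powersetCard (m + 1) Finset.univ, a T = ∑ i ∈ I, c i.1 i.2 := by
      rw [Finset.sum_sigma]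
      refine Finset.sum_congr rfl fun T hT => ?_
      exact (hc T (Finset.mem_powersetCard.1 hT).2).2
    obtain ⟨e, b', he, he', hb', hsum'⟩ := regroup hF hα (m := m) (by omega) (by omega) I
      (fun i => i.1.erase i.2) (fun i => c i.1 i.2)
      (fun i hi => by
        obtain ⟨h1, h2⟩ := hI i hi
        rw [Finset.card_erase_of_mem h2, h1]; rfl)
      (fun i hi => by
        obtain ⟨h1, h2⟩ := hI i hi
        exact ((hc i.1 h1).1 i.2 h2).1)
      (fun i hi => by
        obtain ⟨h1, h2⟩ := hI i hi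
        exact ((hc i.1 h1).1 i.2 h2).2)
      (by rw [← hsum]; exact hN)
    obtain ⟨c', w, hc'1, hc'2, hw, hc'3⟩ := ih (by omega) b' (fun T _ => hb' T) (by
      have h1 : Nm (∑ i ∈ I, c i.1 i.2) = 0 := by rw [← hsum]; exact hN
      rw [hsum', Nm_add, Nm_sub, Nm_R, sub_self, zero_add] at h1
      exact h1)
    refine ⟨e + c', w, he.add hc'1, fun σ => ?_, hw, ?_⟩
    · rw [DD_add, he', hc'2, add_zero]
    · rw [hsum, hsum', hc'3, R_add]
      abel

end Pool.H8
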