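import Pool.Agent.H8.FO3

set_option autoImplicit false
set_option backward.isDefEq.respectTransparency.types true
set_option linter.unusedSectionVars false

/-! Fixed points of automorphisms of order p: finitely many characters. -/

namespace Pool.H8

open Finset

section Compact

variable {F : Type} [Group F] [TopologicalSpace F] [IsTopologicalGroup F]
  [CompactSpace F] [TotallyDisconnectedSpace F]

/-- almost fixed elements are close to fixed elements -/
theorem exists_close (β : F →* F) (hβ : Continuous β) (H : Subgroup F)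
    (hH : ∀ y, β y = y → y ∈ H) (V : Subgroup F) (hVo : IsOpen (V : Set F)) :
    ∃ V' : Subgroup F, V'.Normal ∧ IsOpen (V' : Set F) ∧ V' ≤ V ∧
      ∀ u, u⁻¹ * β u ∈ V' → ∃ h ∈ H, h⁻¹ * u ∈ V := by
  have hO : IsOpen {u : F | ∃ h ∈ H, h⁻¹ * u ∈ V} := by
    have : {u : F | ∃ h ∈ H, h⁻¹ * u ∈ V} = ⋃ h ∈ H, (fun u => h⁻¹ * u) ⁻¹' (V : Set F) := by
      ext u
      simp
    rw [this]
    exact isOpen_biUnion fun h _ => hVo.preimage (continuous_const_mul _)
  have hK : IsCompact {u : F | ∃ h ∈ H, h⁻¹ * u ∈ V}ᶜ := hO.isClosed_compl.isCompact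
  have hcont : Continuous (fun u : F => u⁻¹ * β u) := continuous_inv.mul hβ
  have hI : IsClosed ((fun u : F => u⁻¹ * β u) '' {u : F | ∃ h ∈ H, h⁻¹ * u ∈ V}ᶜ) :=
    (hK.image hcont).isClosed
  have h1 : (1 : F) ∈ ((fun u : F => u⁻¹ * β u) '' {u : F | ∃ h ∈ H, h⁻¹ * u ∈ V}ᶜ)ᶜ := by
    rintro ⟨u, hu, hu1⟩
    apply hu
    refine ⟨u, hH u ?_, by simp [V.one_mem]⟩
    exact (inv_mul_eq_one.1 hu1).symm
  obtain ⟨V'', hn, ho, hV''⟩ := exists_openNormal (hI.isOpen_compl.inter hVo) ⟨h1, V.one_mem⟩
  refine ⟨V'', hn, ho, fun v hv => (hV'' hv).2, fun u hu => ?_⟩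
  by_contra hcon
  exact (hV'' hu).1 ⟨u, hcon, rfl⟩

end Compact

variable {p : ℕ} [Fact p.Prime]

variable {F : Type} [Group F] [TopologicalSpace F] [IsTopologicalGroup F] [CompactSpace F]
  [TotallyDisconnectedSpace F] {n : ℕ} {x : Fin n → F}

/-- closeness to the orbit of a diagonal point -/
def Cl (α : MulAut F) (V' : Subgroup F) (y : ZMod p → F) (f z : F) : Prop :=
  ∀ i : ZMod p, (y i)⁻¹ * (ap α (-i) f * z) ∈ V'

theorem omega_exists {α : MulAut F} (hα : α ^ p = 1) (hαc : Continuous α)
    (H : Subgroup F) (hH : ∀ y, y ∈ H ↔ α y = y) (V : Subgroup F) (hVn : V.Normal)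
    (hVo : IsOpen (V : Set F)) (g : Fin n → F → ZMod p)
    (hgV : ∀ j y v, v ∈ V → g j (y * v) = g j y) (hgH : ∀ j h y, h ∈ H → g j (h * y) = g j y) :
    ∃ ω : Fin n → (ZMod p → F) → ZMod p, (∀ j, Good α (ω j)) ∧ (∀ j, R 1 (ω j) = ω j) ∧
      ∀ j y, ω j (fun _ => y) = g j y := by
  classical
  have hfix : ∀ y, ap (p := p) α (-1) y = y → y ∈ H := by
    intro y hy
    rw [hH]
    have h1 : ap (p := p) α 1 (ap (p := p) α (-1) y) = y := by
      rw [← ap_add_apply hα, add_neg_cancel, ap_zero]; rfl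
    rw [hy] at h1
    have h2 : ap (p := p) α 1 = α := by
      have : Fact (1 < p) := ⟨(Fact.out : p.Prime).one_lt⟩
      rw [ap, ZMod.val_one, pow_one]
    rwa [h2] at h1
  obtain ⟨V', hVn', hVo', hVV', hV'⟩ := exists_close ((ap (p := p) α (-1)).toMonoidHom)
    (ap_continuous hαc (-1)) H hfix V hVo
  -- well definedness
  have hwd : ∀ (y : ZMod p → F) f z f' z', Cl α V' y f z → Cl α V' y f' z' → ∀ j,
      g j z = g j z' := by
    intro y f z f' z' h h' j
    have h1 : ∀ i : ZMod p, z⁻¹ * (ap α (-i) (f⁻¹ * f') * z') ∈ V' := by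
      intro i
      have h2 := V'.mul_mem (V'.inv_mem (h i)) (h' i)
      have h3 : ((y i)⁻¹ * (ap α (-i) f * z))⁻¹ * ((y i)⁻¹ * (ap α (-i) f' * z')) =
          z⁻¹ * (ap α (-i) (f⁻¹ * f') * z') := by
        rw [map_mul, map_inv]
        group
      rwa [h3] at h2
    set u := f⁻¹ * f' with hu
    have h4 := h1 0
    have h5 := h1 1
    rw [neg_zero, ap_zero] at h4
    change z⁻¹ * (u * z') ∈ V' at h4
    have h6 : u⁻¹ * (ap (p := p) α (-1)).toMonoidHom u ∈ V' := by
      have h7 := V'.mul_mem (V'.inv_mem h4) h5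
      have h8 := hVn'.conj_mem _ h7 z'
      have h9 : z' * ((z⁻¹ * (u * z'))⁻¹ * (z⁻¹ * (ap (p := p) α (-1) u * z'))) * z'⁻¹ =
          u⁻¹ * ap (p := p) α (-1) u := by group
      rw [h9] at h8
      exact h8
    obtain ⟨h, hh, hhu⟩ := hV' u h6
    have h10 : u * z' = h * z' * (z'⁻¹ * (h⁻¹ * u) * z') := by group
    have h12 : z'⁻¹ * (h⁻¹ * u) * z' ∈ V := by
      have := hVn.conj_mem _ hhu z'⁻¹
      rwa [inv_inv] at this
    have h13 : g j z = g j (u * z') := by
      rw [← hgV j z _ (hVV' h4)]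
      congr 1
      group
    rw [h13, h10, hgV _ _ _ h12, hgH _ _ _ hh]
  let ω : Fin n → (ZMod p → F) → ZMod p := fun j y =>
    if h : ∃ q : F × F, Cl α V' y q.1 q.2 then g j (Classical.choose h).2 else 0
  have hω1 : ∀ j y f z, Cl α V' y f z → ω j y = g j z := by
    intro j y f z h
    have hex : ∃ q : F × F, Cl α V' y q.1 q.2 := ⟨(f, z), h⟩
    simp only [ω]
    rw [dif_pos hex]
    exact hwd y _ _ _ _ (Classical.choose_spec hex) h j
  have hω0 : ∀ j y, (¬ ∃ q : F × F, Cl α V' y q.1 q.2) → ω j y = 0 := by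
    intro j y h
    simp only [ω]
    rw [dif_neg h]
  have hω2 : ∀ j y y', (∀ f z, Cl α V' y f z → ∃ f', Cl α V' y' f' z) →
      (∀ f z, Cl α V' y' f z → ∃ f', Cl α V' y f' z) → ω j y = ω j y' := by
    intro j y y' h1 h2
    by_cases h : ∃ q : F × F, Cl α V' y q.1 q.2
    · obtain ⟨⟨f, z⟩, hfz⟩ := h
      obtain ⟨f', hf'⟩ := h1 f z hfz
      rw [hω1 j y f z hfz, hω1 j y' f' z hf']
    · rw [hω0 j y h, hω0 j y']
      rintro ⟨⟨f, z⟩, hfz⟩
      obtain ⟨f', hf'⟩ := h2 f z hfz
      exact h ⟨(f', z), hf'⟩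
  refine ⟨ω, fun j => ⟨?_, fun f y => ?_⟩, fun j => ?_, fun j y => ?_⟩
  · rw [IsLocallyConstant.iff_exists_open]
    intro y0
    refine ⟨⋂ i, {y : ZMod p → F | (y0 i)⁻¹ * y i ∈ V'}, ?_, ?_, ?_⟩
    · refine isOpen_iInter_of_finite fun i => ?_
      exact hVo'.preimage (continuous_const.mul (continuous_apply i))
    · simp [V'.one_mem]
    · intro y hy
      have hy' : ∀ i, (y0 i)⁻¹ * y i ∈ V' := fun i => Set.mem_iInter.1 hy i
      apply hω2
      · intro f z h
        refine ⟨f, fun i => ?_⟩
        have := V'.mul_mem (hy' i) (h i)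
        have h3 : (y0 i)⁻¹ * y i * ((y i)⁻¹ * (ap α (-i) f * z)) =
          (y0 i)⁻¹ * (ap α (-i) f * z) := by group
        rwa [h3] at this
      · intro f z h
        refine ⟨f, fun i => ?_⟩
        have := V'.mul_mem (V'.inv_mem (hy' i)) (h i)
        have h3 : ((y0 i)⁻¹ * y i)⁻¹ * ((y0 i)⁻¹ * (ap α (-i) f * z)) =
          (y i)⁻¹ * (ap α (-i) f * z) := by group
        rwa [h3] at this
  · apply hω2
    · intro f' z h
      refine ⟨f⁻¹ * f', fun i => ?_⟩
      have := h i
      simp only [tact] at this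
      have h3 : (ap α (-i) f * y i)⁻¹ * (ap α (-i) f' * z) =
          (y i)⁻¹ * (ap α (-i) (f⁻¹ * f') * z) := by
        rw [map_mul, map_inv]
        group
      rwa [h3] at this
    · intro f' z h
      refine ⟨f * f', fun i => ?_⟩
      have := h i
      simp only [tact]
      have h3 : (ap α (-i) f * y i)⁻¹ * (ap α (-i) (f * f') * z) =
          (y i)⁻¹ * (ap α (-i) f' * z) := by
        rw [map_mul]
        group
      rwa [h3]
  · funext y
    change ω j (rk 1 y) = ω j y
    apply hω2
    · intro f z h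
      refine ⟨ap (p := p) α 1 f, fun i => ?_⟩
      have := h (i - 1)
      simp only [rk, sub_add_cancel] at this
      rw [← ap_add_apply hα]
      have h3 : -i + 1 = -(i - 1) := by ring
      rwa [h3]
    · intro f z h
      refine ⟨ap (p := p) α (-1) f, fun i => ?_⟩
      have := h (i + 1)
      simp only [rk]
      rw [← ap_add_apply hα]
      have h3 : -i + -1 = -(i + 1) := by ring
      rwa [h3]
  · apply hω1 j _ 1 y
    intro i
    simp [V'.one_mem]

/-- difference on the diagonal of a rotation invariant function -/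
theorem DD_diag {E : (ZMod p → F) → ZMod p} (hE : R 1 E = E) (j : Fin n) (y : F) :
    DD x Finset.univ (fun _ => j) E (fun _ => y) = E (fun _ => y) - E (fun _ => y * x j) := by
  have hRn : ∀ k : ℕ, R (k : ZMod p) E = E := by
    intro k
    induction k with
    | zero => rw [Nat.cast_zero, R_zero]
    | succ k ih => rw [Nat.cast_add, Nat.cast_one, add_comm, ← R_R, hE]; exact ih
  have hRk : ∀ k : ZMod p, R k E = E := by
    intro k
    rw [← ZMod.natCast_zmod_val k]
    exact hRn _
  have h1 := sum_shift (fun A : Finset (ZMod p) =>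
    (-1) ^ A.card * E (mulOn x A (fun _ => j) (fun _ => y))) (by
      intro k A
      rw [card_sh]
      congr 1
      conv_lhs => rw [← hRk k]
      change E (rk k (mulOn x (sh k A) (fun _ => j) fun _ => y)) = _
      congr 1
      funext i
      simp only [rk, mulOn, mem_sh, add_sub_cancel_right])
  simp only [DD]
  rw [Finset.powerset_univ, h1]
  rw [Finset.card_empty, pow_zero, one_mul, Finset.card_univ, ZMod.card, ZMod.pow_card]
  rw [sub_eq_add_neg, neg_one_mul]
  have e1 : mulOn x (∅ : Finset (ZMod p)) (fun _ => j) (fun _ => y) = fun _ => y := by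
    funext i; simp [mulOn]
  have e2 : mulOn x (Finset.univ : Finset (ZMod p)) (fun _ => j) (fun _ => y) =
      fun _ => y * x j := by
    funext i; simp [mulOn]
  rw [e1, e2]

theorem char_ext {H : Subgroup F} (hHc : IsClosed (H : Set F)) (χ : H → ZMod p)
    (hχ : IsChar p χ) : ∃ f : F → ZMod p, IsLocallyConstant f ∧
      ∀ (h : H) (y : F), f (h * y) = χ h + f y := by
  let f : H →* Multiplicative (ZMod p) :=
    { toFun := fun u => Multiplicative.ofAdd (χ u)
      map_one' := by rw [hχ.one]; rfl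
      map_mul' := fun a b => by rw [hχ.add]; rfl }
  obtain ⟨A, hA1, -, hA3⟩ := exists_ext H hHc f (hχ.lc.comp Multiplicative.ofAdd)
  refine ⟨fun y => Multiplicative.toAdd (A y), hA1.comp _, fun h y => ?_⟩
  simp only
  rw [hA3, toAdd_mul]
  rfl

/-- existence of the equivariant primitive attached to a character -/
theorem exists_E (hF : IsFreeProP p x) {α : MulAut F} (hα : α ^ p = 1) (hαc : Continuous α)
    (hn : 0 < n) (ω : Fin n → (ZMod p → F) → ZMod p) (hω : ∀ j, Good α (ω j))
    (hω' : ∀ j, R 1 (ω j) = ω j) :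
    ∃ E, Good α E ∧ (∀ j, DD x Finset.univ (fun _ => j) E = ω j) ∧ R 1 E - E ∈ Wset x := by
  classical
  let Ω : (ZMod p → Fin n) → (ZMod p → F) → ZMod p := fun σ =>
    if σ = fun _ => σ 0 then ω (σ 0) else 0
  have hΩ : ∀ σ, Good α (Ω σ) := by
    intro σ
    simp only [Ω]
    split_ifs
    · exact hω _
    · exact Good.zero α
  obtain ⟨a, ha, haΩ⟩ := SOLVE hF hα hαc Finset.univ Ω hΩ (by
    intro σ σ' h
    rw [show σ = σ' from funext fun i => h i (Finset.mem_univ i)])
  have hRΩ : ∀ σ : ZMod p → Fin n, R 1 (Ω fun i => σ (i + 1)) = Ω σ := by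
    intro σ
    by_cases h : σ = fun _ => σ 0
    · have h1 : (fun i => σ (i + 1)) = fun _ => σ 0 := by
        funext i
        exact congrFun h (i + 1)
      rw [h1]
      simp only [Ω]
      rw [if_true, if_pos h, hω']
    · simp only [Ω]
      rw [if_neg h, if_neg]
      · rfl
      · intro h1
        apply h
        have h2 : ∀ i, σ i = σ (0 + 1) := by
          intro i
          have := congrFun h1 (i - 1)
          simp only [sub_add_cancel] at this
          exact this
        funext i
        rw [h2 i, ← h2 0]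
  have hsh : sh 1 (Finset.univ : Finset (ZMod p)) = Finset.univ := by
    ext i; simp [mem_sh]
  have hDD : ∀ σ, DD x Finset.univ σ (R 1 a - a) = 0 := by
    intro σ
    rw [DD_sub, haΩ]
    have h1 := DD_R (x := x) Finset.univ σ 1 a
    rw [hsh, haΩ, hRΩ] at h1
    rw [h1, sub_self]
  have hps : Finset.powersetCard p (Finset.univ : Finset (ZMod p)) = {Finset.univ} := by
    have h1 := Finset.powersetCard_self (Finset.univ : Finset (ZMod p))
    rwa [Finset.card_univ, ZMod.card] at h1
  obtain ⟨c, w, hc, hc', hw, hcw⟩ := PJ hF hα hαc hn p (Fact.out : p.Prime).two_le le_rfl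
    (fun _ => R 1 a - a) (by
      intro T hT
      have hT' : T = Finset.univ := by
        rw [← Finset.card_eq_iff_eq_univ, ZMod.card]; exact hT
      subst hT'
      refine ⟨(ha.R hα 1).sub ha, ?_, hDD⟩
      intro y y' h
      rw [show y = y' from funext fun i => h i (Finset.mem_univ i)]) (by
      rw [hps, Finset.sum_singleton, Nm_sub, Nm_R, sub_self])
  rw [hps, Finset.sum_singleton] at hcw
  refine ⟨a - c, ha.sub hc, fun j => ?_, ?_⟩
  · rw [DD_sub, hc', haΩ, sub_zero]
    simp only [Ω]
    rw [if_true]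
  · have : R 1 (a - c) - (a - c) = w := by
      rw [R_sub]
      have h1 : R 1 a - a - (R 1 c - c) = w := by rw [hcw]; abel
      rw [← h1]; abel
    rw [this]
    exact hw

/-- the fixed subgroup of an automorphism of order p has finitely many characters -/
theorem finite_chars_fix (hF : IsFreeProP p x) {α : MulAut F} (hα : α ^ p = 1)
    (hαc : Continuous α) (H : Subgroup F) (hH : ∀ y, y ∈ H ↔ α y = y) :
    {χ : H → ZMod p | IsChar p χ}.Finite := by
  classical
  have hHc : IsClosed (H : Set F) := by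
    have : (H : Set F) = {y | α y = y} := by
      ext y; exact hH y
    rw [this]
    exact isClosed_eq hαc continuous_id
  have hext : ∀ χ : {χ : H → ZMod p | IsChar p χ}, ∃ f : F → ZMod p, IsLocallyConstant f ∧
      ∀ (h : H) (y : F), f (h * y) = χ.1 h + f y := fun χ => char_ext hHc χ.1 χ.2
  choose f hf1 hf2 using hext
  by_cases hn : 0 < n
  · have hE : ∀ χ : {χ : H → ZMod p | IsChar p χ}, ∃ E : (ZMod p → F) → ZMod p, Good α E ∧
        (∀ j y, DD x Finset.univ (fun _ => j) E (fun _ => y) = f χ (y * x j) - f χ y) ∧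
        R 1 E - E ∈ Wset x := by
      intro χ
      obtain ⟨V, hVn, hVo, hV⟩ := lc_factor (f χ) (hf1 χ)
      obtain ⟨ω, h1, h2, h3⟩ := omega_exists hα hαc H hH V hVn hVo
        (fun j y => f χ (y * x j) - f χ y) (by
          intro j y v hv
          have h4 : y * v * x j = y * x j * ((x j)⁻¹ * v * x j) := by group
          have h5 : (x j)⁻¹ * v * x j ∈ V := by
            have := hVn.conj_mem _ hv (x j)⁻¹
            rwa [inv_inv] at this
          rw [h4, hV _ _ h5, hV _ _ hv]) (by
          intro j h y hh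
          have e1 := hf2 χ ⟨h, hh⟩ (y * x j)
          have e2 := hf2 χ ⟨h, hh⟩ y
          rw [mul_assoc]
          linear_combination e1 - e2)
      obtain ⟨E, h4, h5, h6⟩ := exists_E hF hα hαc hn ω h1 h2
      refine ⟨E, h4, fun j y => ?_, h6⟩
      rw [h5, h3]
    choose E hE1 hE2 hE3 using hE
    let F' : {χ : H → ZMod p | IsChar p χ} → Wset (p := p) x := fun χ => ⟨_, hE3 χ⟩
    have hF' : Function.Injective F' := by
      intro χ χ' h
      have h1 : R 1 (E χ) - E χ = R 1 (E χ') - E χ' := congrArg Subtype.val h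
      set E0 := E χ - E χ' with hE0
      have h2 : R 1 E0 = E0 := by
        rw [hE0, R_sub, ← sub_eq_zero]
        rw [← sub_eq_zero] at h1
        rw [← h1]; abel
      have h3 : ∀ j y, E0 (fun _ => y) - E0 (fun _ => y * x j) =
          (f χ (y * x j) - f χ y) - (f χ' (y * x j) - f χ' y) := by
        intro j y
        rw [← DD_diag h2 j y, hE0, DD_sub, Pi.sub_apply, hE2, hE2]
      have hG : Good α E0 := (hE1 χ).sub (hE1 χ')
      have hdc : Continuous (fun y : F => (fun _ : ZMod p => y)) :=
        continuous_pi fun _ => continuous_id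
      have h4 := int_unique hF (fun y => E0 (fun _ => y) + (f χ y - f χ' y))
        (fun _ => E0 (fun _ => 1) + (f χ 1 - f χ' 1))
        ((hG.lc.comp_continuous hdc).add ((hf1 χ).sub (hf1 χ'))) (IsLocallyConstant.const _) 1 rfl
        (by
          intro j y
          have := h3 j y
          linear_combination -this)
      apply Subtype.ext
      funext h
      have h5 := congrFun h4 h
      have h6 : E0 (fun _ => (h : F)) = E0 (fun _ => 1) := by
        rw [← hG.inv (h : F) (fun _ => 1)]
        congr 1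
        funext i
        simp only [tact, mul_one]
        rw [ap_fix ((hH _).1 h.2)]
      rw [h6] at h5
      have h7 := hf2 χ h 1
      have h8 := hf2 χ' h 1
      rw [mul_one] at h7 h8
      rw [h7, h8] at h5
      linear_combination h5
    have hfin : Finite (Wset (p := p) x) := (Wset_finite hF).to_subtype
    exact Set.finite_coe_iff.1 (Finite.of_injective F' hF')
  · have hn0 : n = 0 := by omega
    subst hn0
    apply Set.Finite.subset (Set.finite_singleton (0 : H → ZMod p))
    intro χ hχ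
    rw [Set.mem_singleton_iff]
    funext h
    have h4 := int_unique hF (f ⟨χ, hχ⟩) (fun _ => f ⟨χ, hχ⟩ 1) (hf1 _)
      (IsLocallyConstant.const _) 1 rfl (fun j => j.elim0)
    have h5 := congrFun h4 h
    have h6 := hf2 ⟨χ, hχ⟩ h 1
    rw [mul_one, h5] at h6
    exact (left_eq_add.1 (by rw [add_comm]; exact h6))

end Pool.H8
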