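import Pool.Agent.H8.PInt

set_option autoImplicit false
set_option backward.isDefEq.respectTransparency.types true
set_option linter.unusedSectionVars false

/-! Magnus functions on free pro-p groups. -/

noncomputable section

namespace Pool.H8

open Finset

section Lists

variable {n : ℕ}

/-- lists of bounded length -/
def Ls (n : ℕ) : ℕ → Finset (List (Fin n))
  | 0 => ∅
  | c + 1 => insert [] (((Finset.univ : Finset (Fin n)) ×ˢ Ls n c).image fun q => q.1 :: q.2)

theorem mem_Ls {c : ℕ} {l : List (Fin n)} : l ∈ Ls n c ↔ l.length < c := by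
  induction c generalizing l with
  | zero => simp [Ls]
  | succ c ih =>
    rw [Ls, Finset.mem_insert, Finset.mem_image]
    constructor
    · rintro (h | ⟨⟨j, l'⟩, h, rfl⟩)
      · rw [h]; simp
      · have := (Finset.mem_product.1 h).2
        rw [ih] at this
        simpa using this
    · intro h
      cases l with
      | nil => exact Or.inl rfl
      | cons j l =>
        refine Or.inr ⟨(j, l), ?_, rfl⟩
        rw [Finset.mem_product]
        refine ⟨Finset.mem_univ _, ?_⟩
        rw [ih]
        simpa using h

theorem sum_Ls {M : Type*} [AddCommMonoid M] (c : ℕ) (g : List (Fin n) → M) :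
    ∑ l ∈ Ls n (c + 1), g l = g [] + ∑ j, ∑ l ∈ Ls n c, g (j :: l) := by
  rw [Ls, Finset.sum_insert, Finset.sum_image, Finset.sum_product]
  · rintro ⟨j, l⟩ _ ⟨j', l'⟩ _ h
    simp only [List.cons.injEq] at h
    exact Prod.ext h.1 h.2
  · rw [Finset.mem_image]
    rintro ⟨⟨j, l⟩, _, h⟩
    exact List.cons_ne_nil _ _ h

end Lists

section Diff

variable {F : Type} [Group F] {n : ℕ} {R : Type*} [CommRing R]

/-- difference -/
def df (x : Fin n → F) (j : Fin n) (f : F → R) : F → R := fun y => f (y * x j) - f y

/-- iterated difference -/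
def dl (x : Fin n → F) : List (Fin n) → (F → R) → F → R
  | [], f => f
  | j :: l, f => dl x l (df x j f)

variable (x : Fin n → F)

theorem dl_nil (f : F → R) : dl x [] f = f := rfl
theorem dl_cons (j : Fin n) (l : List (Fin n)) (f : F → R) : dl x (j :: l) f = dl x l (df x j f) := rfl

theorem dl_zero (l : List (Fin n)) : dl x l (0 : F → R) = 0 := by
  induction l with
  | nil => rfl
  | cons j l ih =>
    rw [dl_cons]
    have : df x j (0 : F → R) = 0 := by
      funext y; simp [df]
    rw [this, ih]

theorem dl_add (l : List (Fin n)) (f g : F → R) : dl x l (f + g) = dl x l f + dl x l g := by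
  induction l generalizing f g with
  | nil => rfl
  | cons j l ih =>
    rw [dl_cons, dl_cons, dl_cons, ← ih]
    congr 1
    funext y
    simp only [df, Pi.add_apply]; ring

theorem dl_smul (l : List (Fin n)) (c : R) (f : F → R) :
    dl x l (fun y => c * f y) = fun y => c * dl x l f y := by
  induction l generalizing f with
  | nil => rfl
  | cons j l ih =>
    rw [dl_cons, dl_cons, ← ih]
    congr 1
    funext y
    simp only [df]; ring

theorem dl_sum {κ : Type*} (S : Finset κ) (l : List (Fin n)) (f : κ → F → R) :
    dl x l (fun y => ∑ i ∈ S, f i y) = fun y => ∑ i ∈ S, dl x l (f i) y := by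
  classical
  induction S using Finset.induction_on with
  | empty =>
    simp only [Finset.sum_empty]
    exact dl_zero x l
  | insert a S ha ih =>
    have h1 : (fun y => ∑ i ∈ insert a S, f i y) = f a + fun y => ∑ i ∈ S, f i y := by
      funext y
      rw [Finset.sum_insert ha]; rfl
    rw [h1, dl_add, ih]
    funext y
    rw [Finset.sum_insert ha]; rfl

theorem dl_left (l : List (Fin n)) (f : F → R) (g : F) :
    dl x l (fun z => f (g * z)) = fun z => dl x l f (g * z) := by
  induction l generalizing f with
  | nil => rfl
  | cons j l ih =>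
    rw [dl_cons, dl_cons, ← ih]
    congr 1
    funext y
    simp only [df, mul_assoc]

/-- functions killed by iterated differences of a given length -/
def Low (c : ℕ) (f : F → R) : Prop := ∀ l : List (Fin n), l.length = c → dl x l f = 0

theorem Low.succ {c : ℕ} {f : F → R} (h : Low x c f) : Low x (c + 1) f := by
  induction c generalizing f with
  | zero =>
    have h0 : f = 0 := h [] rfl
    intro l _
    rw [h0, dl_zero]
  | succ c ih =>
    intro l hl
    cases l with
    | nil => simp at hl
    | cons j l =>
      rw [dl_cons]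
      apply ih _ l (by simpa using hl)
      intro l' hl'
      exact h (j :: l') (by simp [hl'])

theorem Low.mono {c c' : ℕ} (hc : c ≤ c') {f : F → R} (h : Low x c f) : Low x c' f := by
  induction c', hc using Nat.le_induction with
  | base => exact h
  | succ c' _ ih => exact ih.succ

theorem Low.add {c : ℕ} {f g : F → R} (hf : Low x c f) (hg : Low x c g) : Low x c (f + g) := by
  intro l hl
  rw [dl_add, hf l hl, hg l hl, add_zero]

theorem Low.smul {c : ℕ} (a : R) {f : F → R} (hf : Low x c f) : Low x c (fun y => a * f y) := by
  intro l hl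
  rw [dl_smul, hf l hl]
  funext y
  simp

theorem Low.sum {κ : Type*} (S : Finset κ) {c : ℕ} (f : κ → F → R) (h : ∀ i ∈ S, Low x c (f i)) :
    Low x c (fun y => ∑ i ∈ S, f i y) := by
  intro l hl
  rw [dl_sum]
  funext y
  apply Finset.sum_eq_zero
  intro i hi
  rw [h i hi l hl]; rfl

end Diff

variable {p : ℕ} [Fact p.Prime]

variable {F : Type} [Group F] [TopologicalSpace F] [IsTopologicalGroup F] [CompactSpace F]
  [TotallyDisconnectedSpace F] {n : ℕ} {x : Fin n → F} (hF : IsFreeProP p x)

/-- Magnus functions -/
def mg : List (Fin n) → C(F, ℤ_[p])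
  | [] => 1
  | j :: l => II hF j (mg l)

theorem mg_nil (y : F) : mg hF [] y = 1 := rfl

theorem mg_cons (j : Fin n) (l : List (Fin n)) : mg hF (j :: l) = II hF j (mg hF l) := rfl

theorem mg_cons_one (j : Fin n) (l : List (Fin n)) : mg hF (j :: l) 1 = 0 := II_one hF j _

theorem mg_cons_mul (j k : Fin n) (l : List (Fin n)) (y : F) :
    mg hF (j :: l) (y * x k) = mg hF (j :: l) y + if k = j then mg hF l y else 0 :=
  II_mul hF j _ k y

theorem df_mg (j k : Fin n) (l : List (Fin n)) :
    df x k (mg hF (j :: l)) = fun y => (if k = j then 1 else 0) * mg hF l y := by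
  funext y
  simp only [df]
  rw [mg_cons_mul]
  split_ifs <;> ring

theorem df_mg_nil (k : Fin n) : df x k (mg hF []) = 0 := by
  funext y
  simp only [df]
  rw [mg_nil, mg_nil, sub_self]; rfl

theorem dl_mg (l l' : List (Fin n)) (h : l.length ≤ l'.length) :
    dl x l' (mg hF l) = fun _ => if l = l' then 1 else 0 := by
  induction l' generalizing l with
  | nil =>
    have : l = [] := List.length_eq_zero_iff.1 (by simpa using h)
    subst this
    rfl
  | cons j l' ih =>
    cases l with
    | nil =>
      rw [dl_cons, df_mg_nil, dl_zero]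
      rfl
    | cons k l =>
      rw [dl_cons, df_mg, dl_smul, ih l (by simpa using h)]
      funext y
      simp only [List.cons.injEq]
      by_cases hjk : j = k
      · subst hjk
        simp
      · have hkj : ¬ (k = j ∧ l = l') := fun h => hjk h.1.symm
        rw [if_neg hjk, if_neg hkj, zero_mul]

theorem low_mg (l : List (Fin n)) : Low x (l.length + 1) (mg hF l) := by
  intro l' hl'
  rw [dl_mg hF l l' (by omega)]
  funext y
  rw [if_neg]
  · rfl
  · intro h
    rw [h] at hl'
    omega

theorem low_mg' {c : ℕ} (l : List (Fin n)) (h : l.length < c) : Low x c (mg hF l) :=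
  (low_mg hF l).mono x h

/-- general Taylor formula -/
theorem taylor_gen {R : Type*} [CommRing R] (red : ℤ_[p] →+* R) (P : (F → R) → Prop)
    (hPdf : ∀ j f, P f → P (df x j f))
    (hPc : ∀ c (a : List (Fin n) → R), P (fun y => ∑ l ∈ Ls n c, a l * red (mg hF l y)))
    (huniq : ∀ A A', P A → P A' → A 1 = A' 1 →
      (∀ j y, A (y * x j) - A y = A' (y * x j) - A' y) → A = A') (c : ℕ) :
    ∀ f, P f → Low x c f → ∀ y, f y = ∑ l ∈ Ls n c, dl x l f 1 * red (mg hF l y) := by
  induction c with
  | zero =>
    intro f _ h y
    have : f = 0 := h [] rfl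
    rw [this]
    simp [Ls]
  | succ c ih =>
    intro f hf h y
    have h1 : f = fun y => ∑ l ∈ Ls n (c + 1), dl x l f 1 * red (mg hF l y) := by
      apply huniq _ _ hf (hPc _ _)
      · rw [sum_Ls]
        rw [mg_nil, map_one, mul_one, dl_nil]
        rw [Finset.sum_eq_zero, add_zero]
        intro j _
        apply Finset.sum_eq_zero
        intro l _
        rw [mg_cons_one, map_zero, mul_zero]
      · intro k y
        rw [← Finset.sum_sub_distrib, sum_Ls]
        rw [mg_nil, mg_nil, sub_self, zero_add]
        have h2 : ∀ j, ∑ l ∈ Ls n c, (dl x (j :: l) f 1 * red (mg hF (j :: l) (y * x k)) -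
            dl x (j :: l) f 1 * red (mg hF (j :: l) y)) =
            if k = j then ∑ l ∈ Ls n c, dl x (j :: l) f 1 * red (mg hF l y) else 0 := by
          intro j
          by_cases hkj : k = j
          · rw [if_pos hkj]
            refine Finset.sum_congr rfl fun l _ => ?_
            rw [mg_cons_mul, if_pos hkj, map_add]
            ring
          · rw [if_neg hkj]
            apply Finset.sum_eq_zero
            intro l _
            rw [mg_cons_mul, if_neg hkj, add_zero, sub_self]
        rw [Finset.sum_congr rfl fun j _ => h2 j, Finset.sum_ite_eq, if_pos (Finset.mem_univ _)]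
        have h3 := ih (df x k f) (hPdf k f hf) (fun l hl => h (k :: l) (by simp [hl])) y
        exact h3
    exact congrFun h1 y

/-- Taylor formula for continuous functions -/
theorem taylor (c : ℕ) (f : F → ℤ_[p]) (hf : Continuous f) (h : Low x c f) (y : F) :
    f y = ∑ l ∈ Ls n c, dl x l f 1 * mg hF l y := by
  apply taylor_gen hF (RingHom.id ℤ_[p]) Continuous _ _ _ c f hf h y
  · intro j f hf
    exact (hf.comp (continuous_mul_const _)).sub hf
  · intro c a
    apply continuous_finsetSum
    intro l _
    exact continuous_const.mul (mg hF l).continuous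
  · intro A A' hA hA' h1 h2
    exact pint_unique hF A A' hA hA' 1 h1 h2

theorem lc_sum {X M κ : Type*} [TopologicalSpace X] [AddCommMonoid M] (S : Finset κ)
    (f : κ → X → M) (h : ∀ i ∈ S, IsLocallyConstant (f i)) :
    IsLocallyConstant (fun y => ∑ i ∈ S, f i y) := by
  classical
  induction S using Finset.induction_on with
  | empty =>
    simp only [Finset.sum_empty]
    exact IsLocallyConstant.const 0
  | insert a S ha ih =>
    have h1 := (h a (Finset.mem_insert_self _ _)).add
      (ih fun i hi => h i (Finset.mem_insert_of_mem hi))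
    have h2 : (fun y => ∑ i ∈ insert a S, f i y) = f a + fun y => ∑ i ∈ S, f i y := by
      funext y
      rw [Finset.sum_insert ha]; rfl
    rw [h2]
    exact h1

theorem lc_toZMod {X : Type*} [TopologicalSpace X] {f : X → ℤ_[p]} (hf : Continuous f) :
    IsLocallyConstant (fun y => PadicInt.toZMod (f y)) := by
  rw [IsLocallyConstant.iff_exists_open]
  intro x
  refine ⟨f ⁻¹' Metric.ball (f x) 1, Metric.isOpen_ball.preimage hf,
    Metric.mem_ball_self one_pos, fun y hy => ?_⟩
  have h1 : dist (f y) (f x) < 1 := hy
  rw [dist_eq_norm] at h1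
  rw [← sub_eq_zero, ← map_sub, ← RingHom.mem_ker, PadicInt.ker_toZMod]
  exact (IsLocalRing.mem_maximalIdeal _).2 (PadicInt.mem_nonunits.2 h1)

/-- Taylor formula for locally constant functions modulo p -/
theorem taylor_mod (c : ℕ) (f : F → ZMod p) (hf : IsLocallyConstant f) (h : Low x c f) (y : F) :
    f y = ∑ l ∈ Ls n c, dl x l f 1 * PadicInt.toZMod (mg hF l y) := by
  apply taylor_gen hF (PadicInt.toZMod) IsLocallyConstant _ _ _ c f hf h y
  · intro j f hf
    exact (hf.comp_continuous (continuous_mul_const (x j))).sub hf
  · intro c a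
    apply lc_sum
    intro l _
    exact (lc_toZMod (mg hF l).continuous).comp fun z => a l * z
  · intro A A' hA hA' h1 h2
    exact aint_unique ⟨1, by simp [ZMod.card]⟩ hF A A' hA hA' 1 h1 h2

/-- the multiplication formula -/
theorem mg_mul (t : List (Fin n)) (y z : F) :
    mg hF t (y * z) = ∑ i ∈ Finset.range (t.length + 1), mg hF (t.take i) z * mg hF (t.drop i) y := by
  induction t generalizing y z with
  | nil => simp [mg_nil]
  | cons k t ih =>
    rw [List.length_cons, Finset.sum_range_succ']
    simp only [List.take_succ_cons, List.drop_succ_cons, List.take_zero, List.drop_zero]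
    rw [mg_nil, one_mul]
    have h := pint_unique hF (fun z => mg hF (k :: t) (y * z))
      (fun z => ∑ i ∈ Finset.range (t.length + 1), mg hF (k :: t.take i) z * mg hF (t.drop i) y +
        mg hF (k :: t) y)
      ((mg hF (k :: t)).continuous.comp (continuous_const_mul y))
      ((continuous_finsetSum _ fun i _ => (mg hF _).continuous.mul continuous_const).add
        continuous_const) 1
      (by
        rw [mul_one, Finset.sum_eq_zero, zero_add]
        intro i _
        rw [mg_cons_one, zero_mul])
      (by
        intro a z
        rw [← mul_assoc, mg_cons_mul, add_sub_cancel_left, add_sub_add_right_eq_sub,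
          ← Finset.sum_sub_distrib]
        by_cases hak : a = k
        · rw [if_pos hak, ih]
          refine Finset.sum_congr rfl fun i _ => ?_
          rw [mg_cons_mul, if_pos hak]
          ring
        · rw [if_neg hak]
          symm
          apply Finset.sum_eq_zero
          intro i _
          rw [mg_cons_mul, if_neg hak]
          ring)
    exact congrFun h z

theorem mg_mul_cons (k : Fin n) (t : List (Fin n)) (y z : F) :
    mg hF (k :: t) (y * z) = mg hF (k :: t) y +
      ∑ i ∈ Finset.range (t.length + 1), mg hF (k :: t.take i) z * mg hF (t.drop i) y := by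
  rw [mg_mul, List.length_cons, Finset.sum_range_succ']
  simp only [List.take_succ_cons, List.drop_succ_cons, List.take_zero, List.drop_zero]
  rw [mg_nil, one_mul, add_comm]

/-- expansion of left translates -/
theorem mg_left {c : ℕ} {l : List (Fin n)} (hl : l.length < c) (y z : F) :
    mg hF l (y * z) = ∑ l' ∈ Ls n c, dl x l' (mg hF l) y * mg hF l' z := by
  have h := taylor hF c (fun z => mg hF l (y * z))
    ((mg hF l).continuous.comp (continuous_const_mul y)) (by
      intro l' hl'
      rw [dl_left, low_mg' hF l hl l' hl']
      rfl) z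
  rw [h]
  refine Finset.sum_congr rfl fun l' _ => ?_
  rw [dl_left]
  change dl x l' (mg hF l) (y * 1) * _ = _
  rw [mul_one]

include hF in
/-- right translation differences lower the degree -/
theorem low_right {c : ℕ} {f : F → ℤ_[p]} (hf : Continuous f) (h : Low x (c + 1) f) (g : F) :
    Low x c (fun y => f (y * g) - f y) := by
  have h1 : (fun y => f (y * g) - f y) = fun y => ∑ l ∈ Ls n (c + 1),
      dl x l f 1 * (mg hF l (y * g) - mg hF l y) := by
    funext y
    rw [taylor hF (c + 1) f hf h (y * g), taylor hF (c + 1) f hf h y, ← Finset.sum_sub_distrib]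
    refine Finset.sum_congr rfl fun l _ => ?_
    rw [mul_sub]
  rw [h1]
  apply Low.sum
  intro l hl
  rw [mem_Ls] at hl
  apply Low.smul
  cases l with
  | nil =>
    have : (fun y => mg hF [] (y * g) - mg hF [] y) = fun y => (0 : ℤ_[p]) * (0 : ℤ_[p]) := by
      funext y
      rw [mg_nil, mg_nil, sub_self, zero_mul]
    rw [this]
    intro l' _
    have : (fun _ : F => (0 : ℤ_[p]) * (0 : ℤ_[p])) = 0 := by
      funext y; simp
    rw [this, dl_zero]
  | cons k t =>
    have : (fun y => mg hF (k :: t) (y * g) - mg hF (k :: t) y) = fun y =>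
        ∑ i ∈ Finset.range (t.length + 1), mg hF (k :: t.take i) g * mg hF (t.drop i) y := by
      funext y
      rw [mg_mul_cons, add_sub_cancel_left]
    rw [this]
    apply Low.sum
    intro i _
    apply Low.smul
    apply low_mg'
    rw [List.length_drop]
    simp only [List.length_cons] at hl
    omega

include hF in
/-- composition with a homomorphism preserves the degree -/
theorem low_comp (ψ : F →* F) {c : ℕ} {f : F → ℤ_[p]} (hf : Continuous f)
    (h : Low x c f) : Low x c (fun y => f (ψ y)) := by
  induction c generalizing f with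
  | zero =>
    have h0 : f = 0 := h [] rfl
    intro l _
    have : (fun y => f (ψ y)) = 0 := by
      rw [h0]; rfl
    rw [this, dl_zero]
  | succ c ih =>
    intro l hl
    cases l with
    | nil => simp at hl
    | cons j l =>
      rw [dl_cons]
      have h1 : df x j (fun y => f (ψ y)) = fun y =>
          (fun y => f (y * ψ (x j)) - f y) (ψ y) := by
        funext y
        simp only [df, map_mul]
      rw [h1]
      exact ih ((hf.comp (continuous_mul_const _)).sub hf) (low_right hF hf h _) l (by simpa using hl)

/-- expansion of the composition with a homomorphism -/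
theorem mg_comp (ψ : F →* F) (hψ : Continuous ψ) {c : ℕ} {l : List (Fin n)} (hl : l.length < c)
    (z : F) : mg hF l (ψ z) = ∑ l' ∈ Ls n c, dl x l' (fun y => mg hF l (ψ y)) 1 * mg hF l' z :=
  taylor hF c (fun z => mg hF l (ψ z)) ((mg hF l).continuous.comp hψ)
    (low_comp hF ψ (mg hF l).continuous (low_mg' hF l hl)) z

theorem comp_zero (ψ : F →* F) (hψ : Continuous ψ) {l l' : List (Fin n)}
    (hl : l.length < l'.length) : dl x l' (fun y => mg hF l (ψ y)) = 0 :=
  low_comp hF ψ (mg hF l).continuous (low_mg' hF l hl) l' rfl

theorem comp_diag (ψ : F →* F) (hψ : Continuous ψ) (j k : Fin n) {t m : List (Fin n)}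
    (h : t.length = m.length) : dl x (j :: m) (fun y => mg hF (k :: t) (ψ y)) 1 =
      mg hF [k] (ψ (x j)) * dl x m (fun y => mg hF t (ψ y)) 1 := by
  rw [dl_cons]
  have h1 : df x j (fun y => mg hF (k :: t) (ψ y)) = fun y =>
      ∑ i ∈ Finset.range (t.length + 1), mg hF (k :: t.take i) (ψ (x j)) * mg hF (t.drop i) (ψ y) := by
    funext y
    simp only [df, map_mul]
    rw [mg_mul_cons, add_sub_cancel_left]
  rw [h1, dl_sum]
  simp only
  rw [Finset.sum_eq_single 0]
  · rw [dl_smul]
    simp
  · intro i hi hi0
    rw [dl_smul]
    simp only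
    rw [comp_zero hF ψ hψ, Pi.zero_apply, mul_zero]
    rw [List.length_drop]
    rw [Finset.mem_range] at hi
    omega
  · intro h
    exact absurd (Finset.mem_range.2 (Nat.succ_pos _)) h

theorem comp_close (ψ : F →* F) (hψ : Continuous ψ)
    (hc : ∀ k j, (p : ℤ_[p]) ^ 2 ∣ mg hF [k] (ψ (x j)) - if k = j then 1 else 0)
    (l l' : List (Fin n)) (h : l.length = l'.length) :
    (p : ℤ_[p]) ^ 2 ∣ dl x l' (fun y => mg hF l (ψ y)) 1 - if l = l' then 1 else 0 := by
  induction l' generalizing l with
  | nil =>
    have : l = [] := List.length_eq_zero_iff.1 (by simpa using h)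
    subst this
    rw [dl_nil, mg_nil, if_pos rfl, sub_self]
    exact dvd_zero _
  | cons j m ih =>
    cases l with
    | nil => simp at h
    | cons k t =>
      have h1 : t.length = m.length := by simpa using h
      rw [comp_diag hF ψ hψ j k h1]
      obtain ⟨u, hu⟩ := ih t h1
      obtain ⟨v, hv⟩ := hc k j
      have h2 : dl x m (fun y => mg hF t (ψ y)) 1 = (if t = m then 1 else 0) + (p : ℤ_[p]) ^ 2 * u := by
        rw [← hu]; ring
      have h3 : mg hF [k] (ψ (x j)) = (if k = j then 1 else 0) + (p : ℤ_[p]) ^ 2 * v := by
        rw [← hv]; ring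
      rw [h2, h3]
      simp only [List.cons.injEq]
      refine ⟨(if k = j then 1 else 0) * u + v * (if t = m then 1 else 0) +
        (p : ℤ_[p]) ^ 2 * v * u, ?_⟩
      by_cases hkj : k = j <;> by_cases htm : t = m
      · simp [hkj, htm]; ring
      · simp [hkj, htm]; ring
      · simp [hkj, htm]; ring
      · simp [hkj, htm]; ring

end Pool.H8
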