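import Pool.Agent.H8.Tri
import Pool.Agent.H8.Magnus
import Pool.Agent.H8.Chars

set_option autoImplicit false
set_option backward.isDefEq.respectTransparency.types true
set_option linter.unusedSectionVars false

/-! Fox derivatives with values in the distribution ring. -/

noncomputable section

namespace Pool.H8

open Finset

section TriMore

variable {p : ℕ} [Fact p.Prime] {B : Type} [Fintype B] [DecidableEq B] (len : B → ℕ)

theorem UTpi_lc : IsLocallyConstant (UTpi (p := p) len) := by
  rw [IsLocallyConstant.iff_exists_open]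
  intro M
  have h1 : ∀ l l' : B, IsLocallyConstant
      (fun M : UT p len => PadicInt.toZMod (M.1 l l')) := by
    intro l l'
    apply lc_toZMod
    have h1 : Continuous fun M : Matrix B B ℤ_[p] => M l l' :=
      (continuous_apply l').comp (continuous_apply l)
    exact h1.comp continuous_subtype_val
  refine ⟨⋂ l, ⋂ l', {M' : UT p len | PadicInt.toZMod (M'.1 l l') = PadicInt.toZMod (M.1 l l')},
    ?_, ?_, ?_⟩
  · exact isOpen_iInter_of_finite fun l => isOpen_iInter_of_finite fun l' =>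
      (h1 l l').isOpen_fiber _
  · simp
  · intro M' hM'
    apply Units.ext
    rw [UTpi_val, UTpi_val]
    ext l l'
    rw [Matrix.map_apply, Matrix.map_apply]
    exact Set.mem_iInter.1 (Set.mem_iInter.1 hM' l) l'

variable {len}

/-- the reduction of the twisting matrix -/
def Tw.unit {σ σ' : Matrix B B ℤ_[p]} (h : Tw len σ σ') : GG p B where
  val := σ.map (PadicInt.toZMod (p := p))
  inv := σ'.map (PadicInt.toZMod (p := p))
  val_inv := by
    rw [← Matrix.map_mul, h.r]
    exact map_one (PadicInt.toZMod (p := p)).mapMatrix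
  inv_val := by
    rw [← Matrix.map_mul, h.l]
    exact map_one (PadicInt.toZMod (p := p)).mapMatrix

theorem Tw.pi_conj {σ σ' : Matrix B B ℤ_[p]} (h : Tw len σ σ') (M : UT p len) :
    UTpi len (h.conj M) = MulAut.conj h.unit (UTpi len M) := by
  apply Units.ext
  rw [UTpi_val, Tw.conj_val, Matrix.map_mul, Matrix.map_mul]
  rfl

end TriMore

section Fox

variable {p : ℕ} [Fact p.Prime]

variable {F : Type} [Group F] [TopologicalSpace F] [IsTopologicalGroup F] [CompactSpace F]
  [TotallyDisconnectedSpace F] {n : ℕ} {x : Fin n → F} (hF : IsFreeProP p x)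

variable {Q : Type*} [TopologicalSpace Q] [Monoid Q] [CompactSpace Q] [ContinuousMul Q]
  (ρ : F →* Q) (hρ : Continuous ρ)

/-- Fox derivatives -/
def fox (j : Fin n) (y : F) : Dist p Q := ⟨{
  toFun := fun f => II hF j (f.comp ⟨ρ, hρ⟩) y
  map_add' := fun f g => by
    have : (f + g).comp ⟨ρ, hρ⟩ = f.comp ⟨ρ, hρ⟩ + g.comp ⟨ρ, hρ⟩ := rfl
    rw [this, II_add]; rfl
  map_smul' := fun c f => by
    have : (c • f).comp ⟨ρ, hρ⟩ = c • f.comp ⟨ρ, hρ⟩ := rfl
    rw [this, II_smul]; rfl }⟩

theorem fox_l (j : Fin n) (y : F) (f : C(Q, ℤ_[p])) :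
    (fox hF ρ hρ j y).l f = II hF j (f.comp ⟨ρ, hρ⟩) y := rfl

theorem II_left (j : Fin n) (g g' : C(F, ℤ_[p])) (y : F) (hg : ∀ z, g' z = g (y * z)) (z : F) :
    II hF j g' z = II hF j g (y * z) - II hF j g y := by
  have hA : Continuous fun z => II hF j g (y * z) - II hF j g y :=
    ((II hF j g).continuous.comp (continuous_const_mul y)).sub continuous_const
  have h := II_unique hF j g' ⟨_, hA⟩ (by
    change II hF j g (y * 1) - II hF j g y = 0
    rw [mul_one, sub_self]) (by
    intro k z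
    change II hF j g (y * (z * x k)) - II hF j g y = II hF j g (y * z) - II hF j g y + _
    rw [← mul_assoc, II_mul, hg]
    ring)
  rw [← h]
  rfl

theorem fox_gen (i j : Fin n) : fox hF ρ hρ j (x i) = if i = j then 1 else 0 := by
  apply Dist.ext'
  intro f
  rw [fox_l]
  have h := II_mul hF j (f.comp ⟨ρ, hρ⟩) i 1
  rw [one_mul, II_one, zero_add] at h
  rw [h]
  split_ifs
  · change f (ρ 1) = (1 : Dist p Q).l f
    rw [map_one, Dist.one_l]
  · rfl

/-- the chain rule -/
theorem fox_rel (ψ : F →* F) (hψ : Continuous ψ) (Ψ : Q →* Q) (hΨ : Continuous Ψ)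
    (hc : ∀ y, Ψ (ρ y) = ρ (ψ y)) (j : Fin n) (y : F) :
    fox hF ρ hρ j (ψ y) = ∑ i, Dist.push Ψ hΨ (fox hF ρ hρ i y) * fox hF ρ hρ j (ψ (x i)) := by
  apply Dist.ext'
  intro f
  rw [Dist.sum_l]
  set A := II hF j (f.comp ⟨ρ, hρ⟩) with hA
  have h1 := FTC hF (fun y => A (ψ y)) (A.continuous.comp hψ)
    (fun i => ((slice (fox hF ρ hρ j (ψ (x i))).l (Dist.com f)).comp ⟨Ψ, hΨ⟩).comp ⟨ρ, hρ⟩) (by
      intro i y
      change A (ψ (y * x i)) = A (ψ y) + slice (fox hF ρ hρ j (ψ (x i))).l (Dist.com f) (Ψ (ρ y))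
      have e1 : ((Dist.com f).curry (Ψ (ρ y))).comp ⟨ρ, hρ⟩ =
          ((Dist.com f).curry (Ψ (ρ y))).comp ⟨ρ, hρ⟩ := rfl
      rw [slice_apply, fox_l, II_left hF j (f.comp ⟨ρ, hρ⟩)
        (((Dist.com f).curry (Ψ (ρ y))).comp ⟨ρ, hρ⟩) (ψ y) (by
          intro z
          change f (Ψ (ρ y) * ρ z) = f (ρ (ψ y * z))
          rw [hc, map_mul ρ]), map_mul ψ, ← hA]
      ring) y
  have h2 : (fox hF ρ hρ j (ψ y)).l f = A (ψ y) := rfl
  rw [h2, h1, map_one, hA, II_one, zero_add]
  rfl

variable {G : Type*} [Group G] [Fintype G] [DecidableEq G]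

/-- the support of Fox derivatives -/
theorem fox_supp (π : Q →* G) (hπ : IsLocallyConstant π) (g : G) (h : ∀ y, π (ρ y) ≠ g)
    (j : Fin n) (y : F) : (Dist.grad π hπ).c g (fox hF ρ hρ j y) = 0 := by
  apply Dist.ext'
  intro f
  rw [Dist.grad_c, Dist.cmp_l, fox_l]
  have h1 : (Dist.ind p π hπ g * f).comp ⟨ρ, hρ⟩ = (0 : ℤ_[p]) • (0 : C(F, ℤ_[p])) := by
    apply ContinuousMap.ext
    intro z
    change Dist.ind p π hπ g (ρ z) * f (ρ z) = (0 : ℤ_[p]) • (0 : ℤ_[p])
    rw [Dist.ind_apply, if_neg (h z), zero_mul, smul_zero]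
  rw [h1, II_smul, zero_smul]
  rfl

end Fox

section Test

variable {p : ℕ} [Fact p.Prime]

variable {F : Type} [Group F] [TopologicalSpace F] [IsTopologicalGroup F] [CompactSpace F]
  [TotallyDisconnectedSpace F] {n : ℕ} {x : Fin n → F} (hF : IsFreeProP p x)

variable {Q : Type*} [TopologicalSpace Q] [Monoid Q] [CompactSpace Q] [ContinuousMul Q]
  (ρ : F →* Q) (hρ : Continuous ρ)
  {G : Type*} [Group G] [Fintype G] [DecidableEq G]

theorem exists_reps (U : Subgroup F) : ∃ s : Quotient (QuotientGroup.rightRel U) → F,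
    (∀ z, z * (s (Quotient.mk _ z))⁻¹ ∈ U) ∧ ∀ u ∈ U, s (Quotient.mk _ u) = 1 := by
  classical
  refine ⟨fun k => if k = Quotient.mk _ 1 then 1 else k.out, fun z => ?_, fun u hu => ?_⟩
  · by_cases h : (Quotient.mk (QuotientGroup.rightRel U) z) = Quotient.mk _ 1
    · simp only [if_pos h]
      have h1 : (QuotientGroup.rightRel U) z 1 := Quotient.exact h
      have h2 := QuotientGroup.rightRel_apply.1 h1
      rw [one_mul] at h2
      rw [inv_one, mul_one]
      exact (Subgroup.inv_mem_iff U).1 h2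
    · simp only [if_neg h]
      have : (QuotientGroup.rightRel U) (Quotient.out (Quotient.mk (QuotientGroup.rightRel U) z)) z :=
        Quotient.exact (Quotient.out_eq _)
      exact QuotientGroup.rightRel_apply.1 this
  · have h1 : (Quotient.mk (QuotientGroup.rightRel U) u) = Quotient.mk _ 1 := by
      apply Quotient.sound
      apply QuotientGroup.rightRel_apply.2
      rw [one_mul]
      exact U.inv_mem hu
    simp only [if_pos h1]

theorem mk_eq_iff (U : Subgroup F) (a b : F) :
    (Quotient.mk (QuotientGroup.rightRel U) a) = Quotient.mk _ b ↔ b * a⁻¹ ∈ U := by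
  rw [Quotient.eq]
  exact QuotientGroup.rightRel_apply

/-- test functions -/
theorem test_fn (U : Subgroup F) (hUo : IsOpen (U : Set F)) {m : ℕ} {y : Fin m → U}
    (hUc : CompactSpace U) (hU : IsFreeProP p y)
    (hρU : Continuous (ρ.comp U.subtype))
    (π : Q →* G) (hπ : IsLocallyConstant π) (hker : ∀ z, π (ρ z) ∈ U.map (π.comp ρ) → z ∈ U)
    (x0 : G) (k0 : Fin m) (f : C(Q, ℤ_[p])) :
    ∃ C : Fin n → C(Q, ℤ_[p]), ∀ q, x0⁻¹ * π q ∈ U.map (π.comp ρ) → ∀ u : U,
      ∑ j, (fox hF ρ hρ j u).l ((Dist.com (C j)).curry q) =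
        (fox hU (ρ.comp U.subtype) hρU k0 u).l ((Dist.com f).curry q) := by
  classical
  obtain ⟨s, hs, hs1⟩ := exists_reps U
  have hfin : Finite (Quotient (QuotientGroup.rightRel U)) := by
    have := finite_quot U hUo
    exact Finite.of_equiv _ (QuotientGroup.quotientRightRelEquivQuotientLeftRel U).symm
  have : Fintype (Quotient (QuotientGroup.rightRel U)) := Fintype.ofFinite _
  let Ub : Subgroup G := U.map (π.comp ρ)
  let uu : Quotient (QuotientGroup.rightRel U) → Fin n → U := fun k j =>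
    ⟨s k * x j * (s (Quotient.mk _ (s k * x j)))⁻¹, hs _⟩
  let δ : Quotient (QuotientGroup.rightRel U) → Fin n → Dist p Q := fun k j =>
    fox hU (ρ.comp U.subtype) hρU k0 (uu k j)
  let ind : Quotient (QuotientGroup.rightRel U) → C(Q, ℤ_[p]) := fun k =>
    ⟨fun q => if x0⁻¹ * π q * (π (ρ (s k)))⁻¹ ∈ Ub then 1 else 0,
      (hπ.comp fun g => if x0⁻¹ * g * (π (ρ (s k)))⁻¹ ∈ Ub then (1 : ℤ_[p]) else 0).continuous⟩
  have hind : ∀ k q, ind k q = if x0⁻¹ * π q * (π (ρ (s k)))⁻¹ ∈ Ub then 1 else 0 :=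
    fun _ _ => rfl
  let rt : Quotient (QuotientGroup.rightRel U) → C(Q, Q) := fun k =>
    ⟨fun q => q * ρ (s k)⁻¹, continuous_mul_const _⟩
  let C : Fin n → C(Q, ℤ_[p]) := fun j =>
    ∑ k, ind k * (slice (δ k j).l (Dist.com f)).comp (rt k)
  have hC : ∀ j q, C j q = ∑ k, ind k q * (δ k j).l ((Dist.com f).curry (q * ρ (s k)⁻¹)) := by
    intro j q
    simp only [C]
    rw [ContinuousMap.sum_apply]
    rfl
  refine ⟨C, fun q hq u => ?_⟩
  set g : C(U, ℤ_[p]) := ((Dist.com f).curry q).comp ⟨ρ.comp U.subtype, hρU⟩ with hg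
  have hgv : ∀ u : U, g u = f (q * ρ u) := fun u => rfl
  set A := II hU k0 g with hA
  have hmk : IsLocallyConstant (fun z : F => (Quotient.mk (QuotientGroup.rightRel U) z)) := by
    rw [IsLocallyConstant.iff_exists_open]
    intro z
    refine ⟨(fun w => z * w⁻¹) ⁻¹' (U : Set F),
      hUo.preimage (continuous_const.mul continuous_inv), ?_, ?_⟩
    · simp [U.one_mem]
    · intro w hw
      exact (mk_eq_iff U w z).2 hw
  let At : F → ℤ_[p] := fun z => A ⟨z * (s (Quotient.mk _ z))⁻¹, hs z⟩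
  have hAt : Continuous At := by
    apply A.continuous.comp
    apply Continuous.subtype_mk
    apply continuous_id.mul
    exact (hmk.comp fun k => (s k)⁻¹).continuous
  have hstep : ∀ j z, At (z * x j) = At z + ((Dist.com (C j)).curry q).comp ⟨ρ, hρ⟩ z := by
    intro j z
    set k := Quotient.mk (QuotientGroup.rightRel U) z with hk
    set w : U := ⟨z * (s k)⁻¹, hs z⟩ with hw
    have h1 : ((Dist.com (C j)).curry q).comp ⟨ρ, hρ⟩ z = C j (q * ρ z) := rfl
    have h2 : C j (q * ρ z) = (δ k j).l ((Dist.com f).curry (q * ρ w)) := by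
      rw [hC, Finset.sum_eq_single k]
      · have h3 : x0⁻¹ * π (q * ρ z) * (π (ρ (s k)))⁻¹ ∈ Ub := by
          have h4 : x0⁻¹ * π (q * ρ z) * (π (ρ (s k)))⁻¹ = (x0⁻¹ * π q) * (π.comp ρ) w := by
            rw [hw]
            simp only [MonoidHom.comp_apply, map_mul]
            have h5 : π (ρ (s k)⁻¹) = (π (ρ (s k)))⁻¹ := map_inv (π.comp ρ) (s k)
            rw [h5]
            group
          rw [h4]
          exact Ub.mul_mem hq ⟨w, w.2, rfl⟩
        rw [hind, if_pos h3, one_mul, mul_assoc, ← map_mul]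
      · intro k1 _ hk1
        rw [hind, if_neg, zero_mul]
        intro h3
        apply hk1
        have h4 : x0⁻¹ * π (q * ρ z) * (π (ρ (s k1)))⁻¹ = (x0⁻¹ * π q) * π (ρ (z * (s k1)⁻¹)) := by
          have h5 : π (ρ (s k1)⁻¹) = (π (ρ (s k1)))⁻¹ := map_inv (π.comp ρ) (s k1)
          simp only [map_mul]
          rw [h5]
          group
        rw [h4] at h3
        have h6 : π (ρ (z * (s k1)⁻¹)) ∈ Ub := (Ub.mul_mem_cancel_left hq).1 h3
        have h7 := hker _ h6
        obtain ⟨z1, hz1⟩ := Quotient.exists_rep k1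
        have h8 := hs z1
        rw [hk, ← hz1]
        rw [← hz1] at h7
        rw [mk_eq_iff]
        have h9 := U.mul_mem h7 (U.inv_mem h8)
        have h10 : z * (s (Quotient.mk (QuotientGroup.rightRel U) z1))⁻¹ *
            (z1 * (s (Quotient.mk (QuotientGroup.rightRel U) z1))⁻¹)⁻¹ = z * z1⁻¹ := by group
        have h11 : z * (s (Quotient.mk (QuotientGroup.rightRel U) z1))⁻¹ *
            (z1 * (s (Quotient.mk (QuotientGroup.rightRel U) z1))⁻¹)⁻¹ ∈ U := h9
        rwa [h10] at h11
      · intro h; exact absurd (Finset.mem_univ _) h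
    rw [h1, h2]
    -- the left side
    have h3 : Quotient.mk (QuotientGroup.rightRel U) (z * x j) = Quotient.mk _ (s k * x j) := by
      rw [mk_eq_iff]
      have h4 : s k * x j * (z * x j)⁻¹ = (z * (s k)⁻¹)⁻¹ := by group
      rw [h4]
      exact U.inv_mem (hs z)
    have h4 : (⟨z * x j * (s (Quotient.mk _ (z * x j)))⁻¹, hs _⟩ : U) = w * uu k j := by
      apply Subtype.ext
      change z * x j * (s (Quotient.mk _ (z * x j)))⁻¹ =
        z * (s k)⁻¹ * (s k * x j * (s (Quotient.mk _ (s k * x j)))⁻¹)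
      rw [h3]
      group
    have h5 : At (z * x j) = A (w * uu k j) := by
      simp only [At]
      rw [h4]
    have h6 : At z = A w := rfl
    have h7 : (δ k j).l ((Dist.com f).curry (q * ρ w)) = A (w * uu k j) - A w := by
      simp only [δ]
      rw [fox_l]
      apply II_left hU k0 g
      intro v
      change f (q * ρ w * ρ v) = f (q * ρ (w * v))
      have e1 : ρ ((w : F) * (v : F)) = ρ (w : F) * ρ (v : F) := map_mul ρ _ _
      rw [e1, mul_assoc]
    rw [h5, h6, h7]
    ring
  have h1 := FTC hF At hAt (fun j => ((Dist.com (C j)).curry q).comp ⟨ρ, hρ⟩) hstep u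
  have h2 : At 1 = 0 := by
    have : (⟨1 * (s (Quotient.mk _ 1))⁻¹, hs 1⟩ : U) = 1 := by
      apply Subtype.ext
      change 1 * (s (Quotient.mk _ 1))⁻¹ = 1
      rw [hs1 1 U.one_mem, inv_one, mul_one]
    simp only [At]
    rw [this, hA, II_one]
  have h3 : At u = A u := by
    simp only [At]
    congr 1
    apply Subtype.ext
    change (u : F) * (s (Quotient.mk _ (u : F)))⁻¹ = u
    rw [hs1 u u.2, inv_one, mul_one]
  rw [h2, zero_add, h3] at h1
  exact h1.symm

end Test

section Nilp

/-- ascending series of a finite p-group acting on an elementary abelian group -/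
theorem nilp {p : ℕ} [Fact p.Prime] {G : Type*} [Group G] (hG : IsPGroup p G)
    {M : Type*} [AddCommGroup M] [Finite M] (hM : ∀ m : M, p • m = 0)
    (act : G →* AddMonoid.End M) : ∃ K : ℕ → AddSubgroup M, K 0 = ⊥ ∧
      (∀ c m, m ∈ K (c + 1) → ∀ g, act g m - m ∈ K c) ∧ ∃ c, K c = ⊤ := by
  let st : {K : AddSubgroup M // ∀ g m, m ∈ K → act g m ∈ K} →
      {K : AddSubgroup M // ∀ g m, m ∈ K → act g m ∈ K} := fun K =>
    ⟨{ carrier := {m | ∀ g, act g m - m ∈ K.1}
       zero_mem' := fun g => by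
         rw [map_zero, sub_zero]; exact K.1.zero_mem
       add_mem' := fun {a b} ha hb g => by
         have := K.1.add_mem (ha g) (hb g)
         rw [map_add]
         have h : act g a + act g b - (a + b) = act g a - a + (act g b - b) := by abel
         rw [h]; exact this
       neg_mem' := fun {a} ha g => by
         have := K.1.neg_mem (ha g)
         rw [map_neg]
         have h : -act g a - -a = -(act g a - a) := by abel
         rw [h]; exact this }, by
      intro h m hm g
      have h1 := K.2 h _ (hm (h⁻¹ * g * h))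
      rw [map_sub] at h1
      have h2 : act h (act (h⁻¹ * g * h) m) = act g (act h m) := by
        have h3 : act h * act (h⁻¹ * g * h) = act g * act h := by
          rw [← map_mul, ← map_mul]
          congr 1
          group
        exact DFunLike.congr_fun h3 m
      rwa [h2] at h1⟩
  let K : ℕ → {K : AddSubgroup M // ∀ g m, m ∈ K → act g m ∈ K} := fun c =>
    Nat.rec ⟨⊥, fun g m hm => by
      rw [AddSubgroup.mem_bot] at hm ⊢
      rw [hm, map_zero]⟩ (fun _ K => st K) c
  have hK : ∀ c m, m ∈ (K (c + 1)).1 ↔ ∀ g, act g m - m ∈ (K c).1 := fun c m => Iff.rfl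
  refine ⟨fun c => (K c).1, rfl, fun c m hm => (hK c m).1 hm, ?_⟩
  by_contra hcon
  push Not at hcon
  have hlt : ∀ c, (K c).1 < (K (c + 1)).1 := by
    intro c
    obtain ⟨m, hm, hm'⟩ := fix_lemma hG hM act (K c).1 (K c).2 (hcon c)
    refine lt_of_le_of_ne (fun a ha => (hK c a).2 fun g => ?_) fun h => ?_
    · exact (K c).1.sub_mem ((K c).2 g a ha) ha
    · apply hm
      rw [h]
      exact (hK c m).2 hm'
  have hmono : StrictMono fun c => (K c).1 := strictMono_nat_of_lt_succ hlt
  exact not_injective_infinite_finite _ hmono.injective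

end Nilp

end Pool.H8
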