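import Pool.Agent.H8.Wr

set_option autoImplicit false
set_option backward.isDefEq.respectTransparency.types true
set_option linter.unusedSectionVars false

/-! Free pro-p groups: integration of locally constant functions. -/

namespace Pool.H8

/-- a free pro-p group on `x` (the topological assumptions are given separately) -/
structure IsFreeProP (p : ℕ) {n : ℕ} {F : Type} [Group F] [TopologicalSpace F]
    (x : Fin n → F) : Prop where
  proP : ∀ N : Subgroup F, N.Normal → IsOpen (N : Set F) → ∃ k : ℕ, N.index = p ^ k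
  free : ∀ (P : Type) [Group P] [Fintype P], (∃ k : ℕ, Fintype.card P = p ^ k) →
    ∀ f : Fin n → P, ∃! g : F →* P,
      (∀ y : P, IsOpen ((g : F → P) ⁻¹' {y})) ∧ ∀ i, g (x i) = f i

section

variable {F : Type} [Group F] [TopologicalSpace F] [IsTopologicalGroup F] [CompactSpace F]
  [TotallyDisconnectedSpace F]

theorem finite_quot (V : Subgroup F) (hV : IsOpen (V : Set F)) : Finite (F ⧸ V) :=
  Subgroup.quotient_finite_of_isOpen V hV

theorem mk_lc (V : Subgroup F) (hV : IsOpen (V : Set F)) :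
    IsLocallyConstant (QuotientGroup.mk : F → F ⧸ V) := by
  apply lc_of_inv _ V hV
  intro y v hv
  rw [QuotientGroup.eq]
  simp [hv]

theorem desc {X : Type*} (f : F → X) (V : Subgroup F) (h : ∀ y v, v ∈ V → f (y * v) = f y) :
    ∃ fb : F ⧸ V → X, ∀ y, f y = fb (QuotientGroup.mk y) := by
  refine ⟨Quotient.lift f ?_, fun y => rfl⟩
  intro a b hab
  have hab' : a⁻¹ * b ∈ V := QuotientGroup.leftRel_apply.1 hab
  have := h a _ hab'
  rw [mul_inv_cancel_left] at this
  exact this.symm

variable {p n : ℕ} {x : Fin n → F} (hF : IsFreeProP p x)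

include hF

/-- uniqueness of integrals -/
theorem integral_unique {P : Type} [Group P] [Fintype P] (hP : ∃ k : ℕ, Fintype.card P = p ^ k)
    (A A' : F → P) (hA : IsLocallyConstant A) (hA' : IsLocallyConstant A')
    (h1 : A 1 = A' 1) (h : ∀ j y, (A y)⁻¹ * A (y * x j) = (A' y)⁻¹ * A' (y * x j)) : A = A' := by
  classical
  obtain ⟨V, hVn, hVo, hV⟩ := lc_factor_finite (fun b : Bool => if b then A else A')
    (by intro b; cases b <;> simpa)
  have hVA : ∀ y v, v ∈ V → A (y * v) = A y := hV true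
  have hVA' : ∀ y v, v ∈ V → A' (y * v) = A' y := hV false
  obtain ⟨Ab, hAb⟩ := desc A V hVA
  obtain ⟨Ab', hAb'⟩ := desc A' V hVA'
  have hfin := finite_quot V hVo
  have : Fintype (F ⧸ V) := Fintype.ofFinite _
  obtain ⟨k, hk⟩ := hF.proP V hVn hVo
  have hcard : Fintype.card (F ⧸ V) = p ^ k := by
    rw [← Nat.card_eq_fintype_card, ← hk]; rfl
  obtain ⟨l, hl⟩ := hP
  have hW : ∃ m : ℕ, Fintype.card (Wr P (F ⧸ V)) = p ^ m := by
    rw [Wr.card_eq, hl, hcard]
    exact ⟨l * p ^ k + k, by rw [pow_add, pow_mul]⟩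
  -- the homomorphism attached to a function on the quotient
  let hom : (F ⧸ V → P) → (F →* Wr P (F ⧸ V)) := fun C =>
    { toFun := fun y => ⟨fun z => (C z)⁻¹ * C (z * (y : F ⧸ V)), (y : F ⧸ V)⟩
      map_one' := by
        ext z
        · simp [Wr.one_a]
        · rfl
      map_mul' := by
        intro y y'
        ext z
        · rw [Wr.mul_a]
          simp only [QuotientGroup.mk_mul]
          group
        · rw [Wr.mul_g, QuotientGroup.mk_mul] }
  have hcont : ∀ C : F ⧸ V → P, ∀ y : Wr P (F ⧸ V), IsOpen ((hom C : F → Wr P (F ⧸ V)) ⁻¹' {y}) := by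
    intro C
    have : IsLocallyConstant (hom C : F → Wr P (F ⧸ V)) := by
      apply lc_of_inv _ V hVo
      intro y v hv
      have hyv : ((y * v : F) : F ⧸ V) = (y : F ⧸ V) := by
        rw [QuotientGroup.eq]; simp [hv]
      change (⟨fun z => (C z)⁻¹ * C (z * ((y * v : F) : F ⧸ V)), ((y * v : F) : F ⧸ V)⟩ : Wr P _) =
        ⟨fun z => (C z)⁻¹ * C (z * (y : F ⧸ V)), (y : F ⧸ V)⟩
      rw [hyv]
    exact fun y => this.isOpen_fiber y
  have hval : ∀ (C : F ⧸ V → P) (y z : F),
      (hom C y).a (z : F ⧸ V) = (C (z : F ⧸ V))⁻¹ * C ((z * y : F) : F ⧸ V) := by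
    intro C y z
    rfl
  obtain ⟨g, -, hg⟩ := hF.free _ hW (fun j => hom Ab (x j))
  have e1 := hg (hom Ab) ⟨hcont _, fun _ => rfl⟩
  have e2 := hg (hom Ab') ⟨hcont _, fun j => by
    ext z
    · obtain ⟨z, rfl⟩ := QuotientGroup.mk_surjective z
      rw [hval, hval, ← hAb, ← hAb, ← hAb', ← hAb']
      exact (h j z).symm
    · rfl⟩
  have e3 : hom Ab = hom Ab' := e1.trans e2.symm
  funext y
  have e4 := congrArg (fun f : F →* Wr P (F ⧸ V) => (f y).a ((1 : F) : F ⧸ V)) e3
  simp only [hval, one_mul] at e4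
  rw [← hAb, ← hAb, ← hAb', ← hAb', h1] at e4
  exact mul_left_cancel e4

/-- existence of integrals -/
theorem integral_exists {P : Type} [Group P] [Fintype P] (hP : ∃ k : ℕ, Fintype.card P = p ^ k)
    (B : Fin n → F → P) (hB : ∀ j, IsLocallyConstant (B j)) :
    ∃ A : F → P, IsLocallyConstant A ∧ A 1 = 1 ∧ ∀ j y, A (y * x j) = A y * B j y := by
  classical
  obtain ⟨V, hVn, hVo, hV⟩ := lc_factor_finite B hB
  choose Bb hBb using fun j => desc (B j) V (hV j)
  have hfin := finite_quot V hVo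
  have : Fintype (F ⧸ V) := Fintype.ofFinite _
  obtain ⟨k, hk⟩ := hF.proP V hVn hVo
  have hcard : Fintype.card (F ⧸ V) = p ^ k := by
    rw [← Nat.card_eq_fintype_card, ← hk]; rfl
  obtain ⟨l, hl⟩ := hP
  have hW : ∃ m : ℕ, Fintype.card (Wr P (F ⧸ V)) = p ^ m := by
    rw [Wr.card_eq, hl, hcard]
    exact ⟨l * p ^ k + k, by rw [pow_add, pow_mul]⟩
  obtain ⟨g, ⟨hgc, hg⟩, -⟩ := hF.free _ hW (fun j => (⟨Bb j, (x j : F ⧸ V)⟩ : Wr P (F ⧸ V)))
  have hglc : IsLocallyConstant (g : F → Wr P (F ⧸ V)) :=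
    (IsLocallyConstant.iff_isOpen_fiber).2 hgc
  -- the second coordinate
  have h2 : ∀ y, (g y).g = (y : F ⧸ V) := by
    obtain ⟨g', -, hg'⟩ := hF.free (F ⧸ V) ⟨k, hcard⟩ (fun j => (x j : F ⧸ V))
    have e1 := hg' (Wr.proj.comp g) ⟨fun y => (hglc.comp Wr.proj).isOpen_fiber y, fun j => by
      rw [MonoidHom.comp_apply, hg]; rfl⟩
    have e2 := hg' (QuotientGroup.mk' V) ⟨fun y => (mk_lc V hVo).isOpen_fiber y, fun j => rfl⟩
    intro y
    have e3 := congrArg (fun f : F →* F ⧸ V => f y) (e1.trans e2.symm)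
    exact e3
  refine ⟨fun y => (g y).a 1, hglc.comp (fun w : Wr P (F ⧸ V) => w.a 1), ?_, ?_⟩
  · change (g 1).a 1 = 1
    rw [map_one]; rfl
  · intro j y
    change (g (y * x j)).a 1 = (g y).a 1 * B j y
    rw [map_mul, Wr.mul_a, hg, h2, one_mul, hBb]

/-- the generators topologically generate -/
theorem eq_top_of_open [Fact p.Prime] (W : Subgroup F) (hW : IsOpen (W : Set F))
    (h : ∀ j, x j ∈ W) : W = ⊤ := by
  classical
  -- the indicator function with values in `Multiplicative (ZMod p)`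
  let A : F → Multiplicative (ZMod p) := fun y => if y ∈ W then Multiplicative.ofAdd 1 else 1
  have hA : IsLocallyConstant A := by
    apply lc_of_inv _ W hW
    intro y v hv
    simp only [A, W.mul_mem_cancel_right hv]
  have hP : ∃ k : ℕ, Fintype.card (Multiplicative (ZMod p)) = p ^ k := ⟨1, by simp [ZMod.card]⟩
  have e := integral_unique hF hP A (fun _ => Multiplicative.ofAdd 1) hA
    (IsLocallyConstant.const _) (by simp [A, W.one_mem]) (by
      intro j y
      have : A (y * x j) = A y := by simp only [A, W.mul_mem_cancel_right (h j)]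
      rw [this]; simp)
  rw [eq_top_iff]
  intro y _
  have := congrFun e y
  by_contra hy
  simp only [A, if_neg hy] at this
  have h1 : (0 : ZMod p) = 1 := by
    simpa using congrArg Multiplicative.toAdd this
  exact zero_ne_one h1

end

end Pool.H8
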