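import Pool.Agent.H8.Coord

set_option autoImplicit false
set_option backward.isDefEq.respectTransparency.types true
set_option linter.unusedSectionVars false

/-! Leading forms of distributions. -/

noncomputable section

namespace Pool.H8

open Finset

variable {p : ℕ} [Fact p.Prime]

theorem pp_ne_zero : (p : ℤ_[p]) ≠ 0 := by
  exact_mod_cast (Fact.out : p.Prime).ne_zero

theorem toZMod_eq_zero_iff (z : ℤ_[p]) : PadicInt.toZMod z = 0 ↔ (p : ℤ_[p]) ∣ z := by
  rw [← RingHom.mem_ker, PadicInt.ker_toZMod, PadicInt.maximalIdeal_eq_span_p,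
    Ideal.mem_span_singleton]

open Classical in
/-- residue of `z / p ^ k` -/
def res (k : ℕ) (z : ℤ_[p]) : ZMod p :=
  PadicInt.toZMod (if h : (p : ℤ_[p]) ^ k ∣ z then Classical.choose h else 0)

theorem res_mul (k : ℕ) (w : ℤ_[p]) : res k ((p : ℤ_[p]) ^ k * w) = PadicInt.toZMod w := by
  have h : (p : ℤ_[p]) ^ k ∣ (p : ℤ_[p]) ^ k * w := dvd_mul_right _ _
  rw [res, dif_pos h]
  congr 1
  exact (mul_left_cancel₀ (pow_ne_zero k pp_ne_zero) (Classical.choose_spec h)).symm

theorem res_zero (k : ℕ) : res k (0 : ℤ_[p]) = 0 := by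
  have := res_mul k (0 : ℤ_[p])
  rwa [mul_zero, map_zero] at this

theorem res_add {k : ℕ} {z w : ℤ_[p]} (hz : (p : ℤ_[p]) ^ k ∣ z) (hw : (p : ℤ_[p]) ^ k ∣ w) :
    res k (z + w) = res k z + res k w := by
  obtain ⟨a, rfl⟩ := hz
  obtain ⟨b, rfl⟩ := hw
  rw [← mul_add, res_mul, res_mul, res_mul, map_add]

theorem res_eq_zero_iff {k : ℕ} {z : ℤ_[p]} (hz : (p : ℤ_[p]) ^ k ∣ z) :
    res k z = 0 ↔ (p : ℤ_[p]) ^ (k + 1) ∣ z := by
  obtain ⟨a, rfl⟩ := hz
  rw [res_mul, toZMod_eq_zero_iff, pow_succ]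
  constructor
  · exact fun h => mul_dvd_mul_left _ h
  · intro h
    obtain ⟨b, hb⟩ := h
    rw [mul_assoc] at hb
    exact ⟨b, mul_left_cancel₀ (pow_ne_zero k pp_ne_zero) hb⟩

theorem res_congr {k : ℕ} {z w : ℤ_[p]} (hw : (p : ℤ_[p]) ^ k ∣ w)
    (h : (p : ℤ_[p]) ^ (k + 1) ∣ z - w) : res k z = res k w := by
  have h1 : (p : ℤ_[p]) ^ k ∣ z - w := (pow_dvd_pow _ (Nat.le_succ k)).trans h
  have : z = (z - w) + w := by ring
  rw [this, res_add h1 hw, (res_eq_zero_iff h1).2 h, zero_add]

theorem res_mul_mul {i j : ℕ} {z w : ℤ_[p]} (hz : (p : ℤ_[p]) ^ i ∣ z)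
    (hw : (p : ℤ_[p]) ^ j ∣ w) : res (i + j) (z * w) = res i z * res j w := by
  obtain ⟨a, rfl⟩ := hz
  obtain ⟨b, rfl⟩ := hw
  rw [res_mul, res_mul, ← map_mul]
  have : (p : ℤ_[p]) ^ i * a * ((p : ℤ_[p]) ^ j * b) = (p : ℤ_[p]) ^ (i + j) * (a * b) := by
    rw [pow_add]; ring
  rw [this, res_mul]

theorem res_sum {κ : Type*} (S : Finset κ) (k : ℕ) (z : κ → ℤ_[p])
    (h : ∀ i ∈ S, (p : ℤ_[p]) ^ k ∣ z i) : res k (∑ i ∈ S, z i) = ∑ i ∈ S, res k (z i) := by
  classical
  induction S using Finset.induction_on with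
  | empty => simp [res_zero]
  | insert a S ha ih =>
    rw [Finset.sum_insert ha, Finset.sum_insert ha, res_add, ih]
    · exact fun i hi => h i (Finset.mem_insert_of_mem hi)
    · exact h a (Finset.mem_insert_self _ _)
    · exact Finset.dvd_sum fun i hi => h i (Finset.mem_insert_of_mem hi)

variable {E : Type*} [Fintype E] [DecidableEq E]

/-- weights with the extra variable of weight one -/
def wO (ω : E → ℕ) : Option E → ℕ := fun o => o.elim 1 ω

/-- exponent with the extra variable -/
def opt (k : ℕ) (α : E → ℕ) : Option E →₀ ℕ := Finsupp.equivFunOnFinite.symm fun o => o.elim k α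

@[simp] theorem opt_none (k : ℕ) (α : E → ℕ) : opt k α none = k := rfl
@[simp] theorem opt_some (k : ℕ) (α : E → ℕ) (e : E) : opt k α (some e) = α e := rfl

theorem opt_eta (a : Option E →₀ ℕ) : opt (a none) (fun e => a (some e)) = a := by
  ext o
  rcases o with _ | e <;> rfl

theorem opt_inj {k k' : ℕ} {α α' : E → ℕ} : opt k α = opt k' α' ↔ k = k' ∧ α = α' := by
  constructor
  · intro h
    exact ⟨by simpa using DFunLike.congr_fun h none,
      funext fun e => by simpa using DFunLike.congr_fun h (some e)⟩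
  · rintro ⟨rfl, rfl⟩; rfl

theorem opt_add (k k' : ℕ) (α α' : E → ℕ) : opt k α + opt k' α' = opt (k + k') (α + α') := by
  ext o
  rcases o with _ | e <;> rfl

theorem weight_eq (ω : E → ℕ) (a : Option E →₀ ℕ) :
    Finsupp.weight (wO ω) a = a none + wt ω (fun e => a (some e)) := by
  rw [Finsupp.weight_apply, Finsupp.sum_fintype _ _ (by simp), Fintype.sum_option]
  simp [wO, wt]

namespace Coord

variable {Q : Type*} [TopologicalSpace Q] [Monoid Q] [CompactSpace Q] [ContinuousMul Q]
  (K : Coord p Q E)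

theorem wO_ne (o : Option E) : wO K.ω o ≠ 0 := by
  rcases o with _ | e
  · exact one_ne_zero
  · have := K.ω_pos e
    change K.ω e ≠ 0
    omega

/-- exponents of weight `N` -/
def AN (N : ℕ) : Finset (Option E →₀ ℕ) :=
  (Finsupp.finite_of_nat_weight_eq (wO K.ω) K.wO_ne N).toFinset

theorem mem_AN {N : ℕ} {a : Option E →₀ ℕ} :
    a ∈ K.AN N ↔ a none + wt K.ω (fun e => a (some e)) = N := by
  rw [AN, Set.Finite.mem_toFinset, ← weight_eq]
  rfl

/-- coefficient of the leading form -/
def lc (x : Dist p Q) (a : Option E →₀ ℕ) : ZMod p :=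
  res (a none) (x.l (K.B fun e => a (some e)))

/-- leading form -/
def lead (N : ℕ) (x : Dist p Q) : MvPolynomial (Option E) (ZMod p) :=
  ∑ a ∈ K.AN N, MvPolynomial.monomial a (K.lc x a)

theorem coeff_lead (N : ℕ) (x : Dist p Q) (a : Option E →₀ ℕ) :
    (K.lead N x).coeff a = if a none + wt K.ω (fun e => a (some e)) = N then K.lc x a else 0 := by
  classical
  rw [lead, MvPolynomial.coeff_sum]
  simp only [MvPolynomial.coeff_monomial]
  rw [Finset.sum_ite_eq' (K.AN N) a]
  simp only [mem_AN]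

theorem lc_dvd {N : ℕ} {x : Dist p Q} (hx : x ∈ K.Fil N) {a : Option E →₀ ℕ}
    (ha : a none + wt K.ω (fun e => a (some e)) = N) :
    (p : ℤ_[p]) ^ (a none) ∣ x.l (K.B fun e => a (some e)) := by
  have := hx (fun e => a (some e))
  rwa [show N - wt K.ω (fun e => a (some e)) = a none by omega] at this

theorem lead_add (N : ℕ) (x y : Dist p Q) (hx : x ∈ K.Fil N) (hy : y ∈ K.Fil N) :
    K.lead N (x + y) = K.lead N x + K.lead N y := by
  ext a
  rw [MvPolynomial.coeff_add, coeff_lead, coeff_lead, coeff_lead]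
  by_cases h : a none + wt K.ω (fun e => a (some e)) = N
  · simp only [if_pos h]
    rw [lc, lc, lc, Dist.add_l]
    exact res_add (K.lc_dvd hx h) (K.lc_dvd hy h)
  · simp [if_neg h]

theorem lead_zero (N : ℕ) : K.lead N 0 = 0 := by
  ext a
  rw [coeff_lead, MvPolynomial.coeff_zero, lc, Dist.zero_l, res_zero]
  simp

theorem lead_eq_zero (N : ℕ) (x : Dist p Q) (hx : x ∈ K.Fil N) :
    K.lead N x = 0 ↔ x ∈ K.Fil (N+1) := by
  constructor
  · intro h α
    rcases Nat.lt_or_ge N (wt K.ω α) with hlt | hge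
    · rw [Nat.sub_eq_zero_of_le hlt, pow_zero]
      exact one_dvd _
    · have h1 := congrArg (MvPolynomial.coeff (opt (N - wt K.ω α) α)) h
      rw [coeff_lead, MvPolynomial.coeff_zero, if_pos] at h1
      · rw [lc] at h1
        simp only [opt_none, opt_some] at h1
        have h2 := (res_eq_zero_iff (hx α)).1 h1
        rwa [show N + 1 - wt K.ω α = N - wt K.ω α + 1 by omega]
      · simp only [opt_none, opt_some]
        change N - wt K.ω α + wt K.ω α = N
        omega
  · intro h
    ext a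
    rw [coeff_lead, MvPolynomial.coeff_zero]
    by_cases ha : a none + wt K.ω (fun e => a (some e)) = N
    · rw [if_pos ha, lc, res_eq_zero_iff (K.lc_dvd hx ha)]
      have := h (fun e => a (some e))
      rwa [show N + 1 - wt K.ω (fun e => a (some e)) = a none + 1 by omega] at this
    · rw [if_neg ha]

theorem lead_mem (N : ℕ) (x : Dist p Q) :
    K.lead N x ∈ MvPolynomial.weightedHomogeneousSubmodule (ZMod p) (wO K.ω) N := by
  rw [MvPolynomial.mem_weightedHomogeneousSubmodule]
  intro a ha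
  rw [coeff_lead] at ha
  rw [weight_eq]
  by_contra hcon
  rw [if_neg hcon] at ha
  exact ha rfl

theorem lead_mul (N M : ℕ) (x y : Dist p Q) (hx : x ∈ K.Fil N) (hy : y ∈ K.Fil M) :
    K.lead (N + M) (x * y) = K.lead N x * K.lead M y := by
  ext a
  rw [coeff_lead, MvPolynomial.coeff_mul]
  by_cases ha : a none + wt K.ω (fun e => a (some e)) = N + M
  swap
  · rw [if_neg ha]
    symm
    apply Finset.sum_eq_zero
    rintro ⟨a1, a2⟩ h12
    have h12' : a1 + a2 = a := by simpa using h12
    dsimp only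
    rw [coeff_lead, coeff_lead]
    by_cases h1 : a1 none + wt K.ω (fun e => a1 (some e)) = N
    · by_cases h2 : a2 none + wt K.ω (fun e => a2 (some e)) = M
      · exfalso
        apply ha
        rw [← h12', ← h1, ← h2]
        have : (fun e => (a1 + a2) (some e)) = (fun e => a1 (some e)) + fun e => a2 (some e) := rfl
        rw [this, wt_add, Finsupp.add_apply]
        omega
      · rw [if_neg h2, mul_zero]
    · rw [if_neg h1, zero_mul]
  rw [if_pos ha]
  -- notation
  set α : E → ℕ := fun e => a (some e) with hα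
  set k := a none with hk
  have hBG : ∀ q ∈ Fintype.piFinset (fun e => antidiagonal (α e)),
      wt K.ω (fun e => (q e).1) + wt K.ω (fun e => (q e).2) = wt K.ω α := by
    intro q hq
    rw [← wt_add]
    congr 1
    funext e
    have := Fintype.mem_piFinset.1 hq e
    simpa using this
  -- the left side as a sum
  have hL : K.lc (x * y) a = ∑ q ∈ Fintype.piFinset (fun e => antidiagonal (α e)),
      if wt K.ω (fun e => (q e).1) ≤ N ∧ wt K.ω (fun e => (q e).2) ≤ M then
        res (N - wt K.ω (fun e => (q e).1)) (x.l (K.B fun e => (q e).1)) *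
          res (M - wt K.ω (fun e => (q e).2)) (y.l (K.B fun e => (q e).2)) else 0 := by
    have h1 := K.mul_l_B hx hy α
    rw [show N + M + 1 - wt K.ω α = k + 1 by omega] at h1
    have hd : ∀ q ∈ Fintype.piFinset (fun e => antidiagonal (α e)),
        (p : ℤ_[p]) ^ k ∣ x.l (K.B (fun e => (q e).1)) * y.l (K.B (fun e => (q e).2)) := by
      intro q hq
      have h2 := mul_dvd_mul (hx (fun e => (q e).1)) (hy (fun e => (q e).2))
      rw [← pow_add] at h2
      have h3 := hBG q hq
      exact (pow_dvd_pow _ (by omega)).trans h2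
    rw [lc, ← hk, ← hα, res_congr (Finset.dvd_sum hd) h1, res_sum _ _ _ hd]
    refine Finset.sum_congr rfl fun q hq => ?_
    have h3 := hBG q hq
    by_cases hc : wt K.ω (fun e => (q e).1) ≤ N ∧ wt K.ω (fun e => (q e).2) ≤ M
    · rw [if_pos hc, ← res_mul_mul (hx _) (hy _)]
      congr 1
      omega
    · rw [if_neg hc]
      apply (res_eq_zero_iff (hd q hq)).2
      have h2 := mul_dvd_mul (hx (fun e => (q e).1)) (hy (fun e => (q e).2))
      rw [← pow_add] at h2
      exact (pow_dvd_pow _ (by omega)).trans h2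
  rw [hL]
  -- the right side
  have hR : ∀ a12 : (Option E →₀ ℕ) × (Option E →₀ ℕ),
      (K.lead N x).coeff a12.1 * (K.lead M y).coeff a12.2 =
      if (a12.1 none + wt K.ω (fun e => a12.1 (some e)) = N ∧
        a12.2 none + wt K.ω (fun e => a12.2 (some e)) = M) then K.lc x a12.1 * K.lc y a12.2
      else 0 := by
    intro a12
    rw [coeff_lead, coeff_lead]
    by_cases h1 : a12.1 none + wt K.ω (fun e => a12.1 (some e)) = N
    · by_cases h2 : a12.2 none + wt K.ω (fun e => a12.2 (some e)) = M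
      · rw [if_pos h1, if_pos h2, if_pos ⟨h1, h2⟩]
      · rw [if_neg h2, mul_zero, if_neg (fun h => h2 h.2)]
    · rw [if_neg h1, zero_mul, if_neg (fun h => h1 h.1)]
  rw [Finset.sum_congr rfl fun a12 _ => hR a12, ← Finset.sum_filter, ← Finset.sum_filter]
  refine Finset.sum_nbij' (fun q => (opt (N - wt K.ω (fun e => (q e).1)) (fun e => (q e).1),
      opt (M - wt K.ω (fun e => (q e).2)) (fun e => (q e).2)))
    (fun a12 => fun e => (a12.1 (some e), a12.2 (some e))) ?_ ?_ ?_ ?_ ?_
  · intro q hq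
    rw [Finset.mem_filter] at hq
    obtain ⟨hq, h1, h2⟩ := hq
    have h3 := hBG q hq
    rw [Finset.mem_filter, HasAntidiagonal.mem_antidiagonal]
    refine ⟨?_, ?_, ?_⟩
    · rw [opt_add]
      rw [← opt_eta a, opt_inj]
      refine ⟨by omega, ?_⟩
      funext e
      have := Fintype.mem_piFinset.1 hq e
      simpa using this
    · simp only [opt_none, opt_some]
      omega
    · simp only [opt_none, opt_some]
      omega
  · rintro ⟨a1, a2⟩ h12
    rw [Finset.mem_filter, HasAntidiagonal.mem_antidiagonal] at h12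
    obtain ⟨h12, h1, h2⟩ := h12
    dsimp only at h12 h1 h2
    rw [Finset.mem_filter]
    refine ⟨?_, ?_, ?_⟩
    · rw [Fintype.mem_piFinset]
      intro e
      rw [HasAntidiagonal.mem_antidiagonal, hα]
      simp only
      rw [← h12]
      rfl
    · dsimp only
      omega
    · dsimp only
      omega
  · intro q _
    rfl
  · rintro ⟨a1, a2⟩ h12
    rw [Finset.mem_filter, HasAntidiagonal.mem_antidiagonal] at h12
    obtain ⟨h12, h1, h2⟩ := h12
    dsimp only at h12 h1 h2 ⊢
    congr 1
    · conv_rhs => rw [← opt_eta a1]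
      rw [opt_inj]
      exact ⟨by omega, rfl⟩
    · conv_rhs => rw [← opt_eta a2]
      rw [opt_inj]
      exact ⟨by omega, rfl⟩
  · intro q _
    rfl

end Coord

end Pool.H8
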