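import Pool.Agent.H8.MRep
import Pool.Agent.H8.FO4

set_option autoImplicit false
set_option backward.isDefEq.respectTransparency.types true
set_option linter.unusedSectionVars false

/-! Bound for the rank of the fixed subgroup of an automorphism close to the identity. -/

noncomputable section

namespace Pool.H8

open Finset

variable {p : ℕ} [Fact p.Prime]

variable {F : Type} [Group F] [TopologicalSpace F] [IsTopologicalGroup F] [CompactSpace F]
  [TotallyDisconnectedSpace F] {n : ℕ} {x : Fin n → F}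

/-- extension of a character to an open subgroup -/
theorem extend_char (H V : Subgroup F) (hVn : V.Normal) (hVo : IsOpen (V : Set F))
    (χ : H → ZMod p) (hχ : IsChar p χ) (hV : ∀ (h v : H), (v : F) ∈ V → χ (h * v) = χ h) :
    ∃ χ' : (H ⊔ V : Subgroup F) → ZMod p, IsChar p χ' ∧
      ∀ (h : H) (u : (H ⊔ V : Subgroup F)), (u : F) = h → χ' u = χ h := by
  classical
  have hex : ∀ u : (H ⊔ V : Subgroup F), ∃ h : H, (h : F)⁻¹ * u ∈ V := by
    intro u
    obtain ⟨a, ha, b, hb, hab⟩ := Subgroup.mem_sup_of_normal_right.1 u.2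
    refine ⟨⟨a, ha⟩, ?_⟩
    rw [← hab]
    simpa using hb
  choose s hs using hex
  have hwd : ∀ (h : H) (u : (H ⊔ V : Subgroup F)), (h : F)⁻¹ * u ∈ V → χ (s u) = χ h := by
    intro h u hu
    have h1 : (h : F)⁻¹ * (s u : F) ∈ V := by
      have := V.mul_mem hu (V.inv_mem (hs u))
      have h2 : (h : F)⁻¹ * (u : F) * ((s u : F)⁻¹ * (u : F))⁻¹ = (h : F)⁻¹ * (s u : F) := by group
      rwa [h2] at this
    have h2 := hV h (h⁻¹ * s u) (by simpa using h1)
    rw [mul_inv_cancel_left] at h2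
    exact h2
  refine ⟨fun u => χ (s u), ⟨?_, ?_⟩, ?_⟩
  · rw [IsLocallyConstant.iff_exists_open]
    intro u
    refine ⟨{w | (u : F)⁻¹ * (w : F) ∈ V}, ?_, ?_, ?_⟩
    · exact hVo.preimage (continuous_const.mul continuous_subtype_val)
    · simp [V.one_mem]
    · intro w hw
      apply hwd
      have := V.mul_mem (hs u) hw
      have h2 : (s u : F)⁻¹ * (u : F) * ((u : F)⁻¹ * (w : F)) = (s u : F)⁻¹ * (w : F) := by group
      rwa [h2] at this
  · intro a b
    rw [← hχ.add]
    apply hwd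
    have h1 := hVn.conj_mem _ (hs a) (s b : F)⁻¹
    have h2 := V.mul_mem h1 (hs b)
    have h3 : ((s b : F)⁻¹ * ((s a : F)⁻¹ * (a : F)) * ((s b : F)⁻¹)⁻¹) * ((s b : F)⁻¹ * (b : F)) =
        ((s a * s b : H) : F)⁻¹ * ((a * b : (H ⊔ V : Subgroup F)) : F) := by
      simp only [Subgroup.coe_mul]
      group
    rwa [h3] at h2
  · intro h u hu
    apply hwd
    rw [hu, inv_mul_cancel]
    exact V.one_mem

/-- distributions with support -/
theorem supp_congr {Q : Type*} [TopologicalSpace Q] [Monoid Q] [CompactSpace Q] [ContinuousMul Q]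
    {G : Type*} [Group G] [Fintype G] [DecidableEq G] (π : Q →* G) (hπ : IsLocallyConstant π)
    (S : Set G) (b : Dist p Q) (hb : ∀ g, g ∉ S → (Dist.grad π hπ).c g b = 0)
    (f f' : C(Q, ℤ_[p])) (hff : ∀ q, π q ∈ S → f q = f' q) : b.l f = b.l f' := by
  have h1 : ∀ f : C(Q, ℤ_[p]), b.l f = ∑ g, ((Dist.grad π hπ).c g b).l f := by
    intro f
    rw [← Dist.sum_l, (Dist.grad π hπ).c_sum]
  rw [h1, h1]
  refine Finset.sum_congr rfl fun g _ => ?_
  by_cases hg : g ∈ S
  · rw [Dist.grad_c, Dist.cmp_l, Dist.cmp_l]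
    congr 1
    apply ContinuousMap.ext
    intro q
    rw [Dist.cmul_apply, Dist.cmul_apply, Dist.ind_apply]
    by_cases hq : π q = g
    · rw [hff q (by rw [hq]; exact hg)]
    · rw [if_neg hq, zero_mul, zero_mul]
  · rw [hb g hg]; rfl

/-- the rank bound -/
theorem M_bound (hF : IsFreeProP p x) (ψ ψ' : F →* F) (hψ : Continuous ψ) (hψ' : Continuous ψ')
    (h1 : ψ.comp ψ' = MonoidHom.id F) (h2 : ψ'.comp ψ = MonoidHom.id F)
    (hc : ∀ k j, (p : ℤ_[p]) ^ 2 ∣ mg hF [k] (ψ (x j)) - if k = j then 1 else 0)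
    (hc' : ∀ k j, (p : ℤ_[p]) ^ 2 ∣ mg hF [k] (ψ' (x j)) - if k = j then 1 else 0)
    (H : Subgroup F) (hH : ∀ y, y ∈ H ↔ ψ y = y) {r : ℕ} (h : Fin r → H)
    (χ : Fin r → H → ZMod p) (hd : DualFam p h χ) : r ≤ n := by
  classical
  by_contra hrn
  push Not at hrn
  have hHc : IsClosed (H : Set F) := by
    have : (H : Set F) = {y | ψ y = y} := by
      ext y; exact hH y
    rw [this]
    exact isClosed_eq hψ continuous_id
  -- a common open normal subgroup for the characters
  have hχlc : IsLocallyConstant (fun a : H => fun i => χ i a) := by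
    rw [IsLocallyConstant.iff_exists_open]
    intro a
    refine ⟨⋂ i, {b | χ i b = χ i a}, isOpen_iInter_of_finite fun i =>
      (hd.char i).lc.isOpen_fiber _, by simp, fun b hb => ?_⟩
    funext i
    exact Set.mem_iInter.1 hb i
  obtain ⟨V0, hV0n, hV0o, hV0⟩ := lc_closed H hHc _ hχlc
  set U : Subgroup F := H ⊔ V0 with hU
  have hHU : H ≤ U := le_sup_left
  have hVU : V0 ≤ U := le_sup_right
  have hUo : IsOpen (U : Set F) := Subgroup.isOpen_mono hVU hV0o
  have hUcl : IsClosed (U : Set F) := U.isClosed_of_isOpen hUo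
  have hUc : CompactSpace U := isCompact_iff_compactSpace.1 hUcl.isCompact
  have hext : ∀ i, ∃ χ' : U → ZMod p, IsChar p χ' ∧
      ∀ (h : H) (u : U), (u : F) = h → χ' u = χ i h := fun i =>
    extend_char H V0 hV0n hV0o (χ i) (hd.char i) fun a v hv => congrFun (hV0 a v hv) i
  choose χU hχU1 hχU2 using hext
  have hdU : DualFam p (fun i => (⟨h i, hHU (h i).2⟩ : U)) χU :=
    ⟨hχU1, fun i j => by rw [hχU2 i (h j) _ rfl, hd.dual]⟩
  obtain ⟨m, hm, y, χ', hdy, hcy, hyh⟩ := hdU.exists_complete (finite_chars_open hF U hUo)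
  have hUf : IsFreeProP p y := free_of_complete hF U hUcl y χ' hdy hcy
  -- the smaller subgroup
  obtain ⟨V', hVn', hVo', hVV', hV'⟩ := exists_close ψ hψ H (fun y hy => (hH y).2 hy) V0 hV0o
  obtain ⟨k, hk⟩ := hF.proP V' hVn' hVo'
  have hp : IsPGroup p (F ⧸ V') := IsPGroup.of_card (n := k) hk
  obtain ⟨c, hlow⟩ := exists_low (x := x) V' hVn' hVo' hp
  have htw := sg_tw hF (c := c) ψ ψ' hψ hψ' h1 h2 hc hc'
  have hρc := rho_cont hF c
  have hπ : IsLocallyConstant (UTpi (p := p) (ln n c)) := UTpi_lc _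
  have hcl := htw.isClose
  have hΨc := hcl.continuous
  have hG : Fintype (GG p (BB n c)) := Fintype.ofFinite _
  have hGd : DecidableEq (GG p (BB n c)) := Classical.decEq _
  let θ : F →* GG p (BB n c) := (UTpi (ln n c)).comp (rho hF c)
  have hker : ∀ z, UTpi (ln n c) (rho hF c z) ∈ U.map θ → z ∈ U := by
    rintro z ⟨u, hu, huz⟩
    have h3 := rho_ker hF V' hVn' hVo' hlow u z huz
    have h4 := U.mul_mem hu (hVU (hVV' h3))
    rwa [mul_inv_cancel_left] at h4
  -- descent
  obtain ⟨x0, b, ⟨i0, hi0⟩, hbs, hbd⟩ := (UTK (ln n c)).dist_descent (UTpi (ln n c)) hπ htw.conj hΨc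
    _ hcl (MulAut.conj htw.unit) (fun q => htw.pi_conj q) θ.range (U.map θ)
    (by
      rintro g ⟨u, rfl⟩ hg
      refine ⟨u, ?_, rfl⟩
      have h3 : UTpi (ln n c) (rho hF c (ψ u)) = UTpi (ln n c) (rho hF c u) := by
        rw [← conj_rho hF ψ ψ' hψ htw u, htw.pi_conj]
        exact hg
      have h4 := rho_ker hF V' hVn' hVo' hlow u (ψ u) h3.symm
      obtain ⟨a, ha, hau⟩ := hV' u h4
      have h5 := U.mul_mem (hHU ha) (hVU hau)
      rwa [mul_inv_cancel_left] at h5)
    hrn (fun i j => fox hF (rho hF c) hρc j (h i : F))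
    (by
      intro i j g hg
      apply fox_supp
      intro z hz
      exact hg ⟨z, hz⟩)
    (fun k j => fox hF (rho hF c) hρc j (ψ (x k)))
    (by
      intro i j
      have h3 := fox_rel hF (rho hF c) hρc ψ hψ htw.conj hΨc
        (fun z => conj_rho hF ψ ψ' hψ htw z) j (h i : F)
      rw [(hH _).1 (h i).2] at h3
      exact h3)
  -- contradiction
  apply hi0
  apply Dist.ext'
  intro f
  rw [Dist.zero_l]
  have hρU : Continuous ((rho hF c).comp U.subtype) := hρc.comp continuous_subtype_val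
  obtain ⟨C, hC⟩ := test_fn hF (rho hF c) hρc U hUo hUc hUf hρU (UTpi (ln n c)) hπ hker x0
    (Fin.castLE hm i0) f
  have h3 : ∑ j, (∑ i, b i * fox hF (rho hF c) hρc j (h i : F)).l (C j) = 0 := by
    apply Finset.sum_eq_zero
    intro j _
    rw [hbd j]; rfl
  have h4 : ∑ j, (∑ i, b i * fox hF (rho hF c) hρc j (h i : F)).l (C j) =
      ∑ i, (b i).l (∑ j, slice (fox hF (rho hF c) hρc j (h i : F)).l (Dist.com (C j))) := by
    simp only [Dist.sum_l, Dist.mul_l]
    rw [Finset.sum_comm]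
    refine Finset.sum_congr rfl fun i _ => ?_
    rw [map_sum]
  have h5 : ∀ i, (b i).l (∑ j, slice (fox hF (rho hF c) hρc j (h i : F)).l (Dist.com (C j))) =
      if i = i0 then (b i).l f else 0 := by
    intro i
    have h6 : (b i).l (∑ j, slice (fox hF (rho hF c) hρc j (h i : F)).l (Dist.com (C j))) =
        (b i).l ((if i = i0 then (1 : ℤ_[p]) else 0) • f) := by
      apply supp_congr (UTpi (ln n c)) hπ {g | x0⁻¹ * g ∈ U.map θ} (b i) (fun g hg => hbs i g hg)
      intro q hq
      rw [ContinuousMap.sum_apply]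
      simp only [slice_apply]
      have h7 := hC q hq (y (Fin.castLE hm i))
      rw [hyh i] at h7
      have h8 : (⟨(h i : F), hHU (h i).2⟩ : U) = y (Fin.castLE hm i) := (hyh i).symm
      rw [h8, fox_gen] at h7
      have h9 : ((y (Fin.castLE hm i) : U) : F) = (h i : F) := by rw [← h8]
      rw [h9] at h7
      rw [h7]
      by_cases hi : i = i0
      · rw [if_pos (by rw [hi]), if_pos hi, Dist.one_l, one_smul, Dist.com_curry, mul_one]
      · rw [if_neg (fun h => hi (Fin.castLE_injective hm h)), if_neg hi, Dist.zero_l, zero_smul]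
        rfl
    rw [h6, map_smul, smul_eq_mul]
    split_ifs
    · rw [one_mul]
    · rw [zero_mul]
  rw [h4, Finset.sum_congr rfl fun i _ => h5 i, Finset.sum_ite_eq', if_pos (Finset.mem_univ _)] at h3
  exact h3

end Pool.H8
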