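import Pool.Agent.H8.Fox

set_option autoImplicit false
set_option backward.isDefEq.respectTransparency.types true
set_option linter.unusedSectionVars false

/-! The truncated Magnus representation. -/

noncomputable section

namespace Pool.H8

open Finset

variable {p : ℕ} [Fact p.Prime]

variable {F : Type} [Group F] [TopologicalSpace F] [IsTopologicalGroup F] [CompactSpace F]
  [TotallyDisconnectedSpace F] {n : ℕ} {x : Fin n → F} (hF : IsFreeProP p x)

theorem dl_mg_one (l l' : List (Fin n)) : dl x l' (mg hF l) 1 = if l = l' then 1 else 0 := by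
  induction l' generalizing l with
  | nil =>
    rw [dl_nil]
    cases l with
    | nil => rw [if_pos rfl, mg_nil]
    | cons k t => rw [mg_cons_one, if_neg (List.cons_ne_nil _ _)]
  | cons j m ih =>
    cases l with
    | nil =>
      rw [dl_cons, df_mg_nil, dl_zero, if_neg (List.cons_ne_nil _ _).symm]
      rfl
    | cons k t =>
      rw [dl_cons, df_mg, dl_smul]
      simp only [ih, List.cons.injEq]
      by_cases hjk : j = k
      · subst hjk
        simp
      · have hkj : ¬ (k = j ∧ t = m) := fun h => hjk h.1.symm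
        rw [if_neg hjk, if_neg hkj, zero_mul]

theorem mg_indep {c : ℕ} (a b : List (Fin n) → ℤ_[p])
    (h : ∀ z, ∑ l ∈ Ls n c, a l * mg hF l z = ∑ l ∈ Ls n c, b l * mg hF l z) :
    ∀ l ∈ Ls n c, a l = b l := by
  intro m hm
  have h1 : (fun z => ∑ l ∈ Ls n c, a l * mg hF l z) = fun z => ∑ l ∈ Ls n c, b l * mg hF l z :=
    funext h
  have h2 := congrFun (congrArg (dl x m) h1) 1
  rw [dl_sum, dl_sum] at h2
  simp only [dl_smul, dl_mg_one] at h2
  simpa [hm] using h2

theorem dl_cont {f : F → ℤ_[p]} (hf : Continuous f) (l : List (Fin n)) :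
    Continuous (dl x l f) := by
  induction l generalizing f with
  | nil => exact hf
  | cons j l ih =>
    rw [dl_cons]
    exact ih ((hf.comp (continuous_mul_const _)).sub hf)

/-- the index set of the representation -/
abbrev BB (n c : ℕ) : Type := {l : List (Fin n) // l ∈ Ls n c}

/-- the length function -/
def ln (n c : ℕ) : BB n c → ℕ := fun l => l.1.length

theorem sum_BB {c : ℕ} {M : Type*} [AddCommMonoid M] (g : List (Fin n) → M) :
    ∑ l : BB n c, g l.1 = ∑ l ∈ Ls n c, g l := Finset.sum_coe_sort (Ls n c) g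

/-- the representation -/
def rho (c : ℕ) : F →* UT p (ln n c) where
  toFun y := ⟨Matrix.of fun l l' => dl x l'.1 (mg hF l.1) y, by
    rw [mem_UT]
    intro l l' h
    by_contra hcon
    apply h
    rw [Matrix.sub_apply, Matrix.of_apply, dl_mg hF _ _ (not_lt.1 hcon)]
    by_cases hl : l = l'
    · rw [hl, if_pos rfl, Matrix.one_apply_eq, sub_self]
    · rw [if_neg (fun h => hl (Subtype.ext h)), Matrix.one_apply_ne hl, sub_self]⟩
  map_one' := by
    apply Subtype.ext
    ext l l'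
    change dl x l'.1 (mg hF l.1) 1 = (1 : Matrix (BB n c) (BB n c) ℤ_[p]) l l'
    rw [dl_mg_one]
    by_cases hl : l = l'
    · rw [hl, if_pos rfl, Matrix.one_apply_eq]
    · rw [if_neg (fun h => hl (Subtype.ext h)), Matrix.one_apply_ne hl]
  map_mul' y z := by
    apply Subtype.ext
    ext l l'
    change dl x l'.1 (mg hF l.1) (y * z) = ∑ m : BB n c, dl x m.1 (mg hF l.1) y *
      dl x l'.1 (mg hF m.1) z
    rw [sum_BB (fun m => dl x m (mg hF l.1) y * dl x l'.1 (mg hF m) z)]
    refine mg_indep hF (c := c) (fun l' => dl x l' (mg hF l.1) (y * z))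
      (fun l' => ∑ m ∈ Ls n c, dl x m (mg hF l.1) y * dl x l' (mg hF m) z) ?_ l'.1 l'.2
    intro w
    rw [← mg_left hF (mem_Ls.1 l.2), mul_assoc, mg_left hF (mem_Ls.1 l.2)]
    simp only [Finset.sum_mul]
    rw [Finset.sum_comm]
    refine Finset.sum_congr rfl fun m hm => ?_
    rw [mg_left hF (mem_Ls.1 hm), Finset.mul_sum]
    refine Finset.sum_congr rfl fun l'' _ => ?_
    ring

theorem rho_val (c : ℕ) (y : F) (l l' : BB n c) :
    (rho hF c y).1 l l' = dl x l'.1 (mg hF l.1) y := rfl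

theorem rho_cont (c : ℕ) : Continuous (rho hF c) := by
  apply Continuous.subtype_mk
  apply continuous_matrix
  intro l l'
  exact dl_cont (mg hF l.1).continuous l'.1

/-- matrix of the composition with a homomorphism -/
def sg (c : ℕ) (ψ : F →* F) : Matrix (BB n c) (BB n c) ℤ_[p] :=
  Matrix.of fun l l' => dl x l'.1 (fun y => mg hF l.1 (ψ y)) 1

theorem sg_apply (c : ℕ) (ψ : F →* F) (l l' : BB n c) :
    sg hF c ψ l l' = dl x l'.1 (fun y => mg hF l.1 (ψ y)) 1 := rfl

theorem sg_comp {c : ℕ} (ψ ψ' : F →* F) (hψ : Continuous ψ) (hψ' : Continuous ψ') :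
    sg hF c (ψ.comp ψ') = sg hF c ψ * sg hF c ψ' := by
  ext l l'
  rw [Matrix.mul_apply]
  simp only [sg_apply]
  rw [sum_BB (fun m => dl x m (fun y => mg hF l.1 (ψ y)) 1 * dl x l'.1 (fun y => mg hF m (ψ' y)) 1)]
  refine mg_indep hF (c := c) (fun l' => dl x l' (fun y => mg hF l.1 ((ψ.comp ψ') y)) 1)
    (fun l' => ∑ m ∈ Ls n c, dl x m (fun y => mg hF l.1 (ψ y)) 1 *
      dl x l' (fun y => mg hF m (ψ' y)) 1) ?_ l'.1 l'.2
  intro w
  rw [← mg_comp hF (ψ.comp ψ') (hψ.comp hψ') (mem_Ls.1 l.2)]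
  change mg hF l.1 (ψ (ψ' w)) = _
  rw [mg_comp hF ψ hψ (mem_Ls.1 l.2)]
  simp only [Finset.sum_mul]
  rw [Finset.sum_comm]
  refine Finset.sum_congr rfl fun m hm => ?_
  rw [mg_comp hF ψ' hψ' (mem_Ls.1 hm), Finset.mul_sum]
  refine Finset.sum_congr rfl fun l'' _ => ?_
  ring

theorem sg_id {c : ℕ} : sg hF c (MonoidHom.id F) = 1 := by
  ext l l'
  rw [sg_apply]
  change dl x l'.1 (mg hF l.1) 1 = _
  rw [dl_mg_one]
  by_cases hl : l = l'
  · rw [hl, if_pos rfl, Matrix.one_apply_eq]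
  · rw [if_neg (fun h => hl (Subtype.ext h)), Matrix.one_apply_ne hl]

theorem sg_rho {c : ℕ} (ψ : F →* F) (hψ : Continuous ψ) (z : F) :
    sg hF c ψ * (rho hF c z).1 = (rho hF c (ψ z)).1 * sg hF c ψ := by
  ext l l'
  rw [Matrix.mul_apply, Matrix.mul_apply]
  simp only [sg_apply, rho_val]
  rw [sum_BB (fun m => dl x m (fun y => mg hF l.1 (ψ y)) 1 * dl x l'.1 (mg hF m) z),
    sum_BB (fun m => dl x m (mg hF l.1) (ψ z) * dl x l'.1 (fun y => mg hF m (ψ y)) 1)]
  refine mg_indep hF (c := c) (fun l' => ∑ m ∈ Ls n c, dl x m (fun y => mg hF l.1 (ψ y)) 1 *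
      dl x l' (mg hF m) z)
    (fun l' => ∑ m ∈ Ls n c, dl x m (mg hF l.1) (ψ z) *
      dl x l' (fun y => mg hF m (ψ y)) 1) ?_ l'.1 l'.2
  intro w
  have e1 : ∑ l' ∈ Ls n c, (∑ m ∈ Ls n c, dl x m (fun y => mg hF l.1 (ψ y)) 1 *
      dl x l' (mg hF m) z) * mg hF l' w = mg hF l.1 (ψ (z * w)) := by
    rw [mg_comp hF ψ hψ (mem_Ls.1 l.2)]
    simp only [Finset.sum_mul]
    rw [Finset.sum_comm]
    refine Finset.sum_congr rfl fun m hm => ?_
    rw [mg_left hF (mem_Ls.1 hm), Finset.mul_sum]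
    refine Finset.sum_congr rfl fun l'' _ => ?_
    ring
  have e2 : ∑ l' ∈ Ls n c, (∑ m ∈ Ls n c, dl x m (mg hF l.1) (ψ z) *
      dl x l' (fun y => mg hF m (ψ y)) 1) * mg hF l' w = mg hF l.1 (ψ (z * w)) := by
    rw [map_mul ψ, mg_left hF (mem_Ls.1 l.2)]
    simp only [Finset.sum_mul]
    rw [Finset.sum_comm]
    refine Finset.sum_congr rfl fun m hm => ?_
    rw [mg_comp hF ψ hψ (mem_Ls.1 hm), Finset.mul_sum]
    refine Finset.sum_congr rfl fun l'' _ => ?_
    ring
  rw [e1, e2]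

theorem sg_tw {c : ℕ} (ψ ψ' : F →* F) (hψ : Continuous ψ) (hψ' : Continuous ψ')
    (h1 : ψ.comp ψ' = MonoidHom.id F) (h2 : ψ'.comp ψ = MonoidHom.id F)
    (hc : ∀ k j, (p : ℤ_[p]) ^ 2 ∣ mg hF [k] (ψ (x j)) - if k = j then 1 else 0)
    (hc' : ∀ k j, (p : ℤ_[p]) ^ 2 ∣ mg hF [k] (ψ' (x j)) - if k = j then 1 else 0) :
    Tw (ln n c) (sg hF c ψ) (sg hF c ψ') where
  r := by rw [← sg_comp hF ψ ψ' hψ hψ', h1, sg_id]
  l := by rw [← sg_comp hF ψ' ψ hψ' hψ, h2, sg_id]
  up l l' h := by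
    rw [sg_apply, comp_zero hF ψ hψ h]; rfl
  up' l l' h := by
    rw [sg_apply, comp_zero hF ψ' hψ' h]; rfl
  diag l l' h := by
    have := comp_close hF ψ hψ hc l.1 l'.1 h
    rw [sg_apply]
    simpa only [Subtype.ext_iff] using this
  diag' l l' h := by
    have := comp_close hF ψ' hψ' hc' l.1 l'.1 h
    rw [sg_apply]
    simpa only [Subtype.ext_iff] using this

theorem conj_rho {c : ℕ} (ψ ψ' : F →* F) (hψ : Continuous ψ)
    (h : Tw (ln n c) (sg hF c ψ) (sg hF c ψ')) (z : F) :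
    h.conj (rho hF c z) = rho hF c (ψ z) := by
  apply Subtype.ext
  rw [Tw.conj_val, sg_rho hF ψ hψ, mul_assoc, h.r, mul_one]

/-- the indicator of an open normal subgroup has finite degree -/
theorem exists_low (V : Subgroup F) (hVn : V.Normal) (hVo : IsOpen (V : Set F))
    (hp : IsPGroup p (F ⧸ V)) :
    ∃ c : ℕ, ∀ m : F ⧸ V → ZMod p, Low x c (fun y : F => m (y : F ⧸ V)) := by
  classical
  have hfin := finite_quot V hVo
  let act : F ⧸ V →* AddMonoid.End (F ⧸ V → ZMod p) :=
    { toFun := fun g =>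
        { toFun := fun f => fun z => f (z * g)
          map_zero' := rfl
          map_add' := fun _ _ => rfl }
      map_one' := by
        ext f z
        change f (z * 1) = f z
        rw [mul_one]
      map_mul' := by
        intro g h
        ext f z
        change f (z * (g * h)) = f (z * g * h)
        rw [mul_assoc] }
  obtain ⟨K, hK0, hK, c, hc⟩ := nilp hp (M := F ⧸ V → ZMod p) (by
    intro m; funext z; simp) act
  refine ⟨c, fun m => ?_⟩
  have key : ∀ c (m : F ⧸ V → ZMod p), m ∈ K c → Low x c (fun y : F => m (y : F ⧸ V)) := by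
    intro c
    induction c with
    | zero =>
      intro m hm l hl
      have hm0 : m = 0 := by
        rw [hK0] at hm
        exact AddSubgroup.mem_bot.1 hm
      have : (fun y : F => m (y : F ⧸ V)) = 0 := by
        rw [hm0]; rfl
      rw [this, dl_zero]
    | succ c ih =>
      intro m hm l hl
      cases l with
      | nil => simp at hl
      | cons j l =>
        rw [dl_cons]
        exact ih _ (hK c m hm (x j : F ⧸ V)) l (by simpa using hl)
  exact key c m (by rw [hc]; trivial)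

/-- the kernel of the reduced representation -/
theorem rho_ker {c : ℕ} (V : Subgroup F) (hVn : V.Normal) (hVo : IsOpen (V : Set F))
    (hlow : ∀ m : F ⧸ V → ZMod p, Low x c (fun y : F => m (y : F ⧸ V))) (u u' : F)
    (h : UTpi (ln n c) (rho hF c u) = UTpi (ln n c) (rho hF c u')) : u⁻¹ * u' ∈ V := by
  classical
  let f : F → ZMod p := fun y => if (y : F ⧸ V) = 1 then 1 else 0
  have hf : IsLocallyConstant f := (mk_lc V hVo).comp fun z => if z = 1 then (1 : ZMod p) else 0
  have hfl : Low x c f := hlow fun z => if z = 1 then 1 else 0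
  have h1 : ∀ l ∈ Ls n c, ∀ l' ∈ Ls n c, PadicInt.toZMod (dl x l' (mg hF l) u) =
      PadicInt.toZMod (dl x l' (mg hF l) u') := by
    intro l hl l' hl'
    have h2 := congrArg (fun g : GG p (BB n c) => (g : Matrix (BB n c) (BB n c) (ZMod p))
      ⟨l, hl⟩ ⟨l', hl'⟩) h
    simp only [UTpi_val, Matrix.map_apply, rho_val] at h2
    exact h2
  have h2 : ∀ z, f (u * z) = f (u' * z) := by
    intro z
    rw [taylor_mod hF c f hf hfl, taylor_mod hF c f hf hfl]
    refine Finset.sum_congr rfl fun l hl => ?_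
    congr 1
    rw [mg_left hF (mem_Ls.1 hl), mg_left hF (mem_Ls.1 hl), map_sum, map_sum]
    refine Finset.sum_congr rfl fun l' hl' => ?_
    rw [map_mul, map_mul, h1 l hl l' hl']
  have h3 := h2 u⁻¹
  rw [mul_inv_cancel] at h3
  have h4 : (( (1 : F) : F ⧸ V)) = 1 := rfl
  simp only [f] at h3
  rw [if_pos h4] at h3
  have h5 : ((u' * u⁻¹ : F) : F ⧸ V) = 1 := by
    by_contra hne
    rw [if_neg hne] at h3
    exact one_ne_zero h3
  have h6 : u' * u⁻¹ ∈ V := (QuotientGroup.eq_one_iff _).1 h5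
  have h7 := hVn.conj_mem _ h6 u⁻¹
  rw [inv_inv] at h7
  have h8 : u⁻¹ * (u' * u⁻¹) * u = u⁻¹ * u' := by group
  rwa [h8] at h7

end Pool.H8
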