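import Mathlib

set_option autoImplicit false
set_option backward.isDefEq.respectTransparency.types true
set_option linter.unusedSectionVars false

/-! A complete filtered ring with commutative Noetherian associated graded ring is Noetherian. -/

namespace Pool.H8

theorem isNoetherian_of_filtration {R : Type*} [Ring R] {S : Type*} [CommRing S]
    [IsNoetherianRing S] {σ : Type*} [SetLike σ S] [AddSubgroupClass σ S]
    (A : ℕ → σ) [GradedRing A]
    (Fil : ℕ → AddSubgroup R) (hzero : Fil 0 = ⊤)
    (hmono : ∀ N, Fil (N+1) ≤ Fil N)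
    (hmulFil : ∀ N M x y, x ∈ Fil N → y ∈ Fil M → x * y ∈ Fil (N + M))
    (h : ℕ → R → S)
    (hadd : ∀ N x y, x ∈ Fil N → y ∈ Fil N → h N (x + y) = h N x + h N y)
    (hker : ∀ N x, x ∈ Fil N → h N x = 0 → x ∈ Fil (N+1))
    (hmul : ∀ N M x y, x ∈ Fil N → y ∈ Fil M → h (N + M) (x * y) = h N x * h M y)
    (hhom : ∀ N x, x ∈ Fil N → h N x ∈ A N)
    (hsurj : ∀ N g, g ∈ A N → ∃ x ∈ Fil N, h N x = g)
    (hcomplete : ∀ μ : ℕ → R, (∀ N, μ N ∈ Fil N) →
      ∃ s, ∀ M, s - ∑ N ∈ Finset.range M, μ N ∈ Fil M)
    (hsep : ∀ x, (∀ N, x ∈ Fil N) → x = 0) : IsNoetherianRing R := by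
  classical
  have hanti : ∀ N M, N ≤ M → Fil M ≤ Fil N := fun N M hNM => by
    induction M, hNM using Nat.le_induction with
    | base => exact le_rfl
    | succ M _ ih => exact (hmono M).trans ih
  have hzero' : ∀ N, h N 0 = 0 := by
    intro N
    have := hadd N 0 0 (Fil N).zero_mem (Fil N).zero_mem
    rw [add_zero] at this
    exact left_eq_add.1 this
  have hsum : ∀ (N : ℕ) (T : Finset S) (y : S → R), (∀ f ∈ T, y f ∈ Fil N) →
      h N (∑ f ∈ T, y f) = ∑ f ∈ T, h N (y f) := by
    intro N T y hy
    induction T using Finset.induction_on with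
    | empty => simp [hzero']
    | insert a T ha ih =>
      rw [Finset.sum_insert ha, Finset.sum_insert ha, hadd, ih]
      · exact fun f hf => hy f (Finset.mem_insert_of_mem hf)
      · exact hy a (Finset.mem_insert_self _ _)
      · exact (Fil N).sum_mem fun f hf => hy f (Finset.mem_insert_of_mem hf)
  refine ⟨fun J => ?_⟩
  set T : Set S := {f | ∃ N x, x ∈ J ∧ x ∈ Fil N ∧ h N x = f} with hT
  obtain ⟨T', hT'T, hspan⟩ := (Submodule.fg_span_iff_fg_span_finset_subset (R := S) T).1
    (IsNoetherian.noetherian (Submodule.span S T))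
  -- choose representatives
  have hch : ∀ f : S, ∃ (N : ℕ) (x : R), f ∈ T' → (x ∈ J ∧ x ∈ Fil N ∧ h N x = f) := by
    intro f
    by_cases hf : f ∈ T'
    · obtain ⟨N, x, hx⟩ := hT'T hf
      exact ⟨N, x, fun _ => hx⟩
    · exact ⟨0, 0, fun h => absurd h hf⟩
  choose n z hnz using hch
  -- one step of the approximation
  have hstep : ∀ (N : ℕ) (x : R), ∃ r : S → R, (x ∈ J ∧ x ∈ Fil N) →
      ((∀ f ∈ T', if n f ≤ N then r f ∈ Fil (N - n f) else r f = 0) ∧
        x - ∑ f ∈ T', r f * z f ∈ Fil (N + 1)) := by
    intro N x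
    by_cases hx : x ∈ J ∧ x ∈ Fil N
    swap
    · exact ⟨0, fun h => absurd h hx⟩
    have h1 : h N x ∈ Submodule.span S (T' : Set S) := by
      rw [← hspan]
      exact Submodule.subset_span ⟨N, x, hx.1, hx.2, rfl⟩
    obtain ⟨g, -, hg⟩ := Submodule.mem_span_finset.1 h1
    have h2 : ∀ f, ∃ r : R, f ∈ T' → ((if n f ≤ N then r ∈ Fil (N - n f) else r = 0) ∧
        r * z f ∈ Fil N ∧
        h N (r * z f) = (DirectSum.decompose A (g f * f) N : S)) := by
      intro f
      by_cases hf : f ∈ T'
      swap
      · exact ⟨0, fun h => absurd h hf⟩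
      have hzf := hnz f hf
      have hfA : f ∈ A (n f) := by
        have := hhom (n f) (z f) hzf.2.1
        rwa [hzf.2.2] at this
      by_cases hnN : n f ≤ N
      · obtain ⟨r, hr, hr'⟩ := hsurj (N - n f) (DirectSum.decompose A (g f) (N - n f) : S)
          (SetLike.coe_mem _)
        refine ⟨r, fun _ => ⟨by rw [if_pos hnN]; exact hr, ?_, ?_⟩⟩
        · have := hmulFil _ _ _ _ hr hzf.2.1
          rwa [Nat.sub_add_cancel hnN] at this
        · rw [DirectSum.coe_decompose_mul_of_right_mem_of_le A hfA hnN, ← hr']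
          have := hmul _ _ _ _ hr hzf.2.1
          rw [Nat.sub_add_cancel hnN, hzf.2.2] at this
          exact this
      · refine ⟨0, fun _ => ⟨by rw [if_neg hnN], by rw [zero_mul]; exact (Fil N).zero_mem, ?_⟩⟩
        rw [DirectSum.coe_decompose_mul_of_right_mem_of_not_le A hfA hnN, zero_mul, hzero']
    choose r hr using h2
    refine ⟨r, fun _ => ⟨fun f hf => (hr f hf).1, ?_⟩⟩
    apply hker
    · exact (Fil N).sub_mem hx.2 ((Fil N).sum_mem fun f hf => (hr f hf).2.1)
    · have hs : ∑ f ∈ T', r f * z f ∈ Fil N := (Fil N).sum_mem fun f hf => (hr f hf).2.1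
      have h3 : h N (∑ f ∈ T', r f * z f) = h N x := by
        rw [hsum _ _ _ (fun f hf => (hr f hf).2.1)]
        rw [Finset.sum_congr rfl fun f hf => (hr f hf).2.2]
        have h4 : (DirectSum.decompose A (h N x) N : S) = h N x :=
          DirectSum.decompose_of_mem_same A (hhom N x hx.2)
        rw [← h4, ← hg]
        have h5 : ∀ (T : Finset S), ((DirectSum.decompose A (∑ f ∈ T, g f • f) N : A N) : S) =
            ∑ f ∈ T, ((DirectSum.decompose A (g f * f) N : A N) : S) := by
          intro T
          induction T using Finset.induction_on with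
          | empty => simp
          | insert a T ha ih =>
            rw [Finset.sum_insert ha, Finset.sum_insert ha, DirectSum.decompose_add,
              DirectSum.add_apply, AddMemClass.coe_add, ih]
            rfl
        exact (h5 T').symm
      have h4 := hadd N (x - ∑ f ∈ T', r f * z f) (∑ f ∈ T', r f * z f)
        ((Fil N).sub_mem hx.2 hs) hs
      rw [sub_add_cancel, h3] at h4
      exact right_eq_add.1 h4
  choose r hr using hstep
  -- the sequence of remainders
  have hJ : ∀ x ∈ J, x ∈ Submodule.span R ((T'.image z : Finset R) : Set R) := by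
    intro x hx
    let y : ℕ → R := fun N => Nat.rec x (fun N yN => yN - ∑ f ∈ T', r N yN f * z f) N
    have hy0 : y 0 = x := rfl
    have hys : ∀ N, y (N+1) = y N - ∑ f ∈ T', r N (y N) f * z f := fun N => rfl
    have hyJ : ∀ N, y N ∈ J ∧ y N ∈ Fil N := by
      intro N
      induction N with
      | zero => exact ⟨hx, by rw [hzero]; trivial⟩
      | succ N ih =>
        rw [hys]
        exact ⟨J.sub_mem ih.1 (J.sum_mem fun f hf => J.smul_mem _ (hnz f hf).1), (hr N (y N) ih).2⟩
    have hdiff : ∀ K, x - ∑ f ∈ T', (∑ N ∈ Finset.range K, r N (y N) f) * z f = y K := by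
      intro K
      induction K with
      | zero => simp [hy0]
      | succ K ih =>
        rw [hys, ← ih, sub_sub, ← Finset.sum_add_distrib]
        congr 1
        refine Finset.sum_congr rfl fun f _ => ?_
        rw [Finset.sum_range_succ, add_mul]
        congr 2
        rw [ih]
    have hs : ∀ f : S, ∃ s : R, f ∈ T' → ∀ M,
        s - ∑ N ∈ Finset.range M, r (N + n f) (y (N + n f)) f ∈ Fil M := by
      intro f
      by_cases hf : f ∈ T'
      swap
      · exact ⟨0, fun h => absurd h hf⟩
      obtain ⟨s, hs⟩ := hcomplete (fun N => r (N + n f) (y (N + n f)) f) (by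
        intro N
        have := (hr (N + n f) (y (N + n f)) (hyJ _)).1 f hf
        rw [if_pos (Nat.le_add_left _ _), Nat.add_sub_cancel] at this
        exact this)
      exact ⟨s, fun _ => hs⟩
    choose s hs using hs
    have hpart : ∀ f ∈ T', ∀ K, ∑ N ∈ Finset.range K, r N (y N) f =
        ∑ N ∈ Finset.range (K - n f), r (N + n f) (y (N + n f)) f := by
      intro f hf K
      have hz : ∀ N, N < n f → r N (y N) f = 0 := by
        intro N hN
        have := (hr N (y N) (hyJ _)).1 f hf
        rwa [if_neg (by omega)] at this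
      rcases Nat.lt_or_ge K (n f) with hK | hK
      · rw [Nat.sub_eq_zero_of_le hK.le, Finset.range_zero, Finset.sum_empty]
        exact Finset.sum_eq_zero fun N hN => hz N (by have := Finset.mem_range.1 hN; omega)
      · obtain ⟨M, rfl⟩ := Nat.exists_eq_add_of_le hK
        rw [Nat.add_sub_cancel_left, add_comm (n f) M]
        induction M with
        | zero =>
          simp only [zero_add, Finset.range_zero, Finset.sum_empty]
          exact Finset.sum_eq_zero fun N hN => hz N (Finset.mem_range.1 hN)
        | succ M ih =>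
          rw [Finset.sum_range_succ, ← ih (by omega), show M + 1 + n f = (M + n f) + 1 by ring,
            Finset.sum_range_succ]
    have hfin : x = ∑ f ∈ T', s f * z f := by
      rw [← sub_eq_zero]
      apply hsep
      intro K
      have e1 : x - ∑ f ∈ T', s f * z f = y K -
          ∑ f ∈ T', (s f - ∑ N ∈ Finset.range K, r N (y N) f) * z f := by
        rw [← hdiff K]
        simp only [sub_mul, Finset.sum_sub_distrib]
        abel
      rw [e1]
      refine (Fil K).sub_mem (hyJ K).2 ((Fil K).sum_mem fun f hf => ?_)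
      have e2 := hs f hf (K - n f)
      rw [← hpart f hf K] at e2
      have e3 := hmulFil _ _ _ _ e2 (hnz f hf).2.1
      exact hanti K _ (by omega) e3
    rw [hfin]
    refine Submodule.sum_mem _ fun f hf => ?_
    refine Submodule.smul_mem _ (s f) (Submodule.subset_span ?_)
    exact Finset.mem_coe.2 (Finset.mem_image_of_mem z hf)
  refine ⟨T'.image z, le_antisymm ?_ hJ⟩
  rw [Submodule.span_le]
  intro x hx
  obtain ⟨f, hf, rfl⟩ := Finset.mem_image.1 (Finset.mem_coe.1 hx)
  exact (hnz f hf).1

end Pool.H8
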