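import Mathlib

set_option autoImplicit false
set_option backward.isDefEq.respectTransparency.types true
set_option linter.unusedSectionVars false

/-! Bi-orders given by their strict positive cones; products; semidirect products. -/

namespace Pool.H8

open Finset

universe u v w

/-- the strict positive cone of a two-sided invariant total order of a group -/
structure BO (G : Type u) [Group G] where
  /-- the strictly positive elements -/
  pos : G → Prop
  mul : ∀ {a b : G}, pos a → pos b → pos (a * b)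
  conj : ∀ {a : G} (g : G), pos a → pos (g * a * g⁻¹)
  one : ¬ pos 1
  tot : ∀ {a : G}, a ≠ 1 → pos a ∨ pos a⁻¹

namespace BO

variable {G : Type u} [Group G] (P : BO G)

theorem ne_one {a : G} (h : P.pos a) : a ≠ 1 := by
  rintro rfl
  exact P.one h

theorem not_inv {a : G} (h : P.pos a) : ¬ P.pos a⁻¹ := by
  intro h'
  have := P.mul h h'
  rw [mul_inv_cancel] at this
  exact P.one this

theorem conj' {a : G} (g : G) (h : P.pos a) : P.pos (g⁻¹ * a * g) := by
  have := P.conj g⁻¹ h
  rwa [inv_inv] at this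

theorem pow {a : G} (h : P.pos a) {n : ℕ} (hn : 0 < n) : P.pos (a ^ n) := by
  induction n with
  | zero => exact absurd hn (lt_irrefl _)
  | succ n ih =>
    rcases Nat.eq_zero_or_pos n with h0 | h0
    · subst h0
      simpa using h
    · rw [pow_succ]
      exact P.mul (ih h0) h

/-- the linear order of a cone -/
noncomputable def linearOrder : LinearOrder G where
  le a b := a = b ∨ P.pos (a⁻¹ * b)
  lt a b := P.pos (a⁻¹ * b)
  le_refl a := Or.inl rfl
  le_trans := by
    rintro a b c (rfl | h1) (rfl | h2)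
    · exact Or.inl rfl
    · exact Or.inr h2
    · exact Or.inr h1
    · right
      have := P.mul h1 h2
      rwa [show a⁻¹ * b * (b⁻¹ * c) = a⁻¹ * c by group] at this
  lt_iff_le_not_ge := by
    intro a b
    constructor
    · intro h
      refine ⟨Or.inr h, ?_⟩
      rintro (rfl | h')
      · simp only [inv_mul_cancel] at h
        exact P.one h
      · have := P.mul h h'
        rw [show a⁻¹ * b * (b⁻¹ * a) = 1 by group] at this
        exact P.one this
    · rintro ⟨rfl | h, h2⟩
      · exact absurd (Or.inl rfl) h2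
      · exact h
  le_antisymm := by
    rintro a b (rfl | h1) (h | h2)
    · rfl
    · rfl
    · exact h.symm
    · have := P.mul h1 h2
      rw [show a⁻¹ * b * (b⁻¹ * a) = 1 by group] at this
      exact absurd this P.one
  le_total := by
    intro a b
    by_cases hab : a = b
    · exact Or.inl (Or.inl hab)
    · have h1 : a⁻¹ * b ≠ 1 := by
        intro h
        exact hab (inv_mul_eq_one.mp h)
      rcases P.tot h1 with h | h
      · exact Or.inl (Or.inr h)
      · right
        right
        rwa [mul_inv_rev, inv_inv] at h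
  toDecidableLE := Classical.decRel _
  toDecidableEq := Classical.decEq _
  toDecidableLT := Classical.decRel _

theorem lt_iff (a b : G) : (@LT.lt G P.linearOrder.toLT a b) ↔ P.pos (a⁻¹ * b) := Iff.rfl

theorem le_iff (a b : G) : (@LE.le G P.linearOrder.toLE a b) ↔ (a = b ∨ P.pos (a⁻¹ * b)) := Iff.rfl

theorem mul_left (a b c : G) (h : @LE.le G P.linearOrder.toLE a b) :
    @LE.le G P.linearOrder.toLE (c * a) (c * b) := by
  rcases h with rfl | h
  · exact Or.inl rfl
  · right
    rwa [show (c * a)⁻¹ * (c * b) = a⁻¹ * b by group]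

theorem mul_right (a b c : G) (h : @LE.le G P.linearOrder.toLE a b) :
    @LE.le G P.linearOrder.toLE (a * c) (b * c) := by
  rcases h with rfl | h
  · exact Or.inl rfl
  · right
    rw [show (a * c)⁻¹ * (b * c) = c⁻¹ * (a⁻¹ * b) * c by group]
    exact P.conj' c h

/-- the cone of a linear order -/
def ofOrder (G : Type u) [Group G] [LinearOrder G] [MulLeftMono G] [MulRightMono G] : BO G where
  pos a := 1 < a
  mul := fun {a b} ha hb => one_lt_mul' ha hb
  conj := by
    intro a g ha
    have h1 : g * 1 < g * a := mul_lt_mul_right ha g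
    have h2 : g * 1 * g⁻¹ < g * a * g⁻¹ := mul_lt_mul_left h1 g⁻¹
    simpa using h2
  one := lt_irrefl _
  tot := by
    intro a ha
    rcases lt_trichotomy 1 a with h | h | h
    · exact Or.inl h
    · exact absurd h.symm ha
    · right
      exact one_lt_inv'.mpr h

end BO

section Pi

variable {I : Type v} [LinearOrder I] (Γ : I → Type u) [∀ i, Group (Γ i)] (P : ∀ i, BO (Γ i))

/-- positive leading coefficient on a finite set of indices -/
def lpos (F : Finset I) (u : ∀ i, Γ i) : Prop :=
  ∃ i ∈ F, (P i).pos (u i) ∧ ∀ j ∈ F, i < j → u j = 1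

variable {Γ}

theorem lpos_mul {F : Finset I} {a b : ∀ i, Γ i} (ha : lpos Γ P F a) (hb : lpos Γ P F b) :
    lpos Γ P F (a * b) := by
  obtain ⟨i, hi, h1, h2⟩ := ha
  obtain ⟨k, hk, h3, h4⟩ := hb
  rcases lt_trichotomy i k with h | h | h
  · refine ⟨k, hk, ?_, ?_⟩
    · rw [Pi.mul_apply, h2 k hk h, one_mul]
      exact h3
    · intro j hj hkj
      rw [Pi.mul_apply, h2 j hj (h.trans hkj), h4 j hj hkj, one_mul]
  · subst h
    refine ⟨i, hi, (P i).mul h1 h3, ?_⟩
    intro j hj hij
    rw [Pi.mul_apply, h2 j hj hij, h4 j hj hij, one_mul]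
  · refine ⟨i, hi, ?_, ?_⟩
    · rw [Pi.mul_apply, h4 i hi h, mul_one]
      exact h1
    · intro j hj hij
      rw [Pi.mul_apply, h2 j hj hij, h4 j hj (h.trans hij), one_mul]

theorem lpos_conj {F : Finset I} {a : ∀ i, Γ i} (g : ∀ i, Γ i) (ha : lpos Γ P F a) :
    lpos Γ P F (g * a * g⁻¹) := by
  obtain ⟨i, hi, h1, h2⟩ := ha
  refine ⟨i, hi, (P i).conj (g i) h1, ?_⟩
  intro j hj hij
  simp [h2 j hj hij]

theorem lpos_tot {F : Finset I} {a : ∀ i, Γ i} {i₀ : I} (h0 : i₀ ∈ F) (hi : a i₀ ≠ 1) :
    lpos Γ P F a ∨ lpos Γ P F a⁻¹ := by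
  classical
  have hne : (F.filter fun i => a i ≠ 1).Nonempty := ⟨i₀, by simp [h0, hi]⟩
  have hmem := Finset.max'_mem _ hne
  have hmax : ∀ j ∈ F, (F.filter fun i => a i ≠ 1).max' hne < j → a j = 1 := by
    intro j hj hlt
    by_contra hc
    exact absurd (Finset.le_max' (F.filter fun i => a i ≠ 1) j (by simp [hj, hc]))
      (not_le.mpr hlt)
  generalize (F.filter fun i => a i ≠ 1).max' hne = i at hmem hmax
  simp only [Finset.mem_filter] at hmem
  rcases (P i).tot hmem.2 with h | h
  · exact Or.inl ⟨i, hmem.1, h, hmax⟩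
  · refine Or.inr ⟨i, hmem.1, h, ?_⟩
    intro j hj hij
    rw [Pi.inv_apply, hmax j hj hij, inv_one]

theorem BO.pi : ∃ B : BO (∀ i, Γ i), ∀ (u : ∀ i, Γ i) (i : I), (∀ j, i < j → u j = 1) →
    (P i).pos (u i) → B.pos u := by
  classical
  let U : Ultrafilter (Finset I) := Ultrafilter.of Filter.atTop
  have hU : ∀ i : I, ∀ᶠ F in (U : Filter (Finset I)), i ∈ F := by
    intro i
    have h1 : ∀ᶠ F in (Filter.atTop : Filter (Finset I)), i ∈ F := by
      filter_upwards [Filter.eventually_ge_atTop ({i} : Finset I)] with F hF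
      exact hF (by simp)
    exact Ultrafilter.of_le _ h1
  refine ⟨⟨fun a => ∀ᶠ F in (U : Filter (Finset I)), lpos Γ P F a, ?_, ?_, ?_, ?_⟩, ?_⟩
  · intro a b ha hb
    filter_upwards [ha, hb] with F h1 h2
    exact lpos_mul P h1 h2
  · intro a g ha
    filter_upwards [ha] with F h1
    exact lpos_conj P g h1
  · intro h
    obtain ⟨F, hF⟩ := h.exists
    obtain ⟨i, _, h1, _⟩ := hF
    exact (P i).one h1
  · intro a ha
    obtain ⟨i₀, hi₀⟩ : ∃ i, a i ≠ 1 := by
      by_contra hc
      push Not at hc
      exact ha (funext hc)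
    have : ∀ᶠ F in (U : Filter (Finset I)), lpos Γ P F a ∨ lpos Γ P F a⁻¹ := by
      filter_upwards [hU i₀] with F hF
      exact lpos_tot P hF hi₀
    exact Ultrafilter.eventually_or.mp this
  · intro a i h1 h2
    show ∀ᶠ F in (U : Filter (Finset I)), lpos Γ P F a
    filter_upwards [hU i] with F hF
    exact ⟨i, hF, h2, fun j _ hj => h1 j hj⟩

end Pi

/-- the strict positive cone of an invariant total order of a module over a group -/
structure MO (Q : Type u) (M : Type v) [Group Q] [AddCommGroup M] [DistribMulAction Q M] where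
  /-- the strictly positive elements -/
  pos : M → Prop
  add : ∀ {a b : M}, pos a → pos b → pos (a + b)
  smul : ∀ {a : M} (g : Q), pos a → pos (g • a)
  zero : ¬ pos 0
  tot : ∀ {a : M}, a ≠ 0 → pos a ∨ pos (-a)

namespace MO

variable {Q : Type u} {M : Type v} [Group Q] [AddCommGroup M] [DistribMulAction Q M]
  (P : MO Q M)

theorem ne_zero {a : M} (h : P.pos a) : a ≠ 0 := by
  rintro rfl
  exact P.zero h

theorem not_neg {a : M} (h : P.pos a) : ¬ P.pos (-a) := by
  intro h'
  have := P.add h h'
  rw [add_neg_cancel] at this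
  exact P.zero this

theorem nsmul {a : M} (h : P.pos a) {n : ℕ} (hn : 0 < n) : P.pos (n • a) := by
  induction n with
  | zero => exact absurd hn (lt_irrefl _)
  | succ n ih =>
    rcases Nat.eq_zero_or_pos n with h0 | h0
    · subst h0
      simpa using h
    · rw [succ_nsmul]
      exact P.add (ih h0) h

end MO

/-- the semidirect product of a module by a group -/
@[ext] structure SD (Q : Type u) (M : Type v) where
  /-- the module part -/
  m : M
  /-- the group part -/
  q : Q

namespace SD

variable {Q : Type u} {M : Type v} [Group Q] [AddCommGroup M] [DistribMulAction Q M]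

instance : Mul (SD Q M) := ⟨fun x y => ⟨x.m + x.q • y.m, x.q * y.q⟩⟩
instance : One (SD Q M) := ⟨⟨0, 1⟩⟩
instance : Inv (SD Q M) := ⟨fun x => ⟨-(x.q⁻¹ • x.m), x.q⁻¹⟩⟩

theorem mul_m (x y : SD Q M) : (x * y).m = x.m + x.q • y.m := rfl
theorem mul_q (x y : SD Q M) : (x * y).q = x.q * y.q := rfl
theorem one_m : (1 : SD Q M).m = 0 := rfl
theorem one_q : (1 : SD Q M).q = 1 := rfl
theorem inv_m (x : SD Q M) : (x⁻¹).m = -(x.q⁻¹ • x.m) := rfl
theorem inv_q (x : SD Q M) : (x⁻¹).q = x.q⁻¹ := rfl

instance : Group (SD Q M) :=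
  Group.ofLeftAxioms
    (by
      intro x y z
      ext
      · simp only [mul_m, mul_q, smul_add, mul_smul, add_assoc]
      · simp only [mul_q, mul_assoc])
    (by
      intro x
      ext
      · simp only [mul_m, one_m, one_q, one_smul, zero_add]
      · simp only [mul_q, one_q, one_mul])
    (by
      intro x
      ext
      · simp only [mul_m, inv_m, inv_q, one_m, neg_add_cancel]
      · simp only [mul_q, inv_q, one_q, inv_mul_cancel])

theorem pow_eq (x : SD Q M) (n : ℕ) :
    x ^ n = ⟨∑ i ∈ range n, x.q ^ i • x.m, x.q ^ n⟩ := by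
  induction n with
  | zero =>
    ext
    · simp [one_m]
    · simp [one_q]
  | succ n ih =>
    rw [pow_succ, ih]
    ext
    · simp only [mul_m, Finset.sum_range_succ]
    · simp only [mul_q, pow_succ]

theorem divisible (hQ : ∀ (q : Q) (n : ℕ), 0 < n → ∃ r : Q, r ^ n = q)
    (hM : ∀ (q : Q) (n : ℕ), 0 < n → ∀ m : M, ∃ m' : M, ∑ i ∈ range n, q ^ i • m' = m)
    (x : SD Q M) (n : ℕ) (hn : 0 < n) : ∃ y : SD Q M, y ^ n = x := by
  obtain ⟨r, hr⟩ := hQ x.q n hn
  obtain ⟨m', hm'⟩ := hM r n hn x.m
  refine ⟨⟨m', r⟩, ?_⟩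
  rw [pow_eq]
  ext
  · exact hm'
  · exact hr

/-- the lexicographic order of a semidirect product -/
def bo (P : BO Q) (R : MO Q M) : BO (SD Q M) where
  pos x := P.pos x.q ∨ (x.q = 1 ∧ R.pos x.m)
  mul := by
    rintro a b (ha | ⟨ha, ha'⟩) (hb | ⟨hb, hb'⟩)
    · exact Or.inl (P.mul ha hb)
    · left
      rw [mul_q, hb, mul_one]
      exact ha
    · left
      rw [mul_q, ha, one_mul]
      exact hb
    · right
      refine ⟨by rw [mul_q, ha, hb, one_mul], ?_⟩
      rw [mul_m, ha, one_smul]
      exact R.add ha' hb'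
  conj := by
    rintro a g (ha | ⟨ha, ha'⟩)
    · exact Or.inl (P.conj g.q ha)
    · right
      refine ⟨by rw [mul_q, mul_q, inv_q, ha, mul_one, mul_inv_cancel], ?_⟩
      rw [mul_m, mul_m, mul_q, inv_m, ha, mul_one, smul_neg, smul_inv_smul]
      rw [show g.m + g.q • a.m + -g.m = g.q • a.m by abel]
      exact R.smul _ ha'
  one := by
    rintro (h | ⟨_, h⟩)
    · exact P.one h
    · exact R.zero h
  tot := by
    intro a ha
    by_cases hq : a.q = 1
    · have hm : a.m ≠ 0 := by
        intro hm
        exact ha (SD.ext hm hq)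
      rcases R.tot hm with h | h
      · exact Or.inl (Or.inr ⟨hq, h⟩)
      · right
        right
        refine ⟨by rw [inv_q, hq, inv_one], ?_⟩
        rw [inv_m, hq, inv_one, one_smul]
        exact h
    · rcases P.tot hq with h | h
      · exact Or.inl (Or.inl h)
      · exact Or.inr (Or.inl h)

end SD

end Pool.H8
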