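import Pool.Agent.H8.Od4

set_option autoImplicit false
set_option backward.isDefEq.respectTransparency.types true
set_option linter.unusedSectionVars false

/-! Unipotent automorphisms of ordered vector spaces. -/

namespace Pool.H8

open Finset
open scoped commutatorElement

universe u v w

section Inf

variable {V : Type u} [AddCommGroup V] [LinearOrder V] [IsOrderedAddMonoid V] [Module ℚ V]

theorem sub_one_pow (v : Module.End ℚ V) (i : ℕ) :
    ∃ s : Module.End ℚ V, v ^ i - 1 = s * (v - 1) ∧ Commute s (v - 1) := by
  refine ⟨∑ a ∈ range i, v ^ a, (geom_sum_mul v i).symm, ?_⟩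
  apply Commute.sum_left
  intro a _
  exact ((Commute.refl v).pow_left a).sub_right (Commute.one_right _)

theorem inf_aux (k : ℕ) : ∀ v : (Module.End ℚ V)ˣ, (∀ x : V, 0 < x → 0 < v.val x) →
    (∀ x : V, 0 < x → 0 < v.inv x) → ∀ x : V, 0 < x → ((v.val - 1) ^ k) x = 0 →
    ∀ c : ℕ, c • |v.val x - x| < x := by
  induction k with
  | zero =>
    intro v _ _ x hx h
    rw [pow_zero] at h
    have h' : x = 0 := h
    exact absurd h' hx.ne'
  | succ k ih =>
    -- the case of a negative difference
    have neg : ∀ v : (Module.End ℚ V)ˣ, (∀ x : V, 0 < x → 0 < v.val x) →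
        (∀ x : V, 0 < x → 0 < v.inv x) → ∀ x : V, 0 < x → ((v.val - 1) ^ (k + 1)) x = 0 →
        v.val x - x < 0 → ∀ c : ℕ, c • |v.val x - x| < x := by
      intro v hv hv' x hx h hb c
      set b := -(v.val x - x) with hbdef
      have hb0 : 0 < b := neg_pos.mpr hb
      rw [abs_of_neg hb, ← hbdef]
      by_contra hc
      push Not at hc
      have hkb : ((v.val - 1) ^ k) b = 0 := by
        rw [hbdef, map_neg, neg_eq_zero]
        rw [pow_succ] at h
        exact h
      have hpow : ∀ i : ℕ, ∀ x : V, 0 < x → 0 < (v ^ i).val x := by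
        intro i
        induction i with
        | zero => intro x hx; simpa using hx
        | succ i ihi =>
          intro x hx
          rw [pow_succ]
          exact ihi _ (hv x hx)
      have hpow' : ∀ i : ℕ, ∀ x : V, 0 < x → 0 < (v ^ i).inv x := by
        intro i
        induction i with
        | zero => intro x hx; simpa using hx
        | succ i ihi =>
          intro x hx
          have : (v ^ (i + 1)).inv = (v.inv) * (v ^ i).inv := by
            rw [pow_succ]
            rfl
          rw [this]
          exact hv' _ (ihi x hx)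
      have h2 : ∀ i : ℕ, b < 2 • ((v.val ^ i) b) := by
        intro i
        have h3 := ih (v ^ i) (hpow i) (hpow' i) b hb0 (by
          rw [Units.val_pow_eq_pow_val]
          obtain ⟨s, hs, hsc⟩ := sub_one_pow v.val i
          rw [hs, hsc.mul_pow]
          show (s ^ k) (((v.val - 1) ^ k) b) = 0
          rw [hkb, map_zero]) 2
        rw [Units.val_pow_eq_pow_val] at h3
        have h4 : -|(v.val ^ i) b - b| ≤ (v.val ^ i) b - b := neg_abs_le _
        have h5 : 2 • (-|(v.val ^ i) b - b|) ≤ 2 • ((v.val ^ i) b - b) := nsmul_le_nsmul_right h4 2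
        rw [smul_sub, smul_neg] at h5
        have h6 : -b < -(2 • |(v.val ^ i) b - b|) := neg_lt_neg h3
        have h7 : -b < 2 • (v.val ^ i) b - 2 • b := lt_of_lt_of_le h6 h5
        rw [two_nsmul b] at h7
        have := add_lt_add_right h7 (b + b)
        rwa [show b + b + -b = b by abel, show b + b + (2 • (v.val ^ i) b - (b + b)) =
          2 • (v.val ^ i) b by abel] at this
      have hsum : ∀ m : ℕ, (v.val ^ m) x = x - ∑ i ∈ range m, (v.val ^ i) b := by
        intro m
        induction m with
        | zero => simp
        | succ m ihm =>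
          rw [Finset.sum_range_succ, ← sub_sub, ← ihm, pow_succ]
          show (v.val ^ m) (v.val x) = (v.val ^ m) x - (v.val ^ m) b
          rw [← map_sub, hbdef]
          congr 1
          abel
      have h8 : 0 < (v.val ^ (2 * c + 1)) x := by
        have := hpow (2 * c + 1) x hx
        rwa [Units.val_pow_eq_pow_val] at this
      rw [hsum] at h8
      have h9 : (2 * c + 1) • b ≤ 2 • ∑ i ∈ range (2 * c + 1), (v.val ^ i) b := by
        rw [Finset.smul_sum]
        have := Finset.card_nsmul_le_sum (range (2 * c + 1)) (fun i => 2 • (v.val ^ i) b) b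
          (fun i _ => (h2 i).le)
        rwa [Finset.card_range] at this
      have h10 : 2 • (∑ i ∈ range (2 * c + 1), (v.val ^ i) b) < 2 • x := by
        have := sub_pos.mp h8
        exact nsmul_lt_nsmul_right (by norm_num) this
      have h11 : 2 • x ≤ (2 * c) • b := by
        rw [mul_smul]
        exact nsmul_le_nsmul_right hc 2
      have h12 : (2 * c + 1) • b < (2 * c) • b := lt_of_le_of_lt h9 (lt_of_lt_of_le h10 h11)
      rw [add_smul, one_smul] at h12
      exact absurd (lt_add_of_pos_right ((2 * c) • b) hb0) (not_lt.mpr h12.le)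
    intro v hv hv' x hx h c
    rcases lt_trichotomy (v.val x - x) 0 with hb | hb | hb
    · exact neg v hv hv' x hx h hb c
    · rw [hb, abs_zero, smul_zero]
      exact hx
    · -- positive difference: pass to the inverse
      set b := v.val x - x with hbdef
      have hvi : ∀ y, v.val (v.inv y) = y := fun y => by
        have := v.val_inv
        exact congrArg (fun f : Module.End ℚ V => f y) this
      have hiv : ∀ y, v.inv (v.val y) = y := fun y => by
        have := v.inv_val
        exact congrArg (fun f : Module.End ℚ V => f y) this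
      have hcomm : Commute v.inv (v.val - 1) := by
        have h1 : Commute v.inv v.val := by
          show v.inv * v.val = v.val * v.inv
          rw [v.inv_val, v.val_inv]
        exact h1.sub_right (Commute.one_right _)
      have e1 : v⁻¹.val - 1 = (-v.inv) * (v.val - 1) := by
        show v.inv - 1 = _
        rw [mul_sub, neg_mul, v.inv_val]
        simp
        abel
      have h1 := neg v⁻¹ hv' hv x hx (by
        rw [e1, (show Commute (-v.inv) (v.val - 1) from hcomm.neg_left).mul_pow]
        show ((-v.inv) ^ (k + 1)) (((v.val - 1) ^ (k + 1)) x) = 0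
        rw [h, map_zero]) (by
        have : v⁻¹.val x - x = - v.inv b := by
          show v.inv x - x = - v.inv b
          rw [hbdef, map_sub, hiv]
          abel
        rw [this]
        exact neg_neg_of_pos (hv' b hb)) (2 * c)
      have e2 : |v⁻¹.val x - x| = v.inv b := by
        have : v⁻¹.val x - x = - v.inv b := by
          show v.inv x - x = - v.inv b
          rw [hbdef, map_sub, hiv]
          abel
        rw [this, abs_neg, abs_of_pos (hv' b hb)]
      rw [e2] at h1
      have h2 := ih v hv hv' (v.inv b) (hv' b hb) (by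
        have h3 : ((v.val - 1) ^ k) b = 0 := by
          rw [pow_succ] at h
          exact h
        have h4 : ((v.val - 1) ^ k) * v.inv = v.inv * (v.val - 1) ^ k :=
          (hcomm.pow_right k).symm
        have h5 := congrArg (fun f : Module.End ℚ V => f b) h4
        have h6 : ((v.val - 1) ^ k) (v.inv b) = v.inv (((v.val - 1) ^ k) b) := h5
        rw [h6, h3, map_zero]) 1
      rw [one_smul, hvi] at h2
      have h3 : b < 2 • v.inv b := by
        have := lt_of_le_of_lt (le_abs_self _) h2
        rw [two_nsmul]
        exact sub_lt_iff_lt_add.mp this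
      rw [abs_of_pos hb]
      rcases Nat.eq_zero_or_pos c with h0 | h0
      · subst h0
        rw [zero_smul]
        exact hx
      · calc c • b < c • (2 • v.inv b) := nsmul_lt_nsmul_right h0.ne' h3
          _ = (2 * c) • v.inv b := by rw [smul_smul, mul_comm]
          _ < x := h1

end Inf

section Small

variable {V : Type u} [AddCommGroup V] [LinearOrder V] [IsOrderedAddMonoid V] [Module ℚ V]
  [IsStrictOrderedModule ℚ V]

/-- endomorphisms with infinitesimal values -/
def Small (x : Module.End ℚ V) : Prop := ∀ a : V, 0 < a → ∀ c : ℕ, c • |x a| < a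

theorem Small.ne {x : Module.End ℚ V} (hx : Small x) {b : V} (hb : b ≠ 0) (c : ℕ) :
    c • |x b| < |b| := by
  rcases lt_or_gt_of_ne hb with h | h
  · have := hx (-b) (neg_pos.mpr h) c
    rwa [map_neg, abs_neg, ← abs_of_neg h] at this
  · have := hx b h c
    rwa [abs_of_pos h]

theorem Small.le {x : Module.End ℚ V} (hx : Small x) (b : V) (c : ℕ) :
    c • |x b| ≤ |b| := by
  by_cases hb : b = 0
  · subst hb
    simp
  · exact (hx.ne hb c).le

theorem Small.add {x y : Module.End ℚ V} (hx : Small x) (hy : Small y) : Small (x + y) := by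
  intro a ha c
  have h1 := hx a ha (2 * c)
  have h2 := hy a ha (2 * c)
  have h3 : c • |(x + y) a| ≤ c • |x a| + c • |y a| := by
    rw [← smul_add]
    exact nsmul_le_nsmul_right (abs_add_le _ _) c
  have h4 : 2 • (c • |x a| + c • |y a|) < 2 • a := by
    rw [smul_add, ← mul_smul, ← mul_smul, two_nsmul a]
    exact add_lt_add h1 h2
  exact lt_of_le_of_lt h3 (lt_of_nsmul_lt_nsmul_right 2 h4)

theorem Small.mul {x y : Module.End ℚ V} (hx : Small x) (hy : Small y) : Small (x * y) := by
  intro a ha c
  have h1 : c • |x (y a)| ≤ |y a| := hx.le _ _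
  have h2 := hy a ha 1
  rw [one_smul] at h2
  exact lt_of_le_of_lt h1 h2

theorem Small.smul {x : Module.End ℚ V} (hx : Small x) (q : ℚ) : Small (q • x) := by
  intro a ha c
  obtain ⟨m, hm⟩ := exists_nat_ge |q|
  have h1 := hx a ha (c * m)
  have h2 : |(q • x) a| ≤ m • |x a| := by
    rw [LinearMap.smul_apply, abs_smul, ← Nat.cast_smul_eq_nsmul ℚ]
    exact smul_le_smul_of_nonneg_right hm (abs_nonneg _)
  calc c • |(q • x) a| ≤ c • (m • |x a|) := nsmul_le_nsmul_right h2 c
    _ = (c * m) • |x a| := by rw [mul_smul]
    _ < a := h1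

theorem Small.pow {x : Module.End ℚ V} (hx : Small x) (n : ℕ) : Small (x ^ (n + 1)) := by
  induction n with
  | zero => rwa [zero_add, pow_one]
  | succ n ih =>
    rw [pow_succ]
    exact ih.mul hx

theorem Small.aeval {x : Module.End ℚ V} (hx : Small x) (g : Polynomial ℚ) :
    Small (Polynomial.aeval x (Polynomial.X * g)) := by
  induction g using Polynomial.induction_on' with
  | add p q hp hq =>
    rw [mul_add, map_add]
    exact hp.add hq
  | monomial n a =>
    rw [Polynomial.X_mul_monomial, Polynomial.aeval_monomial, Algebra.algebraMap_eq_smul_one,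
      smul_mul_assoc, one_mul]
    exact (hx.pow n).smul a

theorem Small.pos {x : Module.End ℚ V} (hx : Small x) {a : V} (ha : 0 < a) :
    0 < a + x a := by
  have h1 := hx a ha 1
  rw [one_smul] at h1
  have h2 : -|x a| ≤ x a := neg_abs_le _
  have h3 : a - |x a| ≤ a + x a := by
    rw [sub_eq_add_neg]
    exact add_le_add_right h2 a
  exact lt_of_lt_of_le (sub_pos.mpr h1) h3

end Small

/-- formal roots of `1 + X` -/
theorem exists_poly_root (n : ℕ) (hn : 0 < n) (k : ℕ) :
    ∃ f : Polynomial ℚ, f.coeff 0 = 1 ∧ Polynomial.X ^ (k + 1) ∣ f ^ n - (1 + Polynomial.X) := by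
  induction k with
  | zero =>
    refine ⟨1, by simp, ?_⟩
    rw [one_pow, zero_add, pow_one]
    exact ⟨-1, by ring⟩
  | succ k ih =>
    obtain ⟨f, hf, g, hg⟩ := ih
    obtain ⟨K, hK⟩ := Polynomial.powAddExpansion f
      (Polynomial.C (-(g.coeff 0) / n) * Polynomial.X ^ (k + 1)) n
    refine ⟨f + Polynomial.C (-(g.coeff 0) / n) * Polynomial.X ^ (k + 1), ?_, ?_⟩
    · simp [hf]
    · have h1 : (f + Polynomial.C (-(g.coeff 0) / n) * Polynomial.X ^ (k + 1)) ^ n -
          (1 + Polynomial.X) = Polynomial.X ^ (k + 1) * (g + (n : Polynomial ℚ) * f ^ (n - 1) *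
            Polynomial.C (-(g.coeff 0) / n) +
            K * Polynomial.C (-(g.coeff 0) / n) ^ 2 * Polynomial.X ^ (k + 1)) := by
        rw [hK]
        have h2 : f ^ n = 1 + Polynomial.X + Polynomial.X ^ (k + 1) * g := by
          rw [← hg]
          ring
        rw [h2]
        ring
      rw [h1, pow_succ Polynomial.X (k + 1)]
      apply mul_dvd_mul_left
      rw [Polynomial.X_dvd_iff]
      have hn' : (n : ℚ) ≠ 0 := by exact_mod_cast hn.ne'
      simp [Polynomial.coeff_zero_eq_eval_zero] at hf ⊢
      rw [hf]
      field_simp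
      simp

end Pool.H8
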