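import Pool.Agent.H8.Od10

set_option autoImplicit false
set_option backward.isDefEq.respectTransparency.types true
set_option linter.unusedSectionVars false

/-! Stability groups of filtrations and extension of homomorphisms. -/

namespace Pool.H8

open Finset
open scoped commutatorElement

universe u v w

section Stab

variable {V : Type u} [AddCommGroup V] [Module ℚ V] (F : ℕ → Submodule ℚ V)

/-- endomorphisms stabilizing the filtration with a shift -/
def Gd (i : ℕ) (x : Module.End ℚ V) : Prop :=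
  (∀ j, ∀ v ∈ F j, x v ∈ F j) ∧ ∀ j, ∀ v ∈ F (j + i + 1), x v - v ∈ F j

variable {F}

theorem Gd.mul {i : ℕ} {x y : Module.End ℚ V} (hx : Gd F i x) (hy : Gd F i y) :
    Gd F i (x * y) := by
  refine ⟨fun j v hv => hx.1 j _ (hy.1 j v hv), ?_⟩
  intro j v hv
  have h1 : x (y v - v) ∈ F j := hx.1 j _ (hy.2 j v hv)
  have h2 := hx.2 j v hv
  have h3 : (x * y) v - v = x (y v - v) + (x v - v) := by
    rw [map_sub]
    show x (y v) - v = _
    abel
  rw [h3]
  exact (F j).add_mem h1 h2

theorem Gd.one {i : ℕ} : Gd F i (1 : Module.End ℚ V) := by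
  refine ⟨fun j v hv => hv, ?_⟩
  intro j v _
  show v - v ∈ F j
  rw [sub_self]
  exact (F j).zero_mem

theorem Gd.pow {i : ℕ} {x : Module.End ℚ V} (hx : Gd F i x) (n : ℕ) : Gd F i (x ^ n) := by
  induction n with
  | zero =>
    rw [pow_zero]
    exact Gd.one
  | succ n ih =>
    rw [pow_succ]
    exact ih.mul hx

variable (F)

/-- the stability subgroups -/
def Dg (i : ℕ) : Subgroup (Module.End ℚ V)ˣ where
  carrier := {u | Gd F i u.val ∧ Gd F i u.inv}
  one_mem' := ⟨Gd.one, Gd.one⟩
  mul_mem' := by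
    rintro a b ⟨ha, ha'⟩ ⟨hb, hb'⟩
    exact ⟨ha.mul hb, hb'.mul ha'⟩
  inv_mem' := by
    rintro a ⟨ha, ha'⟩
    exact ⟨ha', ha⟩

variable {F}

theorem Dg_comm {i : ℕ} {a b : (Module.End ℚ V)ˣ} (ha : a ∈ Dg F i) (ha0 : a ∈ Dg F 0)
    (hb : b ∈ Dg F 0) : ⁅a, b⁆ ∈ Dg F (i + 1) := by
  have key : ∀ {i : ℕ} {a b : (Module.End ℚ V)ˣ}, a ∈ Dg F i → a ∈ Dg F 0 → b ∈ Dg F 0 →
      ∀ j, ∀ v ∈ F (j + (i + 1) + 1), a.val (b.val (a.inv (b.inv v))) - v ∈ F j ∧
        b.val (a.val (b.inv (a.inv v))) - v ∈ F j := by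
    intro i a b ha ha0 hb j v hv
    have hai : ∀ y, a.val (a.inv y) = y := fun y => congrArg (fun f : Module.End ℚ V => f y) a.val_inv
    have hbi : ∀ y, b.val (b.inv y) = y := fun y => congrArg (fun f : Module.End ℚ V => f y) b.val_inv
    -- the commutator of the endomorphisms
    have h1 : ∀ y ∈ F (j + (i + 1) + 1), a.val (b.val y) - b.val (a.val y) ∈ F j := by
      intro y hy
      have e1 : a.val (b.val y) - b.val (a.val y) =
          (a.val (b.val y - y) - (b.val y - y)) - (b.val (a.val y - y) - (a.val y - y)) := by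
        rw [map_sub, map_sub]
        abel
      rw [e1]
      apply (F j).sub_mem
      · apply ha.1.2 j
        have := hb.1.2 (j + (i + 1)) y hy
        rwa [← add_assoc] at this
      · apply hb.1.2 j
        have := ha.1.2 (j + 1) y (by
          rwa [show j + 1 + i + 1 = j + (i + 1) + 1 by omega])
        exact this
    constructor
    · have hy : a.inv (b.inv v) ∈ F (j + (i + 1) + 1) := ha.2.1 _ _ (hb.2.1 _ _ hv)
      have := h1 _ hy
      rwa [hai, hbi] at this
    · have hy : b.inv (a.inv v) ∈ F (j + (i + 1) + 1) := hb.2.1 _ _ (ha.2.1 _ _ hv)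
      have := (F j).neg_mem (h1 _ hy)
      rwa [neg_sub, hbi, hai] at this
  refine ⟨⟨?_, ?_⟩, ⟨?_, ?_⟩⟩
  · intro j v hv
    exact ha0.1.1 j _ (hb.1.1 j _ (ha0.2.1 j _ (hb.2.1 j _ hv)))
  · intro j v hv
    exact (key ha ha0 hb j v hv).1
  · intro j v hv
    exact hb.1.1 j _ (ha0.1.1 j _ (hb.2.1 j _ (ha0.2.1 j _ hv)))
  · intro j v hv
    exact (key ha ha0 hb j v hv).2

theorem lcs_Dg (i : ℕ) : (Dg F 0).lowerCentralSeries i ≤ Dg F i := by
  induction i with
  | zero => exact le_rfl
  | succ i ih =>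
    rw [Subgroup.lowerCentralSeries_succ, Subgroup.commutator_le]
    intro a ha b hb
    have ha0 : a ∈ Dg F 0 := Subgroup.lowerCentralSeries_le_self _ i ha
    exact Dg_comm (ih ha) ha0 hb

theorem Dg_nil {k : ℕ} (hF0 : F 0 = ⊥) (hFk : ∀ j, k ≤ j → F j = ⊤) : NilC k (Dg F 0) := by
  unfold NilC
  rw [eq_bot_iff]
  intro x hx
  rw [Subgroup.mem_bot]
  have h1 : (x : (Module.End ℚ V)ˣ) ∈ (Dg F 0).lowerCentralSeries k := by
    rw [← Subgroup.top_subtype_lowerCentralSeries]
    exact Subgroup.mem_map_of_mem _ hx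
  have h2 := lcs_Dg k h1
  apply Subtype.ext
  apply Units.ext
  apply LinearMap.ext
  intro v
  have h3 := h2.1.2 0 v (by rw [hFk _ (by omega)]; trivial)
  rw [hF0, Submodule.mem_bot] at h3
  exact sub_eq_zero.mp h3

theorem aeval_inv {N : Module.End ℚ V} (hN : ∀ j, ∀ v ∈ F j, N v ∈ F j) (g : Polynomial ℚ) :
    ∀ j, ∀ v ∈ F j, (Polynomial.aeval N g) v ∈ F j := by
  induction g using Polynomial.induction_on' with
  | add p q hp hq =>
    intro j v hv
    rw [map_add]
    exact (F j).add_mem (hp j v hv) (hq j v hv)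
  | monomial n a =>
    intro j v hv
    rw [Polynomial.aeval_monomial, Algebra.algebraMap_eq_smul_one, smul_mul_assoc, one_mul]
    have h1 : ∀ n : ℕ, (N ^ n) v ∈ F j := by
      intro n
      induction n with
      | zero => exact hv
      | succ n ih =>
        rw [pow_succ']
        exact hN j _ ih
    exact (F j).smul_mem a (h1 n)

theorem nil_pow {N : Module.End ℚ V} (hF0 : F 0 = ⊥) {k : ℕ} (hFk : F k = ⊤)
    (hN : ∀ j, ∀ v ∈ F (j + 1), N v ∈ F j) : N ^ k = 0 := by
  have h1 : ∀ n j, ∀ v ∈ F (j + n), (N ^ n) v ∈ F j := by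
    intro n
    induction n with
    | zero => intro j v hv; exact hv
    | succ n ih =>
      intro j v hv
      rw [pow_succ]
      exact ih j _ (hN (j + n) v hv)
  apply LinearMap.ext
  intro v
  have h2 := h1 k 0 v (by rw [zero_add, hFk]; trivial)
  rw [hF0, Submodule.mem_bot] at h2
  exact h2

/-- existence of roots in the stability group, as polynomials -/
theorem Dg_root {k : ℕ} (hF0 : F 0 = ⊥) (hFk : F k = ⊤)
    {n : ℕ} (hn : 0 < n) {u : (Module.End ℚ V)ˣ} (hu : u ∈ Dg F 0) :
    ∃ w ∈ Dg F 0, w ^ n = u ∧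
      ∃ g : Polynomial ℚ, w.val = 1 + Polynomial.aeval (u.val - 1) (Polynomial.X * g) := by
  obtain ⟨f, hf0, h, hh⟩ := exists_poly_root n hn k
  set N := u.val - 1 with hNdef
  have hN : ∀ j, ∀ v ∈ F (j + 1), N v ∈ F j := by
    intro j v hv
    exact hu.1.2 j v hv
  have hN' : ∀ j, ∀ v ∈ F j, N v ∈ F j := by
    intro j v hv
    exact (F j).sub_mem (hu.1.1 j v hv) hv
  have hNk : N ^ (k + 1) = 0 := by
    rw [pow_succ', nil_pow hF0 hFk hN, mul_zero]
  obtain ⟨g, hg⟩ : Polynomial.X ∣ f - 1 := by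
    rw [Polynomial.X_dvd_iff]
    simp [hf0]
  have hfg : f = 1 + Polynomial.X * g := by
    rw [← hg]
    ring
  set w := Polynomial.aeval N f with hw
  have hwn : w ^ n = u.val := by
    rw [hw, ← map_pow]
    have h1 : f ^ n = 1 + Polynomial.X + Polynomial.X ^ (k + 1) * h := by
      rw [← hh]
      ring
    rw [h1, map_add, map_add, map_mul, map_pow, Polynomial.aeval_X, map_one, hNk, zero_mul,
      add_zero, hNdef]
    abel
  have hwc : Commute w u.val := by
    have h1 : Commute w N := by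
      have e1 : w * N = Polynomial.aeval N (f * Polynomial.X) := by
        rw [map_mul, Polynomial.aeval_X]
      have e2 : N * w = Polynomial.aeval N (Polynomial.X * f) := by
        rw [map_mul, Polynomial.aeval_X]
      show w * N = N * w
      rw [e1, e2, mul_comm]
    have h2 : u.val = N + 1 := by rw [hNdef]; abel
    rw [h2]
    exact h1.add_right (Commute.one_right _)
  have hwc' : Commute w u.inv := by
    show w * u.inv = u.inv * w
    have h1 : u.inv * (w * u.val) * u.inv = u.inv * (u.val * w) * u.inv := by rw [hwc.eq]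
    have h2 : u.inv * (w * u.val) * u.inv = u.inv * w := by
      rw [mul_assoc, mul_assoc, u.val_inv, mul_one]
    have h3 : u.inv * (u.val * w) * u.inv = w * u.inv := by
      rw [← mul_assoc, u.inv_val, one_mul]
    rw [← h2, h1, h3]
  have hwg : Gd F 0 w := by
    constructor
    · exact aeval_inv hN' f
    · intro j v hv
      have h1 : w v - v = N ((Polynomial.aeval N g) v) := by
        rw [hw, hfg, map_add, map_one, map_mul, Polynomial.aeval_X]
        show v + N ((Polynomial.aeval N g) v) - v = _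
        abel
      rw [h1]
      exact hN j _ (aeval_inv hN' g _ _ hv)
  have hwn1 : w ^ (n - 1) * w = u.val := by
    rw [← pow_succ, Nat.sub_add_cancel hn, hwn]
  let w' : (Module.End ℚ V)ˣ :=
    { val := w
      inv := w ^ (n - 1) * u.inv
      val_inv := by
        rw [← mul_assoc, ← pow_succ', Nat.sub_add_cancel hn, hwn, u.val_inv]
      inv_val := by
        rw [mul_assoc, ← hwc'.eq, ← mul_assoc, hwn1, u.val_inv] }
  refine ⟨w', ⟨hwg, (hwg.pow _).mul hu.2⟩, ?_, g, ?_⟩
  · apply Units.ext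
    rw [Units.val_pow_eq_pow_val]
    exact hwn
  · show w = _
    rw [hw, hfg, map_add, map_one]

/-- uniqueness of roots in the stability group -/
theorem Dg_root_unique {k : ℕ} (hF0 : F 0 = ⊥) (hFk : ∀ j, k ≤ j → F j = ⊤)
    {n : ℕ} (hn : 0 < n) {u w : (Module.End ℚ V)ˣ} (hu : u ∈ Dg F 0) (hw : w ∈ Dg F 0)
    (huw : u ^ n = w ^ n) : u = w := by
  have hpu : ∀ a : ℕ, Gd F 0 (u.val ^ a) := fun a => hu.1.pow a
  have hpw : ∀ a : ℕ, Gd F 0 (w.val ^ a) := fun a => hw.1.pow a
  have key : ∀ i j, ∀ v ∈ F (j + i + 1), (u.val - w.val) v ∈ F j := by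
    intro i
    induction i with
    | zero =>
      intro j v hv
      have h1 := (F j).sub_mem (hu.1.2 j v hv) (hw.1.2 j v hv)
      have h2 : u.val v - v - (w.val v - v) = (u.val - w.val) v := by
        rw [LinearMap.sub_apply]
        abel
      rwa [h2] at h1
    | succ i ih =>
      intro j v hv
      set d := u.val - w.val with hd
      have hpre : ∀ n : ℕ, (u.val ^ n - w.val ^ n) v ∈ F (j + 1) := by
        intro n
        induction n with
        | zero => simp
        | succ n ihn =>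
          have e2 : u.val ^ (n + 1) - w.val ^ (n + 1) =
              u.val * (u.val ^ n - w.val ^ n) + d * w.val ^ n := by
            rw [hd, pow_succ' u.val, pow_succ' w.val]
            noncomm_ring
          rw [e2, LinearMap.add_apply]
          refine (F (j + 1)).add_mem (hu.1.1 _ _ ihn) ?_
          apply ih (j + 1)
          rw [show j + 1 + i + 1 = j + (i + 1) + 1 by omega]
          exact (hpw n).1 _ _ hv
      -- telescoping
      have htel : ∀ n : ℕ, (u.val ^ n - w.val ^ n) v - (n : ℚ) • d v ∈ F j := by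
        intro n
        induction n with
        | zero => simp
        | succ n ihn =>
          have e1 : (u.val ^ (n + 1) - w.val ^ (n + 1)) v - ((n + 1 : ℕ) : ℚ) • d v =
              (u.val ((u.val ^ n - w.val ^ n) v) - (u.val ^ n - w.val ^ n) v) +
              (d ((w.val ^ n) v - v)) +
              ((u.val ^ n - w.val ^ n) v - (n : ℚ) • d v) := by
            have e2 : u.val ^ (n + 1) - w.val ^ (n + 1) =
                u.val * (u.val ^ n - w.val ^ n) + d * w.val ^ n := by
              rw [hd, pow_succ' u.val, pow_succ' w.val]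
              noncomm_ring
            rw [e2, LinearMap.add_apply]
            show u.val ((u.val ^ n - w.val ^ n) v) + d ((w.val ^ n) v) - ((n + 1 : ℕ) : ℚ) • d v = _
            rw [map_sub d, Nat.cast_succ, add_smul, one_smul]
            abel
          rw [e1]
          have hv' : v ∈ F (j + i + 1 + 0 + 1) := by
            rwa [show j + i + 1 + 0 + 1 = j + (i + 1) + 1 by omega]
          have h2 := (hpw n).2 (j + i + 1) v hv'
          refine (F j).add_mem ((F j).add_mem ?_ ?_) ihn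
          · exact hu.1.2 j _ (hpre n)
          · exact ih j _ h2
      have h1 := htel n
      have h2 : u.val ^ n - w.val ^ n = 0 := by
        rw [← Units.val_pow_eq_pow_val, ← Units.val_pow_eq_pow_val, huw, sub_self]
      rw [h2, LinearMap.zero_apply, zero_sub] at h1
      have h3 := (F j).neg_mem h1
      rw [neg_neg] at h3
      have h4 := (F j).smul_mem ((n : ℚ)⁻¹) h3
      rwa [smul_smul, inv_mul_cancel₀ (by exact_mod_cast hn.ne'), one_smul] at h4
  apply Units.ext
  apply LinearMap.ext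
  intro v
  have h1 := key k 0 v (by rw [hFk _ (by omega)]; trivial)
  rw [hF0, Submodule.mem_bot, LinearMap.sub_apply] at h1
  exact sub_eq_zero.mp h1

theorem Dg_UD {k : ℕ} (hF0 : F 0 = ⊥) (hFk : ∀ j, k ≤ j → F j = ⊤) :
    UD (Dg F 0) := by
  intro n hn
  constructor
  · intro x y hxy
    have h1 : (x : (Module.End ℚ V)ˣ) ^ n = (y : (Module.End ℚ V)ˣ) ^ n :=
      congrArg Subtype.val hxy
    exact Subtype.ext (Dg_root_unique hF0 hFk hn x.2 y.2 h1)
  · intro x
    obtain ⟨w, hw, h1, _⟩ := Dg_root hF0 (hFk k le_rfl) hn x.2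
    exact ⟨⟨w, hw⟩, Subtype.ext h1⟩

end Stab

section Ext

/-- extension of homomorphisms into uniquely divisible nilpotent groups to isolators -/
theorem exists_ext {H : Type u} {B : Type v} {T : Type w} [Group H] [Group B] [Group T] {c : ℕ}
    (hH : NilC c H) (hB : NilC c B) (hUD : UD B) (ι : T →* H) (ρ : T →* B)
    (hker : ∀ t, ι t = 1 → ρ t = 1)
    (hT : ∀ h : H, ∃ n : ℕ, 0 < n ∧ ∃ t, ι t = h ^ n) :
    ∃ ρ' : H →* B, ∀ t : T, ρ' (ι t) = ρ t := by
  let Γ : Subgroup (H × B) := (ι.prod ρ).range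
  have hΓ : ∀ x : H × B, x ∈ Γ ↔ ∃ t : T, ι t = x.1 ∧ ρ t = x.2 := by
    intro x
    constructor
    · rintro ⟨t, rfl⟩
      exact ⟨t, rfl, rfl⟩
    · rintro ⟨t, h1, h2⟩
      exact ⟨t, Prod.ext h1 h2⟩
  let I := isol (hH.prod hB) Γ
  have hI : ∀ x, x ∈ I ↔ ∃ n : ℕ, 0 < n ∧ x ^ n ∈ Γ := fun x => mem_isol _ _ x
  have huniq : ∀ (h : H) (a b : B), (h, a) ∈ I → (h, b) ∈ I → a = b := by
    intro h a b ha hb
    have h1 : ((1 : H), a⁻¹ * b) ∈ I := by
      have := I.mul_mem (I.inv_mem ha) hb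
      have e : (h, a)⁻¹ * (h, b) = ((1 : H), a⁻¹ * b) := by
        rw [Prod.inv_mk, Prod.mk_mul_mk, inv_mul_cancel]
      rwa [e] at this
    obtain ⟨n, hn, h2⟩ := (hI _).mp h1
    obtain ⟨t, h3, h4⟩ := (hΓ _).mp h2
    rw [Prod.pow_fst, one_pow] at h3
    rw [hker t h3, Prod.pow_snd] at h4
    have h6 : (a⁻¹ * b) ^ n = 1 ^ n := by
      rw [one_pow]
      exact h4.symm
    exact inv_mul_eq_one.mp (hUD.pow_inj hn h6)
  have hex : ∀ h : H, ∃ b : B, (h, b) ∈ I := by
    intro h
    obtain ⟨n, hn, t, ht⟩ := hT h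
    obtain ⟨b, hb⟩ := hUD.exists_root hn (ρ t)
    refine ⟨b, (hI _).mpr ⟨n, hn, (hΓ _).mpr ⟨t, ?_, ?_⟩⟩⟩
    · rw [Prod.pow_fst, ht]
    · rw [Prod.pow_snd, hb]
  choose f hf using hex
  refine ⟨MonoidHom.mk' f ?_, ?_⟩
  · intro a b
    exact huniq (a * b) _ _ (hf (a * b)) (I.mul_mem (hf a) (hf b))
  · intro t
    refine huniq _ _ _ (hf (ι t)) ?_
    exact le_isol _ _ ((hΓ _).mpr ⟨t, rfl, rfl⟩)

end Ext

end Pool.H8
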