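import Pool.Agent.H8.Od11

set_option autoImplicit false
set_option backward.isDefEq.respectTransparency.types true
set_option linter.unusedSectionVars false

/-! The divisible hull of an ordered module and the unipotent subgroup. -/

namespace Pool.H8

open Finset
open scoped commutatorElement

universe u v w

section Hull

variable {S : Type u} {A : Type v} [Group S] [AddCommGroup A] [LinearOrder A]
  [IsOrderedAddMonoid A] [DistribMulAction S A]

/-- the action on the divisible hull -/
noncomputable instance hullAct : DistribMulAction S (DivisibleHull A) where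
  smul s v := DivisibleHull.liftOn v (fun m k => DivisibleHull.mk (s • m) k) (by
    intro m m' k k' h
    rw [DivisibleHull.mk_eq_mk_iff_smul_eq_smul] at h ⊢
    rw [← smul_comm s, h, smul_comm s])
  one_smul v := by
    induction v with | mk m k
    show DivisibleHull.mk ((1 : S) • m) k = _
    rw [one_smul]
  mul_smul s t v := by
    induction v with | mk m k
    show DivisibleHull.mk ((s * t) • m) k = DivisibleHull.mk (s • t • m) k
    rw [mul_smul]
  smul_zero s := by
    rw [← DivisibleHull.mk_zero 1]
    show DivisibleHull.mk (s • (0 : A)) 1 = _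
    rw [smul_zero]
  smul_add s v w := by
    induction v with | mk m k
    induction w with | mk m' k'
    rw [DivisibleHull.mk_add_mk]
    show DivisibleHull.mk (s • (k'.val • m + k.val • m')) (k * k') =
      DivisibleHull.mk (s • m) k + DivisibleHull.mk (s • m') k'
    rw [DivisibleHull.mk_add_mk, smul_add, smul_comm s, smul_comm s]

theorem hull_smul_mk (s : S) (m : A) (k : ℕ+) :
    s • (DivisibleHull.mk m k) = DivisibleHull.mk (s • m) k := rfl

theorem hull_mk_pos (m : A) (k : ℕ+) : 0 < DivisibleHull.mk m k ↔ 0 < m := by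
  rw [← DivisibleHull.mk_zero 1, DivisibleHull.mk_lt_mk]
  simp

theorem hull_pos (hS : ∀ (s : S) (a : A), 0 < a → 0 < s • a) (s : S) (v : DivisibleHull A)
    (hv : 0 < v) : 0 < s • v := by
  induction v with | mk m k
  rw [hull_smul_mk, hull_mk_pos]
  exact hS s m ((hull_mk_pos m k).mp hv)

end Hull

section Sig

variable (S : Type u) (V : Type v) [Group S] [AddCommGroup V] [Module ℚ V] [DistribMulAction S V]

/-- the representation on a rational vector space -/
noncomputable def sig : S →* (Module.End ℚ V)ˣ :=
  MonoidHom.toHomUnits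
    { toFun := fun s => (DistribSMul.toAddMonoidHom V s).toRatLinearMap
      map_one' := by
        ext v
        exact one_smul _ v
      map_mul' := by
        intro s t
        ext v
        exact mul_smul s t v }

variable {S V}

theorem sig_apply (s : S) (v : V) : (sig S V s).val v = s • v := rfl

theorem sig_inv (s : S) (v : V) : (sig S V s).inv v = s⁻¹ • v := by
  have h1 : (sig S V s).inv = (sig S V s⁻¹).val := by
    rw [map_inv]
    rfl
  rw [h1, sig_apply]

theorem smul_rat (s : S) (q : ℚ) (v : V) : s • (q • v) = q • (s • v) := by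
  rw [← sig_apply, map_smul, sig_apply]

/-- the upper fixed point series of a subgroup -/
def UF (H : Subgroup S) : ℕ → Submodule ℚ V
  | 0 => ⊥
  | i + 1 =>
    { carrier := {v | ∀ h ∈ H, h • v - v ∈ UF H i}
      zero_mem' := by
        intro h _
        rw [smul_zero, sub_zero]
        exact (UF H i).zero_mem
      add_mem' := by
        intro a b ha hb h hh
        rw [smul_add, show h • a + h • b - (a + b) = (h • a - a) + (h • b - b) by abel]
        exact (UF H i).add_mem (ha h hh) (hb h hh)
      smul_mem' := by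
        intro q a ha h hh
        rw [smul_rat, ← smul_sub]
        exact (UF H i).smul_mem q (ha h hh) }

theorem mem_UF_succ (H : Subgroup S) (i : ℕ) (v : V) :
    v ∈ UF H (i + 1) ↔ ∀ h ∈ H, h • v - v ∈ UF (V := V) H i := Iff.rfl

theorem UF_zero (H : Subgroup S) : UF (V := V) H 0 = ⊥ := rfl

theorem UF_step (H : Subgroup S) (i : ℕ) : UF (V := V) H i ≤ UF H (i + 1) := by
  induction i with
  | zero => exact bot_le
  | succ i ih =>
    intro v hv h hh
    exact ih (hv h hh)

theorem UF_mono (H : Subgroup S) : Monotone (UF (V := V) H) := monotone_nat_of_le_succ (UF_step H)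

theorem UF_top (H : Subgroup S) {k : ℕ} (hk : UF (V := V) H k = ⊤) (j : ℕ) (hj : k ≤ j) :
    UF (V := V) H j = ⊤ := by
  rw [eq_top_iff, ← hk]
  exact UF_mono H hj

theorem UF_smul (H : Subgroup S) (hH : H.Normal) (s : S) (i : ℕ) :
    ∀ v ∈ UF (V := V) H i, s • v ∈ UF (V := V) H i := by
  induction i with
  | zero =>
    intro v hv
    rw [UF_zero, Submodule.mem_bot] at hv ⊢
    rw [hv, smul_zero]
  | succ i ih =>
    intro v hv h hh
    have h1 : s⁻¹ * h * s ∈ H := by
      have := hH.conj_mem h hh s⁻¹
      rwa [inv_inv] at this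
    have h2 := ih _ (hv _ h1)
    rwa [smul_sub, smul_smul, show s * (s⁻¹ * h * s) = h * s by group, mul_smul] at h2

/-- the largest subgroup acting unipotently along the series -/
noncomputable def TT (V : Type v) [AddCommGroup V] [Module ℚ V] [DistribMulAction S V]
    (H : Subgroup S) : Subgroup S := (Dg (UF (V := V) H) 0).comap (sig S V)

theorem mem_TT (H : Subgroup S) (s : S) :
    s ∈ TT V H ↔ sig S V s ∈ Dg (UF (V := V) H) 0 := Iff.rfl

theorem le_TT (H : Subgroup S) (hH : H.Normal) : H ≤ TT V H := by
  intro h hh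
  rw [mem_TT]
  refine ⟨⟨?_, ?_⟩, ⟨?_, ?_⟩⟩
  · intro j v hv
    exact UF_smul H hH h j v hv
  · intro j v hv
    exact hv h hh
  · intro j v hv
    rw [sig_inv]
    exact UF_smul H hH _ j v hv
  · intro j v hv
    rw [sig_inv]
    exact hv _ (H.inv_mem hh)

end Sig

section Isol

variable {S : Type u} {V : Type v} [Group S] [AddCommGroup V] [LinearOrder V]
  [IsOrderedAddMonoid V] [Module ℚ V] [IsStrictOrderedModule ℚ V] [DistribMulAction S V]

theorem eq_of_pow_eq {x y : Module.End ℚ V} (hxy : Commute x y)
    (hx : ∀ v, 0 < v → 0 < x v) (hy : ∀ v, 0 < v → 0 < y v) {n : ℕ} (hn : 0 < n)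
    (h : x ^ n = y ^ n) : x = y := by
  have mono : ∀ {x : Module.End ℚ V}, (∀ v, 0 < v → 0 < x v) → ∀ a b, a < b → x a < x b := by
    intro x hx a b hab
    have := hx (b - a) (sub_pos.mpr hab)
    rw [map_sub] at this
    exact sub_pos.mp this
  have posp : ∀ {x : Module.End ℚ V}, (∀ v, 0 < v → 0 < x v) → ∀ j : ℕ, ∀ v, 0 < v →
      0 < (x ^ j) v := by
    intro x hx j
    induction j with
    | zero => intro v hv; exact hv
    | succ j ih =>
      intro v hv
      rw [pow_succ]
      exact ih _ (hx v hv)
  have key : ∀ {x y : Module.End ℚ V}, Commute x y → (∀ v, 0 < v → 0 < x v) →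
      (∀ v, 0 < v → 0 < y v) → ∀ v, x v < y v → ∀ j : ℕ, (x ^ (j + 1)) v < (y ^ (j + 1)) v := by
    intro x y hxy hx hy v hv j
    induction j with
    | zero =>
      rw [zero_add, pow_one, pow_one]
      exact hv
    | succ j ih =>
      rw [pow_succ' x, pow_succ y]
      have h1 : x ((x ^ (j + 1)) v) < x ((y ^ (j + 1)) v) := mono hx _ _ ih
      have h2 : x ((y ^ (j + 1)) v) = (y ^ (j + 1)) (x v) := by
        have := (hxy.pow_right (j + 1)).eq
        exact congrArg (fun f : Module.End ℚ V => f v) this
      have h3 : (y ^ (j + 1)) (x v) < (y ^ (j + 1)) (y v) := mono (posp hy (j + 1)) _ _ hv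
      exact (h1.trans_eq h2).trans h3
  obtain ⟨m, rfl⟩ : ∃ m, n = m + 1 := ⟨n - 1, by omega⟩
  apply LinearMap.ext
  intro v
  rcases lt_trichotomy (x v) (y v) with h1 | h1 | h1
  · have := key hxy hx hy v h1 m
    rw [h] at this
    exact absurd this (lt_irrefl _)
  · exact h1
  · have := key hxy.symm hy hx v h1 m
    rw [h] at this
    exact absurd this (lt_irrefl _)

theorem comm_aeval {x N : Module.End ℚ V} (h : Commute x N) (p : Polynomial ℚ) :
    Commute x (Polynomial.aeval N p) := by
  induction p using Polynomial.induction_on' with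
  | add p q hp hq =>
    rw [map_add]
    exact hp.add_right hq
  | monomial n a =>
    rw [Polynomial.aeval_monomial]
    exact (show Commute x (algebraMap ℚ (Module.End ℚ V) a) from
      (Algebra.commutes a x).symm).mul_right (h.pow_right n)

theorem small_of_mem {H : Subgroup S} (hS : ∀ (s : S) (a : V), 0 < a → 0 < s • a) {k : ℕ}
    (hk : UF (V := V) H k = ⊤) {s : S} (hs : s ∈ TT V H) : Small ((sig S V s).val - 1) := by
  intro a ha c
  have h1 := inf_aux k (sig S V s) (fun x hx => hS s x hx)
    (fun x hx => by rw [sig_inv]; exact hS _ x hx) a ha (by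
      rw [nil_pow (F := UF (V := V) H) rfl hk]
      · rfl
      · intro j v hv
        exact hs.1.2 j v hv) c
  exact h1

theorem small_root {H : Subgroup S} (hS : ∀ (s : S) (a : V), 0 < a → 0 < s • a) {k : ℕ}
    (hk : UF (V := V) H k = ⊤) {s : S} (hs : s ∈ TT V H) {n : ℕ} (hn : 0 < n)
    {w : (Module.End ℚ V)ˣ} (hw : w ∈ Dg (UF (V := V) H) 0) (hwn : w ^ n = sig S V s) :
    Small (w.val - 1) := by
  obtain ⟨w', hw', hwn', g, hg⟩ := Dg_root (F := UF (V := V) H) rfl hk hn hs
  have : w = w' := Dg_root_unique rfl (UF_top H hk) hn hw hw' (by rw [hwn, hwn'])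
  rw [this, hg, add_sub_cancel_left]
  exact (small_of_mem hS hk hs).aeval g

theorem TT_isol {H : Subgroup S} (hS : ∀ (s : S) (a : V), 0 < a → 0 < s • a) {k : ℕ}
    (hk : UF (V := V) H k = ⊤) {s : S} {n : ℕ} (hn : 0 < n) (hs : s ^ n ∈ TT V H) :
    s ∈ TT V H := by
  obtain ⟨w, hw, hwn, g, hg⟩ := Dg_root (F := UF (V := V) H) rfl hk hn hs
  have hsm := small_root hS hk hs hn hw hwn
  have h1 : (sig S V s).val = w.val := by
    refine eq_of_pow_eq (n := n) ?_ (fun v hv => hS s v hv) ?_ hn ?_
    · rw [hg]
      refine (Commute.one_right _).add_right (comm_aeval ?_ _)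
      refine Commute.sub_right ?_ (Commute.one_right _)
      rw [map_pow, Units.val_pow_eq_pow_val]
      exact (Commute.refl _).pow_right n
    · intro v hv
      have := hsm.pos hv
      rwa [show v + (w.val - 1) v = w.val v by
        rw [LinearMap.sub_apply]
        show v + (w.val v - v) = w.val v
        abel] at this
    · rw [← Units.val_pow_eq_pow_val, ← Units.val_pow_eq_pow_val, hwn, map_pow]
  rw [mem_TT]
  rwa [show sig S V s = w from Units.ext h1]

end Isol

end Pool.H8
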