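import Pool.Agent.H8.Od8

set_option autoImplicit false
set_option backward.isDefEq.respectTransparency.types true
set_option linter.unusedSectionVars false

/-! Ordered quotients of unipotent modules. -/

namespace Pool.H8

open Finset
open scoped commutatorElement

universe u v w

section Zorn

variable {Q : Type u} {W : Type v} [Group Q] [CommGroup W] {τ : Q →* W}
  {M : Type w} [AddCommGroup M] [DistribMulAction Q M]

theorem exists_total (T0 : AddSubmonoid M)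
    (hT0 : ∀ m ∈ T0, -m ∈ T0 → m = 0)
    (hP : ∀ r, P1 τ r → ∀ m ∈ T0, ract Q M r m ∈ T0)
    (hinj : ∀ r, P1 τ r → ∀ m ∈ T0, ract Q M r m = 0 → m = 0)
    (hore : ∀ r s, P1 τ r → P1 τ s → ∃ r' s' : MonoidAlgebra ℤ Q, P1 τ r' ∧ P1 τ s' ∧
      ∀ m : M, ract Q M r' (ract Q M s m) = ract Q M s' (ract Q M r m)) :
    ∃ T : AddSubmonoid M, T0 ≤ T ∧ (∀ r, P1 τ r → ∀ m ∈ T, ract Q M r m ∈ T) ∧
      (∀ m ∈ T, -m ∈ T0 → m = 0) ∧ ∀ m, m ∈ T ∨ -m ∈ T := by
  obtain ⟨T, hle, hT⟩ := zorn_le_nonempty₀ {T : AddSubmonoid M | T0 ≤ T ∧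
      (∀ r, P1 τ r → ∀ m ∈ T, ract Q M r m ∈ T) ∧ (∀ m ∈ T, -m ∈ T0 → m = 0)} (by
    intro c hc hch N0 hN0
    have hne : c.Nonempty := ⟨N0, hN0⟩
    have hmem : ∀ x, x ∈ sSup c ↔ ∃ s ∈ c, x ∈ s := fun x =>
      AddSubmonoid.mem_sSup_of_directedOn hne hch.directedOn
    refine ⟨sSup c, ⟨?_, ?_, ?_⟩, fun z hz => le_sSup hz⟩
    · intro x hx
      rw [hmem]
      exact ⟨N0, hN0, (hc hN0).1 hx⟩
    · intro r hr x hx
      rw [hmem] at hx ⊢
      obtain ⟨s, hs, hxs⟩ := hx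
      exact ⟨s, hs, (hc hs).2.1 r hr x hxs⟩
    · intro x hx hx0
      rw [hmem] at hx
      obtain ⟨s, hs, hxs⟩ := hx
      exact (hc hs).2.2 x hxs hx0) T0 ⟨le_rfl, hP, hT0⟩
  obtain ⟨h0, h1, h2⟩ := hT.prop
  refine ⟨T, h0, h1, h2, ?_⟩
  -- the key property of the maximal element
  have key : ∀ m : M, m ∉ T → ∃ r, P1 τ r ∧ ∃ t ∈ T, ∃ t₀ ∈ T0, t₀ ≠ 0 ∧
      ract Q M r m = -(t + t₀) := by
    intro m hm
    by_contra hcon
    push Not at hcon
    let T' : AddSubmonoid M :=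
      { carrier := {x | x ∈ T ∨ ∃ t ∈ T, ∃ r, P1 τ r ∧ x = t + ract Q M r m}
        zero_mem' := Or.inl T.zero_mem
        add_mem' := by
          rintro a b (ha | ⟨t, ht, r, hr, rfl⟩) (hb | ⟨t', ht', r', hr', rfl⟩)
          · exact Or.inl (T.add_mem ha hb)
          · exact Or.inr ⟨a + t', T.add_mem ha ht', r', hr', by abel⟩
          · exact Or.inr ⟨t + b, T.add_mem ht hb, r, hr, by abel⟩
          · refine Or.inr ⟨t + t', T.add_mem ht ht', r + r', P1.add hr hr', ?_⟩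
            rw [map_add]
            show t + ract Q M r m + (t' + ract Q M r' m) = t + t' + (ract Q M r m + ract Q M r' m)
            abel }
    have hT'mem : ∀ x, x ∈ T' ↔ (x ∈ T ∨ ∃ t ∈ T, ∃ r, P1 τ r ∧ x = t + ract Q M r m) :=
      fun x => Iff.rfl
    have hTT' : T ≤ T' := fun x hx => Or.inl hx
    have hmT' : m ∈ T' := Or.inr ⟨0, T.zero_mem, 1, P1_one, by
      rw [map_one, zero_add]
      rfl⟩
    have hT'prop : T' ∈ {T : AddSubmonoid M | T0 ≤ T ∧
      (∀ r, P1 τ r → ∀ m ∈ T, ract Q M r m ∈ T) ∧ (∀ m ∈ T, -m ∈ T0 → m = 0)} := by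
      refine ⟨h0.trans hTT', ?_, ?_⟩
      · intro r hr x hx
        rw [hT'mem] at hx
        rcases hx with hx | ⟨t, ht, r', hr', rfl⟩
        · exact Or.inl (h1 r hr x hx)
        · right
          refine ⟨ract Q M r t, h1 r hr t ht, r * r', P1_mul hr hr', ?_⟩
          rw [map_add, map_mul]
          rfl
      · intro x hx hx0
        rw [hT'mem] at hx
        rcases hx with hx | ⟨t, ht, r', hr', rfl⟩
        · exact h2 x hx hx0
        · by_contra hne
          refine hcon r' hr' t ht _ hx0 (neg_ne_zero.mpr hne) ?_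
          abel
    exact hm (hT.le_of_ge hT'prop hTT' hmT')
  intro m
  by_contra hc
  push Not at hc
  obtain ⟨hm1, hm2⟩ := hc
  obtain ⟨r, hr, t, ht, t₀, ht₀, hne₀, e1⟩ := key m hm1
  obtain ⟨s, hs, t', ht', t₀', ht₀', hne₀', e2⟩ := key (-m) hm2
  rw [map_neg, neg_inj] at e2
  obtain ⟨r', s', hr', hs', e3⟩ := hore r s hr hs
  have e4 := e3 m
  rw [e1, e2, map_neg, map_add, map_add] at e4
  -- r' t' + r' t₀' = -(s' t + s' t₀)
  have e5 : -(ract Q M r' t' + (ract Q M s' t + ract Q M s' t₀)) = ract Q M r' t₀' := by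
    have : ract Q M r' t' = -(ract Q M s' t + ract Q M s' t₀) - ract Q M r' t₀' := by
      rw [← e4]
      abel
    rw [this]
    abel
  have h3 : ract Q M r' t' + (ract Q M s' t + ract Q M s' t₀) ∈ T :=
    T.add_mem (h1 r' hr' t' ht') (T.add_mem (h1 s' hs' t ht) (h1 s' hs' t₀ (h0 ht₀)))
  have h4 := h2 _ h3 (by rw [e5]; exact hP r' hr' t₀' ht₀')
  rw [h4, neg_zero] at e5
  exact hne₀' (hinj r' hr' t₀' ht₀' e5.symm)

theorem exists_ord_quot (T0 : AddSubmonoid M)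
    (hT0 : ∀ m ∈ T0, -m ∈ T0 → m = 0)
    (hP : ∀ r, P1 τ r → ∀ m ∈ T0, ract Q M r m ∈ T0)
    (hinj : ∀ r, P1 τ r → ∀ m ∈ T0, ract Q M r m = 0 → m = 0)
    (hore : ∀ r s, P1 τ r → P1 τ s → ∃ r' s' : MonoidAlgebra ℤ Q, P1 τ r' ∧ P1 τ s' ∧
      ∀ m : M, ract Q M r' (ract Q M s m) = ract Q M s' (ract Q M r m)) :
    ∃ (K : Type w) (_ : AddCommGroup K) (_ : DistribMulAction Q K) (R : MO Q K) (f : M →+ K),
      (∀ (g : Q) (m : M), f (g • m) = g • f m) ∧ ∀ m ∈ T0, m ≠ 0 → R.pos (f m) := by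
  obtain ⟨T, h0, h1, h2, h3⟩ := exists_total T0 hT0 hP hinj hore
  have hsm : ∀ (g : Q) (m : M), m ∈ T → g • m ∈ T := by
    intro g m hm
    have := h1 _ (P1_of g) m hm
    rwa [ract_of] at this
  let N : AddSubgroup M :=
    { carrier := {m | m ∈ T ∧ -m ∈ T}
      zero_mem' := ⟨T.zero_mem, by rw [neg_zero]; exact T.zero_mem⟩
      add_mem' := by
        rintro a b ⟨ha, ha'⟩ ⟨hb, hb'⟩
        exact ⟨T.add_mem ha hb, by rw [neg_add]; exact T.add_mem ha' hb'⟩
      neg_mem' := by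
        rintro a ⟨ha, ha'⟩
        exact ⟨ha', by rw [neg_neg]; exact ha⟩ }
  have hN : ∀ m, m ∈ N ↔ (m ∈ T ∧ -m ∈ T) := fun m => Iff.rfl
  have hNs : ∀ g : Q, N ≤ N.comap (DistribSMul.toAddMonoidHom M g) := by
    intro g m hm
    rw [hN] at hm
    show g • m ∈ T ∧ -(g • m) ∈ T
    exact ⟨hsm g m hm.1, by rw [← smul_neg]; exact hsm g _ hm.2⟩
  let q := QuotientAddGroup.mk' N
  have hq0 : ∀ m, q m = 0 ↔ m ∈ N := fun m => QuotientAddGroup.eq_zero_iff m
  have hqs : Function.Surjective q := QuotientAddGroup.mk'_surjective N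
  let act : DistribMulAction Q (M ⧸ N) :=
    { smul := fun g k => QuotientAddGroup.map N N (DistribSMul.toAddMonoidHom M g) (hNs g) k
      one_smul := by
        intro k
        obtain ⟨m, rfl⟩ := hqs k
        show q ((1 : Q) • m) = q m
        rw [one_smul]
      mul_smul := by
        intro g h k
        obtain ⟨m, rfl⟩ := hqs k
        show q ((g * h) • m) = q (g • h • m)
        rw [mul_smul]
      smul_zero := by
        intro g
        exact map_zero _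
      smul_add := by
        intro g k k'
        exact map_add _ _ _ }
  have hact : ∀ (g : Q) (m : M), g • q m = q (g • m) := fun _ _ => rfl
  have hpos : ∀ m, m ∈ T → m ∉ N → -m ∉ T := fun m hm hm' hc => hm' ⟨hm, hc⟩
  refine ⟨M ⧸ N, inferInstance, act, ⟨fun k => ∃ m, m ∈ T ∧ -m ∉ T ∧ k = q m, ?_, ?_, ?_, ?_⟩, q,
    fun g m => (hact g m).symm, ?_⟩
  · rintro _ _ ⟨a, ha, ha', rfl⟩ ⟨b, hb, hb', rfl⟩
    refine ⟨a + b, T.add_mem ha hb, ?_, (map_add q a b).symm⟩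
    intro hc
    apply ha'
    have := T.add_mem hc hb
    rwa [show -(a + b) + b = -a by abel] at this
  · rintro _ g ⟨a, ha, ha', rfl⟩
    refine ⟨g • a, hsm g a ha, ?_, hact g a⟩
    intro hc
    apply ha'
    have := hsm g⁻¹ _ hc
    rwa [smul_neg, inv_smul_smul] at this
  · rintro ⟨a, ha, ha', h⟩
    have := (hq0 a).mp h.symm
    exact ha' this.2
  · intro k hk
    obtain ⟨m, rfl⟩ := hqs k
    have hm : m ∉ N := fun h => hk ((hq0 m).mpr h)
    rcases h3 m with h | h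
    · exact Or.inl ⟨m, h, hpos m h hm, rfl⟩
    · refine Or.inr ⟨-m, h, ?_, (map_neg q m).symm⟩
      intro hc
      rw [neg_neg] at hc
      exact hm ⟨hc, h⟩
  · intro m hm hne
    refine ⟨m, h0 hm, ?_, rfl⟩
    intro hc
    have := h2 (-m) hc (by rw [neg_neg]; exact hm)
    exact hne (neg_eq_zero.mp this)

end Zorn

end Pool.H8
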