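import Pool.Agent.H8.Od12
import Pool.Agent.H8.Od9

set_option autoImplicit false
set_option backward.isDefEq.respectTransparency.types true
set_option linter.unusedSectionVars false

/-! The divisible nilpotent group containing the nilpotent quotient. -/

namespace Pool.H8

open Finset
open scoped commutatorElement

universe u v w

theorem UD.prod {G : Type u} {K : Type v} [Group G] [Group K] (h : UD G) (h' : UD K) :
    UD (G × K) := by
  intro n hn
  constructor
  · intro x y hxy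
    exact Prod.ext ((h n hn).1 (congrArg Prod.fst hxy)) ((h' n hn).1 (congrArg Prod.snd hxy))
  · rintro ⟨x, y⟩
    obtain ⟨a, ha⟩ := (h n hn).2 x
    obtain ⟨b, hb⟩ := (h' n hn).2 y
    exact ⟨(a, b), Prod.ext ha hb⟩

theorem exists_hull {S : Type u} [Group S] {c : ℕ} (hS : NilC c S)
    (htf : ∀ s : S, ∀ n : ℕ, 0 < n → s ^ n = 1 → s = 1) (T : Subgroup S)
    (hTc : ∀ a b : S, ⁅a, b⁆ ∈ T) (hTi : ∀ (s : S) (n : ℕ), 0 < n → s ^ n ∈ T → s ∈ T) :
    ∃ (Q W : Type u) (_ : Group Q) (_ : CommGroup W) (e : S →* Q) (τ : Q →* W) (c' : ℕ),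
      Function.Injective e ∧ NilC c' Q ∧ UD Q ∧ (∀ q : Q, ∃ n : ℕ, 0 < n ∧ ∃ s, e s = q ^ n) ∧
      ∀ s, τ (e s) = 1 ↔ s ∈ T := by
  have hTn : T.Normal := by
    constructor
    intro t ht g
    have h1 : g * t * g⁻¹ = ⁅g, t⁆ * t := by
      rw [commutatorElement_def]
      group
    rw [h1]
    exact T.mul_mem (hTc g t) ht
  obtain ⟨U, iU, f, hf, hUc, hUD⟩ := exists_udn c S hS htf
  have hq1 : NilC 1 (S ⧸ T) := by
    unfold NilC
    rw [eq_bot_iff, Subgroup.lowerCentralSeries_succ, Subgroup.commutator_le]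
    intro a _ b _
    obtain ⟨a, rfl⟩ := QuotientGroup.mk'_surjective T a
    obtain ⟨b, rfl⟩ := QuotientGroup.mk'_surjective T b
    rw [Subgroup.mem_bot, ← map_commutatorElement]
    exact (QuotientGroup.eq_one_iff _).mpr (hTc a b)
  obtain ⟨W, iW, g, hg, hWc, hWD⟩ := exists_udn 1 (S ⧸ T) hq1 (by
    intro s n hn h
    obtain ⟨s, rfl⟩ := QuotientGroup.mk'_surjective T s
    rw [← map_pow] at h
    exact (QuotientGroup.eq_one_iff _).mpr (hTi s n hn ((QuotientGroup.eq_one_iff _).mp h)))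
  have hcomm : ∀ a b : W, a * b = b * a := by
    intro a b
    have h1 : ⁅a, b⁆ ∈ (⊤ : Subgroup W).lowerCentralSeries 1 :=
      Subgroup.commutator_mem_commutator trivial trivial
    rw [hWc, Subgroup.mem_bot] at h1
    exact commutatorElement_eq_one_iff_mul_comm.mp h1
  let cW : CommGroup W := { iW with mul_comm := hcomm }
  let e0 : S →* U × W := f.prod (g.comp (QuotientGroup.mk' T))
  have hUW : NilC (c + 1) (U × W) :=
    (hUc.mono (Nat.le_succ c)).prod (hWc.mono (Nat.succ_le_succ (Nat.zero_le c)))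
  have hPD : UD (U × W) := UD.prod hUD hWD
  let Q := isol hUW e0.range
  have he0 : ∀ s, e0 s ∈ Q := fun s => le_isol _ _ ⟨s, rfl⟩
  let e : S →* Q := e0.codRestrict Q he0
  refine ⟨Q, W, inferInstance, cW, e, (MonoidHom.snd U W).comp Q.subtype, c + 1, ?_, ?_, ?_, ?_, ?_⟩
  · intro a b hab
    have h1 : e0 a = e0 b := congrArg Subtype.val hab
    exact hf (congrArg Prod.fst h1)
  · exact hUW.of_inj Q.subtype Q.subtype_injective
  · intro n hn
    constructor
    · intro x y hxy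
      exact Subtype.ext ((hPD n hn).1 (congrArg Subtype.val hxy))
    · intro x
      obtain ⟨y, hy⟩ := (hPD n hn).2 x.1
      obtain ⟨m, hm, hx⟩ := x.2
      have hy' : y ^ n = x.1 := hy
      exact ⟨⟨y, n * m, Nat.mul_pos hn hm, by rw [pow_mul, hy']; exact hx⟩, Subtype.ext hy⟩
  · intro q
    obtain ⟨n, hn, s, hs⟩ := q.2
    exact ⟨n, hn, s, Subtype.ext hs⟩
  · intro s
    have h1 : ((MonoidHom.snd U W).comp Q.subtype) (e s) = g (QuotientGroup.mk' T s) := rfl
    rw [h1]
    constructor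
    · intro h
      have h2 : g (QuotientGroup.mk' T s) = g 1 := by
        rw [map_one]
        exact h
      exact (QuotientGroup.eq_one_iff _).mp (hg h2)
    · intro h
      have h2 : QuotientGroup.mk' T s = 1 := (QuotientGroup.eq_one_iff _).mpr h
      rw [h2]
      exact map_one g

section Rho

variable {S : Type u} {V : Type u} [Group S] [AddCommGroup V] [LinearOrder V]
  [IsOrderedAddMonoid V] [Module ℚ V] [IsStrictOrderedModule ℚ V] [DistribMulAction S V]

/-- the extended representation of the kernel -/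
theorem exists_rho {H : Subgroup S} (hS : ∀ (s : S) (a : V), 0 < a → 0 < s • a) {k : ℕ}
    (hk : UF (V := V) H k = ⊤) {Q W : Type u} [Group Q] [CommGroup W] {e : S →* Q} {τ : Q →* W}
    {c : ℕ} (he : Function.Injective e) (hQ : NilC c Q)
    (hroot : ∀ q : Q, ∃ n : ℕ, 0 < n ∧ ∃ s, e s = q ^ n)
    (hτ : ∀ s, τ (e s) = 1 ↔ s ∈ TT V H) :
    ∃ ρ : τ.ker →* (Module.End ℚ V)ˣ,
      (∀ t : τ.ker, ρ t ∈ Dg (UF (V := V) H) 0 ∧ Small ((ρ t).val - 1)) ∧
      ∀ (t : τ.ker) (s : S), e s = t.1 → ρ t = sig S V s := by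
  have hB : NilC (c + k) (Dg (UF (V := V) H) 0) := (Dg_nil rfl (UF_top H hk)).mono (by omega)
  have hH : NilC (c + k) τ.ker := (hQ.mono (by omega)).of_inj τ.ker.subtype τ.ker.subtype_injective
  let ι : TT V H →* τ.ker :=
    { toFun := fun t => ⟨e t.1, (hτ _).mpr t.2⟩
      map_one' := Subtype.ext (by simp)
      map_mul' := fun a b => Subtype.ext (by simp) }
  let ρ0 : TT V H →* Dg (UF (V := V) H) 0 :=
    { toFun := fun t => ⟨sig S V t.1, t.2⟩
      map_one' := Subtype.ext (by simp)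
      map_mul' := fun a b => Subtype.ext (by simp) }
  have hT : ∀ h : τ.ker, ∃ n : ℕ, 0 < n ∧ ∃ t, ι t = h ^ n := by
    intro h
    obtain ⟨n, hn, s, hs⟩ := hroot h.1
    have h1 : s ∈ TT V H := by
      rw [← hτ, hs, map_pow, h.2, one_pow]
    exact ⟨n, hn, ⟨s, h1⟩, Subtype.ext hs⟩
  obtain ⟨ρ', hρ'⟩ := exists_ext hH hB (Dg_UD rfl (UF_top H hk)) ι ρ0 (by
    intro t ht
    have h1 : e t.1 = e 1 := by
      rw [map_one]
      exact congrArg Subtype.val ht
    have h2 : t = 1 := Subtype.ext (he h1)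
    rw [h2, map_one]) hT
  refine ⟨(Dg (UF (V := V) H) 0).subtype.comp ρ', ?_, ?_⟩
  · intro t
    refine ⟨(ρ' t).2, ?_⟩
    obtain ⟨n, hn, t0, ht0⟩ := hT t
    have h1 : (ρ' t) ^ n = ρ0 t0 := by
      rw [← map_pow, ← ht0, hρ']
    exact small_root hS hk t0.2 hn (ρ' t).2 (congrArg Subtype.val h1)
  · intro t s hs
    have h1 : s ∈ TT V H := by
      rw [← hτ, hs]
      exact t.2
    have h2 : t = ι ⟨s, h1⟩ := Subtype.ext hs.symm
    show ((ρ' t : Dg (UF (V := V) H) 0) : (Module.End ℚ V)ˣ) = _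
    rw [h2, hρ']
    rfl

end Rho

end Pool.H8
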