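import Pool.Agent.H8.Od13

set_option autoImplicit false
set_option backward.isDefEq.respectTransparency.types true
set_option linter.unusedSectionVars false

/-! The coinduced module and its ordered quotient. -/

namespace Pool.H8

open Finset
open scoped commutatorElement

universe u v w

section MF

variable {S : Type u} {V : Type u} [Group S] [AddCommGroup V] [LinearOrder V]
  [IsOrderedAddMonoid V] [Module ℚ V] [IsStrictOrderedModule ℚ V] [DistribMulAction S V]
  {Q W : Type u} [Group Q] [CommGroup W] (τ : Q →* W) (ρ : τ.ker →* (Module.End ℚ V)ˣ)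

/-- the coinduced module -/
def MF : AddSubgroup (Q → V) where
  carrier := {f | ∀ (t : τ.ker) (q : Q), f (t * q) = (ρ t).val (f q)}
  zero_mem' := by
    intro t q
    exact (map_zero _).symm
  add_mem' := by
    intro a b ha hb t q
    show a _ + b _ = (ρ t).val (a q + b q)
    rw [ha, hb, map_add]
  neg_mem' := by
    intro a ha t q
    show - a _ = (ρ t).val (- a q)
    rw [ha, map_neg]

/-- right translation -/
instance mfAct : DistribMulAction Q (MF τ ρ) where
  smul h f := ⟨fun q => f.1 (q * h), by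
    intro t q
    show f.1 (t * q * h) = _
    rw [mul_assoc]
    exact f.2 t (q * h)⟩
  one_smul f := by
    apply Subtype.ext
    funext q
    show f.1 (q * 1) = f.1 q
    rw [mul_one]
  mul_smul g h f := by
    apply Subtype.ext
    funext q
    show f.1 (q * (g * h)) = f.1 (q * g * h)
    rw [mul_assoc]
  smul_zero h := rfl
  smul_add h f g := rfl

variable {τ ρ}

theorem mf_smul (h : Q) (f : MF τ ρ) (q : Q) : (h • f).1 q = f.1 (q * h) := rfl

theorem mf_act_gen (hsm : ∀ t : τ.ker, Small ((ρ t).val - 1)) {b : W} {x : MonoidAlgebra ℤ Q}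
    (hx : x ∈ FB τ b) {h0 : Q} (hh : τ h0 = b) (f : MF τ ρ) (q : Q) :
    ∃ E : Module.End ℚ V, Small E ∧
      (ract Q (MF τ ρ) x f).1 q = (aug Q x) • f.1 (q * h0) + E (f.1 (q * h0)) := by
  induction hx using AddSubgroup.closure_induction with
  | mem x hx =>
    obtain ⟨g, hg, rfl⟩ := hx
    have hg' : τ g = b := hg
    let t : τ.ker := ⟨q * g * h0⁻¹ * q⁻¹, by
      rw [MonoidHom.mem_ker, map_mul, map_mul, map_mul, map_inv, map_inv, hg', hh,
        mul_inv_cancel_right, mul_inv_cancel]⟩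
    refine ⟨(ρ t).val - 1, hsm t, ?_⟩
    rw [ract_of, mf_smul, aug_of, one_smul]
    have h1 : q * g = t.1 * (q * h0) := by
      show q * g = q * g * h0⁻¹ * q⁻¹ * (q * h0)
      group
    rw [h1, f.2 t (q * h0), LinearMap.sub_apply]
    show (ρ t).val (f.1 (q * h0)) = f.1 (q * h0) + ((ρ t).val (f.1 (q * h0)) - f.1 (q * h0))
    abel
  | zero =>
    refine ⟨0, ?_, ?_⟩
    · intro a ha c
      rw [LinearMap.zero_apply, abs_zero, smul_zero]
      exact ha
    · rw [map_zero, map_zero, zero_smul, LinearMap.zero_apply, add_zero]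
      rfl
  | add x y _ _ h1 h2 =>
    obtain ⟨E, hE, e1⟩ := h1
    obtain ⟨E', hE', e2⟩ := h2
    refine ⟨E + E', hE.add hE', ?_⟩
    rw [map_add, map_add, add_smul, LinearMap.add_apply]
    show (ract Q (MF τ ρ) x f).1 q + (ract Q (MF τ ρ) y f).1 q = _
    rw [e1, e2]
    abel
  | neg x _ h1 =>
    obtain ⟨E, hE, e1⟩ := h1
    refine ⟨-E, ?_, ?_⟩
    · intro a ha c
      rw [LinearMap.neg_apply, abs_neg]
      exact hE a ha c
    · rw [map_neg, map_neg, neg_smul, LinearMap.neg_apply]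
      show -(ract Q (MF τ ρ) x f).1 q = _
      rw [e1]
      abel

variable (τ ρ)

/-- pointwise nonnegative functions -/
def MT : AddSubmonoid (MF τ ρ) where
  carrier := {f | ∀ q, 0 ≤ f.1 q}
  zero_mem' := fun q => le_rfl
  add_mem' := by
    intro a b ha hb q
    exact add_nonneg (ha q) (hb q)

variable {τ ρ}

theorem mem_MT (f : MF τ ρ) : f ∈ MT τ ρ ↔ ∀ q, 0 ≤ f.1 q := Iff.rfl

theorem MT_pointed (f : MF τ ρ) (hf : f ∈ MT τ ρ) (hf' : -f ∈ MT τ ρ) : f = 0 := by
  apply Subtype.ext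
  funext q
  have h1 := hf q
  have h2 : 0 ≤ -(f.1 q) := hf' q
  exact le_antisymm (neg_nonneg.mp h2) h1

theorem Small.pos_smul {E : Module.End ℚ V} (hE : Small E) {n : ℤ} (hn : 0 < n) {a : V}
    (ha : 0 < a) : 0 < n • a + E a := by
  have h1 := hE.pos ha
  have h2 : a ≤ n • a := by
    obtain ⟨m, rfl⟩ : ∃ m : ℕ, n = m + 1 := ⟨(n - 1).toNat, by omega⟩
    rw [add_smul, one_smul, natCast_zsmul]
    exact le_add_of_nonneg_left (nsmul_nonneg ha.le m)
  exact lt_of_lt_of_le h1 (add_le_add_left h2 _)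

theorem P1_MT (hsm : ∀ t : τ.ker, Small ((ρ t).val - 1)) {r : MonoidAlgebra ℤ Q} (hr : P1 τ r)
    (f : MF τ ρ) (hf : f ∈ MT τ ρ) :
    ract Q (MF τ ρ) r f ∈ MT τ ρ ∧ (ract Q (MF τ ρ) r f = 0 → f = 0) := by
  induction hr with
  | @gen b x hx hax =>
    have hex : ∃ h0 : Q, τ h0 = b := by
      by_contra hc
      push Not at hc
      have h1 : x = 0 := by
        have h2 : {g : Q | τ g = b} = ∅ := by
          ext g
          simp [hc g]
        unfold FB at hx
        rw [h2, Set.image_empty, AddSubgroup.closure_empty, AddSubgroup.mem_bot] at hx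
        exact hx
      rw [h1, map_zero] at hax
      exact lt_irrefl _ hax
    obtain ⟨h0, hh⟩ := hex
    constructor
    · intro q
      obtain ⟨E, hE, e1⟩ := mf_act_gen hsm hx hh f q
      rw [e1]
      rcases (hf (q * h0)).eq_or_lt with h2 | h2
      · rw [← h2, smul_zero, map_zero, add_zero]
      · exact (hE.pos_smul hax h2).le
    · intro h
      apply Subtype.ext
      funext q
      obtain ⟨E, hE, e1⟩ := mf_act_gen hsm hx hh f (q * h0⁻¹)
      rw [inv_mul_cancel_right, h] at e1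
      rcases (hf q).eq_or_lt with h2 | h2
      · exact h2.symm
      · have h3 := hE.pos_smul hax h2
        rw [← e1] at h3
        exact absurd h3 (lt_irrefl _)
  | @add x y _ _ h1 h2 =>
    have e : ract Q (MF τ ρ) (x + y) f = ract Q (MF τ ρ) x f + ract Q (MF τ ρ) y f := by
      rw [map_add]
      rfl
    rw [e]
    refine ⟨AddSubmonoid.add_mem _ h1.1 h2.1, ?_⟩
    intro h
    apply h1.2
    apply MT_pointed _ h1.1
    rw [neg_eq_of_add_eq_zero_right h]
    exact h2.1

/-- the filtration of the coinduced module -/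
def MU (τ : Q →* W) (ρ : τ.ker →* (Module.End ℚ V)ˣ) (F : ℕ → Submodule ℚ V) (j : ℕ) :
    AddSubgroup (MF τ ρ) where
  carrier := {f | ∀ q, f.1 q ∈ F j}
  zero_mem' := fun _ => (F j).zero_mem
  add_mem' := fun ha hb q => (F j).add_mem (ha q) (hb q)
  neg_mem' := fun ha q => (F j).neg_mem (ha q)

variable {e : S →* Q}

open Classical in
/-- the embedding of the module in the coinduced module -/
noncomputable def Jf (ρ : τ.ker →* (Module.End ℚ V)ˣ) (e : S →* Q) (a : V) (q : Q) : V :=
  if h : ∃ p : τ.ker × S, (p.1 : Q) * e p.2 = q then (ρ h.choose.1).val (h.choose.2 • a) else 0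

theorem Jf_spec (hρ : ∀ (t : τ.ker) (s : S), e s = t.1 → ρ t = sig S V s) (a : V)
    (t : τ.ker) (s : S) : Jf ρ e a (t * e s) = (ρ t).val (s • a) := by
  have h : ∃ p : τ.ker × S, (p.1 : Q) * e p.2 = t * e s := ⟨(t, s), rfl⟩
  have h1 : Jf ρ e a (t * e s) = (ρ h.choose.1).val (h.choose.2 • a) := by
    unfold Jf
    rw [dif_pos h]
  rw [h1]
  have h2 := h.choose_spec
  generalize h.choose = p at h2
  obtain ⟨t', s'⟩ := p
  simp only at h2 ⊢
  have h3 : e (s * s'⁻¹) = (t⁻¹ * t' : τ.ker).1 := by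
    have h4 : (t⁻¹ * t' : τ.ker).1 = (t : Q)⁻¹ * t' := rfl
    rw [h4, map_mul, map_inv, eq_inv_mul_iff_mul_eq, ← mul_assoc, ← h2, mul_inv_cancel_right]
  have h5 := hρ _ _ h3
  have h6 : ρ t' = ρ t * sig S V (s * s'⁻¹) := by
    rw [← h5, ← map_mul, mul_inv_cancel_left]
  rw [h6]
  show (ρ t).val ((sig S V (s * s'⁻¹)).val (s' • a)) = _
  rw [sig_apply, smul_smul, inv_mul_cancel_right]

theorem Jf_off (a : V) (q : Q) (h : ¬ ∃ p : τ.ker × S, (p.1 : Q) * e p.2 = q) :
    Jf ρ e a q = 0 := by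
  unfold Jf
  rw [dif_neg h]

/-- the embedding as a homomorphism -/
noncomputable def JM (hρ : ∀ (t : τ.ker) (s : S), e s = t.1 → ρ t = sig S V s) :
    V →+ MF τ ρ where
  toFun a := ⟨Jf ρ e a, by
    intro t q
    by_cases h : ∃ p : τ.ker × S, (p.1 : Q) * e p.2 = q
    · obtain ⟨⟨t', s⟩, rfl⟩ := h
      simp only
      rw [Jf_spec hρ, ← mul_assoc]
      have := Jf_spec hρ a (t * t') s
      rw [show ((t * t' : τ.ker) : Q) = t * t' from rfl] at this
      rw [this, map_mul]
      rfl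
    · rw [Jf_off a q h, map_zero]
      apply Jf_off
      rintro ⟨⟨t', s⟩, h2⟩
      apply h
      refine ⟨(t⁻¹ * t', s), ?_⟩
      show ((t : Q)⁻¹ * t') * e s = q
      rw [mul_assoc, show (t' : Q) * e s = t * q from h2, inv_mul_cancel_left]⟩
  map_zero' := by
    apply Subtype.ext
    funext q
    show Jf ρ e 0 q = 0
    by_cases h : ∃ p : τ.ker × S, (p.1 : Q) * e p.2 = q
    · obtain ⟨⟨t', s⟩, rfl⟩ := h
      simp only
      rw [Jf_spec hρ, smul_zero, map_zero]
    · exact Jf_off _ _ h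
  map_add' := by
    intro a b
    apply Subtype.ext
    funext q
    show Jf ρ e (a + b) q = Jf ρ e a q + Jf ρ e b q
    by_cases h : ∃ p : τ.ker × S, (p.1 : Q) * e p.2 = q
    · obtain ⟨⟨t', s⟩, rfl⟩ := h
      simp only
      rw [Jf_spec hρ, Jf_spec hρ, Jf_spec hρ, smul_add, map_add]
    · rw [Jf_off _ _ h, Jf_off _ _ h, Jf_off _ _ h, add_zero]

theorem JM_smul (hρ : ∀ (t : τ.ker) (s : S), e s = t.1 → ρ t = sig S V s) (s : S) (a : V) :
    JM hρ (s • a) = e s • JM hρ a := by
  apply Subtype.ext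
  funext q
  show Jf ρ e (s • a) q = Jf ρ e a (q * e s)
  by_cases h : ∃ p : τ.ker × S, (p.1 : Q) * e p.2 = q
  · obtain ⟨⟨t', s'⟩, rfl⟩ := h
    simp only
    rw [Jf_spec hρ, mul_assoc, ← map_mul, Jf_spec hρ, mul_smul]
  · rw [Jf_off _ _ h, Jf_off]
    rintro ⟨⟨t', s'⟩, h2⟩
    apply h
    refine ⟨(t', s' * s⁻¹), ?_⟩
    show (t' : Q) * e (s' * s⁻¹) = q
    rw [map_mul, map_inv, ← mul_assoc, show (t' : Q) * e s' = q * e s from h2,
      mul_inv_cancel_right]

theorem JM_pos (hρ : ∀ (t : τ.ker) (s : S), e s = t.1 → ρ t = sig S V s)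
    (hsm : ∀ t : τ.ker, Small ((ρ t).val - 1))
    (hS : ∀ (s : S) (a : V), 0 < a → 0 < s • a) (a : V) (ha : 0 < a) :
    JM hρ a ∈ MT τ ρ ∧ JM hρ a ≠ 0 := by
  constructor
  · intro q
    show 0 ≤ Jf ρ e a q
    by_cases h : ∃ p : τ.ker × S, (p.1 : Q) * e p.2 = q
    · obtain ⟨⟨t', s'⟩, rfl⟩ := h
      simp only
      rw [Jf_spec hρ]
      have h1 := (hsm t').pos (hS s' a ha)
      rw [LinearMap.sub_apply] at h1
      have h2 : s' • a + ((ρ t').val (s' • a) - (1 : Module.End ℚ V) (s' • a)) =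
          (ρ t').val (s' • a) := by
        show s' • a + ((ρ t').val (s' • a) - s' • a) = _
        abel
      rw [h2] at h1
      exact h1.le
    · rw [Jf_off _ _ h]
  · intro h
    have h1 : Jf ρ e a (((1 : τ.ker) : Q) * e 1) = 0 := by
      have := congrArg (fun f : MF τ ρ => f.1 (((1 : τ.ker) : Q) * e 1)) h
      exact this
    rw [Jf_spec hρ, one_smul, map_one] at h1
    have h2 : a = 0 := h1
    exact ha.ne' h2

theorem exists_K {H : Subgroup S} (hS : ∀ (s : S) (a : V), 0 < a → 0 < s • a)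
    {k : ℕ} (hk : UF (V := V) H k = ⊤) {c : ℕ} (hQ : NilC c Q)
    (hρ0 : ∀ t : τ.ker, ρ t ∈ Dg (UF (V := V) H) 0)
    (hρ : ∀ (t : τ.ker) (s : S), e s = t.1 → ρ t = sig S V s)
    (hsm : ∀ t : τ.ker, Small ((ρ t).val - 1)) :
    ∃ (K : Type u) (_ : AddCommGroup K) (_ : DistribMulAction Q K) (R : MO Q K) (j : V →+ K),
      (∀ (s : S) (a : V), j (s • a) = e s • j a) ∧ ∀ a, 0 < a → R.pos (j a) := by
  obtain ⟨K, i1, i2, R, f, hf1, hf2⟩ := exists_ord_quot (τ := τ) (MT τ ρ) MT_pointed
    (fun r hr f hf => (P1_MT hsm hr f hf).1) (fun r hr f hf => (P1_MT hsm hr f hf).2) (by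
      intro r s hr hs
      refine ore_P1 (c := c) hQ (MU τ ρ (UF (V := V) H)) ?_ (k := k) ?_ ?_ ?_ hr hs
      · rw [eq_bot_iff]
        intro f hf
        rw [AddSubgroup.mem_bot]
        apply Subtype.ext
        funext q
        exact hf q
      · rw [eq_top_iff]
        intro f _ q
        rw [hk]
        trivial
      · intro j g f hf q
        exact hf (q * g)
      · intro j t ht f hf q
        have ht1 : τ t = 1 := by
          have h1 : (⊤ : Subgroup Q).lowerCentralSeries 1 ≤ τ.ker := by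
            rw [Subgroup.lowerCentralSeries_succ, Subgroup.commutator_le]
            intro a _ b _
            rw [MonoidHom.mem_ker, map_commutatorElement, commutatorElement_def, mul_comm (τ a),
              mul_inv_cancel_right, mul_inv_cancel]
          exact h1 ht
        let t' : τ.ker := ⟨q * t * q⁻¹, by
          rw [MonoidHom.mem_ker, map_mul, map_mul, map_inv, ht1, mul_one, mul_inv_cancel]⟩
        have e1 : (t • f - f).1 q = (ρ t').val (f.1 q) - f.1 q := by
          show f.1 (q * t) - f.1 q = _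
          rw [← f.2 t' q]
          have h2 : q * t = (t' : Q) * q := by
            show q * t = q * t * q⁻¹ * q
            group
          rw [h2]
        show (t • f - f).1 q ∈ UF (V := V) H j
        rw [e1]
        exact (hρ0 t').1.2 j _ (hf q))
  refine ⟨K, i1, i2, R, f.comp (JM hρ), ?_, ?_⟩
  · intro s a
    show f (JM hρ (s • a)) = e s • f (JM hρ a)
    rw [JM_smul, hf1]
  · intro a ha
    obtain ⟨h1, h2⟩ := JM_pos hρ hsm hS a ha
    exact hf2 _ h1 h2

end MF

end Pool.H8
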