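import Pool.Agent.H8.Od6

set_option autoImplicit false
set_option backward.isDefEq.respectTransparency.types true
set_option linter.unusedSectionVars false

/-! Derivations into ordered modules. -/

namespace Pool.H8

open Finset
open scoped commutatorElement

universe u v w

section Lead

variable {Q : Type u} [Group Q] (P : BO Q)

/-- positive leading coefficient -/
def leadPos (r : Q →₀ ℤ) : Prop := ∃ g : Q, 0 < r g ∧ ∀ h : Q, r h ≠ 0 → h = g ∨ P.pos (h⁻¹ * g)

/-- left translation on finitely supported functions -/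
def tr (h : Q) (r : Q →₀ ℤ) : Q →₀ ℤ := Finsupp.equivMapDomain (Equiv.mulLeft h) r

theorem tr_apply (h : Q) (r : Q →₀ ℤ) (s : Q) : tr h r s = r (h⁻¹ * s) := by
  unfold tr
  rw [Finsupp.equivMapDomain_apply]
  rfl

theorem tr_one (r : Q →₀ ℤ) : tr 1 r = r := by
  ext s
  simp [tr_apply]

theorem tr_mul (g h : Q) (r : Q →₀ ℤ) : tr (g * h) r = tr g (tr h r) := by
  ext s
  simp [tr_apply, mul_assoc]

theorem tr_add (g : Q) (r s : Q →₀ ℤ) : tr g (r + s) = tr g r + tr g s := by
  ext t
  simp [tr_apply]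

theorem tr_neg (g : Q) (r : Q →₀ ℤ) : tr g (-r) = - tr g r := by
  ext t
  simp [tr_apply]

theorem tr_sub (g : Q) (r s : Q →₀ ℤ) : tr g (r - s) = tr g r - tr g s := by
  ext t
  simp [tr_apply]

theorem tr_zero (g : Q) : tr g (0 : Q →₀ ℤ) = 0 := by
  ext t
  simp [tr_apply]

theorem tr_single (g h : Q) (n : ℤ) : tr g (Finsupp.single h n) = Finsupp.single (g * h) n := by
  classical
  ext t
  rw [tr_apply, Finsupp.single_apply, Finsupp.single_apply]
  congr 1
  rw [eq_inv_mul_iff_mul_eq]

theorem leadPos_zero : ¬ leadPos P 0 := by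
  rintro ⟨g, hg, _⟩
  simp at hg

theorem leadPos_tr {r : Q →₀ ℤ} (hr : leadPos P r) (h : Q) : leadPos P (tr h r) := by
  obtain ⟨g, hg, h1⟩ := hr
  refine ⟨h * g, ?_, ?_⟩
  · rw [tr_apply, inv_mul_cancel_left]
    exact hg
  · intro k hk
    rw [tr_apply] at hk
    rcases h1 _ hk with h2 | h2
    · left
      rw [← h2, mul_inv_cancel_left]
    · right
      rwa [show (h⁻¹ * k)⁻¹ * g = k⁻¹ * (h * g) by group] at h2

theorem leadPos_add {r s : Q →₀ ℤ} (hr : leadPos P r) (hs : leadPos P s) : leadPos P (r + s) := by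
  obtain ⟨g, hg, h1⟩ := hr
  obtain ⟨k, hk, h2⟩ := hs
  have htrans : ∀ a b c : Q, P.pos (a⁻¹ * b) → P.pos (b⁻¹ * c) → P.pos (a⁻¹ * c) := by
    intro a b c h h'
    have := P.mul h h'
    rwa [show a⁻¹ * b * (b⁻¹ * c) = a⁻¹ * c by group] at this
  have hirr : ∀ a b : Q, P.pos (a⁻¹ * b) → P.pos (b⁻¹ * a) → False := by
    intro a b h h'
    have := P.mul h h'
    rw [show a⁻¹ * b * (b⁻¹ * a) = 1 by group] at this
    exact P.one this
  by_cases hgk : g = k
  · subst hgk
    refine ⟨g, by rw [Finsupp.add_apply]; exact add_pos hg hk, ?_⟩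
    intro h hh
    by_cases hr0 : r h = 0
    · refine h2 h ?_
      intro hs0
      exact hh (by rw [Finsupp.add_apply, hr0, hs0, add_zero])
    · exact h1 h hr0
  · have hne : g⁻¹ * k ≠ 1 := fun h => hgk (inv_mul_eq_one.mp h)
    rcases P.tot hne with h | h
    · refine ⟨k, ?_, ?_⟩
      · have : r k = 0 := by
          by_contra hc
          rcases h1 k hc with h3 | h3
          · exact hgk h3.symm
          · exact hirr _ _ h h3
        rw [Finsupp.add_apply, this, zero_add]
        exact hk
      · intro l hl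
        by_cases hr0 : r l = 0
        · refine h2 l ?_
          intro hs0
          exact hl (by rw [Finsupp.add_apply, hr0, hs0, add_zero])
        · rcases h1 l hr0 with h3 | h3
          · rw [h3]
            exact Or.inr h
          · exact Or.inr (htrans _ _ _ h3 h)
    · rw [mul_inv_rev, inv_inv] at h
      refine ⟨g, ?_, ?_⟩
      · have : s g = 0 := by
          by_contra hc
          rcases h2 g hc with h3 | h3
          · exact hgk h3
          · exact hirr _ _ h h3
        rw [Finsupp.add_apply, this, add_zero]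
        exact hg
      · intro l hl
        by_cases hs0 : s l = 0
        · refine h1 l ?_
          intro hr0
          exact hl (by rw [Finsupp.add_apply, hr0, hs0, add_zero])
        · rcases h2 l hs0 with h3 | h3
          · rw [h3]
            exact Or.inr h
          · exact Or.inr (htrans _ _ _ h3 h)

theorem leadPos_tot {r : Q →₀ ℤ} (hr : r ≠ 0) : leadPos P r ∨ leadPos P (-r) := by
  classical
  let _ : LinearOrder Q := P.linearOrder
  have hne : r.support.Nonempty := Finsupp.support_nonempty_iff.mpr hr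
  have hmem := Finset.max'_mem _ hne
  have hmax : ∀ h, r h ≠ 0 → h = r.support.max' hne ∨ P.pos (h⁻¹ * r.support.max' hne) := by
    intro h hh
    have h1 : h ≤ r.support.max' hne := Finset.le_max' _ h (Finsupp.mem_support_iff.mpr hh)
    exact h1
  generalize r.support.max' hne = g at hmem hmax
  rw [Finsupp.mem_support_iff] at hmem
  rcases lt_trichotomy 0 (r g) with h | h | h
  · exact Or.inl ⟨g, h, hmax⟩
  · exact absurd h.symm hmem
  · right
    refine ⟨g, by rw [Finsupp.neg_apply]; exact neg_pos.mpr h, ?_⟩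
    intro k hk
    exact hmax k (by simpa using hk)

end Lead

/-- functions with the diagonal action -/
def FK (Q : Type u) (K : Type v) : Type (max u v) := Q → K

namespace FK

variable {Q : Type u} {K : Type v} [Group Q] [AddCommGroup K] [DistribMulAction Q K]

instance : AddCommGroup (FK Q K) := inferInstanceAs (AddCommGroup (Q → K))

instance : DistribMulAction Q (FK Q K) where
  smul h f := fun s => h • f (h⁻¹ * s)
  one_smul f := by
    funext s
    show (1 : Q) • f (1⁻¹ * s) = f s
    simp
  mul_smul g h f := by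
    funext s
    show (g * h) • f ((g * h)⁻¹ * s) = g • (h • f (h⁻¹ * (g⁻¹ * s)))
    rw [mul_smul, mul_inv_rev, mul_assoc]
  smul_zero h := by
    funext s
    show h • (0 : K) = 0
    exact smul_zero h
  smul_add h f g := by
    funext s
    show h • (f (h⁻¹ * s) + g (h⁻¹ * s)) = h • f (h⁻¹ * s) + h • g (h⁻¹ * s)
    exact smul_add _ _ _

theorem smul_apply (h : Q) (f : FK Q K) (s : Q) : (h • f) s = h • f (h⁻¹ * s) := rfl

theorem add_apply (f g : FK Q K) (s : Q) : (f + g) s = f s + g s := rfl

/-- constant functions -/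
def const (κ : K) : FK Q K := fun _ => κ

theorem smul_const (h : Q) (κ : K) : h • (const κ : FK Q K) = const (h • κ) := rfl

theorem const_add (κ κ' : K) : (const (κ + κ') : FK Q K) = const κ + const κ' := rfl

theorem const_neg (κ : K) : (const (-κ) : FK Q K) = - const κ := rfl

theorem const_zero : (const 0 : FK Q K) = 0 := rfl

/-- the subgroup of constant functions -/
def consts (Q : Type u) (K : Type v) [Group Q] [AddCommGroup K] [DistribMulAction Q K] :
    AddSubgroup (FK Q K) where
  carrier := {f | ∃ κ, f = const κ}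
  add_mem' := by
    rintro _ _ ⟨κ, rfl⟩ ⟨κ', rfl⟩
    exact ⟨κ + κ', rfl⟩
  zero_mem' := ⟨0, rfl⟩
  neg_mem' := by
    rintro _ ⟨κ, rfl⟩
    exact ⟨-κ, rfl⟩

theorem smul_consts (h : Q) {f : FK Q K} (hf : f ∈ consts Q K) : h • f ∈ consts Q K := by
  obtain ⟨κ, rfl⟩ := hf
  exact ⟨h • κ, rfl⟩

end FK

noncomputable section

/-- the product of functions and the group ring -/
@[ext] structure ZK (Q : Type u) (K : Type v) where
  /-- the function part -/
  y : FK Q K
  /-- the group ring part -/
  r : Q →₀ ℤ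

namespace ZK

variable {Q : Type u} {K : Type v} [Group Q] [AddCommGroup K] [DistribMulAction Q K]

instance : Add (ZK Q K) := ⟨fun a b => ⟨a.y + b.y, a.r + b.r⟩⟩
instance : Zero (ZK Q K) := ⟨⟨0, 0⟩⟩
instance : Neg (ZK Q K) := ⟨fun a => ⟨-a.y, -a.r⟩⟩

theorem add_y (a b : ZK Q K) : (a + b).y = a.y + b.y := rfl
theorem add_r (a b : ZK Q K) : (a + b).r = a.r + b.r := rfl
theorem zero_y : (0 : ZK Q K).y = 0 := rfl
theorem zero_r : (0 : ZK Q K).r = 0 := rfl
theorem neg_y (a : ZK Q K) : (-a).y = -a.y := rfl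
theorem neg_r (a : ZK Q K) : (-a).r = -a.r := rfl

instance : AddCommGroup (ZK Q K) :=
  { AddGroup.ofLeftAxioms
      (by
        intro a b c
        ext1
        · simp only [add_y, add_assoc]
        · simp only [add_r, add_assoc])
      (by
        intro a
        ext1
        · simp only [add_y, zero_y, zero_add]
        · simp only [add_r, zero_r, zero_add])
      (by
        intro a
        ext1
        · simp only [add_y, neg_y, zero_y, neg_add_cancel]
        · simp only [add_r, neg_r, zero_r, neg_add_cancel]) with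
    add_comm := by
      intro a b
      ext1
      · simp only [add_y, add_comm]
      · simp only [add_r, add_comm] }

instance : DistribMulAction Q (ZK Q K) where
  smul h a := ⟨h • a.y, tr h a.r⟩
  one_smul a := by
    ext1
    · exact one_smul _ _
    · exact tr_one _
  mul_smul g h a := by
    ext1
    · exact mul_smul _ _ _
    · exact tr_mul _ _ _
  smul_zero h := by
    ext1
    · exact smul_zero _
    · exact tr_zero _
  smul_add h a b := by
    ext1
    · exact smul_add _ _ _
    · exact tr_add _ _ _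

theorem smul_y (h : Q) (a : ZK Q K) : (h • a).y = h • a.y := rfl
theorem smul_r (h : Q) (a : ZK Q K) : (h • a).r = tr h a.r := rfl

end ZK

end

section Deriv

variable {G : Type u} {Q : Type v} {K : Type w} [Group G] [Group Q] [AddCommGroup K]
  [DistribMulAction Q K] (π : G →* Q) (j : G → K)

open FK

/-- there is a function commuting with the translations by the image -/
theorem exists_lam : ∃ l : Q → G, ∀ (g : G) (s : Q), π (l ((π g)⁻¹ * s)) = (π g)⁻¹ * π (l s) := by
  let S : Subgroup Q := π.range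
  let ρ : Q → Q := fun s => Quotient.out (Quotient.mk (QuotientGroup.rightRel S) s)
  have h1 : ∀ s : Q, s * (ρ s)⁻¹ ∈ S := by
    intro s
    have := Quotient.mk_out (s := QuotientGroup.rightRel S) s
    exact QuotientGroup.rightRel_apply.mp this
  have h2 : ∀ t ∈ S, ∀ s : Q, ρ (t * s) = ρ s := by
    intro t ht s
    have : Quotient.mk (QuotientGroup.rightRel S) (t * s) =
        Quotient.mk (QuotientGroup.rightRel S) s := by
      apply Quotient.sound
      apply QuotientGroup.rightRel_apply.mpr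
      rw [show s * (t * s)⁻¹ = t⁻¹ by group]
      exact S.inv_mem ht
    simp only [ρ, this]
  choose l hl using fun s => h1 s
  refine ⟨l, ?_⟩
  intro g s
  rw [hl, hl, h2 _ (S.inv_mem ⟨g, rfl⟩), mul_assoc]

theorem exists_deriv_aux (hj1 : ∀ a b : G, π a = 1 → π b = 1 → j (a * b) = j a + j b)
    (hj2 : ∀ g a : G, π a = 1 → j (g * a * g⁻¹) = π g • j a) :
    ∃ δ : G → FK Q K, (∀ g h, δ (g * h) = δ g + π g • δ h) ∧ ∀ a, π a = 1 → δ a = const (j a) := by
  obtain ⟨l, hl⟩ := exists_lam π
  refine ⟨fun g s => j (g * l ((π g)⁻¹ * s) * (l s)⁻¹), ?_, ?_⟩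
  · intro g h
    funext s
    show j (g * h * l ((π (g * h))⁻¹ * s) * (l s)⁻¹) = j (g * l ((π g)⁻¹ * s) * (l s)⁻¹) +
      π g • j (h * l ((π h)⁻¹ * ((π g)⁻¹ * s)) * (l ((π g)⁻¹ * s))⁻¹)
    rw [← hj2, add_comm, ← hj1]
    · congr 1
      rw [map_mul, mul_inv_rev]
      simp only [mul_assoc, inv_mul_cancel_left]
    · rw [map_mul, map_mul, map_mul, map_mul, map_inv, map_inv, hl, hl]
      group
    · rw [map_mul, map_mul, map_inv, hl]
      group
    · rw [map_mul, map_mul, map_inv, hl, hl]
      group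
  · intro a ha
    funext s
    show j (a * l ((π a)⁻¹ * s) * (l s)⁻¹) = j a
    rw [ha, inv_one, one_mul, mul_inv_cancel_right]

/-- existence of an additive map whose differences are the given derivation up to constants -/
theorem exists_potential {δ : G → FK Q K} (hδ : ∀ g h, δ (g * h) = δ g + π g • δ h)
    (hδc : ∀ a, π a = 1 → δ a ∈ consts Q K) :
    ∃ φ : Q → FK Q K, ∀ (w : Q) (g : G), φ (w * π g) - φ w - w • δ g ∈ consts Q K := by
  let S : Subgroup Q := π.range
  let b : Q → Q := fun w => Quotient.out (w : Q ⧸ S)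
  have hb1 : ∀ w : Q, (b w)⁻¹ * w ∈ S := by
    intro w
    have : (b w : Q ⧸ S) = w := Quotient.out_eq _
    exact QuotientGroup.eq.mp this
  have hb2 : ∀ (w : Q) (g : G), b (w * π g) = b w := by
    intro w g
    have : ((w * π g : Q) : Q ⧸ S) = w := by
      apply QuotientGroup.eq.mpr
      rw [show (w * π g)⁻¹ * w = (π g)⁻¹ by group]
      exact S.inv_mem ⟨g, rfl⟩
    simp only [b, this]
  choose σ hσ using hb1
  refine ⟨fun w => b w • δ (σ w), ?_⟩
  intro w g
  simp only
  rw [hb2]
  have e1 : π ((σ w * g)⁻¹ * σ (w * π g)) = 1 := by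
    rw [map_mul, map_inv, map_mul, hσ, hσ, hb2]
    group
  have e2 : σ (w * π g) = σ w * g * ((σ w * g)⁻¹ * σ (w * π g)) := by group
  have e3 : δ (σ (w * π g)) = δ (σ w) + π (σ w) • δ g +
      π (σ w * g) • δ ((σ w * g)⁻¹ * σ (w * π g)) := by
    conv_lhs => rw [e2]
    rw [hδ, hδ]
  have e4 : b w • π (σ w) • δ g = w • δ g := by
    rw [hσ, smul_smul, mul_inv_cancel_left]
  have e5 : b w • δ (σ (w * π g)) - b w • δ (σ w) - w • δ g =
      b w • π (σ w * g) • δ ((σ w * g)⁻¹ * σ (w * π g)) := by
    rw [e3, smul_add, smul_add, e4]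
    abel
  rw [e5]
  exact FK.smul_consts _ (FK.smul_consts _ (hδc _ e1))

theorem exists_deriv (P : BO Q) (R : MO Q K)
    (hj1 : ∀ a b : G, π a = 1 → π b = 1 → j (a * b) = j a + j b)
    (hj2 : ∀ g a : G, π a = 1 → j (g * a * g⁻¹) = π g • j a) :
    ∃ (X : Type (max v w)) (_ : AddCommGroup X) (_ : DistribMulAction Q X) (T : MO Q X)
      (δ : G → X), (∀ g h, δ (g * h) = δ g + π g • δ h) ∧
      ∀ a, π a = 1 → R.pos (j a) → T.pos (δ a) := by
  obtain ⟨δ, hδ, hδc⟩ := exists_deriv_aux π j hj1 hj2
  obtain ⟨φ, hφ⟩ := exists_potential π hδ (fun a ha => ⟨j a, hδc a ha⟩)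
  let Φ : (Q →₀ ℤ) →+ FK Q K := Finsupp.liftAddHom fun w => zmultiplesHom _ (φ w)
  have hΦ : ∀ w : Q, Φ (Finsupp.single w 1) = φ w := by
    intro w
    simp [Φ]
  let gen : Set (ZK Q K) := {z | (∃ κ : K, z = ⟨const κ, 0⟩) ∨
    ∃ (w : Q) (g : G), z = ⟨w • δ g, Finsupp.single (w * π g) 1 - Finsupp.single w 1⟩}
  let X : AddSubgroup (ZK Q K) := AddSubgroup.closure gen
  have hXs : ∀ (h : Q) (z : ZK Q K), z ∈ X → h • z ∈ X := by
    intro h z hz
    induction hz using AddSubgroup.closure_induction with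
    | mem z hz =>
      apply AddSubgroup.subset_closure
      rcases hz with ⟨κ, rfl⟩ | ⟨w, g, rfl⟩
      · left
        refine ⟨h • κ, ?_⟩
        ext1
        · rfl
        · exact tr_zero h
      · right
        refine ⟨h * w, g, ?_⟩
        ext1
        · rw [ZK.smul_y, mul_smul]
        · rw [ZK.smul_r, tr_sub, tr_single, tr_single, mul_assoc]
    | zero =>
      rw [smul_zero]
      exact X.zero_mem
    | add a b _ _ h1 h2 =>
      rw [smul_add]
      exact X.add_mem h1 h2
    | neg a _ h1 =>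
      rw [smul_neg]
      exact X.neg_mem h1
  have hXΦ : ∀ z ∈ X, z.y - Φ z.r ∈ consts Q K := by
    intro z hz
    induction hz using AddSubgroup.closure_induction with
    | mem z hz =>
      rcases hz with ⟨κ, rfl⟩ | ⟨w, g, rfl⟩
      · rw [map_zero, sub_zero]
        exact ⟨κ, rfl⟩
      · simp only
        rw [map_sub, hΦ, hΦ]
        have := (consts Q K).neg_mem (hφ w g)
        rwa [show -(φ (w * π g) - φ w - w • δ g) = w • δ g - (φ (w * π g) - φ w) by abel] at this
    | zero =>
      rw [ZK.zero_y, ZK.zero_r, map_zero, sub_zero]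
      exact (consts Q K).zero_mem
    | add a b _ _ h1 h2 =>
      rw [ZK.add_y, ZK.add_r, map_add]
      have := (consts Q K).add_mem h1 h2
      rwa [show a.y - Φ a.r + (b.y - Φ b.r) = a.y + b.y - (Φ a.r + Φ b.r) by abel] at this
    | neg a _ h1 =>
      rw [ZK.neg_y, ZK.neg_r, map_neg]
      have := (consts Q K).neg_mem h1
      rwa [show -(a.y - Φ a.r) = -a.y - -Φ a.r by abel] at this
  let actX : DistribMulAction Q X :=
    { smul := fun h x => ⟨h • x.1, hXs h x.1 x.2⟩
      one_smul := fun x => Subtype.ext (one_smul _ _)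
      mul_smul := fun g h x => Subtype.ext (mul_smul _ _ _)
      smul_zero := fun h => Subtype.ext (smul_zero _)
      smul_add := fun h a b => Subtype.ext (smul_add _ _ _) }
  have actX_def : ∀ (h : Q) (x : X), ((h • x : X) : ZK Q K) = h • (x : ZK Q K) := fun _ _ => rfl
  let pos : X → Prop := fun x => leadPos P x.1.r ∨ (x.1.r = 0 ∧ ∃ κ, R.pos κ ∧ x.1.y = const κ)
  have p_add : ∀ {a b : X}, pos a → pos b → pos (a + b) := by
    rintro a b (ha | ⟨ha, κ, hκ, ha'⟩) (hb | ⟨hb, κ', hκ', hb'⟩)
    · exact Or.inl (leadPos_add P ha hb)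
    · left
      rw [AddSubgroup.coe_add, ZK.add_r, hb, add_zero]
      exact ha
    · left
      rw [AddSubgroup.coe_add, ZK.add_r, ha, zero_add]
      exact hb
    · right
      refine ⟨?_, κ + κ', R.add hκ hκ', ?_⟩
      · rw [AddSubgroup.coe_add, ZK.add_r, ha, hb, add_zero]
      · rw [AddSubgroup.coe_add, ZK.add_y, ha', hb']
        rfl
  have p_smul : ∀ {a : X} (g : Q), pos a → pos (g • a) := by
    rintro a g (ha | ⟨ha, κ, hκ, ha'⟩)
    · left
      rw [actX_def, ZK.smul_r]
      exact leadPos_tr P ha g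
    · right
      refine ⟨?_, g • κ, R.smul g hκ, ?_⟩
      · rw [actX_def, ZK.smul_r, ha, tr_zero]
      · rw [actX_def, ZK.smul_y, ha']
        rfl
  have p_zero : ¬ pos 0 := by
    rintro (h | ⟨_, κ, hκ, h⟩)
    · exact leadPos_zero P h
    · have h1 : (0 : K) = κ := congrFun h (1 : Q)
      rw [← h1] at hκ
      exact R.zero hκ
  have p_tot : ∀ {a : X}, a ≠ 0 → pos a ∨ pos (-a) := by
    intro a ha
    by_cases hr : a.1.r = 0
    · have h1 := hXΦ a.1 a.2
      rw [hr, map_zero, sub_zero] at h1
      obtain ⟨κ, hκ⟩ := h1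
      have hκ0 : κ ≠ 0 := by
        rintro rfl
        apply ha
        apply Subtype.ext
        exact ZK.ext hκ hr
      rcases R.tot hκ0 with h | h
      · exact Or.inl (Or.inr ⟨hr, κ, h, hκ⟩)
      · right
        right
        refine ⟨?_, -κ, h, ?_⟩
        · rw [AddSubgroup.coe_neg, ZK.neg_r, hr, neg_zero]
        · rw [AddSubgroup.coe_neg, ZK.neg_y, hκ]
          rfl
    · rcases leadPos_tot P hr with h | h
      · exact Or.inl (Or.inl h)
      · exact Or.inr (Or.inl h)
  have hmem : ∀ g : G, (⟨δ g, Finsupp.single (π g) 1 - Finsupp.single 1 1⟩ : ZK Q K) ∈ X := by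
    intro g
    apply AddSubgroup.subset_closure
    right
    exact ⟨1, g, by rw [one_smul, one_mul]⟩
  refine ⟨X, inferInstance, actX, ⟨pos, p_add, p_smul, p_zero, p_tot⟩, fun g => ⟨_, hmem g⟩, ?_, ?_⟩
  · intro g h
    apply Subtype.ext
    show (⟨δ (g * h), Finsupp.single (π (g * h)) 1 - Finsupp.single 1 1⟩ : ZK Q K) =
      (⟨δ g, Finsupp.single (π g) 1 - Finsupp.single 1 1⟩ : ZK Q K) +
        π g • (⟨δ h, Finsupp.single (π h) 1 - Finsupp.single 1 1⟩ : ZK Q K)
    ext1
    · rw [ZK.add_y, ZK.smul_y]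
      exact hδ g h
    · rw [ZK.add_r, ZK.smul_r, tr_sub, tr_single, tr_single, mul_one, map_mul]
      exact (sub_add_sub_cancel' _ _ _).symm
  · intro a ha hpos
    right
    refine ⟨?_, j a, hpos, hδc a ha⟩
    simp only
    rw [ha, sub_self]

end Deriv

end Pool.H8
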