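import Pool.Agent.H8.Od14
import Pool.Agent.H8.Od7

set_option autoImplicit false
set_option backward.isDefEq.respectTransparency.types true
set_option linter.unusedSectionVars false

/-! Extensions of ordered modules by nilpotent groups map to divisible ordered groups. -/

namespace Pool.H8

open Finset
open scoped commutatorElement

universe u v w

section Fin

variable {S : Type u} {A : Type u} [Group S] [AddCommGroup A] [DistribMulAction S A]

/-- the upper fixed point series -/
def UFA (A : Type u) [AddCommGroup A] [DistribMulAction S A] (H : Subgroup S) : ℕ → AddSubgroup A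
  | 0 => ⊥
  | i + 1 =>
    { carrier := {v | ∀ h ∈ H, h • v - v ∈ UFA A H i}
      zero_mem' := by
        intro h _
        rw [smul_zero, sub_zero]
        exact (UFA A H i).zero_mem
      add_mem' := by
        intro a b ha hb h hh
        rw [smul_add, show h • a + h • b - (a + b) = (h • a - a) + (h • b - b) by abel]
        exact (UFA A H i).add_mem (ha h hh) (hb h hh)
      neg_mem' := by
        intro a ha h hh
        rw [smul_neg, show -(h • a) - -a = -(h • a - a) by abel]
        exact (UFA A H i).neg_mem (ha h hh) }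

theorem mem_UFA_succ (H : Subgroup S) (i : ℕ) (v : A) :
    v ∈ UFA A H (i + 1) ↔ ∀ h ∈ H, h • v - v ∈ UFA A H i := Iff.rfl

end Fin

theorem UFA_UF {S : Type u} {A : Type u} [Group S] [AddCommGroup A] [LinearOrder A]
    [IsOrderedAddMonoid A] [DistribMulAction S A] (H : Subgroup S) (i : ℕ) :
    ∀ (a : A) (n : ℕ+), a ∈ UFA A H i → DivisibleHull.mk a n ∈ UF (V := DivisibleHull A) H i := by
  induction i with
  | zero =>
    intro a n ha
    have h1 : a = 0 := ha
    rw [h1, DivisibleHull.mk_zero]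
    exact (UF (V := DivisibleHull A) H 0).zero_mem
  | succ i ih =>
    intro a n ha h hh
    have h1 := ih _ n (ha h hh)
    have h2 : h • (DivisibleHull.mk a n) - DivisibleHull.mk a n =
        DivisibleHull.mk (h • a - a) n := by
      rw [hull_smul_mk, sub_eq_add_neg, DivisibleHull.neg_mk, DivisibleHull.mk_add_mk_left,
        sub_eq_add_neg]
    rw [h2]
    exact h1

theorem theoremB {G S A : Type u} [Group G] [Group S] [AddCommGroup A] [LinearOrder A]
    [IsOrderedAddMonoid A] [DistribMulAction S A]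
    (hSA : ∀ (s : S) (a : A), 0 < a → 0 < s • a) {c : ℕ} (hS : NilC c S)
    (htf : ∀ s : S, ∀ n : ℕ, 0 < n → s ^ n = 1 → s = 1)
    (H : Subgroup S) (hHn : H.Normal) (hHc : ∀ a b : S, ⁅a, b⁆ ∈ H) {k : ℕ}
    (hk : UFA A H k = ⊤) (π : G →* S) (κ : G → A)
    (hκ1 : ∀ a b : G, π a = 1 → π b = 1 → κ (a * b) = κ a + κ b)
    (hκ2 : ∀ g a : G, π a = 1 → κ (g * a * g⁻¹) = π g • κ a) :
    ∃ (Γ : Type u) (_ : Group Γ) (B : BO Γ) (ι : G →* Γ),
      (∀ (x : Γ) (n : ℕ), 0 < n → ∃ y : Γ, y ^ n = x) ∧
      ∀ a, π a = 1 → 0 < κ a → B.pos (ι a) := by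
  have hSV : ∀ (s : S) (v : DivisibleHull A), 0 < v → 0 < s • v := hull_pos hSA
  have hkV : UF (V := DivisibleHull A) H k = ⊤ := by
    rw [eq_top_iff]
    intro v _
    induction v with | mk m n
    exact UFA_UF H k m n (by rw [hk]; trivial)
  obtain ⟨Q, W, iQ, iW, e, τ, c', he, hQ, hUD, hroot, hτ⟩ := exists_hull hS htf
    (TT (DivisibleHull A) H) (fun a b => le_TT H hHn (hHc a b))
    (fun s n hn hs => TT_isol hSV hkV hn hs)
  obtain ⟨ρ, hρ1, hρ2⟩ := exists_rho hSV hkV he hQ hroot hτ
  obtain ⟨K, iK, aK, R, jK, hj1, hj2⟩ := exists_K (e := e) (ρ := ρ) hSV hkV hQ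
    (fun t => (hρ1 t).1) hρ2 (fun t => (hρ1 t).2)
  have := hQ.isNilpotent
  obtain ⟨P⟩ := UD.exists_bo Q hUD
  obtain ⟨X, iX, aX, T, δ, hδ1, hδ2⟩ := exists_deriv (e.comp π)
    (fun g => jK (DivisibleHull.coe (κ g))) P R (by
      intro a b ha hb
      have ha' : π a = 1 := he (by rw [map_one]; exact ha)
      have hb' : π b = 1 := he (by rw [map_one]; exact hb)
      rw [hκ1 a b ha' hb', DivisibleHull.coe_add, map_add]) (by
      intro g a ha
      have ha' : π a = 1 := he (by rw [map_one]; exact ha)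
      rw [hκ2 g a ha']
      show jK (π g • DivisibleHull.coe (κ a)) = e (π g) • _
      rw [hj1])
  obtain ⟨Y, iY, aY, T', f, hf1, hf2, hf3⟩ := exists_loc hQ P X T
  refine ⟨SD Q Y, inferInstance, SD.bo P T', MonoidHom.mk' (fun g => ⟨f (δ g), e (π g)⟩) ?_, ?_, ?_⟩
  · intro a b
    ext1
    · rw [SD.mul_m]
      show f (δ (a * b)) = f (δ a) + e (π a) • f (δ b)
      rw [hδ1, map_add, hf1]
      rfl
    · rw [SD.mul_q]
      simp
  · intro x n hn
    refine SD.divisible ?_ ?_ x n hn
    · intro q n hn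
      exact hUD.exists_root hn q
    · intro q n hn m
      exact hf3 q n hn m
  · intro a ha hpos
    right
    refine ⟨?_, ?_⟩
    · show e (π a) = 1
      rw [ha, map_one]
    · apply hf2
      apply hδ2
      · show e (π a) = 1
        rw [ha, map_one]
      · apply hj2
        exact (hull_mk_pos (κ a) 1).mpr hpos

end Pool.H8
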