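import Pool.Agent.H8.Od4

set_option autoImplicit false
set_option backward.isDefEq.respectTransparency.types true
set_option linter.unusedSectionVars false

/-! Convex normal subgroups of ordered groups. -/

namespace Pool.H8

open Finset
open scoped commutatorElement

universe u v w

section Ab

variable {G : Type u} [Group G] [LinearOrder G] [MulLeftMono G] [MulRightMono G]

/-- the absolute value -/
def ab (u : G) : G := max u u⁻¹

theorem ab_cases (u : G) : ab u = u ∨ ab u = u⁻¹ := by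
  unfold ab
  rcases le_total u u⁻¹ with h | h
  · right
    exact max_eq_right h
  · left
    exact max_eq_left h

theorem le_ab (u : G) : u ≤ ab u := le_max_left _ _

theorem inv_le_ab (u : G) : u⁻¹ ≤ ab u := le_max_right _ _

theorem one_le_ab (u : G) : 1 ≤ ab u := by
  rcases le_total 1 u with h | h
  · exact h.trans (le_ab u)
  · exact (one_le_inv'.mpr h).trans (inv_le_ab u)

theorem ab_one : ab (1 : G) = 1 := by
  unfold ab
  simp

theorem ab_inv (u : G) : ab u⁻¹ = ab u := by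
  unfold ab
  rw [inv_inv, max_comm]

theorem one_lt_ab {u : G} (h : u ≠ 1) : 1 < ab u := by
  rcases lt_trichotomy 1 u with h1 | h1 | h1
  · exact h1.trans_le (le_ab u)
  · exact absurd h1.symm h
  · exact (one_lt_inv'.mpr h1).trans_le (inv_le_ab u)

theorem ab_of_one_lt {u : G} (h : 1 < u) : ab u = u := by
  apply le_antisymm _ (le_ab u)
  apply max_le le_rfl
  exact (inv_lt_one'.mpr h).le.trans h.le

theorem ab_le_iff {u v : G} : ab u ≤ v ↔ u ≤ v ∧ u⁻¹ ≤ v := max_le_iff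

theorem conj_mono (g : G) {u v : G} (h : u ≤ v) : g * u * g⁻¹ ≤ g * v * g⁻¹ :=
  mul_le_mul_left (mul_le_mul_right h g) g⁻¹

theorem conj_lt (g : G) {u v : G} (h : u < v) : g * u * g⁻¹ < g * v * g⁻¹ :=
  mul_lt_mul_left (mul_lt_mul_right h g) g⁻¹

theorem ab_conj (g u : G) : ab (g * u * g⁻¹) = g * ab u * g⁻¹ := by
  apply le_antisymm
  · rw [ab_le_iff]
    constructor
    · exact conj_mono g (le_ab u)
    · have := conj_mono g (inv_le_ab u)
      rwa [show g * u⁻¹ * g⁻¹ = (g * u * g⁻¹)⁻¹ by group] at this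
  · rcases ab_cases u with h | h
    · rw [h]
      exact le_ab _
    · rw [h, show g * u⁻¹ * g⁻¹ = (g * u * g⁻¹)⁻¹ by group]
      exact inv_le_ab _

theorem pow_conj (g u : G) (n : ℕ) : (g * u * g⁻¹) ^ n = g * u ^ n * g⁻¹ := conj_pow

theorem mul_le_sq {u v w : G} (hu : u ≤ w) (hv : v ≤ w) : u * v ≤ w ^ 2 := by
  rw [pow_two]
  exact mul_le_mul' hu hv

theorem ab_mul_le {u v w : G} (hu : ab u ≤ w) (hv : ab v ≤ w) : ab (u * v) ≤ w ^ 2 := by
  rw [ab_le_iff] at *
  exact ⟨mul_le_sq hu.1 hv.1, by rw [mul_inv_rev]; exact mul_le_sq hv.2 hu.2⟩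

theorem pow_mono {u v : G} (h : u ≤ v) (n : ℕ) : u ^ n ≤ v ^ n := pow_le_pow_left' h n

theorem pow_mono_right {u : G} (h : 1 ≤ u) {m n : ℕ} (hmn : m ≤ n) : u ^ m ≤ u ^ n :=
  pow_le_pow_right' h hmn

theorem pow_strict {u : G} (h : 1 < u) {m n : ℕ} (hmn : m < n) : u ^ m < u ^ n :=
  pow_lt_pow_right' h hmn

theorem pow_inj_ord {n : ℕ} (hn : 0 < n) {x y : G} (h : x ^ n = y ^ n) : x = y := by
  rcases lt_trichotomy x y with h1 | h1 | h1
  · exact absurd h (pow_lt_pow_left' hn.ne' h1).ne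
  · exact h1
  · exact absurd h (pow_lt_pow_left' hn.ne' h1).ne'

theorem comm_of_pow_ord {n : ℕ} (hn : 0 < n) {x g : G} (hx : x ^ n * g = g * x ^ n) :
    x * g = g * x := by
  have h1 : (g⁻¹ * x * g) ^ n = x ^ n := by
    have h2 : (g⁻¹ * x * g) ^ n = g⁻¹ * x ^ n * g := by
      have := conj_pow (i := n) (a := g⁻¹) (b := x)
      rwa [inv_inv] at this
    rw [h2, mul_assoc, hx, inv_mul_cancel_left]
  have h2 := pow_inj_ord hn h1
  calc x * g = g * (g⁻¹ * x * g) := by group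
    _ = g * x := by rw [h2]

end Ab

section Hull

variable {G : Type u} [Group G] [LinearOrder G] [MulLeftMono G] [MulRightMono G]

/-- the convex normal subgroup generated by an element -/
def DD (x : G) : Subgroup G where
  carrier := {u | ∃ (n : ℕ) (g : G), ab u ≤ g * (ab x) ^ n * g⁻¹}
  one_mem' := ⟨0, 1, by simp [ab_one]⟩
  inv_mem' := by
    rintro u ⟨n, g, h⟩
    exact ⟨n, g, by rw [ab_inv]; exact h⟩
  mul_mem' := by
    rintro u v ⟨n, g, h⟩ ⟨m, k, h'⟩
    have e1 : ∀ (g : G) (n m : ℕ), n ≤ m → g * ab x ^ n * g⁻¹ ≤ g * ab x ^ m * g⁻¹ :=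
      fun g n m hnm => conj_mono g (pow_mono_right (one_le_ab x) hnm)
    have e2 : ∀ (g : G) (n : ℕ), (g * ab x ^ n * g⁻¹) ^ 2 = g * ab x ^ (n * 2) * g⁻¹ := by
      intro g n
      rw [pow_conj, ← pow_mul]
    rcases le_total (g * ab x ^ (n + m) * g⁻¹) (k * ab x ^ (n + m) * k⁻¹) with h1 | h1
    · refine ⟨(n + m) * 2, k, ?_⟩
      rw [← e2]
      apply ab_mul_le
      · exact (h.trans (e1 g n (n + m) (by omega))).trans h1
      · exact h'.trans (e1 k m (n + m) (by omega))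
    · refine ⟨(n + m) * 2, g, ?_⟩
      rw [← e2]
      apply ab_mul_le
      · exact h.trans (e1 g n (n + m) (by omega))
      · exact (h'.trans (e1 k m (n + m) (by omega))).trans h1

theorem mem_DD (x u : G) : u ∈ DD x ↔ ∃ (n : ℕ) (g : G), ab u ≤ g * (ab x) ^ n * g⁻¹ := Iff.rfl

theorem DD_conj (x u g : G) (hu : u ∈ DD x) : g * u * g⁻¹ ∈ DD x := by
  obtain ⟨n, k, h⟩ := hu
  refine ⟨n, g * k, ?_⟩
  rw [ab_conj]
  have := conj_mono g h
  rwa [show g * (k * ab x ^ n * k⁻¹) * g⁻¹ = g * k * ab x ^ n * (g * k)⁻¹ by group] at this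

/-- the intersection of the nontrivial convex normal subgroups -/
def JJ (G : Type u) [Group G] [LinearOrder G] [MulLeftMono G] [MulRightMono G] : Subgroup G :=
  ⨅ x : {x : G // x ≠ 1}, DD x.1

theorem mem_JJ (u : G) : u ∈ JJ G ↔ ∀ x : G, x ≠ 1 → u ∈ DD x := by
  unfold JJ
  rw [Subgroup.mem_iInf]
  exact ⟨fun h x hx => h ⟨x, hx⟩, fun h x => h x.1 x.2⟩

theorem JJ_conj (u g : G) (hu : u ∈ JJ G) : g * u * g⁻¹ ∈ JJ G := by
  rw [mem_JJ] at *
  exact fun x hx => DD_conj x u g (hu x hx)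

theorem JJ_comm_left (a g : G) (ha : a ∈ JJ G) : ⁅a, g⁆ ∈ JJ G := by
  rw [commutatorElement_def, show a * g * a⁻¹ * g⁻¹ = a * (g * a⁻¹ * g⁻¹) by group]
  exact (JJ G).mul_mem ha (JJ_conj _ g ((JJ G).inv_mem ha))

theorem JJ_comm_right (a g : G) (ha : a ∈ JJ G) : ⁅g, a⁆ ∈ JJ G := by
  rw [commutatorElement_def]
  exact (JJ G).mul_mem (JJ_conj _ g ha) ((JJ G).inv_mem ha)

variable (V : Subgroup G) [V.Normal]

/-- the preimages of the lower central series -/
def GG (i : ℕ) : Subgroup G :=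
  ((⊤ : Subgroup (G ⧸ V)).lowerCentralSeries i).comap (QuotientGroup.mk' V)

theorem GG_comm_left (i : ℕ) (a g : G) (ha : a ∈ GG V i) : ⁅a, g⁆ ∈ GG V (i + 1) := by
  unfold GG at *
  rw [Subgroup.mem_comap] at *
  rw [map_commutatorElement]
  exact Subgroup.commutator_mem_commutator ha trivial

theorem GG_comm_right (i : ℕ) (a g : G) (ha : a ∈ GG V i) : ⁅g, a⁆ ∈ GG V (i + 1) := by
  rw [← commutatorElement_inv]
  exact (GG V (i + 1)).inv_mem (GG_comm_left V i a g ha)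

theorem GG_anti {i j : ℕ} (hij : i ≤ j) : GG V j ≤ GG V i :=
  Subgroup.comap_mono (Subgroup.lowerCentralSeries_antitone _ hij)

theorem GG_bot {c : ℕ} (hc : NilC c (G ⧸ V)) : GG V c ≤ V := by
  intro x hx
  unfold GG at hx
  rw [Subgroup.mem_comap, hc, Subgroup.mem_bot] at hx
  exact (QuotientGroup.eq_one_iff x).mp hx

theorem GG_zero (a : G) : a ∈ GG V 0 := trivial

variable {V}

/-- the basic estimate -/
theorem comm_small (hV : ∀ a ∈ V, ∀ b ∈ V, a * b = b * a) {a v : G} (hv : v ∈ V) (ha : a ≠ 1)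
    (n : ℕ) : (ab ⁅a, v⁆) ^ n < ab a := by
  have hz : ⁅a, v⁆ ∈ V := by
    rw [commutatorElement_def]
    exact V.mul_mem (‹V.Normal›.conj_mem v hv a) (V.inv_mem hv)
  have hzv : Commute v ⁅a, v⁆ := hV v hv _ hz
  have e1 : v * a * v⁻¹ = ⁅a, v⁆⁻¹ * a := by
    rw [commutatorElement_def]
    group
  have e2 : ∀ n : ℕ, v ^ n * a * (v ^ n)⁻¹ = (⁅a, v⁆ ^ n)⁻¹ * a := by
    intro n
    induction n with
    | zero => simp
    | succ n ih =>
      have e3 : v ^ (n + 1) * a * (v ^ (n + 1))⁻¹ = v * (v ^ n * a * (v ^ n)⁻¹) * v⁻¹ := by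
        rw [pow_succ']
        group
      have e4 : v * (⁅a, v⁆ ^ n)⁻¹ = (⁅a, v⁆ ^ n)⁻¹ * v := (hzv.pow_right n).inv_right
      rw [e3, ih, pow_succ']
      calc v * ((⁅a, v⁆ ^ n)⁻¹ * a) * v⁻¹ = (v * (⁅a, v⁆ ^ n)⁻¹) * a * v⁻¹ := by
            simp only [mul_assoc]
        _ = (⁅a, v⁆ ^ n)⁻¹ * (v * a * v⁻¹) := by rw [e4]; simp only [mul_assoc]
        _ = (⁅a, v⁆ * ⁅a, v⁆ ^ n)⁻¹ * a := by rw [e1, mul_inv_rev]; simp only [mul_assoc]
  have e5 : ∀ n : ℕ, (v⁻¹) ^ n * a * ((v⁻¹) ^ n)⁻¹ = ⁅a, v⁆ ^ n * a := by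
    intro n
    have e6 := e2 n
    have e7 : v ^ n * ⁅a, v⁆ ^ n = ⁅a, v⁆ ^ n * v ^ n := (hzv.pow_pow n n)
    rw [inv_pow, inv_inv]
    have e8 : a = (v ^ n)⁻¹ * ((⁅a, v⁆ ^ n)⁻¹ * a) * v ^ n := by
      rw [← e6]
      group
    have e9 : ⁅a, v⁆ ^ n * a = (v ^ n)⁻¹ * (v ^ n * ⁅a, v⁆ ^ n) * ((v ^ n)⁻¹ *
        ((⁅a, v⁆ ^ n)⁻¹ * a) * v ^ n) := by
      rw [← e8]
      group
    rw [e9, e7]
    group
  -- positivity of the conjugates
  have pos : ∀ (g : G), 1 < a → 1 < g * a * g⁻¹ := by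
    intro g h
    have := conj_lt g h
    simpa using this
  have neg : ∀ (g : G), a < 1 → g * a * g⁻¹ < 1 := by
    intro g h
    have := conj_lt g h
    simpa using this
  rcases lt_or_gt_of_ne ha with h | h
  · -- negative a
    have h1 := neg (v ^ n) h
    have h2 := neg ((v⁻¹) ^ n) h
    rw [e2] at h1
    rw [e5] at h2
    -- z^n > a, z^{-n} > a
    have h3 : a < ⁅a, v⁆ ^ n := by
      have := mul_lt_mul_right h1 (⁅a, v⁆ ^ n)
      simpa using this
    have h4 : a < (⁅a, v⁆ ^ n)⁻¹ := by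
      have := mul_lt_mul_right h2 ((⁅a, v⁆ ^ n)⁻¹)
      simpa using this
    have h5 : a⁻¹ ≤ ab a := inv_le_ab a
    rcases ab_cases ⁅a, v⁆ with h6 | h6
    · rw [h6]
      have : ((⁅a, v⁆ ^ n)⁻¹)⁻¹ < a⁻¹ := inv_lt_inv_iff.mpr h4
      rw [inv_inv] at this
      exact this.trans_le h5
    · rw [h6, inv_pow]
      exact (inv_lt_inv_iff.mpr h3).trans_le h5
  · have h1 := pos (v ^ n) h
    have h2 := pos ((v⁻¹) ^ n) h
    rw [e2] at h1
    rw [e5] at h2
    have h3 : ⁅a, v⁆ ^ n < a := by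
      have := mul_lt_mul_right h1 (⁅a, v⁆ ^ n)
      simpa using this
    have h4 : (⁅a, v⁆ ^ n)⁻¹ < a := by
      have := mul_lt_mul_right h2 ((⁅a, v⁆ ^ n)⁻¹)
      simpa using this
    rcases ab_cases ⁅a, v⁆ with h6 | h6
    · rw [h6]
      exact h3.trans_le (le_ab a)
    · rw [h6, inv_pow]
      exact h4.trans_le (le_ab a)

theorem JV_comm (hV : ∀ a ∈ V, ∀ b ∈ V, a * b = b * a) {c : ℕ} (hc : NilC c (G ⧸ V)) :
    ∀ a ∈ JJ G, ∀ v ∈ V, a * v = v * a := by
  have key : ∀ m : ℕ, m ≤ c → ∀ a ∈ JJ G, a ∈ GG V (c - m) → ∀ v ∈ V, a * v = v * a := by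
    intro m
    induction m with
    | zero =>
      intro _ a _ ha v hv
      exact hV a (GG_bot V hc (by simpa using ha)) v hv
    | succ m ih =>
      intro hm a haJ ha v hv
      by_contra hne
      have hz1 : ⁅a, v⁆ ≠ 1 := fun h => hne (commutatorElement_eq_one_iff_mul_comm.mp h)
      have ha1 : a ≠ 1 := by
        rintro rfl
        exact hne (by simp)
      have hzV : ⁅a, v⁆ ∈ V := by
        rw [commutatorElement_def]
        exact V.mul_mem (‹V.Normal›.conj_mem v hv a) (V.inv_mem hv)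
      -- the commutator is unchanged
      have hconj : ∀ g : G, ⁅g * a * g⁻¹, v⁆ = ⁅a, v⁆ := by
        intro g
        have hbJ : ⁅g, a⁆ ∈ JJ G := JJ_comm_right a g haJ
        have hbG : ⁅g, a⁆ ∈ GG V (c - m) := by
          have := GG_comm_right V _ a g ha
          rwa [show c - (m + 1) + 1 = c - m by omega] at this
        have h1 := ih (by omega) _ hbJ hbG v hv
        have h2 := ih (by omega) _ hbJ hbG _ hzV
        have e1 : g * a * g⁻¹ = ⁅g, a⁆ * a := by
          rw [commutatorElement_def]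
          group
        have e2 : a * v * a⁻¹ = ⁅a, v⁆ * v := by
          rw [commutatorElement_def]
          group
        rw [e1]
        generalize ⁅g, a⁆ = b at *
        generalize ⁅a, v⁆ = z at *
        calc ⁅b * a, v⁆ = b * (a * v * a⁻¹) * b⁻¹ * v⁻¹ := by
              rw [commutatorElement_def]
              group
          _ = (b * z) * v * b⁻¹ * v⁻¹ := by rw [e2]; group
          _ = z * (b * v) * b⁻¹ * v⁻¹ := by rw [h2]; group
          _ = z := by rw [h1]; group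
      rw [mem_JJ] at haJ
      obtain ⟨n, g, hn⟩ := haJ _ hz1
      have h1 : g⁻¹ * a * (g⁻¹)⁻¹ ≠ 1 := by
        intro h
        apply ha1
        rw [inv_inv] at h
        calc a = g * (g⁻¹ * a * g) * g⁻¹ := by group
          _ = 1 := by rw [h]; group
      have h2 := comm_small hV hv h1 n
      rw [hconj, ab_conj] at h2
      have h3 := conj_lt g h2
      rw [show g * (g⁻¹ * ab a * (g⁻¹)⁻¹) * g⁻¹ = ab a by group] at h3
      exact absurd hn (not_le.mpr h3)
  intro a ha v hv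
  exact key c le_rfl a ha (by rw [Nat.sub_self]; exact GG_zero V a) v hv

theorem JJ_comm (hV : ∀ a ∈ V, ∀ b ∈ V, a * b = b * a) {c : ℕ} (hc : NilC c (G ⧸ V)) :
    ∀ a ∈ JJ G, ∀ b ∈ JJ G, a * b = b * a := by
  have hJV := JV_comm hV hc
  have key : ∀ m : ℕ, m ≤ 2 * c → ∀ i j, 2 * c ≤ i + j + m → ∀ a ∈ JJ G, a ∈ GG V i →
      ∀ b ∈ JJ G, b ∈ GG V j → a * b = b * a := by
    intro m
    induction m with
    | zero =>
      intro _ i j hij a haJ ha b hbJ hb
      rcases le_or_gt c i with h | h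
      · exact (hJV b hbJ a (GG_bot V hc (GG_anti V h ha))).symm
      · exact hJV a haJ b (GG_bot V hc (GG_anti V (by omega) hb))
    | succ m ih =>
      intro hm i j hij a haJ ha b hbJ hb
      by_contra hne
      have hz1 : ⁅a, b⁆ ≠ 1 := fun h => hne (commutatorElement_eq_one_iff_mul_comm.mp h)
      have hzJ : ⁅a, b⁆ ∈ JJ G := JJ_comm_left a b haJ
      have hzi : ⁅a, b⁆ ∈ GG V (i + 1) := GG_comm_left V i a b ha
      have hzj : ⁅a, b⁆ ∈ GG V (j + 1) := GG_comm_right V j b a hb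
      -- the commutator is central
      have hcen : ∀ g : G, ⁅a, b⁆ * g = g * ⁅a, b⁆ := by
        intro g
        have e0 : g * ⁅a, b⁆ * g⁻¹ = ⁅⁅g, a⁆ * a, ⁅g, b⁆ * b⁆ := by
          simp only [commutatorElement_def]
          group
        have haJ' : ⁅g, a⁆ ∈ JJ G := JJ_comm_right a g haJ
        have hbJ' : ⁅g, b⁆ ∈ JJ G := JJ_comm_right b g hbJ
        have ha' : ⁅g, a⁆ ∈ GG V (i + 1) := GG_comm_right V i a g ha
        have hb' : ⁅g, b⁆ ∈ GG V (j + 1) := GG_comm_right V j b g hb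
        have c1 : ⁅g, a⁆ * b = b * ⁅g, a⁆ :=
          ih (by omega) (i + 1) j (by omega) _ haJ' ha' _ hbJ hb
        have c2 : a * ⁅g, b⁆ = ⁅g, b⁆ * a :=
          ih (by omega) i (j + 1) (by omega) _ haJ ha _ hbJ' hb'
        have c3 : ⁅g, a⁆ * ⁅g, b⁆ = ⁅g, b⁆ * ⁅g, a⁆ :=
          ih (by omega) (i + 1) (j + 1) (by omega) _ haJ' ha' _ hbJ' hb'
        have c4 : ⁅g, a⁆ * ⁅a, b⁆ = ⁅a, b⁆ * ⁅g, a⁆ :=
          ih (by omega) i (j + 1) (by omega) _ haJ' (GG_anti V (by omega) ha') _ hzJ hzj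
        have c5 : ⁅g, b⁆ * ⁅a, b⁆ = ⁅a, b⁆ * ⁅g, b⁆ :=
          ih (by omega) j (i + 1) (by omega) _ hbJ' (GG_anti V (by omega) hb') _ hzJ hzi
        have e2 : a * b * a⁻¹ = ⁅a, b⁆ * b := by
          rw [commutatorElement_def]
          group
        have e3 : g * ⁅a, b⁆ * g⁻¹ = ⁅a, b⁆ := by
          rw [e0]
          generalize ⁅g, a⁆ = a' at *
          generalize ⁅g, b⁆ = b' at *
          generalize ⁅a, b⁆ = z at *
          calc ⁅a' * a, b' * b⁆ = a' * (a * b') * b * a⁻¹ * a'⁻¹ * b⁻¹ * b'⁻¹ := by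
                rw [commutatorElement_def]
                group
            _ = (a' * b') * (a * b * a⁻¹) * a'⁻¹ * b⁻¹ * b'⁻¹ := by rw [c2]; group
            _ = (b' * a') * (z * b) * a'⁻¹ * b⁻¹ * b'⁻¹ := by rw [c3, e2]
            _ = b' * (a' * z) * b * a'⁻¹ * b⁻¹ * b'⁻¹ := by group
            _ = (b' * z) * (a' * b) * a'⁻¹ * b⁻¹ * b'⁻¹ := by rw [c4]; group
            _ = z * b' * (b * a') * a'⁻¹ * b⁻¹ * b'⁻¹ := by rw [c5, c1]
            _ = z := by group
        calc ⁅a, b⁆ * g = (g * ⁅a, b⁆ * g⁻¹) * g := by rw [e3]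
          _ = g * ⁅a, b⁆ := by group
      have hab : a * b = ⁅a, b⁆ * (b * a) := by
        rw [commutatorElement_def]
        group
      set z := ⁅a, b⁆ with hzdef
      have hz1' : 1 < ab z := one_lt_ab hz1
      have habc : ∀ g : G, ab z * g = g * ab z := by
        intro g
        rcases ab_cases z with h | h
        · rw [h]
          exact hcen g
        · rw [h]
          have h1 : Commute z g := hcen g
          exact h1.inv_left
      have hbd : ∀ x ∈ JJ G, ∃ k : ℕ, ab x ≤ ab z ^ k := by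
        intro x hx
        rw [mem_JJ] at hx
        obtain ⟨k, g, hk⟩ := hx z hz1
        refine ⟨k, ?_⟩
        have h1 : Commute (ab z ^ k) g := Commute.pow_left (habc g) k
        rwa [← h1.eq, mul_inv_cancel_right] at hk
      obtain ⟨k1, hk1⟩ := hbd a haJ
      obtain ⟨k2, hk2⟩ := hbd b hbJ
      set y := ab z with hy
      set k := k1 + k2 with hkdef
      have ha1 : ab a ≤ y ^ k := hk1.trans (pow_mono_right hz1'.le (by omega))
      have hb1 : ab b ≤ y ^ k := hk2.trans (pow_mono_right hz1'.le (by omega))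
      rw [ab_le_iff] at ha1 hb1
      let n := 4 * k + 1
      have hpow := comm_pow hcen hab n n
      -- bounds
      have p1 : a ^ n ≤ y ^ (k * n) := by rw [pow_mul]; exact pow_mono ha1.1 n
      have p2 : b ^ n ≤ y ^ (k * n) := by rw [pow_mul]; exact pow_mono hb1.1 n
      have p3 : (a ^ n)⁻¹ ≤ y ^ (k * n) := by rw [pow_mul, ← inv_pow]; exact pow_mono ha1.2 n
      have p4 : (b ^ n)⁻¹ ≤ y ^ (k * n) := by rw [pow_mul, ← inv_pow]; exact pow_mono hb1.2 n
      have q1 : z ^ (n * n) = a ^ n * b ^ n * (a ^ n)⁻¹ * (b ^ n)⁻¹ := by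
        rw [hpow]
        group
      have q2 : (z ^ (n * n))⁻¹ = b ^ n * a ^ n * (b ^ n)⁻¹ * (a ^ n)⁻¹ := by
        rw [q1]
        group
      have q3 : y ^ (k * n) * y ^ (k * n) * y ^ (k * n) * y ^ (k * n) = y ^ (4 * k * n) := by
        rw [← pow_add, ← pow_add, ← pow_add]
        congr 1
        ring
      have q4 : y ^ (n * n) ≤ y ^ (4 * k * n) := by
        rw [← q3]
        rcases ab_cases z with h | h
        · rw [hy, h, q1, ← h, ← hy]
          exact mul_le_mul' (mul_le_mul' (mul_le_mul' p1 p2) p3) p4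
        · have h2 : y ^ (n * n) = (z ^ (n * n))⁻¹ := by rw [hy, h, inv_pow]
          rw [h2, q2]
          exact mul_le_mul' (mul_le_mul' (mul_le_mul' p2 p1) p4) p3
      have q5 : y ^ (4 * k * n) < y ^ (n * n) := by
        apply pow_strict hz1'
        show 4 * k * (4 * k + 1) < (4 * k + 1) * (4 * k + 1)
        nlinarith
      exact absurd q4 (not_le.mpr q5)
  intro a ha b hb
  exact key (2 * c) le_rfl 0 0 (by omega) a ha (GG_zero V a) b hb (GG_zero V b)

end Hull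

end Pool.H8
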