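import Pool.Agent.H8.Od15
import Pool.Agent.H8.Od16

set_option autoImplicit false
set_option backward.isDefEq.respectTransparency.types true
set_option linter.unusedSectionVars false

/-! Ordered groups with a minimal convex normal subgroup. -/

namespace Pool.H8

open Finset
open scoped commutatorElement

universe u v w

section

variable {G : Type u} [Group G] [LinearOrder G] [MulLeftMono G] [MulRightMono G]

instance JJ_normal : (JJ G).Normal := ⟨fun a ha g => JJ_conj a g ha⟩

theorem exists_A (V : Subgroup G) [V.Normal] (hV : ∀ a ∈ V, ∀ b ∈ V, a * b = b * a) {c : ℕ}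
    (hc : NilC c (G ⧸ V)) :
    ∃ A : Subgroup G, ∃ _ : A.Normal, JJ G ≤ A ∧ (∀ a ∈ A, ∀ b ∈ A, a * b = b * a) ∧
      NilC c (G ⧸ A) ∧ ∀ s : G ⧸ A, ∀ n : ℕ, 0 < n → s ^ n = 1 → s = 1 := by
  have hJV := JV_comm hV hc
  have hJJ := JJ_comm hV hc
  let A0 : Subgroup G := JJ G ⊔ V
  have hA0 : ∀ a ∈ A0, ∀ b ∈ A0, a * b = b * a := by
    intro a ha b hb
    obtain ⟨x, hx, v, hv, rfl⟩ := Subgroup.mem_sup_of_normal_right.mp ha
    obtain ⟨y, hy, w, hw, rfl⟩ := Subgroup.mem_sup_of_normal_right.mp hb
    have c1 : Commute x y := hJJ x hx y hy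
    have c2 : Commute x w := hJV x hx w hw
    have c3 : Commute v y := (hJV y hy v hv).symm
    have c4 : Commute v w := hV v hv w hw
    exact ((c1.mul_right c2).mul_left (c3.mul_right c4)).eq
  have hA0n : A0.Normal := inferInstance
  have surj : ∀ B : Subgroup G, [B.Normal] → V ≤ B → NilC c (G ⧸ B) := by
    intro B _ hB
    refine hc.of_surj (QuotientGroup.map V B (MonoidHom.id G) hB) ?_
    intro x
    obtain ⟨x, rfl⟩ := QuotientGroup.mk'_surjective B x
    exact ⟨QuotientGroup.mk' V x, rfl⟩
  have hq : NilC c (G ⧸ A0) := surj A0 le_sup_right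
  let A : Subgroup G := (isol hq ⊥).comap (QuotientGroup.mk' A0)
  have hA : ∀ x, x ∈ A ↔ ∃ n : ℕ, 0 < n ∧ x ^ n ∈ A0 := by
    intro x
    show (∃ n : ℕ, 0 < n ∧ (QuotientGroup.mk' A0 x) ^ n ∈ (⊥ : Subgroup (G ⧸ A0))) ↔ _
    constructor
    · rintro ⟨n, hn, h⟩
      rw [Subgroup.mem_bot, ← map_pow] at h
      exact ⟨n, hn, (QuotientGroup.eq_one_iff _).mp h⟩
    · rintro ⟨n, hn, h⟩
      refine ⟨n, hn, ?_⟩
      rw [Subgroup.mem_bot, ← map_pow]
      exact (QuotientGroup.eq_one_iff _).mpr h
  have hAn : A.Normal := by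
    constructor
    intro x hx g
    rw [hA] at hx ⊢
    obtain ⟨n, hn, h⟩ := hx
    exact ⟨n, hn, by rw [conj_pow]; exact hA0n.conj_mem _ h g⟩
  have hle : A0 ≤ A := fun x hx => (hA x).mpr ⟨1, one_pos, by rwa [pow_one]⟩
  refine ⟨A, hAn, le_sup_left.trans hle, ?_, surj A (le_sup_right.trans hle), ?_⟩
  · intro a ha b hb
    obtain ⟨n, hn, h1⟩ := (hA a).mp ha
    obtain ⟨m, hm, h2⟩ := (hA b).mp hb
    have e1 := hA0 _ h1 _ h2
    have e2 := comm_of_pow_ord hn e1
    exact (comm_of_pow_ord hm e2.symm).symm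
  · intro s n hn h
    obtain ⟨s, rfl⟩ := QuotientGroup.mk'_surjective A s
    rw [← map_pow] at h
    have h1 := (QuotientGroup.eq_one_iff _).mp h
    obtain ⟨m, hm, h2⟩ := (hA _).mp h1
    refine (QuotientGroup.eq_one_iff _).mpr ((hA s).mpr ⟨n * m, Nat.mul_pos hn hm, ?_⟩)
    rw [pow_mul]
    exact h2

theorem theoremC (V : Subgroup G) [V.Normal] (hV : ∀ a ∈ V, ∀ b ∈ V, a * b = b * a) {c : ℕ}
    (hc : NilC c (G ⧸ V)) (N : Subgroup G) [hNn : N.Normal] {d : ℕ}
    (hN : N.lowerCentralSeries d = ⊥) (hNc : ∀ a b : G, ⁅a, b⁆ ∈ N) :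
    ∃ (Γ : Type u) (_ : Group Γ) (B : BO Γ) (ι : G →* Γ),
      (∀ (x : Γ) (n : ℕ), 0 < n → ∃ y : Γ, y ^ n = x) ∧ ∀ a ∈ JJ G, 1 < a → B.pos (ι a) := by
  obtain ⟨A, hAn, hJA, hAc, hAnil, hAtf⟩ := exists_A V hV hc
  let cgA : CommGroup A := { (inferInstance : Group A) with
    mul_comm := fun a b => Subtype.ext (hAc a a.2 b b.2) }
  have iomA : IsOrderedMonoid A :=
    { mul_le_mul_left := fun a b h c => by
        show ((a * c : A) : G) ≤ ((b * c : A) : G)
        exact mul_le_mul_left (show (a : G) ≤ b from h) (c : G) }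
  have htriv : ∀ a ∈ A, MulAut.conjNormal (H := A) a = 1 := by
    intro a ha
    ext b
    rw [MulAut.conjNormal_apply, MulAut.one_apply, hAc a ha b b.2, mul_inv_cancel_right]
  let φ : G ⧸ A →* MulAut A := QuotientGroup.lift A MulAut.conjNormal htriv
  have hφ : ∀ (g : G) (b : A), ((φ (QuotientGroup.mk' A g) b : A) : G) = g * b * g⁻¹ := by
    intro g b
    exact MulAut.conjNormal_apply g b
  let act : DistribMulAction (G ⧸ A) (Additive A) :=
    { smul := fun s a => Additive.ofMul (φ s (Additive.toMul a))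
      one_smul := by
        intro a
        show Additive.ofMul (φ 1 (Additive.toMul a)) = a
        rw [map_one]
        rfl
      mul_smul := by
        intro s t a
        show Additive.ofMul (φ (s * t) (Additive.toMul a)) = Additive.ofMul (φ s (φ t (Additive.toMul a)))
        rw [map_mul]
        rfl
      smul_zero := by
        intro s
        show Additive.ofMul (φ s 1) = 0
        rw [map_one]
        rfl
      smul_add := by
        intro s a b
        show Additive.ofMul (φ s (Additive.toMul a * Additive.toMul b)) = _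
        rw [map_mul]
        rfl }
  have hact : ∀ (g : G) (b : A), (QuotientGroup.mk' A g) • (Additive.ofMul b) =
      Additive.ofMul (φ (QuotientGroup.mk' A g) b) := fun _ _ => rfl
  have hval : ∀ (g : G) (b : A), ((Additive.toMul ((QuotientGroup.mk' A g) • (Additive.ofMul b)) : A) : G)
      = g * b * g⁻¹ := fun g b => hφ g b
  open Classical in
  let κ : G → Additive A := fun g => if h : g ∈ A then Additive.ofMul ⟨g, h⟩ else 0
  have hκ : ∀ (g : G) (h : g ∈ A), κ g = Additive.ofMul ⟨g, h⟩ := fun g h => dif_pos h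
  have hker : ∀ g : G, QuotientGroup.mk' A g = 1 ↔ g ∈ A := fun g => QuotientGroup.eq_one_iff g
  have hsurj := QuotientGroup.mk'_surjective A
  obtain ⟨Γ, iΓ, B, ι, h1, h2⟩ := theoremB (A := Additive A) (S := G ⧸ A) (G := G)
    (by
      intro s a ha
      obtain ⟨g, rfl⟩ := hsurj s
      have h1 : (1 : G) < ((Additive.toMul a : A) : G) := ha
      have h2 := conj_lt g h1
      rw [mul_one, mul_inv_cancel] at h2
      have h3 := hval g (Additive.toMul a)
      show (1 : G) < ((Additive.toMul ((QuotientGroup.mk' A g) • a) : A) : G)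
      rw [show (Additive.toMul ((QuotientGroup.mk' A g) • a) : A) =
        Additive.toMul ((QuotientGroup.mk' A g) • (Additive.ofMul (Additive.toMul a))) from rfl, h3]
      exact h2)
    hAnil hAtf (N.map (QuotientGroup.mk' A)) (hNn.map _ hsurj) (by
      intro a b
      obtain ⟨a, rfl⟩ := hsurj a
      obtain ⟨b, rfl⟩ := hsurj b
      rw [← map_commutatorElement]
      exact Subgroup.mem_map_of_mem _ (hNc a b)) (k := d + 1) (by
      have hdiff : ∀ (n : G) (b : A), (QuotientGroup.mk' A n) • (Additive.ofMul b) -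
          Additive.ofMul b = Additive.ofMul (⟨⁅n, (b : G)⁆, by
            rw [commutatorElement_def]
            exact A.mul_mem (hAn.conj_mem b b.2 n) (A.inv_mem b.2)⟩ : A) := by
        intro n b
        apply Additive.toMul.injective
        apply Subtype.ext
        have h3 := hval n b
        rw [sub_eq_add_neg]
        show ((Additive.toMul ((QuotientGroup.mk' A) n • (Additive.ofMul b)) : A) : G) *
          (b : G)⁻¹ = ⁅n, (b : G)⁆
        rw [h3, commutatorElement_def]
      have key : ∀ m : ℕ, m ≤ d → ∀ a : A, (a : G) ∈ N.lowerCentralSeries (d - m) →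
          Additive.ofMul a ∈ UFA (Additive A) (N.map (QuotientGroup.mk' A)) m := by
        intro m
        induction m with
        | zero =>
          intro _ a ha
          rw [Nat.sub_zero, hN, Subgroup.mem_bot] at ha
          have h3 : a = 1 := Subtype.ext ha
          rw [h3]
          exact AddSubgroup.zero_mem _
        | succ m ih =>
          intro hm a ha
          rw [mem_UFA_succ]
          rintro _ ⟨n, hn, rfl⟩
          rw [hdiff]
          apply ih (by omega)
          show ⁅n, (a : G)⁆ ∈ _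
          rw [← commutatorElement_inv]
          apply Subgroup.inv_mem
          have h3 : ⁅(a : G), n⁆ ∈ ⁅N.lowerCentralSeries (d - (m + 1)), N⁆ :=
            Subgroup.commutator_mem_commutator ha hn
          rw [← Subgroup.lowerCentralSeries_succ] at h3
          rwa [show d - (m + 1) + 1 = d - m by omega] at h3
      rw [eq_top_iff]
      intro a _
      rw [mem_UFA_succ]
      rintro _ ⟨n, hn, rfl⟩
      have h3 := hdiff n (Additive.toMul a)
      rw [show (Additive.ofMul (Additive.toMul a) : Additive A) = a from rfl] at h3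
      rw [h3]
      apply key d le_rfl
      rw [Nat.sub_self]
      show ⁅n, ((Additive.toMul a : A) : G)⁆ ∈ N
      exact hNc _ _)
    (QuotientGroup.mk' A) κ (by
      intro a b ha hb
      rw [hker] at ha hb
      rw [hκ a ha, hκ b hb, hκ _ (A.mul_mem ha hb)]
      rfl) (by
      intro g a ha
      rw [hker] at ha
      rw [hκ a ha, hκ _ (hAn.conj_mem a ha g), hact]
      apply Additive.toMul.injective
      apply Subtype.ext
      exact (hφ g ⟨a, ha⟩).symm)
  refine ⟨Γ, iΓ, B, ι, h1, ?_⟩
  intro a ha hpos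
  have haA : a ∈ A := hJA ha
  apply h2 a ((hker a).mpr haA)
  rw [hκ a haA]
  exact hpos

end

end Pool.H8
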