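import Pool.Agent.H8.Od17

set_option autoImplicit false
set_option backward.isDefEq.respectTransparency.types true
set_option linter.unusedSectionVars false

/-! The main theorem on ordered groups. -/

namespace Pool.H8

open Finset
open scoped commutatorElement

universe u v w

section

variable {G : Type u} [Group G] [LinearOrder G] [MulLeftMono G] [MulRightMono G]

theorem self_mem_DD (a : G) : a ∈ DD a := ⟨1, 1, by simp⟩

theorem DD_one {a : G} (h : a ∈ DD (1 : G)) : a = 1 := by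
  obtain ⟨n, g, h⟩ := h
  rw [ab_one, one_pow, mul_one, mul_inv_cancel] at h
  by_contra hne
  exact absurd h (not_le.mpr (one_lt_ab hne))

theorem DD_mono {x y : G} (h : ab x ≤ ab y) : DD x ≤ DD y := by
  rintro u ⟨n, g, hu⟩
  exact ⟨n, g, hu.trans (conj_mono g (pow_mono h n))⟩

theorem DD_mono_sq {x y : G} (h : ab x ≤ ab y ^ 2) : DD x ≤ DD y := by
  rintro u ⟨n, g, hu⟩
  refine ⟨2 * n, g, hu.trans (conj_mono g ?_)⟩
  rw [pow_mul]
  exact pow_mono h n

/-- the largest convex normal subgroup not containing an element -/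
def CC (a : G) (ha : a ≠ 1) : Subgroup G where
  carrier := {u | a ∉ DD u}
  one_mem' := fun h => ha (DD_one h)
  inv_mem' := by
    intro u hu h
    exact hu (DD_mono (by rw [ab_inv]) h)
  mul_mem' := by
    intro u v hu hv h
    rcases le_total (ab u) (ab v) with h1 | h1
    · exact hv (DD_mono_sq (ab_mul_le h1 le_rfl) h)
    · exact hu (DD_mono_sq (ab_mul_le le_rfl h1) h)

theorem mem_CC (a : G) (ha : a ≠ 1) (u : G) : u ∈ CC a ha ↔ a ∉ DD u := Iff.rfl

theorem CC_convex {a : G} {ha : a ≠ 1} {u v : G} (hv : v ∈ CC a ha) (h : ab u ≤ ab v) :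
    u ∈ CC a ha := fun h' => hv (DD_mono h h')

instance CC_normal (a : G) (ha : a ≠ 1) : (CC a ha).Normal := by
  constructor
  intro u hu g h
  obtain ⟨n, k, h⟩ := h
  apply hu
  refine ⟨n, k * g, ?_⟩
  rw [ab_conj, conj_pow] at h
  rwa [show k * (g * ab u ^ n * g⁻¹) * k⁻¹ = k * g * ab u ^ n * (k * g)⁻¹ by group] at h

theorem CC_total (a b : G) (ha : a ≠ 1) (hb : b ≠ 1) : CC a ha ≤ CC b hb ∨ CC b hb ≤ CC a ha := by
  by_contra hc
  push Not at hc
  obtain ⟨hc1, hc2⟩ := hc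
  obtain ⟨u, hu, hu'⟩ := SetLike.not_le_iff_exists.mp hc1
  obtain ⟨v, hv, hv'⟩ := SetLike.not_le_iff_exists.mp hc2
  rcases le_total (ab u) (ab v) with h | h
  · exact hu' (CC_convex hv h)
  · exact hv' (CC_convex hu h)

/-- the order of the quotient by a convex normal subgroup -/
def quoBO (C : Subgroup G) [C.Normal] (hC : ∀ u v : G, v ∈ C → ab u ≤ ab v → u ∈ C) :
    BO (G ⧸ C) where
  pos q := ∃ u : G, QuotientGroup.mk' C u = q ∧ 1 < u ∧ u ∉ C
  mul := by
    rintro _ _ ⟨u, rfl, hu, hu'⟩ ⟨v, rfl, hv, hv'⟩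
    refine ⟨u * v, map_mul _ _ _, one_lt_mul' hu hv, ?_⟩
    intro h
    apply hu'
    apply hC u (u * v) h
    rw [ab_of_one_lt hu, ab_of_one_lt (one_lt_mul' hu hv)]
    exact le_mul_of_one_le_right' hv.le
  conj := by
    rintro _ q ⟨u, rfl, hu, hu'⟩
    obtain ⟨g, rfl⟩ := QuotientGroup.mk'_surjective C q
    refine ⟨g * u * g⁻¹, by rw [map_mul, map_mul, map_inv], ?_, ?_⟩
    · have := conj_lt g hu
      rwa [mul_one, mul_inv_cancel] at this
    · intro h
      apply hu'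
      have := ‹C.Normal›.conj_mem _ h g⁻¹
      rwa [show g⁻¹ * (g * u * g⁻¹) * g⁻¹⁻¹ = u by group] at this
  one := by
    rintro ⟨u, h, _, hu'⟩
    exact hu' ((QuotientGroup.eq_one_iff u).mp h)
  tot := by
    intro q hq
    obtain ⟨u, rfl⟩ := QuotientGroup.mk'_surjective C q
    have hu : u ∉ C := fun h => hq ((QuotientGroup.eq_one_iff u).mpr h)
    have hu1 : u ≠ 1 := by
      rintro rfl
      exact hu C.one_mem
    rcases lt_or_gt_of_ne hu1 with h | h
    · right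
      exact ⟨u⁻¹, map_inv _ _, one_lt_inv'.mpr h, fun h' => hu (by simpa using C.inv_mem h')⟩
    · left
      exact ⟨u, rfl, h, hu⟩

theorem exists_jump (V : Subgroup G) [V.Normal] (hV : ∀ a ∈ V, ∀ b ∈ V, a * b = b * a) {c : ℕ}
    (hc : NilC c (G ⧸ V)) (N : Subgroup G) [hNn : N.Normal] {d : ℕ}
    (hN : N.lowerCentralSeries d = ⊥) (hNc : ∀ a b : G, ⁅a, b⁆ ∈ N) (a : G) (ha : a ≠ 1) :
    ∃ (Γ : Type u) (_ : Group Γ) (B : BO Γ) (ι : G →* Γ),
      (∀ (x : Γ) (n : ℕ), 0 < n → ∃ y : Γ, y ^ n = x) ∧ (∀ u ∈ CC a ha, ι u = 1) ∧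
      ∀ (u : G) (hu : u ≠ 1), CC u hu = CC a ha → 1 < u → B.pos (ι u) := by
  have hconv : ∀ u v : G, v ∈ CC a ha → ab u ≤ ab v → u ∈ CC a ha := fun u v hv h => CC_convex hv h
  let P : BO (G ⧸ CC a ha) := quoBO (CC a ha) hconv
  let lo : LinearOrder (G ⧸ CC a ha) := P.linearOrder
  have ml : MulLeftMono (G ⧸ CC a ha) := ⟨fun c a b h => P.mul_left a b c h⟩
  have mr : MulRightMono (G ⧸ CC a ha) := ⟨fun c a b h => P.mul_right a b c h⟩
  let q := QuotientGroup.mk' (CC a ha)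
  have hqs : Function.Surjective q := QuotientGroup.mk'_surjective _
  have hq1 : ∀ u, q u = 1 ↔ u ∈ CC a ha := fun u => QuotientGroup.eq_one_iff u
  have hpos : ∀ u : G, 1 < u → u ∉ CC a ha → 1 < q u := by
    intro u h1 h2
    show P.pos (1⁻¹ * q u)
    rw [inv_one, one_mul]
    exact ⟨u, rfl, h1, h2⟩
  have hmono : Monotone q := by
    intro u v huv
    by_cases h : u⁻¹ * v ∈ CC a ha
    · left
      exact QuotientGroup.eq.mpr h
    · right
      refine ⟨u⁻¹ * v, by rw [map_mul, map_inv], ?_, h⟩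
      have h1 : 1 ≤ u⁻¹ * v := by
        have := mul_le_mul_right huv u⁻¹
        rwa [inv_mul_cancel] at this
      exact lt_of_le_of_ne h1 (fun h2 => h (by rw [← h2]; exact (CC a ha).one_mem))
  have hab : ∀ u, ab (q u) = q (ab u) := by
    intro u
    unfold ab
    rw [hmono.map_max, map_inv]
  have hDD : ∀ u x : G, u ∈ DD x → q u ∈ DD (q x) := by
    rintro u x ⟨n, g, h⟩
    refine ⟨n, q g, ?_⟩
    rw [hab, hab, ← map_pow, ← map_inv, ← map_mul, ← map_mul]
    exact hmono h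
  let V' := V.map q
  have hV'n : V'.Normal := ‹V.Normal›.map q hqs
  have hV' : ∀ x ∈ V', ∀ y ∈ V', x * y = y * x := by
    rintro _ ⟨x, hx, rfl⟩ _ ⟨y, hy, rfl⟩
    rw [← map_mul, hV x hx y hy, map_mul]
  have hc' : NilC c ((G ⧸ CC a ha) ⧸ V') := by
    refine hc.of_surj (QuotientGroup.map V V' q (Subgroup.le_comap_map _ _)) ?_
    intro x
    obtain ⟨x, rfl⟩ := QuotientGroup.mk'_surjective V' x
    obtain ⟨x, rfl⟩ := hqs x
    exact ⟨QuotientGroup.mk' V x, rfl⟩
  let N' := N.map q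
  have hN'n : N'.Normal := hNn.map q hqs
  have hN' : N'.lowerCentralSeries d = ⊥ := by
    rw [← Subgroup.map_lowerCentralSeries, hN, Subgroup.map_bot]
  have hNc' : ∀ x y : G ⧸ CC a ha, ⁅x, y⁆ ∈ N' := by
    intro x y
    obtain ⟨x, rfl⟩ := hqs x
    obtain ⟨y, rfl⟩ := hqs y
    rw [← map_commutatorElement]
    exact Subgroup.mem_map_of_mem _ (hNc x y)
  obtain ⟨Γ, iΓ, B, ι, h1, h2⟩ := theoremC V' hV' hc' N' hN' hNc'
  refine ⟨Γ, iΓ, B, ι.comp q, h1, ?_, ?_⟩
  · intro u hu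
    show ι (q u) = 1
    rw [(hq1 u).mpr hu, map_one]
  · intro u hu hCC h1u
    apply h2
    · rw [mem_JJ]
      intro x hx
      obtain ⟨x, rfl⟩ := hqs x
      have hx' : x ∉ CC u hu := by
        rw [hCC]
        exact fun h => hx ((hq1 x).mpr h)
      rw [mem_CC, not_not] at hx'
      exact hDD u x hx'
    · apply hpos u h1u
      rw [← hCC, mem_CC, not_not]
      exact self_mem_DD u

theorem main_aux (V : Subgroup G) [V.Normal] (hV : ∀ a ∈ V, ∀ b ∈ V, a * b = b * a) {c : ℕ}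
    (hc : NilC c (G ⧸ V)) (N : Subgroup G) [hNn : N.Normal] {d : ℕ}
    (hN : N.lowerCentralSeries d = ⊥) (hNc : ∀ a b : G, ⁅a, b⁆ ∈ N) :
    ∃ (Γ : Type u) (_ : Group Γ) (B : BO Γ) (ι : G →* Γ),
      (∀ (x : Γ) (n : ℕ), 0 < n → ∃ y : Γ, y ^ n = x) ∧ ∀ u : G, 1 < u → B.pos (ι u) := by
  let I : Type u := {C : Subgroup G // ∃ (a : G) (h : a ≠ 1), C = CC a h}
  have htot : ∀ C D : I, C ≤ D ∨ D ≤ C := by
    rintro ⟨_, a, ha, rfl⟩ ⟨_, b, hb, rfl⟩
    exact CC_total a b ha hb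
  let lo : LinearOrder I :=
    { (inferInstance : PartialOrder I) with
      le_total := htot
      toDecidableLE := Classical.decRel _
      toDecidableEq := Classical.decEq _
      toDecidableLT := Classical.decRel _ }
  have hex : ∀ C : I, ∃ (Γ : Type u) (_ : Group Γ) (B : BO Γ) (ι : G →* Γ),
      (∀ (x : Γ) (n : ℕ), 0 < n → ∃ y : Γ, y ^ n = x) ∧ (∀ u ∈ C.1, ι u = 1) ∧
      ∀ (u : G) (hu : u ≠ 1), CC u hu = C.1 → 1 < u → B.pos (ι u) := by
    rintro ⟨_, a, ha, rfl⟩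
    exact exists_jump V hV hc N hN hNc a ha
  choose Γ iΓ B ι h1 h2 h3 using hex
  obtain ⟨B', hB'⟩ := BO.pi B
  refine ⟨∀ C, Γ C, inferInstance, B', MonoidHom.pi ι, ?_, ?_⟩
  · intro x n hn
    choose y hy using fun C => h1 C (x C) n hn
    exact ⟨y, funext hy⟩
  · intro u hu
    have hne : u ≠ 1 := hu.ne'
    let C : I := ⟨CC u hne, u, hne, rfl⟩
    apply hB' _ C
    · intro D hD
      apply h2 D u
      by_contra hc
      obtain ⟨D, b, hb, rfl⟩ := D
      have hle : CC u hne < CC b hb := hD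
      -- u is not in D, so D is contained in the convex subgroup of u
      have h4 : CC b hb ≤ CC u hne := by
        intro v hv hu'
        apply hc
        show u ∈ CC b hb
        intro hbu
        -- b ∈ DD u and u ∈ DD v
        apply hv
        obtain ⟨n, g, h5⟩ := hbu
        obtain ⟨m, k, h6⟩ := hu'
        refine ⟨m * n, g * k, h5.trans ?_⟩
        have h7 := conj_mono g (pow_mono h6 n)
        rw [conj_pow, ← pow_mul] at h7
        rwa [show g * (k * ab v ^ (m * n) * k⁻¹) * g⁻¹ = g * k * ab v ^ (m * n) * (g * k)⁻¹ by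
          group] at h7
      exact absurd h4 (not_le_of_gt hle)
    · exact h3 C u hne rfl hu

end

end Pool.H8
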