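import Mathlib

set_option autoImplicit false
set_option backward.isDefEq.respectTransparency.types true
set_option linter.unusedSectionVars false

/-! Isolators in nilpotent groups. -/

namespace Pool.H8

open Finset
open scoped commutatorElement

universe u v w

/-- nilpotent of class at most `c` -/
def NilC (c : ℕ) (G : Type u) [Group G] : Prop := Subgroup.lowerCentralSeries (⊤ : Subgroup G) c = ⊥

theorem NilC.of_surj {c : ℕ} {G : Type u} {K : Type v} [Group G] [Group K] (f : G →* K)
    (hf : Function.Surjective f) (h : NilC c G) : NilC c K := by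
  unfold NilC at *
  rw [← Subgroup.map_top_of_surjective f hf, ← Subgroup.map_lowerCentralSeries, h, Subgroup.map_bot]

theorem NilC.of_inj {c : ℕ} {G : Type u} {K : Type v} [Group G] [Group K] (f : K →* G)
    (hf : Function.Injective f) (h : NilC c G) : NilC c K := by
  unfold NilC at *
  have h1 : ((⊤ : Subgroup K).lowerCentralSeries c).map f ≤ (⊤ : Subgroup G).lowerCentralSeries c := by
    rw [Subgroup.map_lowerCentralSeries]
    exact Subgroup.lowerCentralSeries_mono c le_top
  rw [h] at h1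
  rw [eq_bot_iff]
  intro x hx
  have h2 : f x ∈ (⊥ : Subgroup G) := h1 (Subgroup.mem_map_of_mem f hx)
  rw [Subgroup.mem_bot] at h2 ⊢
  exact hf (by rw [h2, map_one])

theorem NilC.mono {c d : ℕ} (hcd : c ≤ d) {G : Type u} [Group G] (h : NilC c G) : NilC d G := by
  unfold NilC at *
  rw [eq_bot_iff, ← h]
  exact Subgroup.lowerCentralSeries_antitone _ hcd

theorem NilC.pi {c : ℕ} {I : Type v} {Γ : I → Type u} [∀ i, Group (Γ i)] (h : ∀ i, NilC c (Γ i)) :
    NilC c (∀ i, Γ i) := by
  unfold NilC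
  rw [eq_bot_iff]
  intro x hx
  rw [Subgroup.mem_bot]
  funext i
  have h1 : ((⊤ : Subgroup (∀ i, Γ i)).lowerCentralSeries c).map (Pi.evalMonoidHom Γ i) ≤
      (⊤ : Subgroup (Γ i)).lowerCentralSeries c := by
    rw [Subgroup.map_lowerCentralSeries]
    exact Subgroup.lowerCentralSeries_mono c le_top
  have h2 := h1 (Subgroup.mem_map_of_mem _ hx)
  rw [h i, Subgroup.mem_bot] at h2
  exact h2

theorem NilC.prod {c : ℕ} {G : Type u} {K : Type v} [Group G] [Group K] (h : NilC c G)
    (h' : NilC c K) : NilC c (G × K) := by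
  unfold NilC
  rw [eq_bot_iff]
  intro x hx
  rw [Subgroup.mem_bot]
  have h1 : ((⊤ : Subgroup (G × K)).lowerCentralSeries c).map (MonoidHom.fst G K) ≤
      (⊤ : Subgroup G).lowerCentralSeries c := by
    rw [Subgroup.map_lowerCentralSeries]
    exact Subgroup.lowerCentralSeries_mono c le_top
  have h2 : ((⊤ : Subgroup (G × K)).lowerCentralSeries c).map (MonoidHom.snd G K) ≤
      (⊤ : Subgroup K).lowerCentralSeries c := by
    rw [Subgroup.map_lowerCentralSeries]
    exact Subgroup.lowerCentralSeries_mono c le_top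
  have h3 := h1 (Subgroup.mem_map_of_mem _ hx)
  have h4 := h2 (Subgroup.mem_map_of_mem _ hx)
  rw [h, Subgroup.mem_bot] at h3
  rw [h', Subgroup.mem_bot] at h4
  exact Prod.ext h3 h4

theorem NilC.isNilpotent {c : ℕ} {G : Type u} [Group G] (h : NilC c G) : Group.IsNilpotent G :=
  Subgroup.nilpotent_iff_lowerCentralSeries.mpr ⟨c, h⟩

theorem exists_nilC {G : Type u} [Group G] (h : Group.IsNilpotent G) : ∃ c, NilC c G :=
  Subgroup.nilpotent_iff_lowerCentralSeries.mp h

/-- if a commutator is central, it is bilinear -/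
theorem comm_pow {G : Type u} [Group G] {a b z : G} (hz : ∀ g : G, z * g = g * z)
    (h : a * b = z * (b * a)) (m n : ℕ) : a ^ m * b ^ n = z ^ (m * n) * (b ^ n * a ^ m) := by
  have hzk : ∀ (k : ℕ) (g : G), z ^ k * g = g * z ^ k := fun k g =>
    ((show Commute z g from hz g).pow_left k)
  have h1 : ∀ m : ℕ, a ^ m * b = z ^ m * (b * a ^ m) := by
    intro m
    induction m with
    | zero => simp
    | succ m ih =>
      calc a ^ (m + 1) * b = a ^ m * (a * b) := by rw [pow_succ, mul_assoc]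
        _ = a ^ m * z * (b * a) := by rw [h, mul_assoc]
        _ = z * (a ^ m * b) * a := by rw [← hz (a ^ m)]; simp only [mul_assoc]
        _ = z ^ (m + 1) * (b * a ^ (m + 1)) := by
          rw [ih, pow_succ', pow_succ]
          simp only [mul_assoc]
  induction n with
  | zero => simp
  | succ n ih =>
    calc a ^ m * b ^ (n + 1) = (a ^ m * b ^ n) * b := by rw [pow_succ, mul_assoc]
      _ = z ^ (m * n) * b ^ n * (a ^ m * b) := by rw [ih]; simp only [mul_assoc]
      _ = z ^ (m * n) * (b ^ n * z ^ m) * (b * a ^ m) := by rw [h1 m]; simp only [mul_assoc]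
      _ = z ^ (m * n) * z ^ m * (b ^ n * b) * a ^ m := by
        rw [← hzk m (b ^ n)]; simp only [mul_assoc]
      _ = z ^ (m * (n + 1)) * (b ^ (n + 1) * a ^ m) := by
        rw [← pow_add, ← pow_succ, Nat.mul_succ]; simp only [mul_assoc]

theorem iso_aux (c : ℕ) : ∀ (G : Type u) [Group G] (H : Subgroup G) (X : Set G),
    Subgroup.closure X = ⊤ → (∀ x ∈ X, ∃ n : ℕ, 0 < n ∧ x ^ n ∈ H) → NilC c G →
    ∀ g : G, ∃ n : ℕ, 0 < n ∧ g ^ n ∈ H := by
  induction c with
  | zero =>
    intro G _ H X _ _ hc g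
    refine ⟨1, one_pos, ?_⟩
    have : g ∈ (⊥ : Subgroup G) := by
      rw [← show (⊤ : Subgroup G) = ⊥ from hc]
      trivial
    rw [Subgroup.mem_bot] at this
    subst this
    simp [H.one_mem]
  | succ c ih =>
    intro G _ H X hX hXH hc
    have hcentral : ∀ z ∈ (⊤ : Subgroup G).lowerCentralSeries c, ∀ g : G, z * g = g * z := by
      intro z hz g
      have h1 : ⁅z, g⁆ ∈ (⊤ : Subgroup G).lowerCentralSeries (c + 1) :=
        Subgroup.commutator_mem_commutator hz trivial
      rw [hc, Subgroup.mem_bot] at h1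
      exact commutatorElement_eq_one_iff_mul_comm.mp h1
    have hprod : ∀ z w : G, (∀ g : G, z * g = g * z) → (∃ n : ℕ, 0 < n ∧ z ^ n ∈ H) →
        (∃ n : ℕ, 0 < n ∧ w ^ n ∈ H) → ∃ n : ℕ, 0 < n ∧ (z * w) ^ n ∈ H := by
      rintro z w hz ⟨n, hn, h1⟩ ⟨m, hm, h2⟩
      refine ⟨n * m, Nat.mul_pos hn hm, ?_⟩
      rw [(show Commute z w from hz w).mul_pow, pow_mul, mul_comm n m, pow_mul]
      exact H.mul_mem (H.pow_mem h1 m) (H.pow_mem h2 n)
    have hinv : ∀ z : G, (∃ n : ℕ, 0 < n ∧ z ^ n ∈ H) → ∃ n : ℕ, 0 < n ∧ z⁻¹ ^ n ∈ H := by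
      rintro z ⟨n, hn, h1⟩
      exact ⟨n, hn, by rw [inv_pow]; exact H.inv_mem h1⟩
    rcases Nat.eq_zero_or_pos c with h0 | h0
    · subst h0
      intro g
      have hg : g ∈ Subgroup.closure X := by rw [hX]; trivial
      induction hg using Subgroup.closure_induction with
      | mem x hx => exact hXH x hx
      | one => exact ⟨1, one_pos, by simp [H.one_mem]⟩
      | mul x y _ _ h1 h2 => exact hprod x y (hcentral x trivial) h1 h2
      | inv x _ h1 => exact hinv x h1
    · have hq : NilC c (G ⧸ (⊤ : Subgroup G).lowerCentralSeries c) := by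
        unfold NilC
        rw [← Subgroup.map_top_of_surjective (QuotientGroup.mk' _) (QuotientGroup.mk'_surjective _),
          ← Subgroup.map_lowerCentralSeries]
        rw [eq_bot_iff]
        rintro _ ⟨x, hx, rfl⟩
        rw [Subgroup.mem_bot]
        exact (QuotientGroup.eq_one_iff x).mpr hx
      have hpow : ∀ g : G, ∃ n : ℕ, 0 < n ∧ ∃ h ∈ H, ∃ z ∈ (⊤ : Subgroup G).lowerCentralSeries c,
          g ^ n = h * z := by
        intro g
        obtain ⟨n, hn, h1⟩ := ih (G ⧸ (⊤ : Subgroup G).lowerCentralSeries c)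
          (H.map (QuotientGroup.mk' _)) ((QuotientGroup.mk' _) '' X) (by
            rw [← MonoidHom.map_closure, hX]
            exact Subgroup.map_top_of_surjective _ (QuotientGroup.mk'_surjective _))
          (by
            rintro _ ⟨x, hx, rfl⟩
            obtain ⟨n, hn, h2⟩ := hXH x hx
            exact ⟨n, hn, by rw [← map_pow]; exact Subgroup.mem_map_of_mem _ h2⟩)
          hq (QuotientGroup.mk' _ g)
        rw [← map_pow, Subgroup.mem_map] at h1
        obtain ⟨h, hh, h2⟩ := h1
        refine ⟨n, hn, h, hh, h⁻¹ * g ^ n, ?_, by group⟩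
        exact QuotientGroup.eq.mp h2
      have hL : ∀ z ∈ (⊤ : Subgroup G).lowerCentralSeries c, ∃ n : ℕ, 0 < n ∧ z ^ n ∈ H := by
        obtain ⟨d, rfl⟩ : ∃ d, c = d + 1 := ⟨c - 1, by omega⟩
        intro z hz
        rw [Subgroup.mem_lowerCentralSeries_succ_iff] at hz
        have hsub : Subgroup.closure {x : G | ∃ p ∈ (⊤ : Subgroup G).lowerCentralSeries d,
            ∃ q ∈ (⊤ : Subgroup G), ⁅p, q⁆ = x} = (⊤ : Subgroup G).lowerCentralSeries (d + 1) := by
          ext x
          rw [Subgroup.mem_lowerCentralSeries_succ_iff]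
        induction hz using Subgroup.closure_induction with
        | mem x hx =>
          obtain ⟨p, hp, q, hq', rfl⟩ := hx
          have hcc : ⁅p, q⁆ ∈ (⊤ : Subgroup G).lowerCentralSeries (d + 1) :=
            Subgroup.commutator_mem_commutator hp hq'
          obtain ⟨a, ha, h1, hh1, z1, hz1, e1⟩ := hpow p
          obtain ⟨b, hb, h2, hh2, z2, hz2, e2⟩ := hpow q
          refine ⟨a * b, Nat.mul_pos ha hb, ?_⟩
          have e3 := comm_pow (hcentral _ hcc) (a := p) (b := q)
            (by rw [commutatorElement_def]; group) a b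
          rw [e1, e2] at e3
          have e4 : ⁅p, q⁆ ^ (a * b) = h1 * h2 * h1⁻¹ * h2⁻¹ := by
            have e5 : ⁅p, q⁆ ^ (a * b) = (h1 * z1 * (h2 * z2)) * (h2 * z2 * (h1 * z1))⁻¹ := by
              rw [e3]; group
            rw [e5]
            have c1 := hcentral z1 hz1
            have c2 := hcentral z2 hz2
            calc (h1 * z1 * (h2 * z2)) * (h2 * z2 * (h1 * z1))⁻¹
                = h1 * (z1 * h2) * (z2 * (z1⁻¹ * h1⁻¹ * z2⁻¹)) * h2⁻¹ := by group
              _ = h1 * (z1 * h2) * ((z1⁻¹ * h1⁻¹ * z2⁻¹) * z2) * h2⁻¹ := by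
                rw [c2 (z1⁻¹ * h1⁻¹ * z2⁻¹)]
              _ = h1 * (h2 * z1) * ((z1⁻¹ * h1⁻¹ * z2⁻¹) * z2) * h2⁻¹ := by rw [c1 h2]
              _ = h1 * h2 * h1⁻¹ * h2⁻¹ := by group
          rw [e4]
          exact H.mul_mem (H.mul_mem (H.mul_mem hh1 hh2) (H.inv_mem hh1)) (H.inv_mem hh2)
        | one => exact ⟨1, one_pos, by simp [H.one_mem]⟩
        | mul x y hx _ h1 h2 =>
          refine hprod x y (hcentral x ?_) h1 h2
          rw [← hsub]
          exact hx
        | inv x _ h1 => exact hinv x h1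
      intro g
      obtain ⟨n, hn, h, hh, z, hz, e⟩ := hpow g
      obtain ⟨m, hm, h2⟩ := hL z hz
      refine ⟨n * m, Nat.mul_pos hn hm, ?_⟩
      rw [pow_mul, e, (show Commute h z from (hcentral z hz h).symm).mul_pow]
      exact H.mul_mem (H.pow_mem hh m) h2

/-- the isolator of a subgroup of a nilpotent group -/
def isol {G : Type u} [Group G] {c : ℕ} (hG : NilC c G) (H : Subgroup G) : Subgroup G where
  carrier := {x | ∃ n : ℕ, 0 < n ∧ x ^ n ∈ H}
  one_mem' := ⟨1, one_pos, by simp [H.one_mem]⟩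
  inv_mem' := by
    rintro x ⟨n, hn, h1⟩
    exact ⟨n, hn, by rw [inv_pow]; exact H.inv_mem h1⟩
  mul_mem' := by
    intro x y hx hy
    let X : Set G := {x | ∃ n : ℕ, 0 < n ∧ x ^ n ∈ H}
    let K := Subgroup.closure X
    have hK : NilC c K := hG.of_inj K.subtype K.subtype_injective
    obtain ⟨n, hn, h1⟩ := iso_aux c K (H.subgroupOf K) (((↑) : K → G) ⁻¹' X)
      (Subgroup.closure_closure_coe_preimage) (by
        rintro x ⟨n, hn, h1⟩
        exact ⟨n, hn, by rw [Subgroup.mem_subgroupOf]; exact h1⟩) hK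
      (⟨x, Subgroup.subset_closure hx⟩ * ⟨y, Subgroup.subset_closure hy⟩)
    exact ⟨n, hn, h1⟩

theorem mem_isol {G : Type u} [Group G] {c : ℕ} (hG : NilC c G) (H : Subgroup G) (x : G) :
    x ∈ isol hG H ↔ ∃ n : ℕ, 0 < n ∧ x ^ n ∈ H := Iff.rfl

theorem le_isol {G : Type u} [Group G] {c : ℕ} (hG : NilC c G) (H : Subgroup G) :
    H ≤ isol hG H := fun x hx => ⟨1, one_pos, by simpa using hx⟩

end Pool.H8
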