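import Pool.Agent.H8.Od2

set_option autoImplicit false
set_option backward.isDefEq.respectTransparency.types true
set_option linter.unusedSectionVars false

/-! Torsion-free nilpotent groups embed in uniquely divisible nilpotent groups. -/

namespace Pool.H8

open Finset
open scoped commutatorElement

universe u v w

/-- the order of `x` is finite and prime to `n!` -/
def GoodO (n : ℕ) {G : Type u} [Group G] (x : G) : Prop :=
  ∃ M : ℕ, 0 < M ∧ Nat.Coprime M n.factorial ∧ x ^ M = 1

theorem exists_max_normal {E : Type u} [Group E] (y : ℕ → E) (hy : ∀ k, y k ≠ 1) :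
    ∃ N : Subgroup E, N.Normal ∧ (∀ k, y k ∉ N) ∧
      ∀ N' : Subgroup E, N'.Normal → N < N' → ∃ k, y k ∈ N' := by
  obtain ⟨N, _, hN⟩ := zorn_le_nonempty₀ {N : Subgroup E | N.Normal ∧ ∀ k, y k ∉ N} (by
    intro c hc hch N0 hN0
    have hne : c.Nonempty := ⟨N0, hN0⟩
    have hmem : ∀ x, x ∈ sSup c ↔ ∃ s ∈ c, x ∈ s := fun x =>
      Subgroup.mem_sSup_of_directedOn hne hch.directedOn
    refine ⟨sSup c, ⟨⟨?_⟩, ?_⟩, fun z hz => le_sSup hz⟩
    · intro x hx g
      rw [hmem] at hx ⊢
      obtain ⟨s, hs, hxs⟩ := hx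
      exact ⟨s, hs, (hc hs).1.conj_mem x hxs g⟩
    · intro k hk
      rw [hmem] at hk
      obtain ⟨s, hs, hxs⟩ := hk
      exact (hc hs).2 k hxs) ⊥ ⟨inferInstance, fun k => by
        rw [Subgroup.mem_bot]
        exact hy k⟩
  refine ⟨N, hN.prop.1, hN.prop.2, ?_⟩
  intro N' hN' hlt
  by_contra hc
  push Not at hc
  exact absurd (hN.le_of_ge ⟨hN', hc⟩ hlt.le) (not_le_of_gt hlt)

section center

variable {Q : Type u} [Group Q] (n : ℕ) (y : Q)
  (hy : ∀ k : ℕ, y ^ (n.factorial ^ k) ≠ 1)
  (hmax : ∀ N : Subgroup Q, N.Normal → N ≠ ⊥ → ∃ k : ℕ, y ^ (n.factorial ^ k) ∈ N)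

include hy hmax

theorem mem_zpowers_aux {z : Q} (hz : z ∈ Subgroup.center Q) (h1 : z ≠ 1) :
    ∃ k : ℕ, ∃ d : ℤ, y ^ (n.factorial ^ k) = z ^ d := by
  have hnorm : (Subgroup.zpowers z).Normal := by
    constructor
    rintro _ ⟨d, rfl⟩ g
    have hc : g * z ^ d = z ^ d * g := by
      have h2 : z ^ d ∈ Subgroup.center Q := Subgroup.zpow_mem _ hz d
      exact (Subgroup.mem_center_iff.mp h2 g)
    refine ⟨d, ?_⟩
    show z ^ d = g * z ^ d * g⁻¹
    rw [hc, mul_inv_cancel_right]
  obtain ⟨k, d, hd⟩ := hmax (Subgroup.zpowers z) hnorm (by rwa [Ne, Subgroup.zpowers_eq_bot])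
  exact ⟨k, d, hd.symm⟩

theorem center_fin {z : Q} (hz : z ∈ Subgroup.center Q) : IsOfFinOrder z := by
  by_contra hinf
  have hne : ∀ m : ℕ, 0 < m → z ^ m ≠ 1 := by
    intro m hm h
    exact hinf (isOfFinOrder_iff_pow_eq_one.mpr ⟨m, hm, h⟩)
  have hinj : ∀ a b : ℤ, z ^ a = z ^ b → a = b := by
    intro a b hab
    exact injective_zpow_iff_not_isOfFinOrder.mpr hinf hab
  obtain ⟨k0, e, he⟩ := mem_zpowers_aux n y hy hmax hz (by simpa using hne 1 one_pos)
  have he0 : e ≠ 0 := by
    rintro rfl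
    exact hy k0 (by simpa using he)
  obtain ⟨p, hp1, hp⟩ := Nat.exists_infinite_primes (n + e.natAbs + 1)
  have hzp : z ^ p ∈ Subgroup.center Q := Subgroup.pow_mem _ hz p
  obtain ⟨k1, d, hd⟩ := mem_zpowers_aux n y hy hmax hzp (hne p hp.pos)
  have e1 : (e * (n.factorial ^ k1 : ℕ) : ℤ) = p * d * (n.factorial ^ k0 : ℕ) := by
    apply hinj
    rw [zpow_mul, ← he, zpow_natCast, ← pow_mul, mul_comm (n.factorial ^ k0), pow_mul, hd,
      zpow_mul, zpow_mul, zpow_natCast, zpow_natCast]
  have hpn : Nat.Coprime p n.factorial := by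
    rw [Nat.coprime_factorial_iff hp.ne_one, hp.minFac_eq]
    omega
  have h2 : (p : ℤ) ∣ e * (n.factorial ^ k1 : ℕ) := by
    rw [e1, mul_assoc]
    exact dvd_mul_right _ _
  have hpZ : IsCoprime (p : ℤ) ((n.factorial ^ k1 : ℕ) : ℤ) := by
    rw [Nat.isCoprime_iff_coprime]
    exact hpn.pow_right k1
  have h3 : (p : ℤ) ∣ e := hpZ.dvd_of_dvd_mul_right h2
  have h4 : p ∣ e.natAbs := Int.natCast_dvd.mp h3
  have h5 := Nat.le_of_dvd (Int.natAbs_pos.mpr he0) h4
  omega

theorem center_good {z : Q} (hz : z ∈ Subgroup.center Q) : GoodO n z := by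
  have hfin := center_fin n y hy hmax hz
  refine ⟨orderOf z, hfin.orderOf_pos, ?_, pow_orderOf_eq_one z⟩
  rw [Nat.coprime_iff_gcd_eq_one]
  by_contra hc
  obtain ⟨q, hq, hqd⟩ := Nat.exists_prime_and_dvd hc
  have hq1 : q ∣ orderOf z := hqd.trans (Nat.gcd_dvd_left _ _)
  have hq2 : q ∣ n.factorial := hqd.trans (Nat.gcd_dvd_right _ _)
  obtain ⟨m, hm⟩ := hq1
  have hm0 : 0 < m := by
    rcases Nat.eq_zero_or_pos m with h | h
    · rw [h, mul_zero] at hm
      exact absurd hm hfin.orderOf_pos.ne'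
    · exact h
  have hzm : z ^ m ≠ 1 := by
    intro h
    have h1 := Nat.le_of_dvd hm0 (orderOf_dvd_of_pow_eq_one h)
    rw [hm] at h1
    have h2 := hq.two_le
    nlinarith
  obtain ⟨k, d, hd⟩ := mem_zpowers_aux n y hy hmax (Subgroup.pow_mem _ hz m) hzm
  obtain ⟨l, hl⟩ := hq2
  apply hy (k + 1)
  have h1 : (z ^ m) ^ q = 1 := by rw [← pow_mul, mul_comm m q, ← hm, pow_orderOf_eq_one]
  have h5 : ((z ^ m) ^ d) ^ q = 1 := by
    rw [← zpow_natCast, ← zpow_mul, mul_comm, zpow_mul, zpow_natCast, h1, one_zpow]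
  rw [pow_succ, pow_mul, hd, hl, pow_mul, h5, one_pow]

end center

theorem GoodO.mul {n : ℕ} {G : Type u} [Group G] {x : G} {m : ℕ} (hm : 0 < m)
    (hmn : Nat.Coprime m n.factorial) (h : GoodO n (x ^ m)) : GoodO n x := by
  obtain ⟨M, hM, h1, h2⟩ := h
  exact ⟨m * M, Nat.mul_pos hm hM, Nat.Coprime.mul_left hmn h1, by rw [pow_mul, h2]⟩

theorem good_aux (n : ℕ) (Q : Type u) [Group Q] [Group.IsNilpotent Q] :
    Group.FG Q → (∀ z ∈ Subgroup.center Q, GoodO n z) → ∀ x : Q, GoodO n x := by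
  refine Group.nilpotent_center_quotient_ind (P := fun Q _ _ => Group.FG Q →
    (∀ z ∈ Subgroup.center Q, GoodO n z) → ∀ x : Q, GoodO n x) Q ?_ ?_
  · intro Q _ _ _ _ x
    exact ⟨1, one_pos, Nat.coprime_one_left _, Subsingleton.elim _ _⟩
  · intro Q _ _ ih hfg hgood x
    obtain ⟨S, hS⟩ := hfg.out
    have hq : ∀ z ∈ Subgroup.center (Q ⧸ Subgroup.center Q), GoodO n z := by
      intro z hz
      obtain ⟨x, rfl⟩ := QuotientGroup.mk'_surjective _ z
      have hcm : ∀ g : Q, ⁅x, g⁆ ∈ Subgroup.center Q := by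
        intro g
        have h1 := Subgroup.mem_center_iff.mp hz (QuotientGroup.mk' _ g)
        rw [← QuotientGroup.eq_one_iff]
        have h2 : ((⁅x, g⁆ : Q) : Q ⧸ Subgroup.center Q) =
          ⁅QuotientGroup.mk' (Subgroup.center Q) x, QuotientGroup.mk' (Subgroup.center Q) g⁆ := by
          rw [← map_commutatorElement]
          rfl
        rw [h2]
        exact commutatorElement_eq_one_iff_mul_comm.mpr h1.symm
      choose M hM1 hM2 hM3 using fun g : Q => hgood _ (hcm g)
      have hP : 0 < ∏ g ∈ S, M g := Finset.prod_pos fun g _ => hM1 g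
      have hxP : x ^ (∏ g ∈ S, M g) ∈ Subgroup.center Q := by
        rw [Subgroup.mem_center_iff]
        have hle : (⊤ : Subgroup Q) ≤ Subgroup.centralizer {x ^ (∏ g ∈ S, M g)} := by
          rw [← hS, Subgroup.closure_le]
          intro g hg
          rw [SetLike.mem_coe, Subgroup.mem_centralizer_singleton_iff]
          have hcen := Subgroup.mem_center_iff.mp (hcm g)
          have h1 := comm_pow (a := x) (b := g) (z := ⁅x, g⁆) (fun w => (hcen w).symm)
            (by rw [commutatorElement_def]; group) (∏ g ∈ S, M g) 1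
          rw [pow_one, mul_one] at h1
          have h2 : ⁅x, g⁆ ^ (∏ g ∈ S, M g) = 1 := by
            obtain ⟨k, hk⟩ := Finset.dvd_prod_of_mem M (Finset.mem_coe.mp hg)
            rw [hk, pow_mul, hM3, one_pow]
          rw [h2, one_mul] at h1
          exact h1.symm
        intro g
        have h1 := hle (show g ∈ (⊤ : Subgroup Q) from trivial)
        rw [Subgroup.mem_centralizer_singleton_iff] at h1
        exact h1
      refine ⟨∏ g ∈ S, M g, hP, ?_, ?_⟩
      · exact Nat.Coprime.prod_left fun g _ => hM2 g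
      · rw [← map_pow]
        exact (QuotientGroup.eq_one_iff _).mpr hxP
    obtain ⟨M, hM, h1, h2⟩ := ih inferInstance hq (QuotientGroup.mk' _ x)
    rw [← map_pow] at h2
    have h3 : x ^ M ∈ Subgroup.center Q := (QuotientGroup.eq_one_iff _).mp h2
    exact GoodO.mul hM h1 (hgood _ h3)

theorem good_bij {n : ℕ} {Q : Type u} [Group Q] (hQ : ∀ x : Q, GoodO n x) {r : ℕ} (hr : 0 < r)
    (hrn : r ≤ n) : Function.Bijective (fun x : Q => x ^ r) := by
  have hdiv : r ∣ n.factorial := Nat.dvd_factorial hr hrn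
  have key : ∀ M : ℕ, 0 < M → Nat.Coprime M n.factorial → ∃ s : ℕ, ∃ t : ℕ, r * s = 1 + M * t := by
    intro M hM hcop
    have h1 : Nat.Coprime r M := (Nat.Coprime.coprime_dvd_right hdiv hcop).symm
    rcases Nat.lt_or_ge 1 M with hM1 | hM1
    · obtain ⟨s, -, hs⟩ := Nat.exists_mul_mod_eq_one_of_coprime h1 hM1
      refine ⟨s, r * s / M, ?_⟩
      have := Nat.mod_add_div (r * s) M
      omega
    · have : M = 1 := by omega
      subst this
      refine ⟨1, r - 1, ?_⟩
      omega
  constructor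
  · intro x z hxz
    simp only at hxz
    obtain ⟨M, hM, h1, h2⟩ := hQ x
    obtain ⟨M', hM', h1', h2'⟩ := hQ z
    obtain ⟨s, t, hst⟩ := key (M * M') (Nat.mul_pos hM hM') (Nat.Coprime.mul_left h1 h1')
    have e1 : x ^ (r * s) = x := by
      rw [hst, pow_add, pow_one, mul_assoc, pow_mul, h2, one_pow, mul_one]
    have e2 : z ^ (r * s) = z := by
      rw [hst, pow_add, pow_one, mul_comm M M', mul_assoc, pow_mul, h2', one_pow, mul_one]
    rw [← e1, ← e2, pow_mul, pow_mul, hxz]
  · intro x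
    obtain ⟨M, hM, h1, h2⟩ := hQ x
    obtain ⟨s, t, hst⟩ := key M hM h1
    refine ⟨x ^ s, ?_⟩
    show (x ^ s) ^ r = x
    rw [← pow_mul, mul_comm s r, hst, pow_add, pow_one, pow_mul, h2, one_pow, mul_one]

/-- a quotient with unique small roots in which a given element survives -/
theorem exists_quot (c n : ℕ) (E : Type u) [Group E] (hE : NilC c E) (hfg : Group.FG E)
    (htf : ∀ s : E, ∀ n : ℕ, 0 < n → s ^ n = 1 → s = 1) (f : E) (hf : f ≠ 1) :
    ∃ N : Subgroup E, ∃ _ : N.Normal, f ∉ N ∧ ∀ x : E ⧸ N, GoodO n x := by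
  obtain ⟨N, hN, h1, h2⟩ := exists_max_normal (fun k : ℕ => f ^ (n.factorial ^ k)) (by
    intro k hk
    exact hf (htf f _ (pow_pos (Nat.factorial_pos n) k) hk))
  refine ⟨N, hN, ?_, ?_⟩
  · have := h1 0
    simpa using this
  · have hnil : NilC c (E ⧸ N) := hE.of_surj (QuotientGroup.mk' N) (QuotientGroup.mk'_surjective N)
    have := hnil.isNilpotent
    apply good_aux n (E ⧸ N) inferInstance
    intro z hz
    refine center_good n (QuotientGroup.mk' N f) ?_ ?_ hz
    · intro k hk
      rw [← map_pow] at hk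
      exact h1 k ((QuotientGroup.eq_one_iff _).mp hk)
    · intro N' hN' hne
      have hlt : N < N'.comap (QuotientGroup.mk' N) := by
        rw [lt_iff_le_and_ne]
        constructor
        · intro x hx
          rw [Subgroup.mem_comap]
          have : QuotientGroup.mk' N x = 1 := (QuotientGroup.eq_one_iff _).mpr hx
          rw [this]
          exact N'.one_mem
        · intro heq
          apply hne
          rw [eq_bot_iff]
          intro x hx
          obtain ⟨x, rfl⟩ := QuotientGroup.mk'_surjective N x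
          rw [Subgroup.mem_bot]
          apply (QuotientGroup.eq_one_iff _).mpr
          rw [heq]
          exact hx
      obtain ⟨k, hk⟩ := h2 _ (hN'.comap _) hlt
      exact ⟨k, by rw [← map_pow]; exact hk⟩

/-- a group with unique small roots in which finitely many elements survive -/
theorem exists_quot_fin (c n : ℕ) (S : Type u) [Group S] (hS : NilC c S)
    (htf : ∀ s : S, ∀ n : ℕ, 0 < n → s ^ n = 1 → s = 1) (F : Finset S) :
    ∃ (Q : Type u) (_ : Group Q) (ψ : Subgroup.closure (F : Set S) →* Q),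
      (∀ x : Subgroup.closure (F : Set S), (x : S) ∈ F → x ≠ 1 → ψ x ≠ 1) ∧ NilC c Q ∧
      ∀ r : ℕ, 0 < r → r ≤ n → Function.Bijective (fun x : Q => x ^ r) := by
  classical
  let E := Subgroup.closure (F : Set S)
  have hE : NilC c E := hS.of_inj E.subtype E.subtype_injective
  have hfg : Group.FG E := (Group.fg_iff_subgroup_fg E).mpr ⟨F, rfl⟩
  have htfE : ∀ s : E, ∀ n : ℕ, 0 < n → s ^ n = 1 → s = 1 := by
    intro s n hn h
    have h1 := congrArg (Subtype.val) h
    exact Subtype.ext (htf s.1 n hn h1)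
  choose N hN hN1 hN2 using fun f : {f : E // f ≠ 1} => exists_quot c n E hE hfg htfE f.1 f.2
  have := hN
  refine ⟨∀ f : {f : E // f ≠ 1}, E ⧸ N f, inferInstance,
    MonoidHom.pi fun f => QuotientGroup.mk' (N f), ?_, ?_, ?_⟩
  · intro x _ hx hc
    have h1 := congrFun hc ⟨x, hx⟩
    exact hN1 ⟨x, hx⟩ ((QuotientGroup.eq_one_iff _).mp h1)
  · exact NilC.pi fun f => hE.of_surj (QuotientGroup.mk' _) (QuotientGroup.mk'_surjective _)
  · intro r hr hrn
    have hb := fun f => good_bij (hN2 f) hr hrn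
    constructor
    · intro x z hxz
      funext f
      exact (hb f).1 (congrFun hxz f)
    · intro x
      choose w hw using fun f => (hb f).2 (x f)
      exact ⟨w, funext hw⟩

/-- torsion-free nilpotent groups embed in uniquely divisible nilpotent groups -/
theorem exists_udn (c : ℕ) (S : Type u) [Group S] (hS : NilC c S)
    (htf : ∀ s : S, ∀ n : ℕ, 0 < n → s ^ n = 1 → s = 1) :
    ∃ (U : Type u) (_ : Group U) (f : S →* U), Function.Injective f ∧ NilC c U ∧
      ∀ n : ℕ, 0 < n → Function.Bijective (fun x : U => x ^ n) := by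
  classical
  choose Q instQ ψ hψ1 hψ2 hψ3 using
    fun i : Finset S × ℕ => exists_quot_fin c i.2 S hS htf i.1
  let N : Subgroup (∀ i, Q i) :=
    { carrier := {x | ∀ᶠ i in (Filter.atTop : Filter (Finset S × ℕ)), x i = 1}
      one_mem' := Filter.Eventually.of_forall fun i => rfl
      mul_mem' := by
        intro a b ha hb
        filter_upwards [ha, hb] with i h1 h2
        rw [Pi.mul_apply, h1, h2, one_mul]
      inv_mem' := by
        intro a ha
        filter_upwards [ha] with i h1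
        rw [Pi.inv_apply, h1, inv_one] }
  have hmemN : ∀ x : ∀ i, Q i, x ∈ N ↔ ∀ᶠ i in (Filter.atTop : Filter (Finset S × ℕ)), x i = 1 :=
    fun x => Iff.rfl
  have hNn : N.Normal := by
    constructor
    intro x hx g
    rw [hmemN] at hx ⊢
    filter_upwards [hx] with i h1
    simp [h1]
  have hmem : ∀ s : S, ∀ᶠ i in (Filter.atTop : Filter (Finset S × ℕ)), s ∈ i.1 := by
    intro s
    filter_upwards [Filter.eventually_ge_atTop (({s} : Finset S), 0)] with i hi
    exact hi.1 (by simp)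
  have hcl : ∀ s : S, ∀ᶠ i in (Filter.atTop : Filter (Finset S × ℕ)),
      s ∈ Subgroup.closure (i.1 : Set S) := by
    intro s
    filter_upwards [hmem s] with i hi
    exact Subgroup.subset_closure (Finset.mem_coe.mpr hi)
  have hge : ∀ n : ℕ, ∀ᶠ i in (Filter.atTop : Filter (Finset S × ℕ)), n ≤ i.2 := by
    intro n
    filter_upwards [Filter.eventually_ge_atTop ((∅ : Finset S), n)] with i hi
    exact hi.2
  let φ : S → ∀ i, Q i := fun s i =>
    if h : s ∈ Subgroup.closure (i.1 : Set S) then ψ i ⟨s, h⟩ else 1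
  refine ⟨(∀ i, Q i) ⧸ N, inferInstance, MonoidHom.mk' (fun s => QuotientGroup.mk' N (φ s)) ?_,
    ?_, ?_, ?_⟩
  · intro a b
    rw [← map_mul]
    apply QuotientGroup.eq.mpr
    rw [hmemN]
    filter_upwards [hcl a, hcl b] with i ha hb
    have hab : a * b ∈ Subgroup.closure (i.1 : Set S) := Subgroup.mul_mem _ ha hb
    simp only [Pi.mul_apply, Pi.inv_apply, φ, ha, hb, hab, dif_pos]
    rw [← map_mul, ← map_inv, ← map_mul]
    convert map_one (ψ i) using 2
    rw [Subtype.ext_iff]
    simp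
  · rw [injective_iff_map_eq_one]
    intro a ha
    by_contra hne
    have h1 : φ a ∈ N := (QuotientGroup.eq_one_iff _).mp ha
    rw [hmemN] at h1
    obtain ⟨i, h2, h3, h4⟩ := (h1.and ((hmem a).and (hcl a))).exists
    simp only [φ, h4, dif_pos] at h2
    exact hψ1 i ⟨a, h4⟩ h3 (by
      intro hc
      exact hne (congrArg Subtype.val hc)) h2
  · exact (NilC.pi hψ2).of_surj (QuotientGroup.mk' N) (QuotientGroup.mk'_surjective N)
  · intro n hn
    constructor
    · intro x z hxz
      obtain ⟨x, rfl⟩ := QuotientGroup.mk'_surjective N x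
      obtain ⟨z, rfl⟩ := QuotientGroup.mk'_surjective N z
      simp only at hxz
      rw [← map_pow, ← map_pow] at hxz
      have h1 := QuotientGroup.eq.mp hxz
      apply QuotientGroup.eq.mpr
      rw [hmemN] at h1 ⊢
      filter_upwards [h1, hge n] with i h2 h3
      have h4 : (x i) ^ n = (z i) ^ n := by
        have : (x i ^ n)⁻¹ * (z i) ^ n = 1 := h2
        exact inv_mul_eq_one.mp this
      have h5 : x i = z i := (hψ3 i n hn h3).1 h4
      show (x i)⁻¹ * z i = 1
      rw [h5, inv_mul_cancel]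
    · intro x
      obtain ⟨x, rfl⟩ := QuotientGroup.mk'_surjective N x
      have hroot : ∀ i, ∃ w : Q i, n ≤ i.2 → w ^ n = x i := by
        intro i
        by_cases h : n ≤ i.2
        · obtain ⟨w, hw⟩ := (hψ3 i n hn h).2 (x i)
          exact ⟨w, fun _ => hw⟩
        · exact ⟨1, fun h' => absurd h' h⟩
      choose w hw using hroot
      refine ⟨QuotientGroup.mk' N w, ?_⟩
      simp only
      rw [← map_pow]
      apply QuotientGroup.eq.mpr
      rw [hmemN]
      filter_upwards [hge n] with i h3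
      show (w i ^ n)⁻¹ * x i = 1
      rw [hw i h3, inv_mul_cancel]

end Pool.H8
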