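import Pool.Agent.H8.Od1
import Pool.Agent.H8.Od3

set_option autoImplicit false
set_option backward.isDefEq.respectTransparency.types true
set_option linter.unusedSectionVars false

/-! Uniquely divisible nilpotent groups are bi-orderable. -/

namespace Pool.H8

open Finset
open scoped commutatorElement

universe u v w

/-- uniquely divisible groups -/
def UD (U : Type u) [Group U] : Prop := ∀ n : ℕ, 0 < n → Function.Bijective (fun x : U => x ^ n)

theorem exists_abcone (A : Type u) [AddCommGroup A]
    (htf : ∀ a : A, ∀ n : ℕ, 0 < n → n • a = 0 → a = 0) :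
    ∃ pos : A → Prop, (∀ a b, pos a → pos b → pos (a + b)) ∧ ¬ pos 0 ∧
      ∀ a, a ≠ 0 → pos a ∨ pos (-a) := by
  have htf' : IsAddTorsionFree A := by
    constructor
    intro n hn a b hab
    simp only at hab
    have h1 : n • (a - b) = 0 := by rw [smul_sub, hab, sub_self]
    exact sub_eq_zero.mp (htf _ n (Nat.pos_of_ne_zero hn) h1)
  let b := Module.Basis.ofVectorSpace ℚ (DivisibleHull A)
  let _ : LinearOrder (Module.Basis.ofVectorSpaceIndex ℚ (DivisibleHull A)) :=
    IsWellOrder.linearOrder WellOrderingRel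
  let f : A → Lex (Module.Basis.ofVectorSpaceIndex ℚ (DivisibleHull A) →₀ ℚ) :=
    fun a => toLex (b.repr (DivisibleHull.coe a))
  have hadd : ∀ a c, f (a + c) = f a + f c := by
    intro a c
    simp only [f]
    rw [DivisibleHull.coe_add, map_add]
    rfl
  have h0 : f 0 = 0 := by
    have := hadd 0 0
    rw [add_zero] at this
    exact left_eq_add.mp this
  have hneg : ∀ a, f (-a) = - f a := by
    intro a
    rw [eq_neg_iff_add_eq_zero, ← hadd, neg_add_cancel, h0]
  have hinj : ∀ a, f a = 0 → a = 0 := by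
    intro a ha
    have h1 : b.repr (DivisibleHull.coe a) = 0 := ha
    have h2 : (DivisibleHull.coe a : DivisibleHull A) = 0 := by
      rw [← map_zero b.repr] at h1
      exact b.repr.injective h1
    apply DivisibleHull.coe_injective
    rw [h2]
    simp
  refine ⟨fun a => 0 < f a, ?_, ?_, ?_⟩
  · intro a c ha hc
    show 0 < f (a + c)
    rw [hadd]
    exact add_pos ha hc
  · show ¬ 0 < f 0
    rw [h0]
    exact lt_irrefl _
  · intro a ha
    show 0 < f a ∨ 0 < f (-a)
    rcases lt_trichotomy 0 (f a) with h | h | h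
    · exact Or.inl h
    · exact absurd (hinj a h.symm) ha
    · right
      rw [hneg]
      exact neg_pos.mpr h

theorem exists_abcone_mul (Z : Type u) [Group Z] (hc : ∀ a b : Z, a * b = b * a)
    (htf : ∀ a : Z, ∀ n : ℕ, 0 < n → a ^ n = 1 → a = 1) :
    ∃ pos : Z → Prop, (∀ a b, pos a → pos b → pos (a * b)) ∧ ¬ pos 1 ∧
      ∀ a, a ≠ 1 → pos a ∨ pos a⁻¹ := by
  let _ : CommGroup Z := { (inferInstance : Group Z) with mul_comm := hc }
  obtain ⟨pos, p1, p2, p3⟩ := exists_abcone (Additive Z) (fun a n hn h => htf (Additive.toMul a) n hn h)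
  exact ⟨fun z => pos (Additive.ofMul z), fun a b => p1 _ _, p2, fun a ha => p3 _ ha⟩

theorem UD.pow_inj {U : Type u} [Group U] (h : UD U) {n : ℕ} (hn : 0 < n) {x y : U}
    (hxy : x ^ n = y ^ n) : x = y := (h n hn).1 hxy

theorem UD.exists_root {U : Type u} [Group U] (h : UD U) {n : ℕ} (hn : 0 < n) (x : U) :
    ∃ y : U, y ^ n = x := (h n hn).2 x

theorem UD.comm_of_pow {U : Type u} [Group U] (h : UD U) {n : ℕ} (hn : 0 < n) {x g : U}
    (hx : x ^ n * g = g * x ^ n) : x * g = g * x := by
  have h1 : (g⁻¹ * x * g) ^ n = x ^ n := by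
    have h2 : (g⁻¹ * x * g) ^ n = g⁻¹ * x ^ n * g := by
      have := conj_pow (i := n) (a := g⁻¹) (b := x)
      rwa [inv_inv] at this
    rw [h2, mul_assoc, hx, inv_mul_cancel_left]
  have h2 := h.pow_inj hn h1
  calc x * g = g * (g⁻¹ * x * g) := by group
    _ = g * x := by rw [h2]

theorem UD.center_of_pow {U : Type u} [Group U] (h : UD U) {n : ℕ} (hn : 0 < n) {x : U}
    (hx : x ^ n ∈ Subgroup.center U) : x ∈ Subgroup.center U := by
  rw [Subgroup.mem_center_iff] at hx ⊢
  intro g
  exact (h.comm_of_pow hn (hx g).symm).symm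

theorem UD.quotient_center {U : Type u} [Group U] (h : UD U) : UD (U ⧸ Subgroup.center U) := by
  intro n hn
  constructor
  · intro x y hxy
    obtain ⟨x, rfl⟩ := QuotientGroup.mk'_surjective _ x
    obtain ⟨y, rfl⟩ := QuotientGroup.mk'_surjective _ y
    simp only at hxy
    rw [← map_pow, ← map_pow] at hxy
    have h1 : (x ^ n)⁻¹ * y ^ n ∈ Subgroup.center U := QuotientGroup.eq.mp hxy
    obtain ⟨w, hw⟩ := h.exists_root hn ((x ^ n)⁻¹ * y ^ n)
    have hwc : w ∈ Subgroup.center U := h.center_of_pow hn (by rw [hw]; exact h1)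
    apply QuotientGroup.eq.mpr
    have h2 : (x * w) ^ n = y ^ n := by
      have hc : Commute x w := Subgroup.mem_center_iff.mp hwc x
      rw [hc.mul_pow, hw, mul_inv_cancel_left]
    have h3 := h.pow_inj hn h2
    rw [← h3, inv_mul_cancel_left]
    exact hwc
  · intro x
    obtain ⟨x, rfl⟩ := QuotientGroup.mk'_surjective _ x
    obtain ⟨y, hy⟩ := h.exists_root hn x
    exact ⟨QuotientGroup.mk' _ y, by simp only; rw [← map_pow, hy]⟩

theorem UD.exists_bo (U : Type u) [Group U] [Group.IsNilpotent U] : UD U → Nonempty (BO U) := by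
  refine Group.nilpotent_center_quotient_ind (P := fun U _ _ => UD U → Nonempty (BO U)) U ?_ ?_
  · intro U _ _ _
    exact ⟨⟨fun _ => False, fun h => h.elim, fun _ h => h.elim, fun h => h,
      fun {a} ha => absurd (Subsingleton.elim a 1) ha⟩⟩
  · intro U _ _ ih hU
    obtain ⟨P⟩ := ih hU.quotient_center
    obtain ⟨pos, p1, p2, p3⟩ := exists_abcone_mul (Subgroup.center U)
      (fun a b => Subtype.ext (Subgroup.mem_center_iff.mp b.2 a)) (by
      intro a n hn ha
      have h1 : (a : U) ^ n = 1 ^ n := by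
        rw [one_pow]
        exact congrArg Subtype.val ha
      exact Subtype.ext (hU.pow_inj hn h1))
    have hq : ∀ x : U, (x : U ⧸ Subgroup.center U) = 1 ↔ x ∈ Subgroup.center U :=
      fun x => QuotientGroup.eq_one_iff x
    refine ⟨⟨fun x => P.pos (x : U ⧸ Subgroup.center U) ∨
      ∃ h : x ∈ Subgroup.center U, pos ⟨x, h⟩, ?_, ?_, ?_, ?_⟩⟩
    · rintro a b (ha | ⟨ha, ha'⟩) (hb | ⟨hb, hb'⟩)
      · left
        rw [QuotientGroup.mk_mul]
        exact P.mul ha hb
      · left
        rw [QuotientGroup.mk_mul, (hq b).mpr hb, mul_one]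
        exact ha
      · left
        rw [QuotientGroup.mk_mul, (hq a).mpr ha, one_mul]
        exact hb
      · right
        exact ⟨Subgroup.mul_mem _ ha hb, p1 _ _ ha' hb'⟩
    · rintro a g (ha | ⟨ha, ha'⟩)
      · left
        rw [QuotientGroup.mk_mul, QuotientGroup.mk_mul, QuotientGroup.mk_inv]
        exact P.conj _ ha
      · right
        have h1 : g * a * g⁻¹ = a := by
          rw [Subgroup.mem_center_iff.mp ha g, mul_inv_cancel_right]
        rw [h1]
        exact ⟨ha, ha'⟩
    · rintro (h | ⟨h, h'⟩)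
      · exact P.one h
      · exact p2 h'
    · intro a ha
      by_cases hc : a ∈ Subgroup.center U
      · rcases p3 ⟨a, hc⟩ (by
          intro h
          exact ha (congrArg Subtype.val h)) with h | h
        · exact Or.inl (Or.inr ⟨hc, h⟩)
        · exact Or.inr (Or.inr ⟨Subgroup.inv_mem _ hc, h⟩)
      · rcases P.tot (fun h => hc ((hq a).mp h)) with h | h
        · exact Or.inl (Or.inl h)
        · right
          left
          rw [QuotientGroup.mk_inv]
          exact h

end Pool.H8
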