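import Pool.Agent.H8.Od4

set_option autoImplicit false
set_option backward.isDefEq.respectTransparency.types true
set_option linter.unusedSectionVars false

/-! The Ore condition for the monoid generated by the elements `1 + x + ... + x^(m-1)` in the
integral group ring of a nilpotent group. -/

namespace Pool.H8

open Finset
open scoped commutatorElement

universe u v w

section Ore

variable {Q : Type u} [Group Q]

/-- the element `1 + x + ... + x^(m-1)` -/
noncomputable def br (x : Q) (m : ℕ) : MonoidAlgebra ℤ Q :=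
  ∑ i ∈ range m, MonoidAlgebra.of ℤ Q (x ^ i)

/-- the monoid generated by the elements `br x m` with `x` in `H` -/
noncomputable def P0 (H : Subgroup Q) : Submonoid (MonoidAlgebra ℤ Q) :=
  Submonoid.closure {r | ∃ x ∈ H, ∃ m : ℕ, 0 < m ∧ r = br x m}

/-- the elements of the group ring of `H` with nonnegative coefficients -/
noncomputable def N0 (H : Subgroup Q) : AddSubmonoid (MonoidAlgebra ℤ Q) :=
  AddSubmonoid.closure ((MonoidAlgebra.of ℤ Q) '' (H : Set Q))

theorem of_mem_N0 {H : Subgroup Q} {g : Q} (hg : g ∈ H) : MonoidAlgebra.of ℤ Q g ∈ N0 H :=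
  AddSubmonoid.subset_closure ⟨g, hg, rfl⟩

theorem N0_mono {H K : Subgroup Q} (h : H ≤ K) : N0 H ≤ N0 K :=
  AddSubmonoid.closure_mono (Set.image_mono h)

theorem P0_mono {H K : Subgroup Q} (h : H ≤ K) : P0 H ≤ P0 K :=
  Submonoid.closure_mono (by
    rintro _ ⟨x, hx, m, hm, rfl⟩
    exact ⟨x, h hx, m, hm, rfl⟩)

theorem N0_mul {H : Subgroup Q} {r s : MonoidAlgebra ℤ Q} (hr : r ∈ N0 H) (hs : s ∈ N0 H) :
    r * s ∈ N0 H := by
  induction hr using AddSubmonoid.closure_induction with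
  | mem r hr =>
    obtain ⟨g, hg, rfl⟩ := hr
    induction hs using AddSubmonoid.closure_induction with
    | mem s hs =>
      obtain ⟨h, hh, rfl⟩ := hs
      rw [← map_mul]
      exact of_mem_N0 (H.mul_mem hg hh)
    | zero =>
      rw [mul_zero]
      exact (N0 H).zero_mem
    | add a b _ _ h1 h2 =>
      rw [mul_add]
      exact (N0 H).add_mem h1 h2
  | zero =>
    rw [zero_mul]
    exact (N0 H).zero_mem
  | add a b _ _ h1 h2 =>
    rw [add_mul]
    exact (N0 H).add_mem h1 h2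

theorem N0_one {H : Subgroup Q} : (1 : MonoidAlgebra ℤ Q) ∈ N0 H := by
  rw [← map_one (MonoidAlgebra.of ℤ Q)]
  exact of_mem_N0 H.one_mem

theorem br_mem_N0 {H : Subgroup Q} {x : Q} (hx : x ∈ H) (m : ℕ) : br x m ∈ N0 H :=
  AddSubmonoid.sum_mem _ fun i _ => of_mem_N0 (H.pow_mem hx i)

theorem br_mem_P0 {H : Subgroup Q} {x : Q} (hx : x ∈ H) {m : ℕ} (hm : 0 < m) : br x m ∈ P0 H :=
  Submonoid.subset_closure ⟨x, hx, m, hm, rfl⟩

theorem P0_sub_N0 {H : Subgroup Q} {s : MonoidAlgebra ℤ Q} (hs : s ∈ P0 H) : s ∈ N0 H := by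
  induction hs using Submonoid.closure_induction with
  | mem s hs =>
    obtain ⟨x, hx, m, _, rfl⟩ := hs
    exact br_mem_N0 hx m
  | one => exact N0_one
  | mul a b _ _ h1 h2 => exact N0_mul h1 h2

theorem fin_supp {H : Subgroup Q} {r : MonoidAlgebra ℤ Q} (hr : r ∈ N0 H) :
    ∃ F : Finset Q, (∀ g ∈ F, g ∈ H) ∧
      r ∈ AddSubmonoid.closure ((MonoidAlgebra.of ℤ Q) '' (F : Set Q)) := by
  classical
  induction hr using AddSubmonoid.closure_induction with
  | mem r hr =>
    obtain ⟨g, hg, rfl⟩ := hr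
    exact ⟨{g}, by simpa using hg, AddSubmonoid.subset_closure ⟨g, by simp, rfl⟩⟩
  | zero => exact ⟨∅, by simp, AddSubmonoid.zero_mem _⟩
  | add a b _ _ h1 h2 =>
    obtain ⟨F, hF, h1⟩ := h1
    obtain ⟨F', hF', h2⟩ := h2
    refine ⟨F ∪ F', ?_, ?_⟩
    · intro g hg
      rcases Finset.mem_union.mp hg with h | h
      · exact hF g h
      · exact hF' g h
    · refine AddSubmonoid.add_mem _ ?_ ?_
      · exact AddSubmonoid.closure_mono (Set.image_mono (by simp)) h1
      · exact AddSubmonoid.closure_mono (Set.image_mono (by simp)) h2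

/-- a strong Ore condition -/
def OreH (H : Subgroup Q) : Prop :=
  ∀ s ∈ P0 H, ∀ E : Finset (MonoidAlgebra ℤ Q), (∀ r ∈ E, r ∈ N0 H) →
    ∃ s' ∈ P0 H, ∀ r ∈ E, ∃ p ∈ N0 H, s' * r = p * s

theorem common_mult {K : Subgroup Q} (hK : OreH K) (E : Finset (MonoidAlgebra ℤ Q))
    (hE : ∀ s ∈ E, s ∈ P0 K) : ∃ s' ∈ P0 K, ∀ s ∈ E, ∃ p ∈ N0 K, s' = p * s := by
  classical
  induction E using Finset.induction_on with
  | empty => exact ⟨1, Submonoid.one_mem _, by simp⟩
  | insert s E _ ih =>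
    obtain ⟨s', hs', h1⟩ := ih fun t ht => hE t (Finset.mem_insert_of_mem ht)
    obtain ⟨s'', hs'', h2⟩ := hK s (hE s (Finset.mem_insert_self s E)) {s'} (by
      intro r hr
      rw [Finset.mem_singleton] at hr
      subst hr
      exact P0_sub_N0 hs')
    refine ⟨s'' * s', Submonoid.mul_mem _ hs'' hs', ?_⟩
    intro t ht
    rcases Finset.mem_insert.mp ht with rfl | ht
    · exact h2 s' (Finset.mem_singleton_self _)
    · obtain ⟨p, hp, e⟩ := h1 t ht
      exact ⟨s'' * p, N0_mul (P0_sub_N0 hs'') hp, by rw [mul_assoc, ← e]⟩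

theorem br_conj (x g : Q) (m : ℕ) :
    br (g * x * g⁻¹) m * MonoidAlgebra.of ℤ Q g = MonoidAlgebra.of ℤ Q g * br x m := by
  unfold br
  rw [Finset.sum_mul, Finset.mul_sum]
  refine Finset.sum_congr rfl fun i _ => ?_
  rw [← map_mul, ← map_mul, conj_pow]
  congr 1
  group

theorem oreH_comm {H : Subgroup Q} (hH : ⁅H, H⁆ = ⊥) : OreH H := by
  have hcomm : ∀ a ∈ H, ∀ b ∈ H, a * b = b * a := by
    intro a ha b hb
    have h1 : ⁅a, b⁆ ∈ ⁅H, H⁆ := Subgroup.commutator_mem_commutator ha hb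
    rw [hH, Subgroup.mem_bot] at h1
    exact commutatorElement_eq_one_iff_mul_comm.mp h1
  have hN : ∀ r ∈ N0 H, ∀ s ∈ N0 H, r * s = s * r := by
    intro r hr s hs
    induction hr using AddSubmonoid.closure_induction with
    | mem r hr =>
      obtain ⟨g, hg, rfl⟩ := hr
      induction hs using AddSubmonoid.closure_induction with
      | mem s hs =>
        obtain ⟨h, hh, rfl⟩ := hs
        rw [← map_mul, ← map_mul, hcomm g hg h hh]
      | zero => rw [mul_zero, zero_mul]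
      | add a b _ _ h1 h2 => rw [mul_add, add_mul, h1, h2]
    | zero => rw [mul_zero, zero_mul]
    | add a b _ _ h1 h2 => rw [mul_add, add_mul, h1, h2]
  intro s hs E hE
  exact ⟨s, hs, fun r hr => ⟨r, hE r hr, hN s (P0_sub_N0 hs) r (hE r hr)⟩⟩

theorem oreH_step {H : Subgroup Q}
    (hK : ∀ x ∈ H, ∃ K : Subgroup Q, K ≤ H ∧ (∀ g ∈ H, g * x * g⁻¹ ∈ K) ∧ OreH K) : OreH H := by
  classical
  intro s hs
  induction hs using Submonoid.closure_induction with
  | mem s hs =>
    obtain ⟨x, hx, m, hm, rfl⟩ := hs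
    obtain ⟨K, hKH, hxK, hore⟩ := hK x hx
    intro E hE
    choose! F hF1 hF2 using fun r (hr : r ∈ E) => fin_supp (hE r hr)
    let F' : Finset Q := E.biUnion F
    have hF' : ∀ g ∈ F', g ∈ H := by
      intro g hg
      obtain ⟨r, hr, hg⟩ := Finset.mem_biUnion.mp hg
      exact hF1 r hr g hg
    obtain ⟨s', hs', h1⟩ := common_mult hore (F'.image fun g => br (g * x * g⁻¹) m) (by
      intro s hs
      obtain ⟨g, hg, rfl⟩ := Finset.mem_image.mp hs
      exact br_mem_P0 (hxK g (hF' g hg)) hm)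
    refine ⟨s', P0_mono hKH hs', ?_⟩
    intro r hr
    have h2 : r ∈ AddSubmonoid.closure ((MonoidAlgebra.of ℤ Q) '' (F' : Set Q)) := by
      refine AddSubmonoid.closure_mono (Set.image_mono ?_) (hF2 r hr)
      intro g hg
      exact Finset.mem_coe.mpr (Finset.mem_biUnion.mpr ⟨r, hr, Finset.mem_coe.mp hg⟩)
    clear hr
    induction h2 using AddSubmonoid.closure_induction with
    | mem r hr =>
      obtain ⟨g, hg, rfl⟩ := hr
      obtain ⟨p, hp, e⟩ := h1 _ (Finset.mem_image_of_mem _ hg)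
      refine ⟨p * MonoidAlgebra.of ℤ Q g, N0_mul (N0_mono hKH hp) (of_mem_N0 (hF' g hg)), ?_⟩
      rw [e, mul_assoc, br_conj, mul_assoc]
    | zero => exact ⟨0, AddSubmonoid.zero_mem _, by simp⟩
    | add a b _ _ h1 h2 =>
      obtain ⟨p, hp, e⟩ := h1
      obtain ⟨p', hp', e'⟩ := h2
      exact ⟨p + p', AddSubmonoid.add_mem _ hp hp', by rw [mul_add, e, e', add_mul]⟩
  | one =>
    intro E hE
    exact ⟨1, Submonoid.one_mem _, fun r hr => ⟨r, hE r hr, by simp⟩⟩
  | mul a b _ _ h1 h2 =>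
    intro E hE
    obtain ⟨s₂, hs₂, e2⟩ := h2 E hE
    choose! p hp1 hp2 using e2
    obtain ⟨s₁, hs₁, e1⟩ := h1 (E.image p) (by
      intro r hr
      obtain ⟨t, ht, rfl⟩ := Finset.mem_image.mp hr
      exact hp1 t ht)
    refine ⟨s₁ * s₂, Submonoid.mul_mem _ hs₁ hs₂, ?_⟩
    intro r hr
    obtain ⟨q, hq, e⟩ := e1 (p r) (Finset.mem_image_of_mem _ hr)
    exact ⟨q, hq, by rw [mul_assoc, hp2 r hr, ← mul_assoc, e, mul_assoc]⟩

theorem lcs_K {H K : Subgroup Q} (hKH : K ≤ H) (h0 : ⁅K, K⁆ ≤ H.lowerCentralSeries 2) (i : ℕ) :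
    K.lowerCentralSeries (i + 1) ≤ H.lowerCentralSeries (i + 2) := by
  induction i with
  | zero => exact h0
  | succ i ih =>
    rw [Subgroup.lowerCentralSeries_succ, Subgroup.lowerCentralSeries_succ H]
    exact Subgroup.commutator_mono ih hKH

theorem comm_K {H : Subgroup Q} {x : Q} (hx : x ∈ H) :
    ⁅Subgroup.closure ({x} ∪ ((⁅H, H⁆ : Subgroup Q) : Set Q)), Subgroup.closure ({x} ∪ ((⁅H, H⁆ : Subgroup Q) : Set Q))⁆ ≤
      H.lowerCentralSeries 2 := by
  set L := H.lowerCentralSeries 2 with hL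
  have hL' : ∀ a ∈ (⁅H, H⁆ : Subgroup Q), ∀ b ∈ H, ⁅a, b⁆ ∈ L := by
    intro a ha b hb
    rw [hL, Subgroup.lowerCentralSeries_succ]
    exact Subgroup.commutator_mem_commutator ha hb
  have hLn : ∀ g ∈ H, ∀ l ∈ L, g * l * g⁻¹ ∈ L := by
    intro g hg l hl
    have := Subgroup.self_le_normalizer_lowerCentralSeries (S := H) 2 hg
    exact (Subgroup.mem_normalizer_iff.mp this l).mp hl
  have hHH : (⁅H, H⁆ : Subgroup Q) ≤ H := Subgroup.commutator_le.mpr fun a ha b hb => by
    rw [commutatorElement_def]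
    exact H.mul_mem (H.mul_mem (H.mul_mem ha hb) (H.inv_mem ha)) (H.inv_mem hb)
  have hKH : Subgroup.closure ({x} ∪ ((⁅H, H⁆ : Subgroup Q) : Set Q)) ≤ H := by
    rw [Subgroup.closure_le]
    rintro y (hy | hy)
    · rw [Set.mem_singleton_iff] at hy
      rw [hy]
      exact hx
    · exact hHH hy
  have key : ∀ a ∈ H, (∀ b ∈ ({x} ∪ ((⁅H, H⁆ : Subgroup Q) : Set Q)), ⁅a, b⁆ ∈ L) →
      ∀ b ∈ Subgroup.closure ({x} ∪ ((⁅H, H⁆ : Subgroup Q) : Set Q)), ⁅a, b⁆ ∈ L := by
    intro a ha h b hb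
    induction hb using Subgroup.closure_induction with
    | mem y hy => exact h y hy
    | one => simp [L.one_mem]
    | mul y z hy _ h1 h2 =>
      have e : ⁅a, y * z⁆ = ⁅a, y⁆ * (y * ⁅a, z⁆ * y⁻¹) := by
        simp only [commutatorElement_def]
        group
      rw [e]
      exact L.mul_mem h1 (hLn y (hKH hy) _ h2)
    | inv y hy h1 =>
      have e : ⁅a, y⁻¹⁆ = y⁻¹ * ⁅a, y⁆⁻¹ * (y⁻¹)⁻¹ := by
        simp only [commutatorElement_def]
        group
      rw [e]
      exact hLn _ (H.inv_mem (hKH hy)) _ (L.inv_mem h1)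
  rw [Subgroup.commutator_le]
  intro a ha b hb
  have h1 : ∀ a ∈ ({x} ∪ ((⁅H, H⁆ : Subgroup Q) : Set Q)),
      ∀ b ∈ Subgroup.closure ({x} ∪ ((⁅H, H⁆ : Subgroup Q) : Set Q)), ⁅a, b⁆ ∈ L := by
    rintro a (ha | ha)
    · rw [Set.mem_singleton_iff] at ha
      subst ha
      apply key a hx
      rintro b (hb | hb)
      · rw [Set.mem_singleton_iff] at hb
        subst hb
        rw [commutatorElement_self]
        exact L.one_mem
      · rw [← commutatorElement_inv]
        exact L.inv_mem (hL' b hb a hx)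
    · intro b hb
      exact hL' a ha b (hKH hb)
  rw [← commutatorElement_inv]
  apply L.inv_mem
  apply key b (hKH hb) _ a ha
  intro y hy
  rw [← commutatorElement_inv]
  exact L.inv_mem (h1 y hy b hb)

theorem oreH_nil (n : ℕ) : ∀ H : Subgroup Q, H.lowerCentralSeries (n + 1) = ⊥ → OreH H := by
  induction n with
  | zero =>
    intro H hH
    exact oreH_comm hH
  | succ n ih =>
    intro H hH
    apply oreH_step
    intro x hx
    have hHH : (⁅H, H⁆ : Subgroup Q) ≤ H := Subgroup.commutator_le.mpr fun a ha b hb => by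
      rw [commutatorElement_def]
      exact H.mul_mem (H.mul_mem (H.mul_mem ha hb) (H.inv_mem ha)) (H.inv_mem hb)
    have hKH : Subgroup.closure ({x} ∪ ((⁅H, H⁆ : Subgroup Q) : Set Q)) ≤ H := by
      rw [Subgroup.closure_le]
      rintro y (hy | hy)
      · rw [Set.mem_singleton_iff] at hy
        rw [hy]
        exact hx
      · exact hHH hy
    refine ⟨Subgroup.closure ({x} ∪ ((⁅H, H⁆ : Subgroup Q) : Set Q)), hKH, ?_, ?_⟩
    · intro g hg
      have e : g * x * g⁻¹ = ⁅g, x⁆ * x := by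
        simp only [commutatorElement_def]
        group
      rw [e]
      refine Subgroup.mul_mem _ (Subgroup.subset_closure (Or.inr ?_))
        (Subgroup.subset_closure (Or.inl rfl))
      exact Subgroup.commutator_mem_commutator hg hx
    · apply ih
      rw [eq_bot_iff, ← hH]
      exact lcs_K hKH (comm_K hx) n

theorem oreH_top {c : ℕ} (hQ : NilC c Q) : OreH (⊤ : Subgroup Q) :=
  oreH_nil c ⊤ (hQ.mono (Nat.le_succ c))

end Ore

end Pool.H8
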