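import Pool.Agent.H8.Od5

set_option autoImplicit false
set_option backward.isDefEq.respectTransparency.types true
set_option linter.unusedSectionVars false

/-! Localization of ordered modules over nilpotent groups. -/

namespace Pool.H8

open Finset
open scoped commutatorElement

universe u v w

/-- the group ring acts on a module over the group -/
noncomputable def ract (Q : Type u) (X : Type v) [Group Q] [AddCommGroup X]
    [DistribMulAction Q X] : MonoidAlgebra ℤ Q →+* AddMonoid.End X :=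
  (MonoidAlgebra.lift ℤ (AddMonoid.End X) Q (DistribMulAction.toAddMonoidEnd Q X)).toRingHom

section

variable {Q : Type u} {X : Type v} [Group Q] [AddCommGroup X] [DistribMulAction Q X]

theorem ract_of (g : Q) (x : X) : ract Q X (MonoidAlgebra.of ℤ Q g) x = g • x := by
  unfold ract
  have : MonoidAlgebra.lift ℤ (AddMonoid.End X) Q (DistribMulAction.toAddMonoidEnd Q X)
    (MonoidAlgebra.of ℤ Q g) = DistribMulAction.toAddMonoidEnd Q X g := MonoidAlgebra.lift_of _ _
  exact congrArg (fun f : AddMonoid.End X => f x) this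

theorem ract_br (g : Q) (n : ℕ) (x : X) :
    ract Q X (br g n) x = ∑ i ∈ range n, g ^ i • x := by
  unfold br
  rw [map_sum]
  rw [show (∑ i ∈ range n, ract Q X (MonoidAlgebra.of ℤ Q (g ^ i))) x =
    ∑ i ∈ range n, (ract Q X (MonoidAlgebra.of ℤ Q (g ^ i))) x from
      AddMonoidHom.finsetSum_apply _ _ _]
  exact Finset.sum_congr rfl fun i _ => ract_of _ _

variable (R : MO Q X)

theorem ract_N0 {p : MonoidAlgebra ℤ Q} (hp : p ∈ N0 (⊤ : Subgroup Q)) {x : X} (hx : R.pos x) :
    R.pos (ract Q X p x) ∨ ract Q X p x = 0 := by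
  induction hp using AddSubmonoid.closure_induction with
  | mem r hr =>
    obtain ⟨g, _, rfl⟩ := hr
    left
    rw [ract_of]
    exact R.smul g hx
  | zero =>
    right
    rw [map_zero]
    rfl
  | add a b _ _ h1 h2 =>
    rw [map_add, show (ract Q X a + ract Q X b) x = ract Q X a x + ract Q X b x from rfl]
    rcases h1 with h1 | h1
    · rcases h2 with h2 | h2
      · exact Or.inl (R.add h1 h2)
      · left
        rw [h2, add_zero]
        exact h1
    · rw [h1, zero_add]
      exact h2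

theorem ract_P0 {p : MonoidAlgebra ℤ Q} (hp : p ∈ P0 (⊤ : Subgroup Q)) {x : X} (hx : R.pos x) :
    R.pos (ract Q X p x) := by
  induction hp using Submonoid.closure_induction generalizing x with
  | mem s hs =>
    obtain ⟨g, _, m, hm, rfl⟩ := hs
    rw [ract_br]
    obtain ⟨k, rfl⟩ : ∃ k, m = k + 1 := ⟨m - 1, by omega⟩
    rw [Finset.sum_range_succ']
    have h1 : ∀ k : ℕ, (∑ i ∈ range k, g ^ (i + 1) • x = 0) ∨
        R.pos (∑ i ∈ range k, g ^ (i + 1) • x) := by
      intro k
      induction k with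
      | zero => left; simp
      | succ k ih =>
        right
        rw [Finset.sum_range_succ]
        rcases ih with h | h
        · rw [h, zero_add]
          exact R.smul _ hx
        · exact R.add h (R.smul _ hx)
    rw [pow_zero, one_smul]
    rcases h1 k with h | h
    · rw [h, zero_add]
      exact hx
    · exact R.add h hx
  | one =>
    rw [map_one]
    exact hx
  | mul a b _ _ h1 h2 =>
    rw [map_mul]
    exact h1 (h2 hx)

include R in
theorem ract_P0_inj {p : MonoidAlgebra ℤ Q} (hp : p ∈ P0 (⊤ : Subgroup Q)) {x : X}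
    (hx : ract Q X p x = 0) : x = 0 := by
  by_contra h
  rcases R.tot h with h | h
  · exact R.ne_zero (ract_P0 R hp h) hx
  · refine R.ne_zero (ract_P0 R hp h) ?_
    rw [map_neg, hx, neg_zero]

end

theorem P0_ne_zero {Q : Type u} [Group Q] {s : MonoidAlgebra ℤ Q}
    (hs : s ∈ P0 (⊤ : Subgroup Q)) : s ≠ 0 := by
  let aug : MonoidAlgebra ℤ Q →ₐ[ℤ] ℤ := MonoidAlgebra.lift ℤ ℤ Q 1
  have h1 : 0 < aug s := by
    induction hs using Submonoid.closure_induction with
    | mem s hs =>
      obtain ⟨g, _, m, hm, rfl⟩ := hs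
      unfold br
      rw [map_sum]
      have h2 : ∀ i ∈ range m, aug (MonoidAlgebra.of ℤ Q (g ^ i)) = 1 := by
        intro i _
        exact MonoidAlgebra.lift_of _ _
      rw [Finset.sum_congr rfl h2]
      simpa using hm
    | one => simp
    | mul a b _ _ h1 h2 =>
      rw [map_mul]
      exact mul_pos h1 h2
  rintro rfl
  simp at h1

theorem BO.noZeroDivisors {Q : Type u} [Group Q] (P : BO Q) :
    NoZeroDivisors (MonoidAlgebra ℤ Q) := by
  let _ : LinearOrder Q := P.linearOrder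
  have h1 : MulLeftMono Q := ⟨fun c a b h => P.mul_left a b c h⟩
  have h2 : MulRightMono Q := ⟨fun c a b h => P.mul_right a b c h⟩
  infer_instance

theorem exists_oreSet {Q : Type u} [Group Q] {c : ℕ} (hQ : NilC c Q) (P : BO Q) :
    Nonempty (OreLocalization.OreSet (P0 (⊤ : Subgroup Q))) := by
  have := P.noZeroDivisors
  rw [OreLocalization.nonempty_oreSet_iff_of_noZeroDivisors]
  intro r s
  classical
  obtain ⟨r₁, hr₁, r₂, hr₂, rfl⟩ : ∃ r₁ ∈ N0 (⊤ : Subgroup Q), ∃ r₂ ∈ N0 (⊤ : Subgroup Q),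
      r = r₁ - r₂ := by
    induction r using MonoidAlgebra.induction_on with
    | of g => exact ⟨_, of_mem_N0 (Subgroup.mem_top g), 0, AddSubmonoid.zero_mem _, by simp⟩
    | add a b h1 h2 =>
      obtain ⟨a₁, ha₁, a₂, ha₂, rfl⟩ := h1
      obtain ⟨b₁, hb₁, b₂, hb₂, rfl⟩ := h2
      exact ⟨a₁ + b₁, AddSubmonoid.add_mem _ ha₁ hb₁, a₂ + b₂, AddSubmonoid.add_mem _ ha₂ hb₂,
        by abel⟩
    | smul n a h =>
      obtain ⟨a₁, ha₁, a₂, ha₂, rfl⟩ := h
      rcases Int.eq_nat_or_neg n with ⟨m, rfl | rfl⟩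
      · exact ⟨m • a₁, AddSubmonoid.nsmul_mem _ ha₁ m, m • a₂, AddSubmonoid.nsmul_mem _ ha₂ m,
          by rw [natCast_zsmul, smul_sub]⟩
      · exact ⟨m • a₂, AddSubmonoid.nsmul_mem _ ha₂ m, m • a₁, AddSubmonoid.nsmul_mem _ ha₁ m,
          by rw [neg_smul, natCast_zsmul, smul_sub, neg_sub]⟩
  obtain ⟨s', hs', h1⟩ := oreH_top hQ s s.2 {r₁, r₂} (by
    intro r hr
    rcases Finset.mem_insert.mp hr with rfl | hr
    · exact hr₁
    · rw [Finset.mem_singleton] at hr
      subst hr
      exact hr₂)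
  obtain ⟨p₁, _, e₁⟩ := h1 r₁ (by simp)
  obtain ⟨p₂, _, e₂⟩ := h1 r₂ (by simp)
  exact ⟨p₁ - p₂, ⟨s', hs'⟩, by simp only [mul_sub, sub_mul, e₁, e₂]⟩

open OreLocalization in
theorem exists_loc {Q : Type u} [Group Q] {c : ℕ} (hQ : NilC c Q) (P : BO Q) (X : Type v)
    [AddCommGroup X] [DistribMulAction Q X] (R : MO Q X) :
    ∃ (Y : Type (max u v)) (_ : AddCommGroup Y) (_ : DistribMulAction Q Y) (T : MO Q Y)
      (f : X →+ Y), (∀ (g : Q) (x : X), f (g • x) = g • f x) ∧ (∀ x, R.pos x → T.pos (f x)) ∧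
      ∀ (q : Q) (n : ℕ), 0 < n → ∀ y : Y, ∃ y' : Y, ∑ i ∈ range n, q ^ i • y' = y := by
  obtain ⟨ore⟩ := exists_oreSet hQ P
  let A := MonoidAlgebra ℤ Q
  let S : Submonoid A := P0 (⊤ : Subgroup Q)
  let _ : OreLocalization.OreSet S := ore
  let modX : Module A X := Module.compHom X (ract Q X)
  have smul_def : ∀ (r : A) (x : X), r • x = ract Q X r x := fun _ _ => rfl
  let Y := OreLocalization S X
  have hact : ∀ (r : A) (x : X) (s : S) (r' : A) (s' : S), s' * r = r' * s →
      r • (x /ₒ s) = (r' • x) /ₒ s' := by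
    intro r x s r' s' h
    rw [← OreLocalization.smul_one_oreDiv_one_smul, smul_eq_mul, mul_one,
      OreLocalization.oreDiv_smul_char r x 1 s r' s' h, mul_one]
  have hzero : ∀ (x : X) (s : S), x /ₒ s = 0 → x = 0 := by
    intro x s h
    have h1 : ((s : A) /ₒ (1 : S)) • (x /ₒ s) = x /ₒ 1 := OreLocalization.smul_cancel
    rw [h, smul_zero, OreLocalization.zero_def, OreLocalization.oreDiv_eq_iff] at h1
    obtain ⟨u, v, h2, h3⟩ := h1
    rw [smul_zero] at h2
    exact ract_P0_inj R u.2 h2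
  let pos : Y → Prop := fun ξ => ∃ (x : X) (s : S), R.pos x ∧ ξ = x /ₒ s
  have p_zero : ¬ pos 0 := by
    rintro ⟨x, s, hx, h⟩
    exact R.ne_zero hx (hzero x s h.symm)
  have p_add : ∀ {a b : Y}, pos a → pos b → pos (a + b) := by
    rintro _ _ ⟨x, s, hx, rfl⟩ ⟨y, t, hy, rfl⟩
    obtain ⟨s', hs', h1⟩ := oreH_top hQ t t.2 {(s : A)} (by
      intro r hr
      rw [Finset.mem_singleton] at hr
      subst hr
      exact P0_sub_N0 s.2)
    obtain ⟨p, hp, e⟩ := h1 s (Finset.mem_singleton_self _)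
    have h2 := OreLocalization.oreDiv_add_char (r := x) (r' := y) s t p ⟨s', hs'⟩ e
    rw [h2]
    refine ⟨_, _, ?_, rfl⟩
    have h3 : R.pos (ract Q X s' x) := ract_P0 R hs' hx
    have h4 := ract_N0 R hp hy
    show R.pos (ract Q X s' x + ract Q X p y)
    rcases h4 with h4 | h4
    · exact R.add h3 h4
    · rw [h4, add_zero]
      exact h3
  let actY : DistribMulAction Q Y := DistribMulAction.compHom Y (MonoidAlgebra.of ℤ Q)
  have actY_def : ∀ (g : Q) (y : Y), g • y = (MonoidAlgebra.of ℤ Q g) • y := fun _ _ => rfl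
  have p_smul : ∀ {a : Y} (g : Q), pos a → pos (g • a) := by
    rintro _ g ⟨x, s, hx, rfl⟩
    obtain ⟨s', hs', h1⟩ := oreH_top hQ s s.2 {MonoidAlgebra.of ℤ Q g} (by
      intro r hr
      rw [Finset.mem_singleton] at hr
      subst hr
      exact of_mem_N0 (Subgroup.mem_top g))
    obtain ⟨p, hp, e⟩ := h1 _ (Finset.mem_singleton_self _)
    have h2 : g • (x /ₒ s) = (p • x) /ₒ ⟨s', hs'⟩ := by
      rw [actY_def]
      exact hact _ x s p ⟨s', hs'⟩ e
    rw [h2]
    refine ⟨_, _, ?_, rfl⟩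
    rcases ract_N0 R hp hx with h4 | h4
    · exact h4
    · exfalso
      have h5 : g • (x /ₒ s) = 0 := by
        rw [h2, smul_def, h4, OreLocalization.zero_oreDiv]
      have h6 : x /ₒ s = 0 := by
        rw [← inv_smul_smul g (x /ₒ s), h5, smul_zero]
      exact R.ne_zero hx (hzero x s h6)
  have p_tot : ∀ {a : Y}, a ≠ 0 → pos a ∨ pos (-a) := by
    intro a ha
    induction a using OreLocalization.ind with | _ x s
    have hx : x ≠ 0 := by
      rintro rfl
      exact ha (OreLocalization.zero_oreDiv s)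
    rcases R.tot hx with h | h
    · exact Or.inl ⟨x, s, h, rfl⟩
    · right
      exact ⟨-x, s, h, OreLocalization.neg_def x s⟩
  let f : X →+ Y :=
    { toFun := fun x => x /ₒ (1 : S)
      map_zero' := OreLocalization.zero_oreDiv 1
      map_add' := fun x y => (OreLocalization.add_oreDiv).symm }
  refine ⟨Y, inferInstance, actY, ⟨pos, p_add, p_smul, p_zero, p_tot⟩, f, ?_, ?_, ?_⟩
  · intro g x
    show (g • x) /ₒ (1 : S) = g • (x /ₒ (1 : S))
    rw [actY_def, OreLocalization.smul_oreDiv_one, smul_def, ract_of]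
  · intro x hx
    exact ⟨x, 1, hx, rfl⟩
  · intro q n hn y
    have hb : br q n ∈ S := br_mem_P0 (Subgroup.mem_top q) hn
    refine ⟨((1 : A) /ₒ (⟨br q n, hb⟩ : S)) • y, ?_⟩
    have h1 : ∀ z : Y, ∑ i ∈ range n, q ^ i • z = (br q n) • z := by
      intro z
      unfold br
      rw [Finset.sum_smul]
      exact Finset.sum_congr rfl fun i _ => rfl
    rw [h1]
    have h2 : (br q n) • (((1 : A) /ₒ (⟨br q n, hb⟩ : S)) • y) =
        ((br q n /ₒ (1 : S)) * ((1 : A) /ₒ (⟨br q n, hb⟩ : S))) • y := by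
      rw [mul_smul, OreLocalization.oreDiv_one_smul]
    rw [h2]
    have h3 := OreLocalization.mul_inv (⟨br q n, hb⟩ : S) (1 : S)
    have h4 : (br q n /ₒ (1 : S)) * ((1 : A) /ₒ (⟨br q n, hb⟩ : S)) = 1 := h3
    rw [h4, one_smul]

end Pool.H8
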