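import Pool.Agent.H8.Od6

set_option autoImplicit false
set_option backward.isDefEq.respectTransparency.types true
set_option linter.unusedSectionVars false

/-! The semiring of elements of the group ring with positive augmentation on the fibres. -/

namespace Pool.H8

open Finset
open scoped commutatorElement

universe u v w

section P1

variable {Q : Type u} {W : Type v} [Group Q] [CommGroup W] (τ : Q →* W)

/-- the augmentation -/
noncomputable def aug (Q : Type u) [Group Q] : MonoidAlgebra ℤ Q →ₐ[ℤ] ℤ :=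
  MonoidAlgebra.lift ℤ ℤ Q 1

theorem aug_of (g : Q) : aug Q (MonoidAlgebra.of ℤ Q g) = 1 := MonoidAlgebra.lift_of _ _

/-- elements supported on a fibre -/
noncomputable def FB (b : W) : AddSubgroup (MonoidAlgebra ℤ Q) :=
  AddSubgroup.closure ((MonoidAlgebra.of ℤ Q) '' {g | τ g = b})

theorem of_mem_FB (g : Q) : MonoidAlgebra.of ℤ Q g ∈ FB τ (τ g) :=
  AddSubgroup.subset_closure ⟨g, rfl, rfl⟩

variable {τ}

theorem FB_mul {b c : W} {x y : MonoidAlgebra ℤ Q} (hx : x ∈ FB τ b) (hy : y ∈ FB τ c) :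
    x * y ∈ FB τ (b * c) := by
  induction hx using AddSubgroup.closure_induction with
  | mem x hx =>
    obtain ⟨g, hg, rfl⟩ := hx
    have hg' : τ g = b := hg
    induction hy using AddSubgroup.closure_induction with
    | mem y hy =>
      obtain ⟨h, hh, rfl⟩ := hy
      have hh' : τ h = c := hh
      rw [← map_mul, ← hg', ← hh', ← map_mul]
      exact of_mem_FB τ _
    | zero =>
      rw [mul_zero]
      exact AddSubgroup.zero_mem _
    | add a b _ _ h1 h2 =>
      rw [mul_add]
      exact AddSubgroup.add_mem _ h1 h2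
    | neg a _ h1 =>
      rw [mul_neg]
      exact AddSubgroup.neg_mem _ h1
  | zero =>
    rw [zero_mul]
    exact AddSubgroup.zero_mem _
  | add a b _ _ h1 h2 =>
    rw [add_mul]
    exact AddSubgroup.add_mem _ h1 h2
  | neg a _ h1 =>
    rw [neg_mul]
    exact AddSubgroup.neg_mem _ h1

variable (τ)

/-- positive augmentation on the fibres -/
inductive P1 : MonoidAlgebra ℤ Q → Prop
  | gen {b : W} {x : MonoidAlgebra ℤ Q} : x ∈ FB τ b → 0 < aug Q x → P1 x
  | add {x y : MonoidAlgebra ℤ Q} : P1 x → P1 y → P1 (x + y)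

/-- triples with dominated second and third components -/
inductive Tri : MonoidAlgebra ℤ Q → MonoidAlgebra ℤ Q → MonoidAlgebra ℤ Q → Prop
  | gen {b : W} {x y z : MonoidAlgebra ℤ Q} : x ∈ FB τ b → y ∈ FB τ b → z ∈ FB τ b →
      0 < aug Q x → aug Q y = 0 → aug Q z = 0 → Tri x y z
  | add {x y z x' y' z' : MonoidAlgebra ℤ Q} : Tri x y z → Tri x' y' z' →
      Tri (x + x') (y + y') (z + z')

variable {τ}

theorem P1_of (g : Q) : P1 τ (MonoidAlgebra.of ℤ Q g) :=
  P1.gen (of_mem_FB τ g) (by rw [aug_of]; exact one_pos)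

theorem P1_one : P1 τ (1 : MonoidAlgebra ℤ Q) := by
  rw [← map_one (MonoidAlgebra.of ℤ Q)]
  exact P1_of 1

theorem P1_mul {x y : MonoidAlgebra ℤ Q} (hx : P1 τ x) (hy : P1 τ y) : P1 τ (x * y) := by
  induction hx with
  | gen h1 h2 =>
    induction hy with
    | gen h3 h4 =>
      refine P1.gen (FB_mul h1 h3) ?_
      rw [map_mul]
      exact mul_pos h2 h4
    | add _ _ h3 h4 =>
      rw [mul_add]
      exact P1.add h3 h4
  | add _ _ h1 h2 =>
    rw [add_mul]
    exact P1.add h1 h2

theorem P1_pow {x : MonoidAlgebra ℤ Q} (hx : P1 τ x) (n : ℕ) : P1 τ (x ^ n) := by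
  induction n with
  | zero =>
    rw [pow_zero]
    exact P1_one
  | succ n ih =>
    rw [pow_succ]
    exact P1_mul ih hx

theorem Tri_P1 {x y z : MonoidAlgebra ℤ Q} (h : Tri τ x y z) : P1 τ (x + y) := by
  induction h with
  | gen h1 h2 h3 h4 h5 h6 =>
    refine P1.gen (AddSubgroup.add_mem _ h1 h2) ?_
    rw [map_add, h5, add_zero]
    exact h4
  | @add x y z x' y' z' _ _ h1 h2 =>
    rw [show x + x' + (y + y') = (x + y) + (x' + y') by abel]
    exact P1.add h1 h2

theorem Tri_comm {r s : MonoidAlgebra ℤ Q} (hr : P1 τ r) (hs : P1 τ s) :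
    Tri τ (r * s) (r * s - s * r) (r * s - s * r) := by
  induction hr with
  | @gen b x h1 h2 =>
    induction hs with
    | @gen c y h3 h4 =>
      have e1 : x * y ∈ FB τ (b * c) := FB_mul h1 h3
      have e2 : y * x ∈ FB τ (b * c) := by
        rw [mul_comm b c]
        exact FB_mul h3 h1
      have e3 := AddSubgroup.sub_mem _ e1 e2
      have e4 : aug Q (x * y - y * x) = 0 := by
        rw [map_sub, map_mul, map_mul, mul_comm, sub_self]
      refine Tri.gen e1 e3 e3 ?_ e4 e4
      rw [map_mul]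
      exact mul_pos h2 h4
    | @add y z _ _ h3 h4 =>
      have := Tri.add h3 h4
      rw [← mul_add] at this
      rwa [show x * y - y * x + (x * z - z * x) = x * (y + z) - (y + z) * x by noncomm_ring] at this
  | @add y z _ _ h3 h4 =>
    have := Tri.add h3 h4
    rw [← add_mul] at this
    rwa [show y * s - s * y + (z * s - s * z) = (y + z) * s - s * (y + z) by noncomm_ring] at this

theorem Tri_mul {r x y z : MonoidAlgebra ℤ Q} (hr : P1 τ r) (h : Tri τ x y z) :
    Tri τ (r * x) (r * y + (r * z - z * r)) (r * z - z * r) := by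
  induction hr with
  | @gen b r hr1 hr2 =>
    induction h with
    | @gen c x y z h1 h2 h3 h4 h5 h6 =>
      have e1 : r * x ∈ FB τ (b * c) := FB_mul hr1 h1
      have e2 : r * y ∈ FB τ (b * c) := FB_mul hr1 h2
      have e3 : r * z - z * r ∈ FB τ (b * c) := by
        refine AddSubgroup.sub_mem _ (FB_mul hr1 h3) ?_
        rw [mul_comm b c]
        exact FB_mul h3 hr1
      have e4 : aug Q (r * z - z * r) = 0 := by
        rw [map_sub, map_mul, map_mul, mul_comm, sub_self]
      refine Tri.gen e1 (AddSubgroup.add_mem _ e2 e3) e3 ?_ ?_ e4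
      · rw [map_mul]
        exact mul_pos hr2 h4
      · rw [map_add, map_mul, h5, e4]
        simp
    | @add x y z x' y' z' _ _ h1 h2 =>
      have := Tri.add h1 h2
      rwa [show r * x + r * x' = r * (x + x') by noncomm_ring,
        show r * y + (r * z - z * r) + (r * y' + (r * z' - z' * r)) =
          r * (y + y') + (r * (z + z') - (z + z') * r) by noncomm_ring,
        show r * z - z * r + (r * z' - z' * r) = r * (z + z') - (z + z') * r by noncomm_ring]
        at this
  | @add r r' _ _ h1 h2 =>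
    have := Tri.add h1 h2
    rwa [show r * x + r' * x = (r + r') * x by noncomm_ring,
      show r * y + (r * z - z * r) + (r' * y + (r' * z - z * r')) =
        (r + r') * y + ((r + r') * z - z * (r + r')) by noncomm_ring,
      show r * z - z * r + (r' * z - z * r') = (r + r') * z - z * (r + r') by noncomm_ring]
      at this

/-- the inner derivation of an element -/
noncomputable def adr (r x : MonoidAlgebra ℤ Q) : MonoidAlgebra ℤ Q := r * x - x * r

theorem ore_rec {r s : MonoidAlgebra ℤ Q} (hr : P1 τ r) (hs : P1 τ s) (n : ℕ) :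
    ∃ x y : MonoidAlgebra ℤ Q, Tri τ x y ((adr r)^[n + 1] s) ∧
      r ^ (n + 2) * s - (x + y) * r = (adr r)^[n + 2] s := by
  induction n with
  | zero =>
    refine ⟨r * s, r * s - s * r, Tri_comm hr hs, ?_⟩
    show r ^ 2 * s - (r * s + (r * s - s * r)) * r = r * (r * s - s * r) - (r * s - s * r) * r
    noncomm_ring
  | succ n ih =>
    obtain ⟨x, y, h1, h2⟩ := ih
    refine ⟨r * x, r * y + adr r ((adr r)^[n + 1] s), ?_, ?_⟩
    · rw [Function.iterate_succ_apply' (adr r) (n + 1) s]
      exact Tri_mul hr h1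
    · rw [Function.iterate_succ_apply' (adr r) (n + 2) s, ← h2]
      have h3 : adr r ((adr r)^[n + 1] s) = r ^ (n + 2) * s - (x + y) * r := by
        rw [h2, Function.iterate_succ_apply' (adr r) (n + 1) s]
      rw [h3]
      unfold adr
      rw [pow_succ' r (n + 2)]
      noncomm_ring

end P1

section Words

variable {Q : Type u} [Group Q]

/-- words of given weight -/
inductive Wd : ℕ → MonoidAlgebra ℤ Q → Prop
  | base (g : Q) : Wd 0 (MonoidAlgebra.of ℤ Q g)
  | cons {m i : ℕ} {x : MonoidAlgebra ℤ Q} {t : Q} : 1 ≤ i →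
      t ∈ (⊤ : Subgroup Q).lowerCentralSeries i → Wd m x →
      Wd (m + i) (x * (MonoidAlgebra.of ℤ Q t - 1))

/-- the span of the words of weight at least `m` -/
noncomputable def WF (Q : Type u) [Group Q] (m : ℕ) : AddSubgroup (MonoidAlgebra ℤ Q) :=
  AddSubgroup.closure {x | ∃ m', m ≤ m' ∧ Wd m' x}

theorem Wd_right {m : ℕ} {x : MonoidAlgebra ℤ Q} (hx : Wd m x) (h : Q) :
    Wd m (x * MonoidAlgebra.of ℤ Q h) := by
  induction hx generalizing h with
  | base g =>
    rw [← map_mul]
    exact Wd.base _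
  | @cons m i x t hi ht hx ih =>
    have e : x * (MonoidAlgebra.of ℤ Q t - 1) * MonoidAlgebra.of ℤ Q h =
        (x * MonoidAlgebra.of ℤ Q h) * (MonoidAlgebra.of ℤ Q (h⁻¹ * t * h) - 1) := by
      have e1 : MonoidAlgebra.of ℤ Q h * MonoidAlgebra.of ℤ Q (h⁻¹ * t * h) =
          MonoidAlgebra.of ℤ Q t * MonoidAlgebra.of ℤ Q h := by
        rw [← map_mul, ← map_mul]
        congr 1
        group
      rw [mul_assoc, mul_assoc, sub_mul, mul_sub (MonoidAlgebra.of ℤ Q h), e1, one_mul, mul_one]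
    rw [e]
    refine Wd.cons hi ?_ (ih h)
    have hn : ((⊤ : Subgroup Q).lowerCentralSeries i).Normal := inferInstance
    have := hn.conj_mem t ht h⁻¹
    rwa [inv_inv] at this

theorem WF_mono {m n : ℕ} (h : m ≤ n) : WF Q n ≤ WF Q m := by
  apply AddSubgroup.closure_mono
  rintro x ⟨m', h1, h2⟩
  exact ⟨m', h.trans h1, h2⟩

theorem Wd_mem {m : ℕ} {x : MonoidAlgebra ℤ Q} (hx : Wd m x) : x ∈ WF Q m :=
  AddSubgroup.subset_closure ⟨m, le_rfl, hx⟩

theorem WF_right {m : ℕ} {x : MonoidAlgebra ℤ Q} (hx : x ∈ WF Q m) (h : Q) :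
    x * MonoidAlgebra.of ℤ Q h ∈ WF Q m := by
  induction hx using AddSubgroup.closure_induction with
  | mem x hx =>
    obtain ⟨m', h1, h2⟩ := hx
    exact AddSubgroup.subset_closure ⟨m', h1, Wd_right h2 h⟩
  | zero =>
    rw [zero_mul]
    exact AddSubgroup.zero_mem _
  | add a b _ _ h1 h2 =>
    rw [add_mul]
    exact AddSubgroup.add_mem _ h1 h2
  | neg a _ h1 =>
    rw [neg_mul]
    exact AddSubgroup.neg_mem _ h1

theorem WF_cons {m i : ℕ} {x : MonoidAlgebra ℤ Q} (hx : x ∈ WF Q m) (hi : 1 ≤ i) {t : Q}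
    (ht : t ∈ (⊤ : Subgroup Q).lowerCentralSeries i) :
    x * (MonoidAlgebra.of ℤ Q t - 1) ∈ WF Q (m + i) := by
  induction hx using AddSubgroup.closure_induction with
  | mem x hx =>
    obtain ⟨m', h1, h2⟩ := hx
    exact AddSubgroup.subset_closure ⟨m' + i, by omega, Wd.cons hi ht h2⟩
  | zero =>
    rw [zero_mul]
    exact AddSubgroup.zero_mem _
  | add a b _ _ h1 h2 =>
    rw [add_mul]
    exact AddSubgroup.add_mem _ h1 h2
  | neg a _ h1 =>
    rw [neg_mul]
    exact AddSubgroup.neg_mem _ h1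

theorem Wd_comm {m : ℕ} {x : MonoidAlgebra ℤ Q} (hx : Wd m x) (g : Q) :
    adr (MonoidAlgebra.of ℤ Q g) x ∈ WF Q (m + 1) := by
  induction hx with
  | base h =>
    have e : adr (MonoidAlgebra.of ℤ Q g) (MonoidAlgebra.of ℤ Q h) =
        (MonoidAlgebra.of ℤ Q 1 * (MonoidAlgebra.of ℤ Q ⁅g, h⁆ - 1)) *
          MonoidAlgebra.of ℤ Q (h * g) := by
      unfold adr
      rw [map_one, one_mul, sub_mul, one_mul, ← map_mul, ← map_mul, ← map_mul,
        commutatorElement_def]
      congr 2
      group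
    rw [e]
    apply WF_right
    apply WF_cons (Wd_mem (Wd.base 1)) le_rfl
    exact Subgroup.commutator_mem_commutator trivial trivial
  | @cons m i x t hi ht hx ih =>
    have e : adr (MonoidAlgebra.of ℤ Q g) (x * (MonoidAlgebra.of ℤ Q t - 1)) =
        adr (MonoidAlgebra.of ℤ Q g) x * (MonoidAlgebra.of ℤ Q t - 1) +
        x * (MonoidAlgebra.of ℤ Q ⁅g, t⁆ - 1) * MonoidAlgebra.of ℤ Q (t * g) := by
      have e1 : (MonoidAlgebra.of ℤ Q ⁅g, t⁆ - 1) * MonoidAlgebra.of ℤ Q (t * g) =
          MonoidAlgebra.of ℤ Q g * MonoidAlgebra.of ℤ Q t -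
            MonoidAlgebra.of ℤ Q t * MonoidAlgebra.of ℤ Q g := by
        rw [sub_mul, one_mul, ← map_mul, ← map_mul, ← map_mul, commutatorElement_def]
        congr 2
        group
      rw [mul_assoc x, e1]
      unfold adr
      noncomm_ring
    rw [e]
    refine AddSubgroup.add_mem _ ?_ ?_
    · have := WF_cons ih hi ht
      rwa [show m + 1 + i = m + i + 1 by omega] at this
    · apply WF_right
      rw [show m + i + 1 = m + (i + 1) by omega]
      apply WF_cons (Wd_mem hx) (by omega)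
      rw [← commutatorElement_inv]
      exact Subgroup.inv_mem _ (Subgroup.commutator_mem_commutator ht trivial)

theorem WF_adr {m : ℕ} {x : MonoidAlgebra ℤ Q} (hx : x ∈ WF Q m) (r : MonoidAlgebra ℤ Q) :
    adr r x ∈ WF Q (m + 1) := by
  induction r using MonoidAlgebra.induction_on with
  | of g =>
    induction hx using AddSubgroup.closure_induction with
    | mem x hx =>
      obtain ⟨m', h1, h2⟩ := hx
      exact WF_mono (by omega) (Wd_comm h2 g)
    | zero =>
      unfold adr
      rw [mul_zero, zero_mul, sub_self]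
      exact AddSubgroup.zero_mem _
    | add a b _ _ h1 h2 =>
      have := AddSubgroup.add_mem _ h1 h2
      unfold adr at this ⊢
      rwa [show MonoidAlgebra.of ℤ Q g * a - a * MonoidAlgebra.of ℤ Q g +
        (MonoidAlgebra.of ℤ Q g * b - b * MonoidAlgebra.of ℤ Q g) =
        MonoidAlgebra.of ℤ Q g * (a + b) - (a + b) * MonoidAlgebra.of ℤ Q g by noncomm_ring] at this
    | neg a _ h1 =>
      have := AddSubgroup.neg_mem _ h1
      unfold adr at this ⊢
      rwa [show -(MonoidAlgebra.of ℤ Q g * a - a * MonoidAlgebra.of ℤ Q g) =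
        MonoidAlgebra.of ℤ Q g * (-a) - (-a) * MonoidAlgebra.of ℤ Q g by noncomm_ring] at this
  | add a b h1 h2 =>
    have := AddSubgroup.add_mem _ h1 h2
    unfold adr at this ⊢
    rwa [show a * x - x * a + (b * x - x * b) = (a + b) * x - x * (a + b) by noncomm_ring] at this
  | smul n a h =>
    have := AddSubgroup.zsmul_mem _ h n
    unfold adr at this ⊢
    rwa [smul_sub, ← smul_mul_assoc, ← mul_smul_comm] at this

theorem WF_zero (x : MonoidAlgebra ℤ Q) : x ∈ WF Q 0 := by
  induction x using MonoidAlgebra.induction_on with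
  | of g => exact Wd_mem (Wd.base g)
  | add a b h1 h2 => exact AddSubgroup.add_mem _ h1 h2
  | smul n a h => exact AddSubgroup.zsmul_mem _ h n

theorem WF_iter (r x : MonoidAlgebra ℤ Q) (n : ℕ) : (adr r)^[n] x ∈ WF Q n := by
  induction n with
  | zero => exact WF_zero x
  | succ n ih =>
    rw [Function.iterate_succ_apply']
    exact WF_adr ih r

end Words

section Act

variable {Q : Type u} [Group Q] {M : Type w} [AddCommGroup M] [DistribMulAction Q M]

theorem ract_of_sub (t : Q) (m : M) :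
    ract Q M (MonoidAlgebra.of ℤ Q t - 1) m = t • m - m := by
  rw [map_sub, map_one]
  show ract Q M (MonoidAlgebra.of ℤ Q t) m - m = _
  rw [ract_of]

theorem Wd_act {c : ℕ} (hc : 1 ≤ c) (hQ : NilC c Q) (U : ℕ → AddSubgroup M) (hU0 : U 0 = ⊥)
    (hUs : ∀ j (g : Q) m, m ∈ U j → g • m ∈ U j)
    (hUt : ∀ j, ∀ t ∈ (⊤ : Subgroup Q).lowerCentralSeries 1, ∀ m ∈ U (j + 1), t • m - m ∈ U j)
    {m : ℕ} {x : MonoidAlgebra ℤ Q} (hx : Wd m x) :
    ∃ l, m ≤ c * l ∧ ∀ j, ∀ y ∈ U j, ract Q M x y ∈ U (j - l) := by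
  induction hx with
  | base g =>
    refine ⟨0, by omega, ?_⟩
    intro j y hy
    rw [ract_of]
    exact hUs j g y hy
  | @cons m i x t hi ht hx ih =>
    obtain ⟨l, h1, h2⟩ := ih
    by_cases hic : i < c
    · refine ⟨l + 1, by nlinarith, ?_⟩
      intro j y hy
      rw [map_mul]
      show ract Q M x (ract Q M (MonoidAlgebra.of ℤ Q t - 1) y) ∈ _
      rw [ract_of_sub]
      rcases Nat.eq_zero_or_pos j with h0 | h0
      · subst h0
        rw [hU0, AddSubgroup.mem_bot] at hy
        subst hy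
        rw [smul_zero, sub_self, map_zero]
        exact AddSubgroup.zero_mem _
      · obtain ⟨k, rfl⟩ : ∃ k, j = k + 1 := ⟨j - 1, by omega⟩
        have h3 := hUt k t (Subgroup.lowerCentralSeries_antitone _ hi ht) y hy
        have h4 := h2 k _ h3
        rwa [show k + 1 - (l + 1) = k - l by omega]
    · have ht1 : t = 1 := by
        have := Subgroup.lowerCentralSeries_antitone _ (not_lt.mp hic) ht
        rw [hQ, Subgroup.mem_bot] at this
        exact this
      refine ⟨m + i, by nlinarith, ?_⟩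
      intro j y _
      rw [ht1, map_one, sub_self, mul_zero, map_zero]
      exact AddSubgroup.zero_mem _

theorem exists_ann {c : ℕ} (hc : 1 ≤ c) (hQ : NilC c Q) (U : ℕ → AddSubgroup M) (hU0 : U 0 = ⊥)
    {k : ℕ} (hUk : U k = ⊤)
    (hUs : ∀ j (g : Q) m, m ∈ U j → g • m ∈ U j)
    (hUt : ∀ j, ∀ t ∈ (⊤ : Subgroup Q).lowerCentralSeries 1, ∀ m ∈ U (j + 1), t • m - m ∈ U j)
    (r x : MonoidAlgebra ℤ Q) (n : ℕ) (hn : c * k ≤ n) (y : M) :
    ract Q M ((adr r)^[n] x) y = 0 := by
  have h1 := WF_iter r x n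
  generalize (adr r)^[n] x = z at h1
  induction h1 using AddSubgroup.closure_induction with
  | mem x hx =>
    obtain ⟨m', h2, h3⟩ := hx
    obtain ⟨l, h4, h5⟩ := Wd_act hc hQ U hU0 hUs hUt h3
    have hkl : k ≤ l := by
      have : c * k ≤ c * l := by omega
      exact Nat.le_of_mul_le_mul_left this (by omega)
    have h6 := h5 k y (by rw [hUk]; trivial)
    rw [Nat.sub_eq_zero_of_le hkl, hU0, AddSubgroup.mem_bot] at h6
    exact h6
  | zero =>
    rw [map_zero]
    rfl
  | add a b _ _ h1 h2 =>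
    rw [map_add]
    show ract Q M a y + ract Q M b y = 0
    rw [h1, h2, add_zero]
  | neg a _ h1 =>
    rw [map_neg]
    show - ract Q M a y = 0
    rw [h1, neg_zero]

/-- the Ore condition modulo the annihilator of a unipotent module -/
theorem ore_P1 {W : Type v} [CommGroup W] {τ : Q →* W} {c : ℕ} (hQ : NilC c Q)
    (U : ℕ → AddSubgroup M) (hU0 : U 0 = ⊥)
    {k : ℕ} (hUk : U k = ⊤)
    (hUs : ∀ j (g : Q) m, m ∈ U j → g • m ∈ U j)
    (hUt : ∀ j, ∀ t ∈ (⊤ : Subgroup Q).lowerCentralSeries 1, ∀ m ∈ U (j + 1), t • m - m ∈ U j)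
    {r s : MonoidAlgebra ℤ Q} (hr : P1 τ r) (hs : P1 τ s) :
    ∃ r' s' : MonoidAlgebra ℤ Q, P1 τ r' ∧ P1 τ s' ∧
      ∀ m : M, ract Q M r' (ract Q M s m) = ract Q M s' (ract Q M r m) := by
  obtain ⟨x, y, h1, h2⟩ := ore_rec hr hs ((c + 1) * k)
  refine ⟨r ^ ((c + 1) * k + 2), x + y, P1_pow hr _, Tri_P1 h1, ?_⟩
  intro m
  have h3 := exists_ann (c := c + 1) (by omega) (hQ.mono (Nat.le_succ c)) U hU0 hUk hUs hUt r s
    ((c + 1) * k + 2) (by omega) m
  rw [← h2, map_sub, map_mul, map_mul] at h3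
  exact sub_eq_zero.mp h3

end Act

end Pool.H8
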