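import Mathlib

set_option autoImplicit false
set_option backward.isDefEq.respectTransparency.types true

/-! Fractions of an Ore domain: elementary facts. -/

namespace Pool.H8

open scoped nonZeroDivisors

section Ore

variable {R : Type*} [Ring R] [IsDomain R] [OreLocalization.OreSet R⁰]

/-- the division ring of fractions -/
abbrev Fr (R : Type*) [Ring R] [IsDomain R] [OreLocalization.OreSet R⁰] := OreLocalization R⁰ R

/-- the embedding -/
noncomputable def io : R →+* Fr R := OreLocalization.numeratorRingHom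

theorem io_inj : Function.Injective (io : R → Fr R) := by
  intro a b h
  have := OreLocalization.numeratorHom_inj (R := R) (S := R⁰) inf_le_left
  exact this h

theorem io_ne_zero {r : R} (h : r ≠ 0) : (io r : Fr R) ≠ 0 := by
  intro h0
  apply h
  apply io_inj
  rw [h0, map_zero]

theorem io_eq_zero {r : R} (h : (io r : Fr R) = 0) : r = 0 := by
  by_contra h0
  exact io_ne_zero h0 h

theorem exists_frac (d : Fr R) : ∃ s : R, s ≠ 0 ∧ ∃ r : R, io s * d = io r := by
  induction d using OreLocalization.ind with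
  | _ r s =>
    refine ⟨s, nonZeroDivisors.coe_ne_zero s, r, ?_⟩
    change (s : R) /ₒ (1 : R⁰) * (r /ₒ s) = r /ₒ 1
    simp

theorem ore_exists (a b : R) (hb : b ≠ 0) : ∃ u v : R, v ≠ 0 ∧ u * b = v * a := by
  obtain ⟨u, v, h⟩ : ∃ (u : R) (v : R⁰), (v : R) * a = u * b :=
    ⟨OreLocalization.oreNum a ⟨b, mem_nonZeroDivisors_of_ne_zero hb⟩,
     OreLocalization.oreDenom a ⟨b, mem_nonZeroDivisors_of_ne_zero hb⟩,
     OreLocalization.ore_eq a ⟨b, mem_nonZeroDivisors_of_ne_zero hb⟩⟩
  exact ⟨u, v, nonZeroDivisors.coe_ne_zero v, h.symm⟩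

/-- common denominators -/
theorem exists_common {ι' : Type*} (S : Finset ι') (d : ι' → Fr R) :
    ∃ s : R, s ≠ 0 ∧ ∀ i ∈ S, ∃ r : R, io s * d i = io r := by
  classical
  induction S using Finset.induction_on with
  | empty => exact ⟨1, one_ne_zero, by simp⟩
  | insert a S ha ih =>
    obtain ⟨s, hs, h⟩ := ih
    obtain ⟨t, ht, r, hr⟩ := exists_frac (d a)
    obtain ⟨u, v, hv, huv⟩ := ore_exists s t ht
    -- u * t = v * s
    refine ⟨v * s, mul_ne_zero hv hs, ?_⟩
    intro i hi
    rcases Finset.mem_insert.1 hi with rfl | hi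
    · refine ⟨u * r, ?_⟩
      rw [← huv, map_mul, map_mul, mul_assoc, hr]
    · obtain ⟨r', hr'⟩ := h i hi
      exact ⟨v * r', by rw [map_mul, map_mul, mul_assoc, hr']⟩

theorem exists_common_fintype {ι' : Type*} [Fintype ι'] (d : ι' → Fr R) :
    ∃ s : R, s ≠ 0 ∧ ∃ r : ι' → R, ∀ i, io s * d i = io (r i) := by
  obtain ⟨s, hs, h⟩ := exists_common (Finset.univ) d
  choose r hr using h
  exact ⟨s, hs, fun i => r i (Finset.mem_univ i), fun i => hr i _⟩

theorem exists_lift {T : Type*} [Ring T] (f : R →+* T) (hf : ∀ r : R, r ≠ 0 → IsUnit (f r)) :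
    ∃ g : Fr R →+* T, ∀ r, g (io r) = f r := by
  classical
  have hf' : ∀ s : R⁰, IsUnit (((f : R →* T).comp R⁰.subtype) s) := fun s =>
    hf s (nonZeroDivisors.coe_ne_zero s)
  let fS : R⁰ →* Tˣ := IsUnit.liftRight ((f : R →* T).comp R⁰.subtype) hf'
  have hfS : ∀ s : R⁰, f s = fS s := fun s => (IsUnit.coe_liftRight _ hf' s).symm
  exact ⟨OreLocalization.universalHom f fS hfS, fun r =>
    OreLocalization.universalHom_commutes f fS hfS⟩

theorem frac_hom_ext {T : Type*} [Ring T] {g h : Fr R →+* T} (H : ∀ r : R, g (io r) = h (io r)) :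
    g = h := by
  ext d
  obtain ⟨s, hs, r, hr⟩ := exists_frac d
  have h1 : g (io s) * g d = g (io s) * h d := by
    rw [← map_mul, hr, H r, ← hr, map_mul, H s]
  have hu : IsUnit (g (io s)) := (IsUnit.mk0 _ (io_ne_zero hs)).map g
  exact hu.mul_left_cancel h1

end Ore

end Pool.H8
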