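import Pool.Agent.H8.Free

set_option autoImplicit false
set_option backward.isDefEq.respectTransparency.types true
set_option linter.unusedSectionVars false

/-! Integration of continuous functions with p-adic values on free pro-p groups. -/

namespace Pool.H8

section Cont

variable {p : ℕ} [Fact p.Prime] {X : Type*} [TopologicalSpace X]

theorem toZModPow_eq_iff (m : ℕ) (a b : ℤ_[p]) :
    PadicInt.toZModPow m a = PadicInt.toZModPow m b ↔ (p : ℤ_[p]) ^ m ∣ a - b := by
  rw [← sub_eq_zero, ← map_sub, ← RingHom.mem_ker, PadicInt.ker_toZModPow,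
    Ideal.mem_span_singleton]

theorem lc_of_cont {f : X → ℤ_[p]} (hf : Continuous f) (m : ℕ) :
    IsLocallyConstant (fun y => PadicInt.toZModPow m (f y)) := by
  rw [IsLocallyConstant.iff_exists_open]
  intro x
  have hp0 : (0 : ℝ) < p := by exact_mod_cast (Fact.out : p.Prime).pos
  have h0 : (0 : ℝ) < (p : ℝ) ^ (-(m : ℤ)) := zpow_pos hp0 _
  refine ⟨f ⁻¹' Metric.ball (f x) ((p : ℝ) ^ (-(m : ℤ))), Metric.isOpen_ball.preimage hf,
    Metric.mem_ball_self h0, fun y hy => ?_⟩
  rw [toZModPow_eq_iff]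
  have h1 : dist (f y) (f x) < (p : ℝ) ^ (-(m : ℤ)) := hy
  rw [dist_eq_norm] at h1
  have h2 := h1.le
  rw [PadicInt.norm_le_pow_iff_mem_span_pow] at h2
  exact Ideal.mem_span_singleton.1 h2

theorem cont_of_lc {f : X → ℤ_[p]}
    (h : ∀ m, IsLocallyConstant (fun y => PadicInt.toZModPow m (f y))) : Continuous f := by
  rw [continuous_iff_continuousAt]
  intro x
  rw [ContinuousAt, Metric.tendsto_nhds]
  intro ε hε
  obtain ⟨m, hm⟩ := PadicInt.exists_pow_neg_lt p hε
  have h1 : {y | PadicInt.toZModPow m (f y) = PadicInt.toZModPow m (f x)} ∈ nhds x := by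
    have h2 : IsOpen {y | PadicInt.toZModPow m (f y) = PadicInt.toZModPow m (f x)} :=
      (h m).isOpen_fiber _
    exact h2.mem_nhds rfl
  filter_upwards [h1] with y hy
  rw [toZModPow_eq_iff, ← Ideal.mem_span_singleton, ← PadicInt.norm_le_pow_iff_mem_span_pow] at hy
  rw [dist_eq_norm]
  exact lt_of_le_of_lt hy hm

end Cont

section

variable {p : ℕ} [Fact p.Prime]

variable {F : Type} [Group F] [TopologicalSpace F] [IsTopologicalGroup F] [CompactSpace F]
  [TotallyDisconnectedSpace F] {n : ℕ} {x : Fin n → F}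

/-- uniqueness of integrals, additive version -/
theorem aint_unique {R : Type} [AddCommGroup R] [Fintype R]
    (hR : ∃ k : ℕ, Fintype.card R = p ^ k) (hF : IsFreeProP p x) (A A' : F → R)
    (hA : IsLocallyConstant A)
    (hA' : IsLocallyConstant A') (y0 : F) (h1 : A y0 = A' y0)
    (h : ∀ j y, A (y * x j) - A y = A' (y * x j) - A' y) : A = A' := by
  have hP : ∃ k : ℕ, Fintype.card (Multiplicative R) = p ^ k := by
    obtain ⟨k, hk⟩ := hR
    exact ⟨k, (Fintype.card_multiplicative R).trans hk⟩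
  have e := integral_unique hF hP (fun y => Multiplicative.ofAdd (A (y0 * y)))
    (fun y => Multiplicative.ofAdd (A' (y0 * y)))
    ((hA.comp_continuous (continuous_const_mul y0)).comp Multiplicative.ofAdd)
    ((hA'.comp_continuous (continuous_const_mul y0)).comp Multiplicative.ofAdd)
    (by simp [h1])
    (by
      intro j y
      have := h j (y0 * y)
      rw [← ofAdd_neg, ← ofAdd_neg, ← ofAdd_add, ← ofAdd_add, neg_add_eq_sub, neg_add_eq_sub,
        ← mul_assoc, this])
  funext y
  have h2 := congrFun e (y0⁻¹ * y)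
  simp only [mul_inv_cancel_left] at h2
  exact Multiplicative.ofAdd.injective h2

/-- existence of integrals, additive version -/
theorem aint_exists {R : Type} [AddCommGroup R] [Fintype R]
    (hR : ∃ k : ℕ, Fintype.card R = p ^ k) (hF : IsFreeProP p x) (B : Fin n → F → R)
    (hB : ∀ j, IsLocallyConstant (B j)) :
    ∃ A : F → R, IsLocallyConstant A ∧ A 1 = 0 ∧ ∀ j y, A (y * x j) = A y + B j y := by
  have hP : ∃ k : ℕ, Fintype.card (Multiplicative R) = p ^ k := by
    obtain ⟨k, hk⟩ := hR
    exact ⟨k, (Fintype.card_multiplicative R).trans hk⟩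
  obtain ⟨A, h1, h2, h3⟩ := integral_exists hF hP (fun j y => Multiplicative.ofAdd (B j y))
    (fun j => (hB j).comp Multiplicative.ofAdd)
  refine ⟨fun y => Multiplicative.toAdd (A y), h1.comp Multiplicative.toAdd, ?_, ?_⟩
  · simp [h2]
  · intro j y
    simp only [h3, toAdd_mul, toAdd_ofAdd]

theorem pint_unique (hF : IsFreeProP p x) (A A' : F → ℤ_[p]) (hA : Continuous A)
    (hA' : Continuous A') (y0 : F) (h1 : A y0 = A' y0)
    (h : ∀ j y, A (y * x j) - A y = A' (y * x j) - A' y) : A = A' := by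
  funext y
  apply PadicInt.ext_of_toZModPow.1
  intro m
  have hne : NeZero (p ^ m) := ⟨pow_ne_zero _ (Fact.out : p.Prime).ne_zero⟩
  have h2 := aint_unique (R := ZMod (p ^ m)) ⟨m, ZMod.card _⟩ hF
    (fun y => PadicInt.toZModPow m (A y)) (fun y => PadicInt.toZModPow m (A' y))
    (lc_of_cont hA m) (lc_of_cont hA' m) y0 (by rw [h1]) (by
      intro j y
      rw [← map_sub, ← map_sub, h])
  exact congrFun h2 y

theorem pint_exists (hF : IsFreeProP p x) (B : Fin n → F → ℤ_[p])
    (hB : ∀ j, Continuous (B j)) :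
    ∃ A : F → ℤ_[p], Continuous A ∧ A 1 = 0 ∧ ∀ j y, A (y * x j) = A y + B j y := by
  have hne : ∀ m, NeZero (p ^ m) := fun m => ⟨pow_ne_zero _ (Fact.out : p.Prime).ne_zero⟩
  have h1 : ∀ m, ∃ A : F → ZMod (p ^ m), IsLocallyConstant A ∧ A 1 = 0 ∧
      ∀ j y, A (y * x j) = A y + PadicInt.toZModPow m (B j y) := by
    intro m
    exact aint_exists ⟨m, ZMod.card _⟩ hF _ fun j => lc_of_cont (hB j) m
  choose A hA1 hA2 hA3 using h1
  have hcomp : ∀ m y, ZMod.castHom (pow_dvd_pow p (Nat.le_succ m)) (ZMod (p ^ m)) (A (m + 1) y) =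
      A m y := by
    intro m y
    have h2 := aint_unique (R := ZMod (p ^ m)) ⟨m, ZMod.card _⟩ hF
      (fun y => ZMod.castHom (pow_dvd_pow p (Nat.le_succ m)) (ZMod (p ^ m)) (A (m + 1) y))
      (A m) ((hA1 (m + 1)).comp _) (hA1 m) 1 (by rw [hA2, hA2, map_zero]) (by
        intro j y
        have h3 : ZMod.castHom (pow_dvd_pow p (Nat.le_succ m)) (ZMod (p ^ m))
            (PadicInt.toZModPow (m + 1) (B j y)) = PadicInt.toZModPow m (B j y) :=
          PadicInt.cast_toZModPow m (m + 1) (Nat.le_succ m) (B j y)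
        rw [hA3, hA3, map_add, h3]
        ring)
    exact congrFun h2 y
  let g : F → ℕ → ℤ := fun y m => ((A m y).val : ℤ)
  have hg : ∀ y m, ((g y m : ℤ) : ZMod (p ^ m)) = A m y := by
    intro y m
    simp [g]
  have hdvd : ∀ y i, (p : ℤ) ^ i ∣ g y (i + 1) - g y i := by
    intro y i
    have h2 : ((g y i : ℤ) : ZMod (p ^ i)) = ((g y (i + 1) : ℤ) : ZMod (p ^ i)) := by
      rw [hg, ← hcomp]
      have h3 := hg y (i + 1)
      rw [← h3, map_intCast]
    rw [ZMod.intCast_eq_intCast_iff_dvd_sub] at h2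
    exact_mod_cast h2
  let A0 : F → ℤ_[p] := fun y => PadicInt.ofIntSeq _
    (PadicInt.isCauSeq_padicNorm_of_pow_dvd_sub (g y) p (hdvd y))
  have hA0 : ∀ y m, PadicInt.toZModPow m (A0 y) = A m y := by
    intro y m
    rw [← hg]
    exact PadicInt.toZModPow_ofIntSeq_of_pow_dvd_sub (g y) p (hdvd y) m
  refine ⟨A0, cont_of_lc fun m => ?_, ?_, fun j y => ?_⟩
  · simp only [hA0]
    exact hA1 m
  · apply PadicInt.ext_of_toZModPow.1
    intro m
    rw [hA0, hA2, map_zero]
  · apply PadicInt.ext_of_toZModPow.1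
    intro m
    rw [hA0, hA3, map_add, hA0]

/-- the integration operators -/
theorem exists_I (hF : IsFreeProP p x) (j : Fin n) (f : C(F, ℤ_[p])) :
    ∃ A : C(F, ℤ_[p]), A 1 = 0 ∧ ∀ k y, A (y * x k) = A y + if k = j then f y else 0 := by
  obtain ⟨A, h1, h2, h3⟩ := pint_exists hF (fun k y => if k = j then f y else 0) (by
    intro k
    split_ifs
    · exact f.continuous
    · exact continuous_const)
  exact ⟨⟨A, h1⟩, h2, h3⟩

/-- the integral of a function in direction `j` -/
noncomputable def II (hF : IsFreeProP p x) (j : Fin n) (f : C(F, ℤ_[p])) : C(F, ℤ_[p]) :=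
  Classical.choose (exists_I hF j f)

theorem II_one (hF : IsFreeProP p x) (j : Fin n) (f : C(F, ℤ_[p])) : II hF j f 1 = 0 :=
  (Classical.choose_spec (exists_I hF j f)).1

theorem II_mul (hF : IsFreeProP p x) (j : Fin n) (f : C(F, ℤ_[p])) (k : Fin n) (y : F) :
    II hF j f (y * x k) = II hF j f y + if k = j then f y else 0 :=
  (Classical.choose_spec (exists_I hF j f)).2 k y

theorem II_self (hF : IsFreeProP p x) (j : Fin n) (f : C(F, ℤ_[p])) (y : F) :
    II hF j f (y * x j) = II hF j f y + f y := by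
  rw [II_mul, if_pos rfl]

theorem II_ne (hF : IsFreeProP p x) {j k : Fin n} (h : k ≠ j) (f : C(F, ℤ_[p])) (y : F) :
    II hF j f (y * x k) = II hF j f y := by
  rw [II_mul, if_neg h, add_zero]

theorem II_unique (hF : IsFreeProP p x) (j : Fin n) (f A : C(F, ℤ_[p])) (h1 : A 1 = 0)
    (h2 : ∀ k y, A (y * x k) = A y + if k = j then f y else 0) : A = II hF j f := by
  apply DFunLike.coe_injective
  apply pint_unique hF _ _ A.continuous (II hF j f).continuous 1
  · rw [h1, II_one]
  · intro k y
    rw [h2, II_mul]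
    ring

theorem II_add (hF : IsFreeProP p x) (j : Fin n) (f g : C(F, ℤ_[p])) :
    II hF j (f + g) = II hF j f + II hF j g := by
  symm
  apply II_unique
  · rw [ContinuousMap.add_apply, II_one, II_one, add_zero]
  · intro k y
    rw [ContinuousMap.add_apply, ContinuousMap.add_apply, II_mul, II_mul]
    split_ifs
    · rw [ContinuousMap.add_apply]; ring
    · ring

theorem II_smul (hF : IsFreeProP p x) (j : Fin n) (c : ℤ_[p]) (f : C(F, ℤ_[p])) :
    II hF j (c • f) = c • II hF j f := by
  symm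
  apply II_unique
  · rw [ContinuousMap.smul_apply, II_one, smul_zero]
  · intro k y
    rw [ContinuousMap.smul_apply, ContinuousMap.smul_apply, II_mul]
    split_ifs
    · rw [ContinuousMap.smul_apply, smul_add]
    · rw [add_zero, add_zero]

/-- the fundamental theorem -/
theorem FTC (hF : IsFreeProP p x) (A : F → ℤ_[p]) (hA : Continuous A)
    (B : Fin n → C(F, ℤ_[p])) (hB : ∀ j y, A (y * x j) = A y + B j y) (y : F) :
    A y = A 1 + ∑ j, II hF j (B j) y := by
  have h := pint_unique hF A (fun y => A 1 + ∑ j, II hF j (B j) y) hA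
    (continuous_const.add (continuous_finsetSum _ fun j _ => (II hF j (B j)).continuous)) 1
    (by simp [II_one]) (by
      intro k y
      rw [hB]
      have h1 : ∀ j, II hF j (B j) (y * x k) = II hF j (B j) y + if k = j then B j y else 0 :=
        fun j => II_mul hF j (B j) k y
      simp only [h1, Finset.sum_add_distrib]
      simp)
  exact congrFun h y

end

end Pool.H8
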