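import Mathlib

set_option autoImplicit false
set_option backward.isDefEq.respectTransparency.types true
set_option linter.unusedSectionVars false

/-! Integer valued polynomial functions in several p-adic variables, with weights. -/

noncomputable section

namespace Pool.H8

open Finset

variable {p : ℕ} [Fact p.Prime]

theorem mahler_succ (x : ℤ_[p]) (k : ℕ) :
    ((k : ℤ_[p]) + 1) * mahler (k+1) x = (x - k) * mahler k x := by
  have h : (fun x : ℤ_[p] => ((k : ℤ_[p]) + 1) * mahler (k+1) x) =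
      (fun x : ℤ_[p] => (x - k) * mahler k x) := by
    apply PadicInt.denseRange_natCast.equalizer
    · exact continuous_const.mul (mahler (k+1)).continuous
    · exact (continuous_id.sub continuous_const).mul (mahler k).continuous
    · funext n
      simp only [Function.comp_apply, mahler_natCast_eq]
      have h1 := Nat.choose_succ_right_eq n k
      rcases Nat.lt_or_ge n k with h | h
      · rw [Nat.choose_eq_zero_of_lt h, Nat.choose_eq_zero_of_lt (by omega)]
        simp
      · have h2 : ((n.choose (k+1) : ℕ) : ℤ_[p]) * ((k : ℤ_[p]) + 1) =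
            (n.choose k : ℕ) * ((n : ℤ_[p]) - k) := by
          rw [← Nat.cast_sub h]
          exact_mod_cast congrArg (Nat.cast : ℕ → ℤ_[p]) h1
        rw [mul_comm, h2, mul_comm]
  exact congrFun h x

theorem mahler_zero' (x : ℤ_[p]) : mahler 0 x = 1 := by
  rw [mahler_apply, Ring.choose_zero_right]

section

variable {E : Type*} [Fintype E] [DecidableEq E]

/-- coordinate functions -/
def xe (p : ℕ) [Fact p.Prime] {E : Type*} (e : E) : C(E → ℤ_[p], ℤ_[p]) :=
  ⟨fun x => x e, continuous_apply e⟩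

@[simp] theorem xe_apply {E : Type*} (e : E) (x : E → ℤ_[p]) : xe p e x = x e := rfl

/-- products of binomial coefficients -/
def bb (p : ℕ) [Fact p.Prime] {E : Type*} [Fintype E] (α : E → ℕ) : C(E → ℤ_[p], ℤ_[p]) :=
  ∏ e, (mahler (α e)).comp (xe p e)

theorem bb_apply (α : E → ℕ) (x : E → ℤ_[p]) : bb p α x = ∏ e, mahler (α e) (x e) := by
  rw [bb, ContinuousMap.prod_apply]
  rfl

theorem bb_zero : bb p (0 : E → ℕ) = 1 := by
  apply ContinuousMap.ext; intro x
  rw [bb_apply]
  simp [mahler_zero']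

theorem bb_nat (α β : E → ℕ) : bb p α (fun e => (β e : ℤ_[p])) =
    ((∏ e, (β e).choose (α e) : ℕ) : ℤ_[p]) := by
  rw [bb_apply]
  push_cast
  refine Finset.prod_congr rfl fun e _ => ?_
  rw [mahler_natCast_eq]

theorem bb_split (α : E → ℕ) (e : E) (x : E → ℤ_[p]) : bb p α x =
    mahler (α e) (x e) * ∏ e' ∈ univ.erase e, mahler (α e') (x e') := by
  rw [bb_apply]
  exact (Finset.mul_prod_erase univ (fun e => mahler (α e) (x e)) (mem_univ e)).symm

theorem xe_mul_bb (e : E) (α : E → ℕ) :
    xe p e * bb p α = ((α e : ℤ_[p]) + 1) • bb p (α + Pi.single e 1) + (α e : ℤ_[p]) • bb p α := by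
  apply ContinuousMap.ext; intro x
  rw [ContinuousMap.mul_apply, ContinuousMap.add_apply, ContinuousMap.smul_apply,
    ContinuousMap.smul_apply, bb_split α e, bb_split (α + Pi.single e 1) e, smul_eq_mul,
    smul_eq_mul, xe_apply]
  have h : ∏ e' ∈ univ.erase e, mahler ((α + Pi.single e 1 : E → ℕ) e') (x e') =
      ∏ e' ∈ univ.erase e, mahler (α e') (x e') := by
    refine Finset.prod_congr rfl fun e' he' => ?_
    rw [Pi.add_apply, Pi.single_eq_of_ne (Finset.ne_of_mem_erase he'), add_zero]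
  rw [h, Pi.add_apply, Pi.single_eq_same, ← mul_assoc _ (mahler (α e + 1) (x e)), mahler_succ]
  ring

/-- weight of an exponent -/
def wt (ω : E → ℕ) (α : E → ℕ) : ℕ := ∑ e, α e * ω e

theorem wt_add (ω : E → ℕ) (α β : E → ℕ) : wt ω (α + β) = wt ω α + wt ω β := by
  simp only [wt, Pi.add_apply, add_mul, Finset.sum_add_distrib]

theorem wt_single (ω : E → ℕ) (e : E) : wt ω (Pi.single e 1) = ω e := by
  rw [wt, Finset.sum_eq_single e]
  · simp
  · intro b _ hb; simp [hb]
  · simp

theorem wt_zero (ω : E → ℕ) : wt ω 0 = 0 := by simp [wt]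

/-- polynomial functions of weight `< s` -/
def PP (p : ℕ) [Fact p.Prime] {E : Type*} [Fintype E] (ω : E → ℕ) (s : ℕ) :
    Submodule ℤ_[p] C(E → ℤ_[p], ℤ_[p]) :=
  Submodule.span ℤ_[p] (bb p '' {α | wt ω α < s})

theorem bb_mem {ω : E → ℕ} {s : ℕ} {α : E → ℕ} (h : wt ω α < s) : bb p α ∈ PP p ω s :=
  Submodule.subset_span ⟨α, h, rfl⟩

theorem PP_mono {ω : E → ℕ} {s t : ℕ} (h : s ≤ t) : PP p ω s ≤ PP p ω t := by
  apply Submodule.span_mono
  rintro _ ⟨α, hα, rfl⟩
  exact ⟨α, lt_of_lt_of_le hα h, rfl⟩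

theorem PP_zero (ω : E → ℕ) : PP p ω 0 = ⊥ := by
  rw [PP]
  have : {α : E → ℕ | wt ω α < 0} = ∅ := by
    ext α; simp
  rw [this]; simp

theorem PP_induction {ω : E → ℕ} {s : ℕ} {f : C(E → ℤ_[p], ℤ_[p])} (hf : f ∈ PP p ω s)
    (M : Submodule ℤ_[p] C(E → ℤ_[p], ℤ_[p])) (h : ∀ α, wt ω α < s → bb p α ∈ M) : f ∈ M := by
  have : PP p ω s ≤ M := by
    rw [PP, Submodule.span_le]
    rintro _ ⟨α, hα, rfl⟩
    exact h α hα
  exact this hf

theorem one_mem_PP {ω : E → ℕ} {s : ℕ} (hs : 0 < s) : (1 : C(E → ℤ_[p], ℤ_[p])) ∈ PP p ω s := by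
  rw [← bb_zero]
  apply bb_mem
  rw [wt_zero]
  exact hs

theorem PP_rep {ω : E → ℕ} {s : ℕ} {f : C(E → ℤ_[p], ℤ_[p])} (hf : f ∈ PP p ω s) :
    ∃ q : (E → ℕ) →₀ ℤ_[p], (∀ α ∈ q.support, wt ω α < s) ∧ f = q.sum fun α c => c • bb p α := by
  rw [PP, Finsupp.mem_span_image_iff_linearCombination] at hf
  obtain ⟨q, hq, rfl⟩ := hf
  refine ⟨q, fun α hα => ?_, rfl⟩
  exact hq hα

theorem coeff_dvd (c : ℤ_[p]) (q : (E → ℕ) →₀ ℤ_[p])
    (h : ∀ x, c ∣ (q.sum fun α c => c • bb p α) x) (α : E → ℕ) : c ∣ q α := by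
  have key : ∀ n : ℕ, ∀ α : E → ℕ, ∑ e, α e = n → c ∣ q α := by
    intro n
    induction n using Nat.strong_induction_on with
    | _ n ih =>
      intro α hα
      have h1 := h (fun e => (α e : ℤ_[p]))
      have h2 : (q.sum fun α c => c • bb p α) (fun e => (α e : ℤ_[p])) =
          ∑ γ ∈ q.support, q γ * ((∏ e, (α e).choose (γ e) : ℕ) : ℤ_[p]) := by
        rw [Finsupp.sum, ContinuousMap.sum_apply]
        refine Finset.sum_congr rfl fun γ _ => ?_
        rw [ContinuousMap.smul_apply, bb_nat, smul_eq_mul]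
      rw [h2] at h1
      by_cases hα0 : α ∈ q.support
      swap
      · rw [Finsupp.notMem_support_iff.1 hα0]
        exact dvd_zero c
      rw [← Finset.add_sum_erase _ _ hα0] at h1
      have h3 : c ∣ ∑ γ ∈ q.support.erase α, q γ * ((∏ e, (α e).choose (γ e) : ℕ) : ℤ_[p]) := by
        apply Finset.dvd_sum
        intro γ hγ
        have hne := Finset.ne_of_mem_erase hγ
        by_cases hle : ∀ e, γ e ≤ α e
        · have hlt : ∑ e, γ e < n := by
            rw [← hα]
            apply Finset.sum_lt_sum (fun e _ => hle e)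
            by_contra hcon
            push Not at hcon
            apply hne
            funext e
            exact le_antisymm (hle e) (hcon e (mem_univ e))
          exact Dvd.dvd.mul_right (ih _ hlt γ rfl) _
        · push Not at hle
          obtain ⟨e, he⟩ := hle
          have : (∏ e, (α e).choose (γ e)) = 0 :=
            Finset.prod_eq_zero (mem_univ e) (Nat.choose_eq_zero_of_lt he)
          rw [this]
          simp
      have h4 := (dvd_add_left h3).1 h1
      simpa using h4
  exact key _ α rfl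

theorem PP_sat {ω : E → ℕ} {s : ℕ} {f : C(E → ℤ_[p], ℤ_[p])} {c : ℤ_[p]} (hc : c ≠ 0)
    (hf : c • f ∈ PP p ω s) : f ∈ PP p ω s := by
  obtain ⟨q, hq, hfq⟩ := PP_rep hf
  have h1 : ∀ α, c ∣ q α := by
    apply coeff_dvd
    intro x
    rw [← hfq, ContinuousMap.smul_apply, smul_eq_mul]
    exact dvd_mul_right _ _
  choose d hd using h1
  have h2 : f = ∑ α ∈ q.support, d α • bb p α := by
    apply ContinuousMap.ext; intro x
    have h3 := congrArg (fun g : C(E → ℤ_[p], ℤ_[p]) => g x) hfq
    simp only [ContinuousMap.smul_apply, smul_eq_mul, Finsupp.sum, ContinuousMap.sum_apply] at h3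
    rw [ContinuousMap.sum_apply]
    apply mul_left_cancel₀ hc
    rw [h3, Finset.mul_sum]
    refine Finset.sum_congr rfl fun α _ => ?_
    rw [ContinuousMap.smul_apply, smul_eq_mul, hd α, mul_assoc]
  rw [h2]
  exact Submodule.sum_mem _ fun α hα => Submodule.smul_mem _ _ (bb_mem (hq α hα))

theorem xe_mul_mem {ω : E → ℕ} {s : ℕ} {f : C(E → ℤ_[p], ℤ_[p])} (hf : f ∈ PP p ω s) (e : E) :
    xe p e * f ∈ PP p ω (s + ω e) := by
  refine PP_induction hf ((PP p ω (s + ω e)).comap (LinearMap.mulLeft ℤ_[p] (xe p e))) ?_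
  intro α hα
  rw [Submodule.mem_comap, LinearMap.mulLeft_apply, xe_mul_bb]
  refine Submodule.add_mem _ (Submodule.smul_mem _ _ (bb_mem ?_))
    (Submodule.smul_mem _ _ (bb_mem ?_))
  · rw [wt_add, wt_single]; omega
  · omega

theorem bb_mul_mem {ω : E → ℕ} (α : E → ℕ) : ∀ (s : ℕ) (f : C(E → ℤ_[p], ℤ_[p])),
    f ∈ PP p ω s → bb p α * f ∈ PP p ω (wt ω α + s) := by
  have key : ∀ n : ℕ, ∀ α : E → ℕ, ∑ e, α e = n → ∀ (s : ℕ) (f : C(E → ℤ_[p], ℤ_[p])),
      f ∈ PP p ω s → bb p α * f ∈ PP p ω (wt ω α + s) := by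
    intro n
    induction n with
    | zero =>
      intro α hα s f hf
      have : α = 0 := by
        funext e
        have := (Finset.sum_eq_zero_iff.1 hα) e (mem_univ e)
        simpa using this
      subst this
      rw [bb_zero, one_mul, wt_zero, zero_add]
      exact hf
    | succ n ih =>
      intro α hα s f hf
      obtain ⟨e, he⟩ : ∃ e, α e ≠ 0 := by
        by_contra hcon
        push Not at hcon
        simp [hcon] at hα
      set β : E → ℕ := α - Pi.single e 1 with hβ
      have hαβ : α = β + Pi.single e 1 := by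
        funext e'
        rw [hβ, Pi.add_apply, Pi.sub_apply]
        by_cases h : e' = e
        · subst h; rw [Pi.single_eq_same]; omega
        · rw [Pi.single_eq_of_ne h]; omega
      have hβn : ∑ e, β e = n := by
        have : ∑ e', α e' = ∑ e', β e' + 1 := by
          rw [hαβ]
          simp only [Pi.add_apply, Finset.sum_add_distrib]
          congr 1
          rw [Finset.sum_eq_single e]
          · simp
          · intro b _ hb; simp [hb]
          · simp
        omega
      have h1 := xe_mul_bb (p := p) e β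
      rw [← hαβ] at h1
      have hc : ((β e : ℤ_[p]) + 1) ≠ 0 := by exact_mod_cast Nat.succ_ne_zero (β e)
      apply PP_sat hc
      have h2 : ((β e : ℤ_[p]) + 1) • (bb p α * f) =
          xe p e * (bb p β * f) - (β e : ℤ_[p]) • (bb p β * f) := by
        rw [← mul_assoc, h1, add_mul, smul_mul_assoc, smul_mul_assoc]
        abel
      rw [h2, hαβ, wt_add, wt_single]
      have h3 := ih β hβn s f hf
      refine Submodule.sub_mem _ ?_ (Submodule.smul_mem _ _ (PP_mono (by omega) h3))
      have := xe_mul_mem h3 e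
      rwa [show wt ω β + ω e + s = wt ω β + s + ω e by ring]
  exact key _ α rfl

theorem PP_mul {ω : E → ℕ} {s t : ℕ} {f g : C(E → ℤ_[p], ℤ_[p])} (hf : f ∈ PP p ω (s + 1))
    (hg : g ∈ PP p ω t) : f * g ∈ PP p ω (s + t) := by
  refine PP_induction hf ((PP p ω (s + t)).comap (LinearMap.mulRight ℤ_[p] g)) ?_
  intro α hα
  rw [Submodule.mem_comap, LinearMap.mulRight_apply]
  exact PP_mono (by omega) (bb_mul_mem α t g hg)

theorem xe_mem {ω : E → ℕ} (e : E) : xe p e ∈ PP p ω (ω e + 1) := by
  have h := xe_mul_mem (one_mem_PP (p := p) (ω := ω) (s := 1) one_pos) e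
  rwa [mul_one, add_comm] at h

theorem mahler_comp_mem {ω : E → ℕ} {s : ℕ} {g : C(E → ℤ_[p], ℤ_[p])} (hg : g ∈ PP p ω (s + 1))
    (l : ℕ) : (mahler l).comp g ∈ PP p ω (l * s + 1) := by
  induction l with
  | zero =>
    have : (mahler 0).comp g = (1 : C(E → ℤ_[p], ℤ_[p])) := by
      apply ContinuousMap.ext; intro x
      exact mahler_zero' _
    rw [this]
    exact one_mem_PP (by omega)
  | succ l ih =>
    have hc : ((l : ℤ_[p]) + 1) ≠ 0 := by exact_mod_cast Nat.succ_ne_zero l
    apply PP_sat hc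
    have h1 : ((l : ℤ_[p]) + 1) • (mahler (l+1)).comp g =
        g * (mahler l).comp g - (l : ℤ_[p]) • (mahler l).comp g := by
      apply ContinuousMap.ext; intro x
      have := mahler_succ (g x) l
      rw [ContinuousMap.smul_apply, ContinuousMap.sub_apply, ContinuousMap.mul_apply,
        ContinuousMap.smul_apply, smul_eq_mul, smul_eq_mul]
      simp only [ContinuousMap.comp_apply]
      rw [this]; ring
    rw [h1]
    refine Submodule.sub_mem _ ?_ (Submodule.smul_mem _ _ (PP_mono ?_ ih))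
    · have := PP_mul hg ih
      rwa [show (l + 1) * s + 1 = s + (l * s + 1) by ring]
    · rw [Nat.succ_mul]; omega

theorem prod_mem_PP {ω : E → ℕ} {κ : Type*} (S : Finset κ) (f : κ → C(E → ℤ_[p], ℤ_[p]))
    (s : κ → ℕ) (h : ∀ i ∈ S, f i ∈ PP p ω (s i + 1)) :
    ∏ i ∈ S, f i ∈ PP p ω (∑ i ∈ S, s i + 1) := by
  classical
  induction S using Finset.induction_on with
  | empty => simpa using one_mem_PP (p := p) (ω := ω) (s := 1) one_pos
  | insert a S ha ih =>
    rw [Finset.prod_insert ha, Finset.sum_insert ha, add_assoc]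
    exact PP_mul (h a (Finset.mem_insert_self _ _))
      (ih fun i hi => h i (Finset.mem_insert_of_mem hi))

end

end Pool.H8
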