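import Pool.Agent.H8.Free

set_option autoImplicit false
set_option backward.isDefEq.respectTransparency.types true
set_option linter.unusedSectionVars false

/-! Closed subgroups of free pro-p groups are projective. -/

namespace Pool.H8

/-- an equivariant extension of a homomorphism on a subgroup -/
theorem exists_equivariant {G P : Type*} [Group G] [Group P] (H : Subgroup G) (f : H →* P) :
    ∃ A : G → P, A 1 = 1 ∧ ∀ (h : H) (g : G), A (h * g) = f h * A g := by
  classical
  let r : G → G := fun g => Quotient.out (Quotient.mk (QuotientGroup.rightRel H) g)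
  have hr : ∀ g, g * (r g)⁻¹ ∈ H := by
    intro g
    have : (QuotientGroup.rightRel H) (r g) g := Quotient.exact (Quotient.out_eq _)
    exact QuotientGroup.rightRel_apply.1 this
  have hr2 : ∀ (h : H) (g : G), r (h * g) = r g := by
    intro h g
    have : Quotient.mk (QuotientGroup.rightRel H) (h * g) =
        Quotient.mk (QuotientGroup.rightRel H) g := by
      apply Quotient.sound
      apply QuotientGroup.rightRel_apply.2
      have : g * (h * g)⁻¹ = (h : G)⁻¹ := by group
      rw [this]
      exact H.inv_mem h.2
    simp only [r, this]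
  let A : G → P := fun g => f ⟨g * (r g)⁻¹, hr g⟩
  have hA : ∀ (h : H) (g : G), A (h * g) = f h * A g := by
    intro h g
    simp only [A]
    rw [← map_mul]
    congr 1
    apply Subtype.ext
    simp only [Subgroup.coe_mul]
    rw [hr2]
    group
  refine ⟨fun g => A g * (A 1)⁻¹, mul_inv_cancel _, fun h g => ?_⟩
  simp only
  rw [hA, mul_assoc]

section

variable {F : Type} [Group F] [TopologicalSpace F] [IsTopologicalGroup F] [CompactSpace F]
  [TotallyDisconnectedSpace F]

/-- a locally constant function on a closed subgroup is controlled by an open normal subgroup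
of the whole group -/
theorem lc_closed {X : Type*} (H : Subgroup F) (hH : IsClosed (H : Set F)) (f : H → X)
    (hf : IsLocallyConstant f) : ∃ V : Subgroup F, V.Normal ∧ IsOpen (V : Set F) ∧
      ∀ (h v : H), (v : F) ∈ V → f (h * v) = f h := by
  have : CompactSpace H := isCompact_iff_compactSpace.1 hH.isCompact
  obtain ⟨N, hNn, hNo, hN⟩ := lc_factor f hf
  obtain ⟨U, hUo, hU⟩ := isOpen_induced_iff.1 hNo
  have h1 : (1 : F) ∈ U := by
    have : (1 : H) ∈ (Subtype.val ⁻¹' U : Set H) := by
      rw [hU]; exact N.one_mem
    exact this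
  obtain ⟨V, hVn, hVo, hV⟩ := exists_openNormal hUo h1
  refine ⟨V, hVn, hVo, fun h v hv => hN h v ?_⟩
  have : v ∈ (Subtype.val ⁻¹' U : Set H) := hV hv
  rw [hU] at this
  exact this

/-- equivariant extension of a continuous homomorphism on a closed subgroup -/
theorem exists_ext {P : Type*} [Group P] (H : Subgroup F) (hH : IsClosed (H : Set F)) (f : H →* P)
    (hf : IsLocallyConstant f) : ∃ A : F → P, IsLocallyConstant A ∧ A 1 = 1 ∧
      ∀ (h : H) (y : F), A (h * y) = f h * A y := by
  obtain ⟨V, hVn, hVo, hV⟩ := lc_closed H hH f hf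
  let q : H →* H.map (QuotientGroup.mk' V) := (QuotientGroup.mk' V).subgroupMap H
  have hq : Function.Surjective q := MonoidHom.subgroupMap_surjective _ _
  have hker : q.ker ≤ f.ker := by
    intro h hh
    rw [MonoidHom.mem_ker] at hh ⊢
    have h1 : (QuotientGroup.mk' V) (h : F) = 1 := by
      have := congrArg (Subtype.val) hh
      exact this
    have h2 : (h : F) ∈ V := (QuotientGroup.eq_one_iff _).1 h1
    have := hV 1 h h2
    rwa [one_mul, map_one] at this
  let fb : H.map (QuotientGroup.mk' V) →* P := MonoidHom.liftOfSurjective q hq ⟨f, hker⟩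
  have hfb : ∀ h, fb (q h) = f h := by
    intro h
    have := MonoidHom.liftOfRightInverse_comp_apply q (Function.surjInv hq)
      (Function.rightInverse_surjInv hq) ⟨f, hker⟩ h
    exact this
  obtain ⟨A, hA1, hA⟩ := exists_equivariant _ fb
  refine ⟨fun y => A (QuotientGroup.mk' V y), ?_, ?_, ?_⟩
  · exact (mk_lc V hVo).comp A
  · simp only [map_one, hA1]
  · intro h y
    simp only
    rw [map_mul, ← hfb h, ← hA (q h)]
    rfl

variable {p n : ℕ} {x : Fin n → F} (hF : IsFreeProP p x)

include hF

theorem lc_shift {X : Type*} (A : F → X) (hA : IsLocallyConstant A) (z : F) :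
    IsLocallyConstant (fun y => A (y * z)) := by
  have := hA.comp_continuous (continuous_mul_const z)
  exact this

/-- lifting of homomorphisms on closed subgroups -/
theorem lift_closed {P P0 : Type} [Group P] [Fintype P] [Group P0] [Fintype P0]
    (hP : ∃ k : ℕ, Fintype.card P = p ^ k) (hP0 : ∃ k : ℕ, Fintype.card P0 = p ^ k)
    (π : P →* P0) (hπ : Function.Surjective π)
    (H : Subgroup F) (hH : IsClosed (H : Set F)) (f0 : H →* P0) (hf0 : IsLocallyConstant f0) :
    ∃ f : H →* P, IsLocallyConstant f ∧ ∀ h, π (f h) = f0 h := by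
  obtain ⟨A0, hA0c, hA01, hA0⟩ := exists_ext H hH f0 hf0
  let s : P0 → P := Function.surjInv hπ
  have hs : ∀ c, π (s c) = c := Function.surjInv_eq hπ
  let B : Fin n → F → P := fun j y => s ((A0 y)⁻¹ * A0 (y * x j))
  have hB : ∀ j, IsLocallyConstant (B j) := by
    intro j
    exact ((hA0c.comp fun c => c⁻¹).comp₂ (lc_shift hF A0 hA0c (x j)) (fun a b => a * b)).comp s
  obtain ⟨A, hAc, hA1, hA⟩ := integral_exists hF hP B hB
  have h1 : (fun y => π (A y)) = A0 := by
    apply integral_unique hF hP0 _ _ (hAc.comp π) hA0c
    · simp [hA1, hA01]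
    · intro j y
      change (π (A y))⁻¹ * π (A (y * x j)) = _
      rw [hA, map_mul, inv_mul_cancel_left]
      exact hs _
  have h2 : ∀ (h : H) (y : F), A (h * y) = A h * A y := by
    intro h
    have : (fun y => A (h * y)) = fun y => A h * A y := by
      apply integral_unique hF hP
      · exact hAc.comp_continuous (continuous_const_mul (h : F))
      · exact hAc.comp (fun c => A h * c)
      · simp [hA1]
      · intro j y
        have e1 : (A (h * y))⁻¹ * A (h * (y * x j)) = B j (h * y) := by
          rw [← mul_assoc (h : F), hA, inv_mul_cancel_left]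
        have e2 : (A h * A y)⁻¹ * (A h * A (y * x j)) = B j y := by
          rw [hA]; group
        rw [e1, e2]
        simp only [B]
        congr 1
        rw [mul_assoc, hA0, hA0]
        group
    exact fun y => congrFun this y
  refine ⟨{ toFun := fun h => A h, map_one' := hA1, map_mul' := fun a b => h2 a b }, ?_, ?_⟩
  · exact hAc.comp_continuous continuous_subtype_val
  · intro h
    have h3 : π (A h) = A0 h := congrFun h1 (h : F)
    have h4 := hA0 h 1
    rw [mul_one, hA01, mul_one] at h4
    rw [← h4, ← h3]
    rfl

end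

end Pool.H8
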