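import Mathlib

set_option autoImplicit false
set_option backward.isDefEq.respectTransparency.types true
set_option linter.unusedSectionVars false

/-! A separated filtration whose associated graded ring is a domain gives a valuation. -/

namespace Pool.H8

open WithZero

theorem isDomain_of_filtration {R : Type*} [Ring R] [Nontrivial R] {S : Type*} [CommRing S]
    [IsDomain S]
    (Fil : ℕ → AddSubgroup R) (hzero : Fil 0 = ⊤)
    (h : ℕ → R → S)
    (h0 : ∀ N, h N 0 = 0)
    (hker : ∀ N x, x ∈ Fil N → h N x = 0 → x ∈ Fil (N+1))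
    (hmul : ∀ N M x y, x ∈ Fil N → y ∈ Fil M → h (N + M) (x * y) = h N x * h M y)
    (hsep : ∀ x, (∀ N, x ∈ Fil N) → x = 0) : IsDomain R := by
  have hN : ∀ x : R, x ≠ 0 → ∃ N, x ∈ Fil N ∧ x ∉ Fil (N+1) := by
    intro x hx
    by_contra hcon
    push Not at hcon
    apply hx
    apply hsep
    intro N
    induction N with
    | zero => rw [hzero]; trivial
    | succ N ih => exact hcon N ih
  have : NoZeroDivisors R := by
    constructor
    intro x y hxy
    by_contra hcon
    push Not at hcon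
    obtain ⟨N, hx, hx'⟩ := hN x hcon.1
    obtain ⟨M, hy, hy'⟩ := hN y hcon.2
    have h1 := hmul N M x y hx hy
    rw [hxy, h0] at h1
    rcases mul_eq_zero.1 h1.symm with h2 | h2
    · exact hx' (hker N x hx h2)
    · exact hy' (hker M y hy h2)
  exact NoZeroDivisors.to_isDomain R

theorem exists_val_of_filtration {R : Type*} [Ring R] [Nontrivial R] {S : Type*} [CommRing S]
    [IsDomain S]
    (Fil : ℕ → AddSubgroup R) (hzero : Fil 0 = ⊤)
    (hmono : ∀ N, Fil (N+1) ≤ Fil N)
    (h : ℕ → R → S)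
    (hone : (1 : R) ∉ Fil 1)
    (hker : ∀ N x, x ∈ Fil N → (h N x = 0 ↔ x ∈ Fil (N+1)))
    (hmulFil : ∀ N M x y, x ∈ Fil N → y ∈ Fil M → x * y ∈ Fil (N + M))
    (hmul : ∀ N M x y, x ∈ Fil N → y ∈ Fil M → h (N + M) (x * y) = h N x * h M y)
    (hsep : ∀ x, (∀ N, x ∈ Fil N) → x = 0) :
    ∃ v : R →* ℤᵐ⁰, (∀ x y, v (x + y) ≤ max (v x) (v y)) ∧ (∀ x, v x = 0 ↔ x = 0) ∧
      (∀ x, v (-x) = v x) ∧ (∀ N x, x ∈ Fil N ↔ v x ≤ exp (-(N : ℤ))) := by
  classical
  have hanti : ∀ N M, N ≤ M → Fil M ≤ Fil N := fun N M hNM => by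
    induction M, hNM using Nat.le_induction with
    | base => exact le_rfl
    | succ M _ ih => exact (hmono M).trans ih
  have hN : ∀ x : R, x ≠ 0 → ∃ N, x ∈ Fil N ∧ x ∉ Fil (N+1) := by
    intro x hx
    by_contra hcon
    push Not at hcon
    apply hx
    apply hsep
    intro N
    induction N with
    | zero => rw [hzero]; trivial
    | succ N ih => exact hcon N ih
  choose! o ho using hN
  -- uniqueness of the order
  have hou : ∀ x N, x ≠ 0 → x ∈ Fil N → x ∉ Fil (N+1) → o x = N := by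
    intro x N hx h1 h2
    obtain ⟨h3, h4⟩ := ho x hx
    rcases lt_trichotomy (o x) N with hlt | heq | hgt
    · exact absurd (hanti (o x + 1) N hlt h1) h4
    · exact heq
    · exact absurd (hanti (N + 1) (o x) hgt h3) h2
  have homem : ∀ x N, x ≠ 0 → (x ∈ Fil N ↔ N ≤ o x) := by
    intro x N hx
    obtain ⟨h3, h4⟩ := ho x hx
    constructor
    · intro h1
      by_contra hlt
      push Not at hlt
      exact h4 (hanti (o x + 1) N hlt h1)
    · intro h1
      exact hanti N (o x) h1 h3
  have hprod : ∀ x y, x ≠ 0 → y ≠ 0 → x * y ≠ 0 ∧ o (x * y) = o x + o y := by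
    intro x y hx hy
    obtain ⟨h1, h2⟩ := ho x hx
    obtain ⟨h3, h4⟩ := ho y hy
    have h5 := hmul _ _ x y h1 h3
    have h6 : x * y ∉ Fil (o x + o y + 1) := by
      intro h7
      have h8 := (hker _ _ (hmulFil _ _ _ _ h1 h3)).2 h7
      rw [h5] at h8
      rcases mul_eq_zero.1 h8 with h9 | h9
      · exact h2 ((hker _ _ h1).1 h9)
      · exact h4 ((hker _ _ h3).1 h9)
    have h7 : x * y ≠ 0 := by
      intro h8
      apply h6
      rw [h8]
      exact (Fil _).zero_mem
    exact ⟨h7, hou _ _ h7 (hmulFil _ _ _ _ h1 h3) h6⟩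
  have hoone : o 1 = 0 := hou 1 0 one_ne_zero (by rw [hzero]; trivial) hone
  let v : R → ℤᵐ⁰ := fun x => if x = 0 then 0 else exp (-(o x : ℤ))
  have hv0 : v 0 = 0 := if_pos rfl
  have hvn : ∀ x, x ≠ 0 → v x = exp (-(o x : ℤ)) := fun x hx => if_neg hx
  have hvle : ∀ N x, x ∈ Fil N ↔ v x ≤ exp (-(N : ℤ)) := by
    intro N x
    by_cases hx : x = 0
    · subst hx
      rw [hv0]
      exact ⟨fun _ => zero_le, fun _ => (Fil N).zero_mem⟩
    · rw [hvn x hx, exp_le_exp, homem x N hx]
      constructor <;> intro h <;> omega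
  have hvle' : ∀ x c, v x ≤ c → ∀ y, v y ≤ c → v (x + y) ≤ c := by
    intro x c hxc y hyc
    by_cases hxy : x + y = 0
    · rw [hxy, hv0]; exact zero_le
    by_cases hx : x = 0
    · rw [hx, zero_add]; exact hyc
    by_cases hy : y = 0
    · rw [hy, add_zero]; exact hxc
    -- both nonzero
    set N := min (o x) (o y)
    have h1 : x + y ∈ Fil N :=
      (Fil N).add_mem ((homem x N hx).2 (min_le_left _ _)) ((homem y N hy).2 (min_le_right _ _))
    have h2 := (hvle N _).1 h1
    refine h2.trans ?_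
    rcases min_choice (o x) (o y) with h3 | h3
    · have : N = o x := h3
      rw [this, ← hvn x hx]; exact hxc
    · have : N = o y := h3
      rw [this, ← hvn y hy]; exact hyc
  refine ⟨⟨⟨v, ?_⟩, ?_⟩, ?_, ?_, ?_, hvle⟩
  · rw [hvn 1 one_ne_zero, hoone]; rfl
  · intro x y
    change v (x * y) = v x * v y
    by_cases hx : x = 0
    · rw [hx, zero_mul, hv0, zero_mul]
    by_cases hy : y = 0
    · rw [hy, mul_zero, hv0, mul_zero]
    obtain ⟨h1, h2⟩ := hprod x y hx hy
    rw [hvn _ h1, hvn _ hx, hvn _ hy, h2, ← exp_add]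
    congr 1
    push_cast
    ring
  · intro x y
    exact hvle' x _ (le_max_left _ _) y (le_max_right _ _)
  · intro x
    change v x = 0 ↔ x = 0
    constructor
    · intro h1
      by_contra hx
      rw [hvn x hx] at h1
      exact exp_ne_zero h1
    · rintro rfl
      exact hv0
  · intro x
    change v (-x) = v x
    by_cases hx : x = 0
    · rw [hx, neg_zero]
    have hx' : -x ≠ 0 := neg_ne_zero.2 hx
    rw [hvn _ hx, hvn _ hx']
    have : o (-x) = o x := by
      obtain ⟨h1, h2⟩ := ho x hx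
      apply hou _ _ hx' ((Fil _).neg_mem h1)
      intro h3
      apply h2
      have := (Fil _).neg_mem h3
      rwa [neg_neg] at this
    rw [this]

end Pool.H8
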