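import Pool.Agent.H8.Dense
import Pool.Agent.H8.Noeth
import Pool.Agent.H8.ValFil

set_option autoImplicit false
set_option backward.isDefEq.respectTransparency.types true
set_option linter.unusedSectionVars false

/-! The distribution ring is a Noetherian domain with a valuation. -/

noncomputable section

namespace Pool.H8

open Finset WithZero

variable {p : ℕ} [Fact p.Prime]
variable {E : Type*} [Fintype E] [DecidableEq E]

namespace Coord

variable {Q : Type*} [TopologicalSpace Q] [Monoid Q] [CompactSpace Q] [ContinuousMul Q]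
  (K : Coord p Q E)

/-- evaluation at an integer point -/
def ev (β : E → ℕ) : Dist p Q := ⟨{
  toFun := fun f => f (K.co.symm fun e => (β e : ℤ_[p]))
  map_add' := fun _ _ => rfl
  map_smul' := fun _ _ => rfl }⟩

theorem ev_l (β α : E → ℕ) : (K.ev β).l (K.B α) = ((∏ e, (β e).choose (α e) : ℕ) : ℤ_[p]) := by
  change bb p α (K.co (K.co.symm _)) = _
  rw [Homeomorph.apply_symm_apply, bb_nat]

theorem exists_dual (β : E → ℕ) : ∃ T : Dist p Q, ∀ α, T.l (K.B α) = if α = β then 1 else 0 := by
  classical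
  have key : ∀ n : ℕ, ∀ β : E → ℕ, ∑ e, β e = n →
      ∃ T : Dist p Q, ∀ α, T.l (K.B α) = if α = β then 1 else 0 := by
    intro n
    induction n using Nat.strong_induction_on with
    | _ n ih =>
      intro β hβ
      set S : Finset (E → ℕ) := (Fintype.piFinset fun e => range (β e + 1)).erase β with hS
      have h1 : ∀ γ ∈ S, ∃ T : Dist p Q, ∀ α, T.l (K.B α) = if α = γ then 1 else 0 := by
        intro γ hγ
        rw [hS, Finset.mem_erase, Fintype.mem_piFinset] at hγ
        have hle : ∀ e, γ e ≤ β e := fun e => by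
          have := Finset.mem_range.1 (hγ.2 e); omega
        have hlt : ∑ e, γ e < n := by
          rw [← hβ]
          apply Finset.sum_lt_sum (fun e _ => hle e)
          by_contra hcon
          push Not at hcon
          apply hγ.1
          funext e
          exact le_antisymm (hle e) (hcon e (mem_univ e))
        exact ih _ hlt γ rfl
      choose! T hT using h1
      refine ⟨K.ev β - ∑ γ ∈ S, ((∏ e, (β e).choose (γ e) : ℕ) : ℤ_[p]) • T γ, fun α => ?_⟩
      rw [Dist.sub_l, Dist.sum_l, ev_l]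
      have h2 : ∑ γ ∈ S, (((∏ e, (β e).choose (γ e) : ℕ) : ℤ_[p]) • T γ).l (K.B α) =
          ∑ γ ∈ S, if α = γ then ((∏ e, (β e).choose (γ e) : ℕ) : ℤ_[p]) else 0 := by
        refine Finset.sum_congr rfl fun γ hγ => ?_
        rw [Dist.smul_l, hT γ hγ]
        split_ifs <;> simp
      rw [h2, Finset.sum_ite_eq]
      by_cases hαβ : α = β
      · subst hαβ
        rw [if_pos rfl, if_neg (Finset.notMem_erase _ _)]
        simp
      · rw [if_neg hαβ]
        by_cases hle : ∀ e, α e ≤ β e
        · rw [if_pos, sub_self]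
          rw [hS, Finset.mem_erase, Fintype.mem_piFinset]
          refine ⟨hαβ, fun e => ?_⟩
          rw [Finset.mem_range]
          have := hle e
          omega
        · have hn : α ∉ S := by
            intro hα
            rw [hS, Finset.mem_erase, Fintype.mem_piFinset] at hα
            apply hle
            intro e
            have := Finset.mem_range.1 (hα.2 e)
            omega
          push Not at hle
          obtain ⟨e, he⟩ := hle
          rw [if_neg hn, Finset.prod_eq_zero (mem_univ e) (Nat.choose_eq_zero_of_lt he)]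
          simp
  exact key _ β rfl

/-- approximation of the value on an arbitrary continuous function -/
theorem approx (m : ℕ) (f : C(Q, ℤ_[p])) : ∃ s, ∃ g ∈ PP p K.ω (s + 1), ∃ h : C(Q, ℤ_[p]),
    f = K.pb g + ((p : ℤ_[p]) ^ m) • h := by
  obtain ⟨s, g, hg, hs⟩ := polyMod_all K.ω m (f.comp ⟨K.co.symm, K.co.symm.continuous⟩)
  obtain ⟨h, hh⟩ := exists_div m (f - K.pb g) (by
    intro q
    have h1 : (p : ℤ_[p]) ^ m ∣ f (K.co.symm (K.co q)) - g (K.co q) := hs (K.co q)
    rw [Homeomorph.symm_apply_apply] at h1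
    exact h1)
  exact ⟨s, g, hg, h, by rw [← hh]; abel⟩

theorem eventually_dvd (f : C(Q, ℤ_[p])) (m : ℕ) :
    ∃ N0 : ℕ, ∀ N, N0 ≤ N → ∀ x ∈ K.Fil N, (p : ℤ_[p]) ^ m ∣ x.l f := by
  obtain ⟨s, g, hg, h, hf⟩ := K.approx m f
  refine ⟨m + s, fun N hN x hx => ?_⟩
  rw [hf, map_add, map_smul, smul_eq_mul]
  refine dvd_add ((pow_dvd_pow _ ?_).trans (K.Fil_PP hx hg)) (dvd_mul_right _ _)
  omega

theorem sep (x : Dist p Q) (hx : ∀ N, x ∈ K.Fil N) : x = 0 := by
  apply Dist.ext'
  intro f
  rw [Dist.zero_l]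
  apply eq_zero_of_dvd
  intro m
  obtain ⟨N, hN⟩ := K.eventually_dvd f m
  exact hN N le_rfl x (hx N)

theorem summable (μ : ℕ → Dist p Q) (hμ : ∀ N, μ N ∈ K.Fil N) (f : C(Q, ℤ_[p])) :
    Summable fun N => (μ N).l f := by
  apply NonarchimedeanAddGroup.summable_of_tendsto_cofinite_zero
  rw [Nat.cofinite_eq_atTop, Metric.tendsto_atTop]
  intro ε hε
  obtain ⟨m, hm⟩ := PadicInt.exists_pow_neg_lt p hε
  obtain ⟨N0, hN0⟩ := K.eventually_dvd f m
  refine ⟨N0, fun N hN => ?_⟩
  rw [dist_zero_right]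
  exact lt_of_le_of_lt ((dvd_iff_norm _ _).1 (hN0 N hN _ (hμ N))) hm

theorem dvd_tsum (k : ℕ) (z : ℕ → ℤ_[p]) (hz : Summable z) (h : ∀ n, (p : ℤ_[p]) ^ k ∣ z n) :
    (p : ℤ_[p]) ^ k ∣ ∑' n, z n := by
  rw [dvd_iff_norm]
  have h1 := hz.hasSum.tendsto_sum_nat
  have hc : IsClosed {w : ℤ_[p] | ‖w‖ ≤ (p : ℝ) ^ (-(k : ℤ))} :=
    isClosed_le continuous_norm continuous_const
  refine hc.mem_of_tendsto h1 (Filter.Eventually.of_forall fun n => ?_)
  change ‖∑ i ∈ range n, z i‖ ≤ _
  rw [← dvd_iff_norm]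
  exact Finset.dvd_sum fun i _ => h i

theorem complete (μ : ℕ → Dist p Q) (hμ : ∀ N, μ N ∈ K.Fil N) :
    ∃ s : Dist p Q, ∀ M, s - ∑ N ∈ range M, μ N ∈ K.Fil M := by
  have hs := K.summable μ hμ
  let s : Dist p Q := ⟨{
    toFun := fun f => ∑' N, (μ N).l f
    map_add' := fun f g => by
      rw [← (hs f).tsum_add (hs g)]
      simp only [map_add]
    map_smul' := fun c f => by
      rw [RingHom.id_apply, smul_eq_mul, ← (hs f).tsum_mul_left]
      simp only [map_smul, smul_eq_mul] }⟩
  refine ⟨s, fun M α => ?_⟩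
  have h1 : (s - ∑ N ∈ range M, μ N).l (K.B α) = ∑' N, (μ (N + M)).l (K.B α) := by
    rw [Dist.sub_l, Dist.sum_l]
    change (∑' N, (μ N).l (K.B α)) - _ = _
    rw [← (hs (K.B α)).sum_add_tsum_nat_add M]
    ring
  rw [h1]
  apply dvd_tsum
  · exact (summable_nat_add_iff M).2 (hs (K.B α))
  · intro n
    exact (pow_dvd_pow _ (by omega)).trans (hμ (n + M) α)

theorem lead_surj (N : ℕ) (g : MvPolynomial (Option E) (ZMod p))
    (hg : g ∈ MvPolynomial.weightedHomogeneousSubmodule (ZMod p) (wO K.ω) N) :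
    ∃ x ∈ K.Fil N, K.lead N x = g := by
  classical
  rw [MvPolynomial.mem_weightedHomogeneousSubmodule] at hg
  choose T hT using K.exists_dual
  -- one monomial
  have hmono : ∀ (a : Option E →₀ ℕ) (c : ZMod p), a none + wt K.ω (fun e => a (some e)) = N →
      ∃ x ∈ K.Fil N, K.lead N x = MvPolynomial.monomial a c := by
    intro a c ha
    set x : Dist p Q := ((p : ℤ_[p]) ^ (a none) * (c.val : ℤ_[p])) • T (fun e => a (some e)) with hx
    have hxl : ∀ α, x.l (K.B α) = if α = (fun e => a (some e)) then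
        (p : ℤ_[p]) ^ (a none) * (c.val : ℤ_[p]) else 0 := by
      intro α
      rw [hx, Dist.smul_l, hT]
      split_ifs <;> simp
    refine ⟨x, fun α => ?_, ?_⟩
    · rw [hxl]
      by_cases h : α = (fun e => a (some e))
      · rw [if_pos h, h, show N - wt K.ω (fun e => a (some e)) = a none by omega]
        exact dvd_mul_right _ _
      · rw [if_neg h]; exact dvd_zero _
    · ext a'
      rw [coeff_lead, MvPolynomial.coeff_monomial, lc, hxl]
      by_cases h : a = a'
      · subst h
        rw [if_pos ha, if_pos rfl, if_pos rfl, res_mul, map_natCast, ZMod.natCast_zmod_val]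
      · rw [if_neg h]
        by_cases h1 : a' none + wt K.ω (fun e => a' (some e)) = N
        · rw [if_pos h1, if_neg, res_zero]
          intro h2
          apply h
          rw [← opt_eta a, ← opt_eta a', opt_inj]
          rw [h2] at h1
          exact ⟨by omega, h2.symm⟩
        · rw [if_neg h1]
  -- sums
  have hsum : ∀ S : Finset (Option E →₀ ℕ),
      (∀ a ∈ S, a none + wt K.ω (fun e => a (some e)) = N) →
      ∃ x ∈ K.Fil N, K.lead N x = ∑ a ∈ S, MvPolynomial.monomial a (g.coeff a) := by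
    intro S
    induction S using Finset.induction_on with
    | empty =>
      intro _
      exact ⟨0, (K.Fil N).zero_mem, by rw [lead_zero]; simp⟩
    | insert a S ha ih =>
      intro h
      obtain ⟨x, hx, hx'⟩ := ih fun a ha => h a (Finset.mem_insert_of_mem ha)
      obtain ⟨y, hy, hy'⟩ := hmono a (g.coeff a) (h a (Finset.mem_insert_self _ _))
      refine ⟨y + x, (K.Fil N).add_mem hy hx, ?_⟩
      rw [K.lead_add N y x hy hx, hx', hy', Finset.sum_insert ha]
  obtain ⟨x, hx, hx'⟩ := hsum g.support (by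
    intro a ha
    rw [← weight_eq]
    exact hg (MvPolynomial.mem_support_iff.1 ha))
  refine ⟨x, hx, ?_⟩
  rw [hx']
  exact (MvPolynomial.as_sum g).symm

theorem one_notMem_Fil : (1 : Dist p Q) ∉ K.Fil 1 := by
  intro h
  have h1 := h 0
  rw [wt_zero, Nat.sub_zero, pow_one, Dist.one_l] at h1
  have h2 : K.B 0 1 = 1 := by
    rw [B, bb_zero]; rfl
  rw [h2] at h1
  exact PadicInt.prime_p.not_isUnit (isUnit_of_dvd_one h1)

instance : Nontrivial (Dist p Q) := ⟨⟨0, 1, fun h => by
  have : (0 : Dist p Q).l 1 = (1 : Dist p Q).l 1 := by rw [h]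
  rw [Dist.zero_l, Dist.one_l, ContinuousMap.one_apply] at this
  exact zero_ne_one this⟩⟩

include K in
theorem isNoetherianRing : IsNoetherianRing (Dist p Q) := by
  let _ := MvPolynomial.weightedGradedAlgebra (ZMod p) (wO K.ω)
  exact isNoetherian_of_filtration
    (MvPolynomial.weightedHomogeneousSubmodule (ZMod p) (wO K.ω)) K.Fil K.Fil_zero K.Fil_succ_le
    (fun _ _ _ _ hx hy => K.mul_Fil hx hy) K.lead K.lead_add
    (fun N x hx h => (K.lead_eq_zero N x hx).1 h) K.lead_mul (fun N x _ => K.lead_mem N x)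
    K.lead_surj K.complete K.sep

include K in
theorem isDomain : IsDomain (Dist p Q) :=
  isDomain_of_filtration K.Fil K.Fil_zero K.lead K.lead_zero
    (fun N x hx h => (K.lead_eq_zero N x hx).1 h) K.lead_mul K.sep

theorem exists_val : ∃ v : Dist p Q →* ℤᵐ⁰, (∀ x y, v (x + y) ≤ max (v x) (v y)) ∧
    (∀ x, v x = 0 ↔ x = 0) ∧ (∀ x, v (-x) = v x) ∧
    (∀ N x, x ∈ K.Fil N ↔ v x ≤ exp (-(N : ℤ))) :=
  exists_val_of_filtration K.Fil K.Fil_zero K.Fil_succ_le K.lead K.one_notMem_Fil
    K.lead_eq_zero (fun _ _ _ _ hx hy => K.mul_Fil hx hy) K.lead_mul K.sep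

end Coord

end Pool.H8
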