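import Pool.Agent.H8.Dual

set_option autoImplicit false
set_option backward.isDefEq.respectTransparency.types true
set_option linter.unusedSectionVars false

/-! Closed subgroups of free pro-p groups with complete dual families are free. -/

namespace Pool.H8

theorem IsFreeProP.isProP {p : ℕ} {n : ℕ} {F : Type} [Group F] [TopologicalSpace F]
    {x : Fin n → F} (hF : IsFreeProP p x) : IsProP p F := hF.proP

/-- powers of a central element of order `p` -/
theorem zpow_char {p : ℕ} [Fact p.Prime] {P : Type*} [Group P] (z : P) (hz : z ^ p = 1)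
    (a b : ZMod p) : z ^ (a + b).val = z ^ a.val * z ^ b.val := by
  have : NeZero p := ⟨(Fact.out : p.Prime).ne_zero⟩
  rw [← pow_add, ZMod.val_add]
  conv_rhs => rw [← Nat.mod_add_div (a.val + b.val) p]
  rw [pow_add, pow_mul, hz, one_pow, mul_one]

variable {F : Type} [Group F] [TopologicalSpace F] [IsTopologicalGroup F] [CompactSpace F]
  [TotallyDisconnectedSpace F]

theorem hom_exists {p : ℕ} [Fact p.Prime] {n : ℕ} {x : Fin n → F} (hF : IsFreeProP p x)
    (H : Subgroup F) (hH : IsClosed (H : Set F)) {m : ℕ} (h : Fin m → H)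
    (χ : Fin m → H → ZMod p) (hd : DualFam p h χ) :
    ∀ (P : Type) [Group P] [Fintype P], (∃ k : ℕ, Fintype.card P = p ^ k) →
    ∀ c : Fin m → P, ∃ g : H →* P, IsLocallyConstant g ∧ ∀ i, g (h i) = c i := by
  classical
  have hp := (Fact.out : p.Prime)
  have key : ∀ (k : ℕ) (P : Type) [Group P] [Fintype P], Fintype.card P = p ^ k →
    ∀ c : Fin m → P, ∃ g : H →* P, IsLocallyConstant g ∧ ∀ i, g (h i) = c i := by
    intro k
    induction k with
    | zero =>
      intro P _ _ hP c
      rw [pow_zero, Fintype.card_eq_one_iff] at hP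
      obtain ⟨y, hy⟩ := hP
      refine ⟨1, IsLocallyConstant.const 1, fun i => ?_⟩
      rw [hy (c i)]
      exact hy _
    | succ k ih =>
      intro P _ _ hP c
      have hPG : IsPGroup p P := IsPGroup.of_card (n := k + 1) (by rw [Nat.card_eq_fintype_card, hP])
      have hnt : Nontrivial P := by
        rw [← Fintype.one_lt_card_iff_nontrivial, hP]
        exact Nat.one_lt_pow (by omega) hp.one_lt
      have hct := hPG.center_nontrivial
      have hcp : IsPGroup p (Subgroup.center P) := hPG.to_subgroup _
      obtain ⟨l, hl0, hl⟩ := hcp.nontrivial_iff_card.1 hct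
      have hdvd : p ∣ Nat.card (Subgroup.center P) := by
        rw [hl]; exact dvd_pow_self p (by omega)
      obtain ⟨z0, hz0⟩ := exists_prime_orderOf_dvd_card' p hdvd
      set z : P := (z0 : P) with hz
      have hzo : orderOf z = p := by rw [hz, Subgroup.orderOf_coe, hz0]
      have hzp : z ^ p = 1 := by rw [← hzo]; exact pow_orderOf_eq_one z
      have hzc : ∀ y, y * z = z * y := fun y => Subgroup.mem_center_iff.1 z0.2 y
      have hCn : (Subgroup.zpowers z).Normal := by
        constructor
        intro w hw g
        obtain ⟨j, rfl⟩ := Subgroup.mem_zpowers_iff.1 hw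
        have hcomm : Commute g (z ^ j) := (show Commute g z from hzc g).zpow_right j
        rw [hcomm.eq, mul_inv_cancel_right]
        exact Subgroup.mem_zpowers_iff.2 ⟨j, rfl⟩
      have hCcard : Nat.card (Subgroup.zpowers z) = p := by rw [Nat.card_zpowers, hzo]
      have hQcard : Nat.card (P ⧸ Subgroup.zpowers z) = p ^ k := by
        have h1 := Subgroup.card_eq_card_quotient_mul_card_subgroup (Subgroup.zpowers z)
        rw [hCcard, Nat.card_eq_fintype_card, hP, pow_succ] at h1
        exact (Nat.eq_of_mul_eq_mul_right hp.pos h1).symm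
      have hQf : Fintype (P ⧸ Subgroup.zpowers z) := Fintype.ofFinite _
      have hQcard' : Fintype.card (P ⧸ Subgroup.zpowers z) = p ^ k := by
        rw [← Nat.card_eq_fintype_card, hQcard]
      obtain ⟨g0, hg0, hg0'⟩ := ih (P ⧸ Subgroup.zpowers z) hQcard'
        (fun i => (c i : P ⧸ Subgroup.zpowers z))
      obtain ⟨g1, hg1, hg1'⟩ := lift_closed hF ⟨k + 1, hP⟩ ⟨k, hQcard'⟩
        (QuotientGroup.mk' (Subgroup.zpowers z)) (QuotientGroup.mk'_surjective _) H hH g0 hg0
      have h2 : ∀ i, ∃ a : ZMod p, c i = g1 (h i) * z ^ a.val := by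
        intro i
        have h3 : ((g1 (h i) : P) : P ⧸ Subgroup.zpowers z) = (c i : P ⧸ Subgroup.zpowers z) := by
          rw [← hg0' i]
          exact hg1' (h i)
        have h4 := QuotientGroup.eq.1 h3
        rw [mem_zpowers_iff_mem_range_orderOf, hzo] at h4
        obtain ⟨j, hj, hj'⟩ := Finset.mem_image.1 h4
        refine ⟨(j : ZMod p), ?_⟩
        rw [ZMod.val_natCast_of_lt (Finset.mem_range.1 hj)]
        have hj'' : z ^ j = (g1 (h i))⁻¹ * c i := hj'
        rw [hj'', mul_inv_cancel_left]
      choose a ha using h2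
      let ξ : H → ZMod p := fun y => ∑ i, a i * χ i y
      have hξ : IsChar p ξ := IsChar.sum' _ _ fun i _ => (hd.char i).smul' (a i)
      have hξh : ∀ j, ξ (h j) = a j := by
        intro j
        simp only [ξ, hd.dual]
        simp
      refine ⟨{ toFun := fun y => g1 y * z ^ (ξ y).val
                map_one' := by rw [hξ.one, map_one]; simp
                map_mul' := fun y y' => by
                  rw [hξ.add, zpow_char z hzp, map_mul]
                  have hcomm : Commute (g1 y') (z ^ (ξ y).val) :=
                    (show Commute (g1 y') z from hzc _).pow_right _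
                  rw [mul_assoc, mul_assoc]
                  congr 1
                  rw [← mul_assoc, ← mul_assoc, hcomm.eq] }, ?_, ?_⟩
      · exact hg1.comp₂ (hξ.lc.comp fun b => z ^ b.val) (fun a b => a * b)
      · intro i
        change g1 (h i) * z ^ (ξ (h i)).val = c i
        rw [hξh, ← ha i]
  intro P _ _ hP c
  obtain ⟨k, hk⟩ := hP
  exact key k P hk c

/-- a closed subgroup with a complete dual family is free on it -/
theorem free_of_complete {p : ℕ} [Fact p.Prime] {n : ℕ} {x : Fin n → F} (hF : IsFreeProP p x)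
    (H : Subgroup F) (hH : IsClosed (H : Set F)) {m : ℕ} (h : Fin m → H)
    (χ : Fin m → H → ZMod p) (hd : DualFam p h χ) (hc : Complete p h) : IsFreeProP p h := by
  have hcomp : CompactSpace H := isCompact_iff_compactSpace.1 hH.isCompact
  have hproP : IsProP p H := isProP_closed hF.isProP H hH
  refine ⟨hproP, ?_⟩
  intro P _ _ hP c
  obtain ⟨g, hg, hgc⟩ := hom_exists hF H hH h χ hd P hP c
  refine ⟨g, ⟨fun y => hg _, hgc⟩, ?_⟩
  rintro g' ⟨hg', hgc'⟩
  exact hom_eq_of_complete hproP hc g' g (IsLocallyConstant.iff_isOpen_fiber.2 hg') hg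
    (fun i => by rw [hgc, hgc'])

/-- an open subgroup of a free pro-p group of finite rank has finitely many characters -/
theorem finite_chars_open {p : ℕ} [Fact p.Prime] {n : ℕ} {x : Fin n → F} (hF : IsFreeProP p x)
    (U : Subgroup F) (hU : IsOpen (U : Set F)) : {χ : U → ZMod p | IsChar p χ}.Finite := by
  classical
  have hUc : IsClosed (U : Set F) := U.isClosed_of_isOpen hU
  have hP : ∃ k : ℕ, Fintype.card (Multiplicative (ZMod p)) = p ^ k := ⟨1, by simp [ZMod.card]⟩
  -- the equivariant extension
  have hext : ∀ χ : {χ : U → ZMod p | IsChar p χ}, ∃ A : F → Multiplicative (ZMod p),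
      IsLocallyConstant A ∧ A 1 = 1 ∧
      ∀ (h : U) (y : F), A (h * y) = Multiplicative.ofAdd (χ.1 h) * A y := by
    intro χ
    let f : U →* Multiplicative (ZMod p) :=
      { toFun := fun u => Multiplicative.ofAdd (χ.1 u)
        map_one' := by rw [(show IsChar p χ.1 from χ.2).one]; rfl
        map_mul' := fun a b => by rw [(show IsChar p χ.1 from χ.2).add]; rfl }
    exact exists_ext U hUc f ((show IsChar p χ.1 from χ.2).lc.comp Multiplicative.ofAdd)
  choose A hA1 hA2 hA3 using hext
  -- finiteness of the set of right cosets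
  have hfin : Finite (Quotient (QuotientGroup.rightRel U)) := by
    have := finite_quot U hU
    exact Finite.of_equiv _ (QuotientGroup.quotientRightRelEquivQuotientLeftRel U).symm
  let f : {χ : U → ZMod p | IsChar p χ} → (Fin n → Quotient (QuotientGroup.rightRel U) →
      Multiplicative (ZMod p)) := fun χ j q => (A χ q.out)⁻¹ * A χ (q.out * x j)
  have hf : Function.Injective f := by
    intro χ χ' hχ
    have h1 : A χ = A χ' := by
      apply integral_unique hF hP _ _ (hA1 χ) (hA1 χ') (by rw [hA2, hA2])
      intro j y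
      have h2 := congrFun (congrFun hχ j) (Quotient.mk (QuotientGroup.rightRel U) y)
      set y0 : F := (Quotient.mk (QuotientGroup.rightRel U) y).out with hy0
      have h3 : y * y0⁻¹ ∈ U := by
        have : (QuotientGroup.rightRel U) y0 y := Quotient.exact (Quotient.out_eq _)
        exact QuotientGroup.rightRel_apply.1 this
      obtain ⟨u, h4⟩ : ∃ u : U, y = (u : F) * y0 := ⟨⟨y * y0⁻¹, h3⟩, by simp⟩
      have h5 : ∀ χ : {χ : U → ZMod p | IsChar p χ}, (A χ y)⁻¹ * A χ (y * x j) =
          (A χ y0)⁻¹ * A χ (y0 * x j) := by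
        intro χ
        rw [h4, mul_assoc, hA3, hA3]
        group
      rw [h5, h5]
      exact h2
    apply Subtype.ext
    funext u
    have h2 := hA3 χ u 1
    have h3 := hA3 χ' u 1
    rw [hA2, mul_one, mul_one] at h2 h3
    rw [h1, h3] at h2
    exact (Multiplicative.ofAdd.injective h2).symm
  exact Set.finite_coe_iff.1 (Finite.of_injective f hf)

end Pool.H8
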