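import Pool.Agent.H8.Close

set_option autoImplicit false
set_option backward.isDefEq.respectTransparency.types true
set_option linter.unusedSectionVars false

/-! Unitriangular matrices over the p-adic integers. -/

noncomputable section

namespace Pool.H8

open Finset

variable {p : ℕ} [Fact p.Prime] {B : Type} [Fintype B] [DecidableEq B]

/-- unitriangular matrices with respect to a length function -/
def UT (p : ℕ) [Fact p.Prime] {B : Type} [Fintype B] [DecidableEq B] (len : B → ℕ) :
    Submonoid (Matrix B B ℤ_[p]) where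
  carrier := {M | ∀ l l', (M - 1) l l' ≠ 0 → len l' < len l}
  one_mem' := by
    intro l l' h
    exact absurd (by rw [sub_self]; rfl) h
  mul_mem' := by
    intro M M' hM hM' l l' h
    by_contra hcon
    apply h
    have h1 : M * M' - 1 = (M - 1) * (M' - 1) + (M - 1) + (M' - 1) := by noncomm_ring
    rw [h1, Matrix.add_apply, Matrix.add_apply]
    have h2 : (M - 1) l l' = 0 := by
      by_contra h; exact hcon (hM l l' h)
    have h3 : (M' - 1) l l' = 0 := by
      by_contra h; exact hcon (hM' l l' h)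
    rw [h2, h3, add_zero, add_zero, Matrix.mul_apply]
    apply Finset.sum_eq_zero
    intro m _
    by_contra h4
    have h5 := hM l m (left_ne_zero_of_mul h4)
    have h6 := hM' m l' (right_ne_zero_of_mul h4)
    exact hcon (h6.trans h5)

variable (len : B → ℕ)

theorem mem_UT {M : Matrix B B ℤ_[p]} :
    M ∈ UT p len ↔ ∀ l l', (M - 1) l l' ≠ 0 → len l' < len l := Iff.rfl

theorem UT_eq (M : UT p len) {l l' : B} (h : ¬ len l' < len l) : M.1 l l' = (1 : Matrix B B ℤ_[p]) l l' := by
  have h1 : (M.1 - 1) l l' = 0 := by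
    by_contra h2; exact h (M.2 l l' h2)
  rwa [Matrix.sub_apply, sub_eq_zero] at h1

/-- index set of the coordinates -/
abbrev EE : Type := {e : B × B // len e.2 < len e.1}

/-- the coordinates as a homeomorphism -/
def UTco : UT p len ≃ₜ (EE len → ℤ_[p]) where
  toFun M := fun e => M.1 e.1.1 e.1.2
  invFun v := ⟨Matrix.of fun l l' => if h : len l' < len l then v ⟨(l, l'), h⟩ else
      (1 : Matrix B B ℤ_[p]) l l', by
    rw [mem_UT]
    intro l l' h
    by_contra hcon
    apply h
    rw [Matrix.sub_apply, Matrix.of_apply, dif_neg hcon, sub_self]⟩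
  left_inv M := by
    apply Subtype.ext
    ext l l'
    change (if h : len l' < len l then M.1 l l' else (1 : Matrix B B ℤ_[p]) l l') = M.1 l l'
    split_ifs with h
    · rfl
    · exact (UT_eq len M h).symm
  right_inv v := by
    funext e
    change (if h : len e.1.2 < len e.1.1 then v ⟨(e.1.1, e.1.2), h⟩ else _) = v e
    rw [dif_pos e.2]
  continuous_toFun := by
    apply continuous_pi
    intro e
    have h1 : Continuous fun M : Matrix B B ℤ_[p] => M e.1.1 e.1.2 :=
      (continuous_apply e.1.2).comp (continuous_apply e.1.1)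
    exact h1.comp continuous_subtype_val
  continuous_invFun := by
    apply Continuous.subtype_mk
    apply continuous_matrix
    intro l l'
    simp only [Matrix.of_apply]
    split_ifs with h
    · exact continuous_apply _
    · exact continuous_const

instance : CompactSpace (UT p len) := (UTco (p := p) len).symm.compactSpace

theorem UTco_apply (M : UT p len) (e : EE len) : UTco len M e = M.1 e.1.1 e.1.2 := rfl

/-- the product term of the coordinates -/
def UTc (e : EE len) (m : B) : C((EE len ⊕ EE len) → ℤ_[p], ℤ_[p]) :=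
  if h : len e.1.2 < len m ∧ len m < len e.1.1 then
    xe p (Sum.inl ⟨(e.1.1, m), h.2⟩) * xe p (Sum.inr ⟨(m, e.1.2), h.1⟩) else 0

theorem UTc_apply (e : EE len) (m : B) (M M' : UT p len) :
    UTc len e m (Sum.elim (UTco len M) (UTco len M')) =
      (M.1 - 1) e.1.1 m * (M'.1 - 1) m e.1.2 := by
  unfold UTc
  split_ifs with h
  · rw [ContinuousMap.mul_apply, xe_apply, xe_apply, Sum.elim_inl, Sum.elim_inr, UTco_apply,
      UTco_apply, Matrix.sub_apply, Matrix.sub_apply, Matrix.one_apply_ne, Matrix.one_apply_ne,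
      sub_zero, sub_zero]
    · intro h'; rw [h'] at h; exact lt_irrefl _ h.1
    · intro h'; rw [← h'] at h; exact lt_irrefl _ h.2
  · rw [ContinuousMap.zero_apply]
    by_contra h1
    have h2 := M.2 _ _ (left_ne_zero_of_mul (Ne.symm h1))
    have h3 := M'.2 _ _ (right_ne_zero_of_mul (Ne.symm h1))
    exact h ⟨h3, h2⟩

theorem four_pow_add {a b : ℕ} (ha : 1 ≤ a) (hb : 1 ≤ b) : 4 ^ a + 4 ^ b + 1 ≤ 4 ^ (a + b) := by
  rw [pow_add]
  have h1 : 4 ≤ 4 ^ a := by
    calc 4 = 4 ^ 1 := by norm_num
      _ ≤ 4 ^ a := Nat.pow_le_pow_right (by norm_num) ha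
  have h2 : 4 ≤ 4 ^ b := by
    calc 4 = 4 ^ 1 := by norm_num
      _ ≤ 4 ^ b := Nat.pow_le_pow_right (by norm_num) hb
  nlinarith

/-- the coordinate structure -/
def UTK : Coord p (UT p len) (EE len) where
  co := UTco len
  ω e := 4 ^ (len e.1.1 - len e.1.2)
  ω_pos e := Nat.one_le_pow _ _ (by norm_num)
  c e := ∑ m, UTc len e m
  c_mem e := by
    refine Submodule.sum_mem _ fun m _ => ?_
    unfold UTc
    split_ifs with h
    · have h1 : (xe p (Sum.inl ⟨(e.1.1, m), h.2⟩) : C((EE len ⊕ EE len) → ℤ_[p], ℤ_[p])) ∈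
          PP p (Sum.elim (fun e : EE len => 4 ^ (len e.1.1 - len e.1.2))
            (fun e : EE len => 4 ^ (len e.1.1 - len e.1.2))) (4 ^ (len e.1.1 - len m) + 1) :=
        xe_mem (ω := Sum.elim (fun e : EE len => 4 ^ (len e.1.1 - len e.1.2))
            (fun e : EE len => 4 ^ (len e.1.1 - len e.1.2))) (Sum.inl ⟨(e.1.1, m), h.2⟩)
      have h2 : (xe p (Sum.inr ⟨(m, e.1.2), h.1⟩) : C((EE len ⊕ EE len) → ℤ_[p], ℤ_[p])) ∈
          PP p (Sum.elim (fun e : EE len => 4 ^ (len e.1.1 - len e.1.2))
            (fun e : EE len => 4 ^ (len e.1.1 - len e.1.2))) (4 ^ (len m - len e.1.2) + 1) :=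
        xe_mem (ω := Sum.elim (fun e : EE len => 4 ^ (len e.1.1 - len e.1.2))
            (fun e : EE len => 4 ^ (len e.1.1 - len e.1.2))) (Sum.inr ⟨(m, e.1.2), h.1⟩)
      refine PP_mono ?_ (PP_mul h1 h2)
      have h3 := four_pow_add (a := len e.1.1 - len m) (b := len m - len e.1.2) (by omega) (by omega)
      rw [show len e.1.1 - len m + (len m - len e.1.2) = len e.1.1 - len e.1.2 by omega] at h3
      omega
    · exact Submodule.zero_mem _
  co_mul M M' e := by
    rw [ContinuousMap.sum_apply]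
    simp only [UTc_apply]
    rw [← Matrix.mul_apply, UTco_apply, UTco_apply, UTco_apply]
    have h1 : (M * M').1 = M.1 + M'.1 + (M.1 - 1) * (M'.1 - 1) - 1 := by
      change M.1 * M'.1 = _
      noncomm_ring
    rw [h1, Matrix.sub_apply, Matrix.add_apply, Matrix.add_apply, Matrix.one_apply_ne, sub_zero]
    intro h
    have := e.2
    rw [h] at this
    exact lt_irrefl _ this

theorem UTK_ω (e : EE len) : (UTK (p := p) len).ω e = 4 ^ (len e.1.1 - len e.1.2) := rfl
theorem UTK_co (M : UT p len) (e : EE len) : (UTK len).co M e = M.1 e.1.1 e.1.2 := rfl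

/-- a matrix close to the identity and its inverse -/
structure Tw (σ σ' : Matrix B B ℤ_[p]) : Prop where
  r : σ * σ' = 1
  l : σ' * σ = 1
  up : ∀ l l', len l < len l' → σ l l' = 0
  up' : ∀ l l', len l < len l' → σ' l l' = 0
  diag : ∀ l l', len l = len l' → (p : ℤ_[p]) ^ 2 ∣ σ l l' - if l = l' then 1 else 0
  diag' : ∀ l l', len l = len l' → (p : ℤ_[p]) ^ 2 ∣ σ' l l' - if l = l' then 1 else 0

variable {len}

/-- conjugation -/
def Tw.conj {σ σ' : Matrix B B ℤ_[p]} (h : Tw len σ σ') : UT p len →* UT p len where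
  toFun M := ⟨σ * M.1 * σ', by
    rw [mem_UT]
    intro a b hab
    have h1 : σ * M.1 * σ' - 1 = σ * (M.1 - 1) * σ' := by
      rw [mul_sub, mul_one, sub_mul, h.r]
    rw [h1] at hab
    by_contra hcon
    apply hab
    rw [Matrix.mul_apply]
    apply Finset.sum_eq_zero
    intro d _
    rw [Matrix.mul_apply, Finset.sum_mul]
    apply Finset.sum_eq_zero
    intro c _
    by_contra hne
    have h2 : σ a c ≠ 0 := left_ne_zero_of_mul (left_ne_zero_of_mul hne)
    have h3 : (M.1 - 1) c d ≠ 0 := right_ne_zero_of_mul (left_ne_zero_of_mul hne)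
    have h4 : σ' d b ≠ 0 := right_ne_zero_of_mul hne
    have h5 : ¬ len a < len c := fun hh => h2 (h.up _ _ hh)
    have h6 : ¬ len d < len b := fun hh => h4 (h.up' _ _ hh)
    have h7 := M.2 _ _ h3
    omega⟩
  map_one' := by
    apply Subtype.ext
    change σ * 1 * σ' = 1
    rw [mul_one, h.r]
  map_mul' M M' := by
    apply Subtype.ext
    change σ * (M.1 * M'.1) * σ' = (σ * M.1 * σ') * (σ * M'.1 * σ')
    have : (σ * M.1 * σ') * (σ * M'.1 * σ') = σ * M.1 * (σ' * σ) * M'.1 * σ' := by
      simp only [mul_assoc]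
    rw [this, h.l, mul_one]
    simp only [mul_assoc]

theorem Tw.conj_val {σ σ' : Matrix B B ℤ_[p]} (h : Tw len σ σ') (M : UT p len) :
    (h.conj M).1 = σ * M.1 * σ' := rfl

theorem Tw.isClose {σ σ' : Matrix B B ℤ_[p]} (h : Tw len σ σ') :
    (UTK len).IsClose h.conj (fun e e' => σ e.1.1 e'.1.1 * σ' e'.1.2 e.1.2) where
  lin M e := by
    rw [UTK_co, h.conj_val]
    have h1 : σ * M.1 * σ' = σ * (M.1 - 1) * σ' + 1 := by
      rw [mul_sub, mul_one, sub_mul, h.r, sub_add_cancel]
    have hne : e.1.1 ≠ e.1.2 := by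
      intro h
      have := e.2
      rw [h] at this
      exact lt_irrefl _ this
    rw [h1, Matrix.add_apply, Matrix.one_apply_ne hne, add_zero, Matrix.mul_apply]
    have h2 : ∀ d, (σ * (M.1 - 1)) e.1.1 d * σ' d e.1.2 =
        ∑ c, σ e.1.1 c * (M.1 - 1) c d * σ' d e.1.2 := by
      intro d
      rw [Matrix.mul_apply, Finset.sum_mul]
    rw [Finset.sum_congr rfl fun d _ => h2 d, Finset.sum_comm, ← Fintype.sum_prod_type'
      (f := fun c d => σ e.1.1 c * (M.1 - 1) c d * σ' d e.1.2)]
    have h3 : ∑ q : B × B, σ e.1.1 q.1 * (M.1 - 1) q.1 q.2 * σ' q.2 e.1.2 =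
        ∑ q : B × B with len q.2 < len q.1, σ e.1.1 q.1 * (M.1 - 1) q.1 q.2 * σ' q.2 e.1.2 := by
      rw [Finset.sum_filter]
      refine Finset.sum_congr rfl fun q _ => ?_
      split_ifs with hq
      · rfl
      · have : (M.1 - 1) q.1 q.2 = 0 := by
          by_contra hh
          exact hq (M.2 _ _ hh)
        rw [this, mul_zero, zero_mul]
    rw [h3]
    rw [Finset.sum_subtype (p := fun q : B × B => len q.2 < len q.1)
      (Finset.univ.filter fun q : B × B => len q.2 < len q.1) (by simp)]
    refine Finset.sum_congr rfl fun e' _ => ?_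
    have hne' : e'.1.1 ≠ e'.1.2 := by
      intro h
      have := e'.2
      rw [h] at this
      exact lt_irrefl _ this
    rw [UTK_co, Matrix.sub_apply, Matrix.one_apply_ne hne', sub_zero]
    ring
  up e e' hω := by
    rw [UTK_ω, UTK_ω] at hω
    have h1 := (Nat.pow_lt_pow_iff_right (by norm_num : 1 < 4)).1 hω
    by_contra hne
    have h2 : ¬ len e.1.1 < len e'.1.1 := fun hh => hne (by rw [h.up _ _ hh, zero_mul])
    have h3 : ¬ len e'.1.2 < len e.1.2 := fun hh => hne (by rw [h.up' _ _ hh, mul_zero])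
    omega
  diag e e' hω := by
    rw [UTK_ω, UTK_ω] at hω
    have h1 := Nat.pow_right_injective (by norm_num : 2 ≤ 4) hω
    have h2 := e.2
    have h3 := e'.2
    by_cases h4 : len e.1.1 = len e'.1.1
    · have h5 : len e'.1.2 = len e.1.2 := by omega
      obtain ⟨u, hu⟩ := h.diag _ _ h4
      obtain ⟨v, hv⟩ := h.diag' _ _ h5
      have h6 : σ e.1.1 e'.1.1 = (if e.1.1 = e'.1.1 then 1 else 0) + (p : ℤ_[p]) ^ 2 * u := by
        rw [← hu]; ring
      have h7 : σ' e'.1.2 e.1.2 = (if e'.1.2 = e.1.2 then 1 else 0) + (p : ℤ_[p]) ^ 2 * v := by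
        rw [← hv]; ring
      have h8 : (e = e') ↔ (e.1.1 = e'.1.1 ∧ e'.1.2 = e.1.2) := by
        rw [Subtype.ext_iff, Prod.ext_iff, @eq_comm _ e.1.2]
      rw [h6, h7, if_congr h8 rfl rfl]
      refine ⟨(if e.1.1 = e'.1.1 then 1 else 0) * v + u * (if e'.1.2 = e.1.2 then 1 else 0) +
        (p : ℤ_[p]) ^ 2 * u * v, ?_⟩
      by_cases h9 : e.1.1 = e'.1.1 <;> by_cases h10 : e'.1.2 = e.1.2
      · simp only [h9, h10, and_self, if_true]; ring
      · simp only [h9, h10, and_false, if_true, if_false]; ring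
      · simp only [h9, h10, false_and, if_true, if_false]; ring
      · simp only [h9, h10, false_and, if_false]; ring
    · have h5 : ¬ e = e' := fun hh => h4 (by rw [hh])
      rw [if_neg h5, sub_zero]
      rcases lt_or_gt_of_ne h4 with h6 | h6
      · rw [h.up _ _ h6, zero_mul]; exact dvd_zero _
      · have h7 : len e'.1.2 < len e.1.2 := by omega
        rw [h.up' _ _ h7, mul_zero]; exact dvd_zero _
  two e := by
    rw [UTK_ω]
    have h2 := e.2
    calc 2 ≤ 4 ^ 1 := by norm_num
      _ ≤ 4 ^ (len e.1.1 - len e.1.2) := Nat.pow_le_pow_right (by norm_num) (by omega)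
  gap e e' hω := by
    rw [UTK_ω, UTK_ω] at *
    have h1 := (Nat.pow_lt_pow_iff_right (by norm_num : 1 < 4)).1 hω
    have h2 : 4 ^ (len e'.1.1 - len e'.1.2) * 4 ≤ 4 ^ (len e.1.1 - len e.1.2) := by
      rw [← pow_succ]
      exact Nat.pow_le_pow_right (by norm_num) h1
    have h3 : 1 ≤ 4 ^ (len e'.1.1 - len e'.1.2) := Nat.one_le_pow _ _ (by norm_num)
    omega

/-- reduction modulo p of a unitriangular matrix is invertible -/
theorem isUnit_red (M : UT p len) :
    IsUnit (M.1.map (PadicInt.toZMod (p := p)) : Matrix B B (ZMod p)) := by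
  set N : Matrix B B (ZMod p) := (M.1 - 1).map (PadicInt.toZMod (p := p)) with hN
  have h1 : ∀ k : ℕ, ∀ l l', (N ^ k) l l' ≠ 0 → len l' + k ≤ len l := by
    intro k
    induction k with
    | zero =>
      intro l l' h
      rw [pow_zero] at h
      by_cases hl : l = l'
      · rw [hl, add_zero]
      · exact absurd (Matrix.one_apply_ne hl) h
    | succ k ih =>
      intro l l' h
      rw [pow_succ, Matrix.mul_apply] at h
      obtain ⟨m, -, hm⟩ := Finset.exists_ne_zero_of_sum_ne_zero h
      have h2 := ih l m (left_ne_zero_of_mul hm)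
      have h3 : N m l' ≠ 0 := right_ne_zero_of_mul hm
      have h4 : (M.1 - 1) m l' ≠ 0 := by
        intro h5
        apply h3
        rw [hN, Matrix.map_apply, h5, map_zero]
      have h5 := M.2 _ _ h4
      omega
  have h2 : N ^ (∑ b, len b + 1) = 0 := by
    ext l l'
    rw [Matrix.zero_apply]
    by_contra h
    have h3 := h1 _ l l' h
    have h4 : len l ≤ ∑ b, len b := Finset.single_le_sum (fun _ _ => Nat.zero_le _) (Finset.mem_univ l)
    omega
  have h3 : (M.1.map (PadicInt.toZMod (p := p)) : Matrix B B (ZMod p)) = N + 1 := by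
    ext l l'
    rw [hN, Matrix.add_apply, Matrix.map_apply, Matrix.map_apply, Matrix.sub_apply, map_sub]
    by_cases hl : l = l'
    · subst hl
      rw [Matrix.one_apply_eq, Matrix.one_apply_eq, map_one]; ring
    · rw [Matrix.one_apply_ne hl, Matrix.one_apply_ne hl, map_zero]; ring
  rw [h3]
  exact IsNilpotent.isUnit_add_one ⟨_, h2⟩

/-- the finite group -/
abbrev GG (p : ℕ) (B : Type) [Fintype B] [DecidableEq B] : Type := (Matrix B B (ZMod p))ˣ

variable (len)

/-- reduction modulo p -/
def UTpi : UT p len →* GG p B :=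
  IsUnit.liftRight (((PadicInt.toZMod (p := p)).mapMatrix : Matrix B B ℤ_[p] →+* Matrix B B (ZMod p)
    ).toMonoidHom.comp (UT p len).subtype) isUnit_red

theorem UTpi_val (M : UT p len) : (UTpi len M : Matrix B B (ZMod p)) =
    M.1.map (PadicInt.toZMod (p := p)) := rfl

end Pool.H8
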