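import Pool.Agent.H8.Graded

set_option autoImplicit false
set_option backward.isDefEq.respectTransparency.types true
set_option linter.unusedSectionVars false

/-! Valuations on an Ore domain, and automorphisms close to the identity. -/

namespace Pool.H8

open scoped nonZeroDivisors

section Fixed

variable {D : Type*} [DivisionRing D] {Γ : Type*} [LinearOrderedCommGroupWithZero Γ]

theorem w_sum_le (w : D → Γ) (hwadd : ∀ x y, w (x + y) ≤ max (w x) (w y)) (hw0 : w 0 = 0)
    {ι : Type*} (s : Finset ι) (f : ι → D) (c : Γ) (h : ∀ i ∈ s, w (f i) ≤ c) :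
    w (∑ i ∈ s, f i) ≤ c := by
  classical
  induction s using Finset.induction_on with
  | empty => simp [hw0]
  | insert a s ha ih =>
    rw [Finset.sum_insert ha]
    refine (hwadd _ _).trans (max_le (h a (Finset.mem_insert_self _ _)) (ih fun i hi => ?_))
    exact h i (Finset.mem_insert_of_mem hi)

theorem fixed_of_prime (w : D → Γ) (hwmul : ∀ x y, w (x * y) = w x * w y)
    (hwadd : ∀ x y, w (x + y) ≤ max (w x) (w y)) (hw0 : ∀ x, w x = 0 ↔ x = 0)
    (hwneg : ∀ x, w (-x) = w x)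
    (ε : Γ) (hε : ε < 1) (Ψ : AddMonoid.End D) (hΨ : ∀ x, w (Ψ x - x) ≤ ε * w x)
    (l : ℕ) (hl : ε < w (l : D)) (x : D) (h : (Ψ ^ l) x = x) : Ψ x = x := by
  by_contra hne
  set δ := Ψ x - x with hδ
  have hδ0 : δ ≠ 0 := sub_ne_zero.2 hne
  have hwδ : w δ ≠ 0 := fun h => hδ0 ((hw0 _).1 h)
  have h1 : ∀ i : ℕ, w ((Ψ ^ i) δ - δ) ≤ ε * w δ := by
    intro i
    induction i with
    | zero =>
      rw [pow_zero]
      change w (δ - δ) ≤ _
      rw [sub_self, (hw0 0).2 rfl]
      exact zero_le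
    | succ i ih =>
      have e1 : (Ψ ^ (i+1)) δ - δ = (Ψ ((Ψ ^ i) δ) - (Ψ ^ i) δ) + ((Ψ ^ i) δ - δ) := by
        rw [pow_succ']
        change Ψ ((Ψ ^ i) δ) - δ = _
        abel
      have e2 : w ((Ψ ^ i) δ) ≤ w δ := by
        have : (Ψ ^ i) δ = ((Ψ ^ i) δ - δ) + δ := by abel
        rw [this]
        refine (hwadd _ _).trans (max_le (ih.trans ?_) le_rfl)
        calc ε * w δ ≤ 1 * w δ := mul_le_mul_left hε.le _
          _ = w δ := one_mul _
      rw [e1]
      refine (hwadd _ _).trans (max_le ((hΨ _).trans ?_) ih)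
      exact mul_le_mul_right e2 _
  have h2 : ∑ i ∈ Finset.range l, (Ψ ^ i) δ = 0 := by
    have : ∀ i : ℕ, (Ψ ^ i) δ = (Ψ ^ (i+1)) x - (Ψ ^ i) x := by
      intro i
      rw [hδ, map_sub, pow_succ]
      rfl
    rw [Finset.sum_congr rfl fun i _ => this i, Finset.sum_range_sub (fun i => (Ψ ^ i) x), h,
      pow_zero]
    exact sub_self x
  have h3 : (l : D) * δ = -(∑ i ∈ Finset.range l, ((Ψ ^ i) δ - δ)) := by
    rw [Finset.sum_sub_distrib, h2]
    simp
  have h4 : w (l : D) * w δ ≤ ε * w δ := by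
    rw [← hwmul, h3, hwneg]
    exact w_sum_le w hwadd ((hw0 0).2 rfl) _ _ _ fun i _ => h1 i
  have h5 : w (l : D) ≤ ε := by
    have := mul_le_mul_left h4 (w δ)⁻¹
    rwa [mul_assoc, mul_assoc, mul_inv_cancel₀ hwδ, mul_one, mul_one] at this
  exact absurd hl (not_lt.2 h5)

theorem close_pow (w : D → Γ)
    (hwadd : ∀ x y, w (x + y) ≤ max (w x) (w y)) (hw0 : ∀ x, w x = 0 ↔ x = 0)
    (ε : Γ) (hε : ε < 1) (Ψ : AddMonoid.End D) (hΨ : ∀ x, w (Ψ x - x) ≤ ε * w x)
    (k : ℕ) (x : D) : w ((Ψ ^ k) x - x) ≤ ε * w x := by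
  induction k with
  | zero =>
    rw [pow_zero]
    change w (x - x) ≤ _
    rw [sub_self, (hw0 0).2 rfl]
    exact zero_le
  | succ i ih =>
    have e1 : (Ψ ^ (i+1)) x - x = (Ψ ((Ψ ^ i) x) - (Ψ ^ i) x) + ((Ψ ^ i) x - x) := by
      rw [pow_succ']
      change Ψ ((Ψ ^ i) x) - x = _
      abel
    have e2 : w ((Ψ ^ i) x) ≤ w x := by
      have : (Ψ ^ i) x = ((Ψ ^ i) x - x) + x := by abel
      rw [this]
      refine (hwadd _ _).trans (max_le (ih.trans ?_) le_rfl)
      calc ε * w x ≤ 1 * w x := mul_le_mul_left hε.le _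
        _ = w x := one_mul _
    rw [e1]
    refine (hwadd _ _).trans (max_le ((hΨ _).trans ?_) ih)
    exact mul_le_mul_right e2 _

theorem fixed_of_pow (w : D → Γ) (hwmul : ∀ x y, w (x * y) = w x * w y)
    (hwadd : ∀ x y, w (x + y) ≤ max (w x) (w y)) (hw0 : ∀ x, w x = 0 ↔ x = 0)
    (hwneg : ∀ x, w (-x) = w x)
    (ε : Γ) (hε : ε < 1) (Ψ : AddMonoid.End D) (hΨ : ∀ x, w (Ψ x - x) ≤ ε * w x)
    (hl : ∀ l : ℕ, l.Prime → ε < w (l : D)) (x : D) (m : ℕ) (hm : 0 < m)
    (h : (Ψ ^ m) x = x) : Ψ x = x := by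
  induction m using Nat.strong_induction_on with
  | _ m ih =>
    rcases Nat.lt_or_ge 1 m with h1 | h1
    · have hp : m.minFac.Prime := Nat.minFac_prime (by omega)
      obtain ⟨k, hk⟩ := Nat.minFac_dvd m
      have hk0 : 0 < k := by
        rcases Nat.eq_zero_or_pos k with h0 | h0
        · rw [h0, mul_zero] at hk; omega
        · exact h0
      have hkm : k < m := by
        have := hp.two_le
        calc k < 2 * k := by omega
          _ ≤ m.minFac * k := Nat.mul_le_mul_right _ this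
          _ = m := hk.symm
      apply ih k hkm hk0
      apply fixed_of_prime w hwmul hwadd hw0 hwneg ε hε (Ψ ^ k)
        (close_pow w hwadd hw0 ε hε Ψ hΨ k) m.minFac (hl _ hp)
      rw [← pow_mul, mul_comm, ← hk]
      exact h
    · have : m = 1 := by omega
      subst this
      rwa [pow_one] at h

end Fixed

section ExtVal

variable {R : Type*} [Ring R] [IsDomain R] [OreLocalization.OreSet R⁰]
  {Γ : Type*} [LinearOrderedCommGroupWithZero Γ]

theorem exists_val (v : R →* Γ) (hadd : ∀ x y, v (x + y) ≤ max (v x) (v y))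
    (hv0 : ∀ r, v r = 0 ↔ r = 0) :
    ∃ w : Fr R → Γ, (∀ r, w (io r) = v r) ∧ (∀ x y, w (x * y) = w x * w y) ∧
      (∀ x y, w (x + y) ≤ max (w x) (w y)) ∧ (∀ x, w x = 0 ↔ x = 0) := by
  classical
  have hf' : ∀ s : R⁰, IsUnit ((v.comp R⁰.subtype) s) := fun s =>
    IsUnit.mk0 _ (fun h => nonZeroDivisors.coe_ne_zero s ((hv0 _).1 h))
  let fS : R⁰ →* Γˣ := IsUnit.liftRight (v.comp R⁰.subtype) hf'
  have hfS : ∀ s : R⁰, v s = fS s := fun s => (IsUnit.coe_liftRight _ hf' s).symm
  let w : Fr R →* Γ := OreLocalization.universalMulHom v fS hfS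
  have hw : ∀ r, w (io r) = v r := fun r => OreLocalization.universalMulHom_commutes v fS hfS
  have hne : ∀ s : R, s ≠ 0 → v s ≠ 0 := fun s hs h => hs ((hv0 _).1 h)
  refine ⟨w, hw, map_mul w, ?_, ?_⟩
  · intro x y
    obtain ⟨s, hs, r, hr⟩ := exists_common_fintype (fun b : Bool => if b then x else y)
    have h1 : io s * x = io (r true) := hr true
    have h2 : io s * y = io (r false) := hr false
    have h3 : v s * w (x + y) ≤ v s * max (w x) (w y) := by
      rw [← hw, ← map_mul, mul_add, h1, h2, ← map_add, hw]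
      refine (hadd _ _).trans ?_
      rw [← hw, ← hw, ← h1, ← h2, map_mul, map_mul]
      apply max_le
      · exact mul_le_mul_right (le_max_left _ _) _
      · exact mul_le_mul_right (le_max_right _ _) _
    have := mul_le_mul_right h3 (v s)⁻¹
    rwa [← mul_assoc, ← mul_assoc, inv_mul_cancel₀ (hne s hs), one_mul, one_mul] at this
  · intro x
    obtain ⟨s, hs, r, hr⟩ := exists_frac x
    have h1 : v s * w x = v r := by rw [← hw, ← map_mul, hr, hw]
    constructor
    · intro h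
      rw [h, mul_zero] at h1
      have h2 : r = 0 := (hv0 _).1 h1.symm
      rw [h2, map_zero] at hr
      exact (mul_eq_zero.1 hr).resolve_left (io_ne_zero hs)
    · rintro rfl
      rw [mul_zero] at hr
      have h2 : r = 0 := io_eq_zero hr.symm
      rw [h2, (hv0 0).2 rfl] at h1
      exact (mul_eq_zero.1 h1).resolve_left (hne s hs)

end ExtVal

end Pool.H8
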