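import Mathlib

set_option autoImplicit false
set_option backward.isDefEq.respectTransparency.types true
set_option linter.unusedSectionVars false

/-! Free pro-p groups: locally constant functions and integration. -/

namespace Pool.H8

/-- a regular wreath product -/
@[ext] structure Wr (P G : Type) where
  /-- the function -/
  a : G → P
  /-- the group element -/
  g : G

namespace Wr

variable {P G : Type} [Group P] [Group G]

instance : Mul (Wr P G) := ⟨fun x y => ⟨fun z => x.a z * y.a (z * x.g), x.g * y.g⟩⟩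
instance : One (Wr P G) := ⟨⟨1, 1⟩⟩
instance : Inv (Wr P G) := ⟨fun x => ⟨fun z => (x.a (z * x.g⁻¹))⁻¹, x.g⁻¹⟩⟩

theorem mul_a (x y : Wr P G) (z : G) : (x * y).a z = x.a z * y.a (z * x.g) := rfl
theorem mul_g (x y : Wr P G) : (x * y).g = x.g * y.g := rfl
theorem one_a (z : G) : (1 : Wr P G).a z = 1 := rfl
theorem one_g : (1 : Wr P G).g = 1 := rfl

instance : Group (Wr P G) :=
  Group.ofLeftAxioms
    (by
      intro x y z
      ext t
      · simp only [mul_a, mul_g, mul_assoc]
      · simp only [mul_g, mul_assoc])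
    (by
      intro x
      ext t
      · rw [mul_a, one_a, one_g, mul_one, one_mul]
      · rw [mul_g, one_g, one_mul])
    (by
      intro x
      ext t
      · change (x.a (t * x.g⁻¹))⁻¹ * x.a (t * x.g⁻¹) = 1
        rw [inv_mul_cancel]
      · change x.g⁻¹ * x.g = 1
        rw [inv_mul_cancel])

/-- as a product -/
def eqv : Wr P G ≃ (G → P) × G where
  toFun x := (x.a, x.g)
  invFun x := ⟨x.1, x.2⟩
  left_inv _ := rfl
  right_inv _ := rfl

instance [Fintype P] [Fintype G] [DecidableEq G] : Fintype (Wr P G) :=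
  Fintype.ofEquiv _ (eqv (P := P) (G := G)).symm

theorem card_eq [Fintype P] [Fintype G] [DecidableEq G] :
    Fintype.card (Wr P G) = Fintype.card P ^ Fintype.card G * Fintype.card G := by
  rw [Fintype.ofEquiv_card, Fintype.card_prod, Fintype.card_fun]

/-- the projection -/
def proj : Wr P G →* G where
  toFun x := x.g
  map_one' := rfl
  map_mul' _ _ := rfl

theorem proj_apply (x : Wr P G) : proj x = x.g := rfl

end Wr

section LC

variable {F : Type} [Group F] [TopologicalSpace F] [IsTopologicalGroup F] [CompactSpace F]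
  [TotallyDisconnectedSpace F]

theorem exists_openNormal {U : Set F} (hU : IsOpen U) (h1 : (1 : F) ∈ U) :
    ∃ V : Subgroup F, V.Normal ∧ IsOpen (V : Set F) ∧ (V : Set F) ⊆ U := by
  obtain ⟨V, hV⟩ := ProfiniteGrp.exist_openNormalSubgroup_sub_open_nhds_of_one hU h1
  exact ⟨V.toSubgroup, V.isNormal', V.isOpen', hV⟩

theorem lc_factor {X : Type*} (f : F → X) (hf : IsLocallyConstant f) :
    ∃ V : Subgroup F, V.Normal ∧ IsOpen (V : Set F) ∧ ∀ y v, v ∈ V → f (y * v) = f y := by
  classical
  have h1 : ∀ y : F, ∃ V : Subgroup F, V.Normal ∧ IsOpen (V : Set F) ∧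
      ∀ v ∈ V, f (y * v) = f y := by
    intro y
    have hopen : IsOpen {w : F | f (y * w) = f y} := by
      have := hf.isOpen_fiber (f y)
      exact this.preimage (continuous_const_mul y)
    obtain ⟨V, h1, h2, h3⟩ := exists_openNormal hopen (by simp)
    exact ⟨V, h1, h2, fun v hv => h3 hv⟩
  choose V hVn hVo hV using h1
  obtain ⟨t, -, ht⟩ := isCompact_univ.elim_nhds_subcover (fun y : F => (fun z => y⁻¹ * z) ⁻¹' (V y : Set F))
    (fun y _ => by
      apply ((hVo y).preimage (continuous_const_mul y⁻¹)).mem_nhds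
      simp [(V y).one_mem])
  refine ⟨⨅ y ∈ t, V y, ?_, ?_, ?_⟩
  · have : ∀ (t : Finset F), (⨅ y ∈ t, V y).Normal := by
      intro t
      apply Subgroup.normal_iInf_normal
      intro y
      apply Subgroup.normal_iInf_normal
      intro _
      exact hVn y
    exact this t
  · have : ((⨅ y ∈ t, V y : Subgroup F) : Set F) = ⋂ y ∈ t, (V y : Set F) := by
      simp
    rw [this]
    exact isOpen_biInter_finset fun y _ => hVo y
  · intro z v hv
    have hz := ht (Set.mem_univ z)
    simp only [Set.mem_iUnion] at hz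
    obtain ⟨y, hy, hyz⟩ := hz
    have hv' : v ∈ V y := by
      simp only [Subgroup.mem_iInf] at hv
      exact hv y hy
    have h2 : f z = f y := by
      have := hV y _ hyz
      simpa using this
    have h3 : f (z * v) = f y := by
      have := hV y _ ((V y).mul_mem hyz hv')
      simpa [mul_assoc] using this
    rw [h2, h3]

theorem lc_factor_finite {X κ : Type*} [Finite κ] (f : κ → F → X)
    (hf : ∀ i, IsLocallyConstant (f i)) :
    ∃ V : Subgroup F, V.Normal ∧ IsOpen (V : Set F) ∧ ∀ i y v, v ∈ V → f i (y * v) = f i y := by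
  have h : IsLocallyConstant (fun y => fun i => f i y) := by
    rw [IsLocallyConstant.iff_exists_open]
    intro y
    have h1 : ∀ i, ∃ U : Set F, IsOpen U ∧ y ∈ U ∧ ∀ z ∈ U, f i z = f i y := fun i =>
      (IsLocallyConstant.iff_exists_open _).1 (hf i) y
    choose U hUo hyU hU using h1
    refine ⟨⋂ i, U i, isOpen_iInter_of_finite hUo, Set.mem_iInter.2 hyU, fun z hz => ?_⟩
    funext i
    exact hU i z (Set.mem_iInter.1 hz i)
  obtain ⟨V, h1, h2, h3⟩ := lc_factor _ h
  exact ⟨V, h1, h2, fun i y v hv => congrFun (h3 y v hv) i⟩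

theorem lc_of_inv {X : Type*} (f : F → X) (V : Subgroup F) (hV : IsOpen (V : Set F))
    (h : ∀ y v, v ∈ V → f (y * v) = f y) : IsLocallyConstant f := by
  rw [IsLocallyConstant.iff_exists_open]
  intro y
  refine ⟨(fun z => y⁻¹ * z) ⁻¹' (V : Set F), hV.preimage (continuous_const_mul _), ?_, ?_⟩
  · simp [V.one_mem]
  · intro z hz
    have := h y _ hz
    simpa using this

end LC

end Pool.H8
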